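import Pool.Agent.MP42.BW.TML

/-!
# One more step of the history (helper50, T1)
-/

set_option autoImplicit false

namespace Pool.BW

open Tk (T)

/-- append a value at the time `n + 1` -/
def app {α : Type*} (n : ℕ) (f : ℕ → α) (a : α) : ℕ → α := fun i => if i ≤ n then f i else a

lemma app_le {α : Type*} {n i : ℕ} (f : ℕ → α) (a : α) (h : i ≤ n) : app n f a i = f i := by
  unfold app; rw [if_pos h]

lemma app_succ {α : Type*} (n : ℕ) (f : ℕ → α) (a : α) : app n f a (n + 1) = a := by
  unfold app; rw [if_neg (by omega)]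

theorem tm_append {B : ℤ} {N n : ℕ} {O : ℕ → St} {A : ℕ → Bool} {γ : Bool → ℕ → ℤ → ℤ → Prop}
    {W : ℕ → ℤ → ℤ → Prop}
    {X : Finset ℚ} {col : ℚ → Bool} {ι : ℕ → ℤ → ℤ → ℚ} {D : ℚ → ℚ} {M : Bool → ℕ → ℚ → ℚ}
    {K : Bool → Finset ℕ} {G : Bool → ℕ → ℚ → Prop} (hn : n < N) (hF : Fam N O A γ W)
    (H : TM B n O A γ X col ι D M K G)
    {ι' : ℤ → ℤ → ℚ} {D' : ℚ → ℚ} {M' : Bool → ℚ → ℚ} (S' : SG B (O (n + 1)) X col ι' D' M')
    (s : Bool → Bool) (hs0 : ∀ e, s e = false → ∀ z ∈ X, M' e z = M e n z)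
    (hs1 : ∀ e, s e = true → Sad X col (M e n) (M' e) (A n))
    (pers' : ∀ l x, al (O n) l x → al (O (n + 1)) l x → ι' l x = ι n l x)
    (link' : ∀ l x, (x - l) % 2 = 0 → O n l x ≠ O (n + 1) l x → ∃ t1 t2,
      ((al (O n) l x ∧ t1 = ι n l x) ∨ (¬ al (O n) l x ∧ t1 = ι' l x)) ∧
      ((al (O n) l (x + 2) ∧ t2 = ι n l (x + 2)) ∨ (¬ al (O n) l (x + 2) ∧ t2 = ι' l (x + 2))) ∧
      t1 ∈ X ∧ t2 ∈ X ∧ (t1 = t2 ∨ (∃ e, M e n t1 = t2) ∨ (∃ e, M' e t1 = t2)))
    (KW1 : ∀ l y l' y', al (O n) l y → al (O (n + 1)) l' y' → ι n l y = ι' l' y' →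
      (W n l y ↔ W n l' y'))
    (KW2 : ∀ l' y', al (O (n + 1)) l' y' → ¬ Al (O n) (ι n) (ι' l' y') →
      ∀ e, (G e n (ι' l' y') ↔ W n l' y'))
    (KW3 : ∀ l y, al (O n) l y → ¬ Al (O (n + 1)) ι' (ι n l y) → ∃ l2 y2, al (O n) l2 y2 ∧
      D' (ι n l y) = ι n l2 y2 ∧ (W n l y ↔ W n l2 y2))
    (KD : ∀ z ∈ X, ¬ Al (O (n + 1)) ι' z → ¬ Al (O n) (ι n) z → D' z = D z) :
    ∃ (K2 : Bool → Finset ℕ) (G2 : Bool → ℕ → ℚ → Prop),
      TM B (n + 1) O A γ X col (app n ι ι') D' (fun e => app n (M e) (M' e)) K2 G2 ∧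
      ∀ e, (K2 e).card = (K e).card + (if s e then 1 else 0) := by
  classical
  -- the new values
  set G' : Bool → ℚ → Prop := fun e z =>
    (∃ l y, al (O (n + 1)) l y ∧ ι' l y = z ∧ γ e (n + 1) l y) ∨
    (¬ Al (O (n + 1)) ι' z ∧ ∃ l y, al (O n) l y ∧ ι n l y = z ∧ W n l y) ∨
    (¬ Al (O (n + 1)) ι' z ∧ ¬ Al (O n) (ι n) z ∧ G e n z) with hG'
  have S := H.cur
  -- the three kinds of tokens
  have v1 : ∀ e l y, al (O (n + 1)) l y → (G' e (ι' l y) ↔ γ e (n + 1) l y) := by
    intro e l y hy
    have hA : Al (O (n + 1)) ι' (ι' l y) := ⟨l, y, hy, rfl⟩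
    constructor
    · rintro (⟨l', y', h1, h2, h3⟩ | ⟨h1, -⟩ | ⟨h1, -⟩)
      · obtain ⟨rfl, rfl⟩ := S'.tk.inj h1 hy h2
        exact h3
      · exact absurd hA h1
      · exact absurd hA h1
    · intro h; exact Or.inl ⟨l, y, hy, rfl, h⟩
  have v2 : ∀ e l y, al (O n) l y → ¬ Al (O (n + 1)) ι' (ι n l y) →
      (G' e (ι n l y) ↔ W n l y) := by
    intro e l y hy hA
    constructor
    · rintro (⟨l', y', h1, h2, h3⟩ | ⟨-, l', y', h1, h2, h3⟩ | ⟨-, h1, -⟩)
      · exact absurd ⟨l', y', h1, h2⟩ hA
      · obtain ⟨rfl, rfl⟩ := S.tk.inj h1 hy h2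
        exact h3
      · exact absurd ⟨l, y, hy, rfl⟩ h1
    · intro h; exact Or.inr (Or.inl ⟨hA, l, y, hy, rfl, h⟩)
  have v3 : ∀ e z, ¬ Al (O (n + 1)) ι' z → ¬ Al (O n) (ι n) z → (G' e z ↔ G e n z) := by
    intro e z h1 h2
    constructor
    · rintro (⟨l', y', g1, g2, g3⟩ | ⟨-, l', y', g1, g2, g3⟩ | ⟨-, -, g3⟩)
      · exact absurd ⟨l', y', g1, g2⟩ h1
      · exact absurd ⟨l', y', g1, g2⟩ h2
      · exact g3
    · intro h; exact Or.inr (Or.inr ⟨h1, h2, h⟩)
  refine ⟨fun e => if s e then insert n (K e) else K e, fun e => app n (G e) (G' e), ?_, ?_⟩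
  swap
  · intro e
    have hnm : n ∉ K e := fun hh => lt_irrefl _ ((H.path e).sub n hh)
    show (if s e then insert n (K e) else K e).card = _
    cases hse : s e with
    | false => rw [if_neg (by simp), if_neg (by simp)]; rfl
    | true => rw [if_pos rfl, if_pos rfl, Finset.card_insert_of_notMem hnm]
  refine ⟨?_, ?_, ?_, ?_, ?_, ?_, ?_, ?_, ?_, ?_, ?_, ?_, ?_⟩
  · -- path
    intro e
    have P := H.path e
    have hnm : n ∉ K e := fun hh => lt_irrefl _ (P.sub n hh)
    refine ⟨?_, ?_, ?_, ?_, ?_, ?_, ?_⟩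
    · intro i hi z hz
      show app n (M e) (M' e) i z ∈ X
      rcases Nat.lt_or_eq_of_le hi with hi | rfl
      · rw [app_le _ _ (by omega)]; exact P.mem i (by omega) z hz
      · rw [app_succ]; exact S'.m_mem e hz
    · intro i hi z hz
      show app n (M e) (M' e) i (app n (M e) (M' e) i z) = z
      rcases Nat.lt_or_eq_of_le hi with hi | rfl
      · rw [app_le _ _ (by omega)]; exact P.inv i (by omega) z hz
      · rw [app_succ]; exact S'.m_inv e hz
    · intro i hi z hz
      show col (app n (M e) (M' e) i z) ≠ col z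
      rcases Nat.lt_or_eq_of_le hi with hi | rfl
      · rw [app_le _ _ (by omega)]; exact P.colr i (by omega) z hz
      · rw [app_succ, S'.m_col e hz]; cases col z <;> simp
    · intro i hi z hz w hw
      show ¬ (z < w ∧ w < app n (M e) (M' e) i z ∧ app n (M e) (M' e) i z < app n (M e) (M' e) i w)
      rcases Nat.lt_or_eq_of_le hi with hi | rfl
      · rw [app_le _ _ (by omega)]; exact P.nc i (by omega) z hz w hw
      · rw [app_succ]; exact S'.m_nc e hz hw
    · intro i hi
      by_cases hse : s e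
      · simp only [hse, if_true, Finset.mem_insert] at hi
        rcases hi with rfl | hi
        · omega
        · have := P.sub i hi; omega
      · simp only [hse, if_false] at hi
        have := P.sub i hi; omega
    · intro i hi hK z hz
      show app n (M e) (M' e) (i + 1) z = app n (M e) (M' e) i z
      rcases Nat.lt_or_eq_of_le (Nat.lt_succ_iff.1 hi) with hi' | rfl
      · rw [app_le _ _ (by omega), app_le _ _ (by omega)]
        refine P.same i hi' ?_ z hz
        intro hh
        apply hK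
        show i ∈ (if s e then insert n (K e) else K e)
        split_ifs
        · exact Finset.mem_insert_of_mem hh
        · exact hh
      · rw [app_le _ _ le_rfl, app_succ]
        apply hs0 e _ z hz
        cases hse : s e with
        | false => rfl
        | true =>
          exfalso
          apply hK
          show i ∈ (if s e then insert i (K e) else K e)
          rw [hse, if_pos rfl]
          exact Finset.mem_insert_self _ _
    · intro i hi hK
      show Sad X col (app n (M e) (M' e) i) (app n (M e) (M' e) (i + 1)) (A i)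
      have hK' : i ∈ (if s e then insert n (K e) else K e) := hK
      rcases Nat.lt_or_eq_of_le (Nat.lt_succ_iff.1 hi) with hi' | rfl
      · rw [app_le _ _ (by omega), app_le _ _ (by omega)]
        refine P.sad i hi' ?_
        split_ifs at hK'
        · rcases Finset.mem_insert.1 hK' with h | h
          · omega
          · exact h
        · exact hK'
      · rw [app_le _ _ le_rfl, app_succ]
        apply hs1 e
        split_ifs at hK' with hse
        · exact hse
        · exact absurd hK' hnm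
  · -- brk
    intro i hi
    rcases Nat.lt_or_eq_of_le hi with hi | rfl
    · exact H.brk i (by omega)
    · exact S'.hb
  · -- cur
    have e1 : app n ι ι' (n + 1) = ι' := app_succ _ _ _
    have e2 : (fun e => app n (M e) (M' e) (n + 1)) = M' := by
      funext e; exact app_succ _ _ _
    rw [e1]
    show SG B (O (n + 1)) X col ι' D' (fun e => app n (M e) (M' e) (n + 1))
    rw [e2]
    exact S'
  · intro z hz
    show app n (M false) (M' false) 0 z = app n (M true) (M' true) 0 z
    rw [app_le _ _ (Nat.zero_le _), app_le _ _ (Nat.zero_le _)]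
    exact H.h0 z hz
  · -- mem
    intro i hi l x hx
    rcases Nat.lt_or_eq_of_le hi with hi | rfl
    · rw [app_le _ _ (by omega)]; exact H.mem i (by omega) l x hx
    · rw [app_succ]; exact S'.mem l x hx
  · -- runs
    intro i hi k a b hr
    show app n (M (par k)) (M' (par k)) i (T (app n ι ι' i) k a) = T (app n ι ι' i) k b
    rcases Nat.lt_or_eq_of_le hi with hi | rfl
    · rw [app_le _ _ (by omega), app_le _ _ (by omega)]; exact H.runs i (by omega) k a b hr
    · rw [app_succ, app_succ]; exact (S'.run k a b hr).1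
  · -- pers
    intro i hi l x hx hx'
    rcases Nat.lt_or_eq_of_le (Nat.lt_succ_iff.1 hi) with hi' | rfl
    · rw [app_le _ _ (by omega), app_le _ _ (by omega)]; exact H.pers i hi' l x hx hx'
    · rw [app_le _ _ le_rfl, app_succ]; exact pers' l x hx hx'
  · -- link
    intro i hi l x hx hne
    rcases Nat.lt_or_eq_of_le (Nat.lt_succ_iff.1 hi) with hi' | rfl
    · have e1 : ∀ y, tkn O (app n ι ι') i l y = tkn O ι i l y := by
        intro y
        unfold tkn
        rw [app_le _ _ (by omega), app_le _ _ (by omega)]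
      obtain ⟨m1, m2, m3⟩ := H.link i hi' l x hx hne
      rw [e1, e1]
      refine ⟨m1, m2, ?_⟩
      rcases m3 with m3 | ⟨e, j, hj, m3⟩
      · exact Or.inl m3
      · right
        refine ⟨e, j, by omega, ?_⟩
        show app n (M e) (M' e) j _ = _
        rw [app_le _ _ hj]; exact m3
    · have e1 : ∀ y t, ((al (O i) l y ∧ t = ι i l y) ∨ (¬ al (O i) l y ∧ t = ι' l y)) →
          tkn O (app i ι ι') i l y = t := by
        intro y t ht
        unfold tkn
        rw [app_le _ _ le_rfl, app_succ]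
        rcases ht with ⟨h1, h2⟩ | ⟨h1, h2⟩
        · rw [if_pos h1, h2]
        · rw [if_neg h1, h2]
      obtain ⟨t1, t2, g1, g2, g3, g4, g5⟩ := link' l x hx hne
      rw [e1 _ _ g1, e1 _ _ g2]
      refine ⟨g3, g4, ?_⟩
      rcases g5 with g5 | ⟨e, g5⟩ | ⟨e, g5⟩
      · exact Or.inl g5
      · right
        refine ⟨e, i, by omega, ?_⟩
        show app i (M e) (M' e) i _ = _
        rw [app_le _ _ le_rfl]; exact g5
      · right
        refine ⟨e, i + 1, le_rfl, ?_⟩
        show app i (M e) (M' e) (i + 1) _ = _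
        rw [app_succ]; exact g5
  · -- gM
    intro e i hi z hz
    show app n (G e) (G' e) i z ↔ app n (G e) (G' e) i (app n (M e) (M' e) i z)
    rcases Nat.lt_or_eq_of_le hi with hi | rfl
    · rw [app_le _ _ (by omega), app_le _ _ (by omega)]; exact H.gM e i (by omega) z hz
    · rw [app_succ, app_succ]
      by_cases hA : Al (O (n + 1)) ι' z
      · obtain ⟨k, a, b, h1, h2, h3⟩ := S'.arc' e hA
        have r := hF.run (n + 1) (by omega) k a b h2
        rw [h1] at r
        have w1 := v1 e _ _ (S'.hb.al_left h2)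
        have w2 := v1 e _ _ (S'.hb.al_right h2)
        rcases h3 with ⟨h3, h4⟩ | ⟨h3, h4⟩
        · rw [h4, h3]
          unfold T
          rw [w1, w2]; exact r
        · rw [h4, h3]
          unfold T
          rw [w1, w2]; exact r.symm
      · rw [S'.dead e z hz hA]
        by_cases hB : Al (O n) (ι n) z
        · obtain ⟨l, y, hy, rfl⟩ := hB
          obtain ⟨l2, y2, g1, g2, g3⟩ := KW3 l y hy hA
          have hA2 := (S'.dd.mem _ hz hA).2
          rw [g2] at hA2 ⊢
          rw [v2 e l y hy hA, v2 e l2 y2 g1 hA2]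
          exact g3
        · have hD := KD z hz hA hB
          have hA2 := (S'.dd.mem _ hz hA).2
          have hB2 := (S.dd.mem _ hz hB).2
          rw [hD] at hA2 ⊢
          rw [v3 e z hA hB, v3 e _ hA2 hB2]
          have := H.gM e n le_rfl z hz
          rw [S.dead e z hz hB] at this
          exact this
  · -- gk
    intro e i hi z hz hc
    show app n (G e) (G' e) i z ↔ app n (G e) (G' e) (i + 1) z
    rcases Nat.lt_or_eq_of_le (Nat.lt_succ_iff.1 hi) with hi' | rfl
    · rw [app_le _ _ (by omega), app_le _ _ (by omega)]; exact H.gk e i hi' z hz hc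
    · rw [app_le _ _ le_rfl, app_succ]
      by_cases hA : Al (O (i + 1)) ι' z
      · obtain ⟨l', y', hy', rfl⟩ := hA
        rw [v1 e l' y' hy']
        have c1 : cl (O (i + 1)) l' y' = (e == A i) := by rw [← S'.colr _ _ hy']; exact hc
        rw [hF.right i hn e l' y' hy' c1]
        by_cases hB : Al (O i) (ι i) (ι' l' y')
        · obtain ⟨l, y, hy, he⟩ := hB
          have c2 : cl (O i) l y = (e == A i) := by rw [← S.colr _ _ hy, he]; exact hc
          rw [← he, H.gal e i le_rfl l y hy, hF.left i hn e l y hy c2]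
          exact KW1 l y l' y' hy hy' he
        · exact KW2 l' y' hy' hB e
      · by_cases hB : Al (O i) (ι i) z
        · obtain ⟨l, y, hy, rfl⟩ := hB
          have c2 : cl (O i) l y = (e == A i) := by rw [← S.colr _ _ hy]; exact hc
          rw [v2 e l y hy hA, H.gal e i le_rfl l y hy, hF.left i hn e l y hy c2]
        · exact (v3 e z hA hB).symm
  · -- gal
    intro e i hi l x hx
    show app n (G e) (G' e) i (app n ι ι' i l x) ↔ _
    rcases Nat.lt_or_eq_of_le hi with hi | rfl
    · rw [app_le _ _ (by omega), app_le _ _ (by omega)]; exact H.gal e i (by omega) l x hx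
    · rw [app_succ, app_succ]; exact v1 e l x hx
  · intro z hz
    show app n (G false) (G' false) 0 z ↔ app n (G true) (G' true) 0 z
    rw [app_le _ _ (Nat.zero_le _), app_le _ _ (Nat.zero_le _)]
    exact H.g0 z hz
  · -- gd
    intro z hz hA
    rw [app_succ] at hA
    show app n (G false) (G' false) (n + 1) z ↔ app n (G true) (G' true) (n + 1) z
    rw [app_succ, app_succ]
    by_cases hB : Al (O n) (ι n) z
    · obtain ⟨l, y, hy, rfl⟩ := hB
      rw [v2 false l y hy hA, v2 true l y hy hA]
    · rw [v3 false z hA hB, v3 true z hA hB]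
      exact H.gd z hz hB

end Pool.BW
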