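import Pool.Agent.MP42.BW.CL
import Pool.Agent.Helper20.CM.Final

/-!
# The closing lemma, final form
-/

set_option autoImplicit false

namespace Pool.BW.CL

open Pool.BW

theorem mirror : Mirror := fun _ _ pos hpos col T m sg K h1 h2 h3 h4 h5 h6 h7 h8 g h9 h10 h11 h12 =>
  Pool.CM.circular_movie_mirror pos hpos col T m sg K h1 h2 h3 h4 h5 h6 h7 h8 g h9 h10 h11 h12

/-- CL: the closing lemma, exactly as stated in `Pool.BW.Movie` -/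
theorem closing {X : Finset ℚ} {col : ℚ → Bool} {n : ℕ} {A : ℕ → Bool} {M : Bool → ℕ → ℚ → ℚ}
    {K : Bool → Finset ℕ} (hP : ∀ e, Path X col n A (M e) (K e))
    (h0 : ∀ x ∈ X, M false 0 x = M true 0 x) (hn : ∀ x ∈ X, M false n x = M true n x)
    (hK : (K false).card + (K true).card + 2 ≤ X.card)
    (htr : ∀ p : ℚ → Prop, (∀ e, ∀ i, i ≤ n → ∀ x ∈ X, (p x ↔ p (M e i x))) →
      ∀ x ∈ X, ∀ y ∈ X, (p x ↔ p y))
    {G : Bool → ℕ → ℚ → Prop}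
    (hG : ∀ e, ∀ i, i ≤ n → ∀ x ∈ X, (G e i x ↔ G e i (M e i x)))
    (hk : ∀ e, ∀ i, i < n → ∀ x ∈ X, col x = (e == A i) → (G e i x ↔ G e (i + 1) x))
    (hG0 : ∀ x ∈ X, (G false 0 x ↔ G true 0 x)) (hGn : ∀ x ∈ X, (G false n x ↔ G true n x)) :
    ∃ c : Prop, ∀ e, ∀ i, i ≤ n → ∀ x ∈ X, (G e i x ↔ c) :=
  closing_of mirror hP h0 hn hK htr hG hk hG0 hGn

end Pool.BW.CL
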