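import Pool.Agent.MP42.BW.Core2
import Pool.Agent.MP42.BW.CLFin

/-!
# T1: one brick per step (helper50)
-/

set_option autoImplicit false

namespace Pool.BW

open Tk (T)

section

variable {N n : ℕ} {B : ℤ} {O : ℕ → St} {A : ℕ → Bool} {γ : Bool → ℕ → ℤ → ℤ → Prop}
  {W : ℕ → ℤ → ℤ → Prop} {l x : ℤ}

lemma gext_u {u v : ℚ} {V : Prop} {g : Prop} {z : ℚ} (h : z = u ∨ z = v) :
    (((z = u ∨ z = v) ∧ V) ∨ (z ≠ u ∧ z ≠ v ∧ g)) ↔ V := by
  tauto

theorem ind_birth (h : Mv N B O A) (hF : Fam N O A γ W) (hn : n < N) (hx : (x - l) % 2 = 0)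
    (ho : O (n + 1) = tog (O n) l x) (h0 : ¬ al (O n) l x) (h2 : ¬ al (O n) l (x + 2))
    (hI : Ind B A O γ n) : Ind B A O γ (n + 1) := by
  classical
  obtain ⟨X, col, ι, D, M, K, G, H, hsur, hcnt⟩ := hI
  obtain ⟨hbox, hA⟩ := tog_facts h hn hx ho
  obtain ⟨u, v, huv, hlu, hvl, hgap, hsp, hord1, hord2⟩ := find_uv H.cur h0
  have F : Fresh X u v := ⟨huv, hgap⟩
  -- the tokens at `x` and `x + 2`
  obtain ⟨a, b, habuv, hpar⟩ : ∃ a b : ℚ, ((a = u ∧ b = v) ∨ (a = v ∧ b = u)) ∧
      (if par l = false then a = u ∧ b = v else a = v ∧ b = u) := by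
    cases hp : par l with
    | false => exact ⟨u, v, Or.inl ⟨rfl, rfl⟩, by simp⟩
    | true => exact ⟨v, u, Or.inr ⟨rfl, rfl⟩, by simp⟩
  set c : Bool := if par l = false then cl (O (n + 1)) l x else !(cl (O (n + 1)) l x) with hc
  have H1 := tm_ext H F hlu hvl hsp c (W n l x)
  set X1 : Finset ℚ := insert u (insert v X) with hX1
  set col1 := cx u v c col with hcol1
  set D1 := sw u v D with hD1
  have hX : ∀ z, z ∈ X1 ↔ z = u ∨ z = v ∨ z ∈ X := by
    intro z; rw [hX1, Finset.mem_insert, Finset.mem_insert]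
  have nu : ¬ Al (O n) (ι n) u := fun hh => F.ne_u (H.cur.mem_of_al hh) rfl
  have nv : ¬ Al (O n) (ι n) v := fun hh => F.ne_v (H.cur.mem_of_al hh) rfl
  have au : a = u ∨ a = v := by rcases habuv with ⟨h1, -⟩ | ⟨h1, -⟩ <;> simp [h1]
  have bu : b = u ∨ b = v := by rcases habuv with ⟨-, h1⟩ | ⟨-, h1⟩ <;> simp [h1]
  have na : ¬ Al (O n) (ι n) a := by rcases au with rfl | rfl <;> assumption
  have nb : ¬ Al (O n) (ι n) b := by rcases bu with rfl | rfl <;> assumption
  have ha : a ∈ X1 := (hX a).2 (by tauto)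
  have hb : b ∈ X1 := (hX b).2 (by tauto)
  have Dab : D1 a = b := by
    rcases habuv with ⟨rfl, rfl⟩ | ⟨rfl, rfl⟩
    · exact sw_u _ _ _
    · exact sw_v huv _
  have Dba : D1 b = a := by
    rcases habuv with ⟨rfl, rfl⟩ | ⟨rfl, rfl⟩
    · exact sw_v huv _
    · exact sw_u _ _ _
  have la : (l : ℚ) < a ∧ a < (l : ℚ) + 1 := by
    rcases au with rfl | rfl <;> constructor <;> linarith
  have lb : (l : ℚ) < b ∧ b < (l : ℚ) + 1 := by
    rcases bu with rfl | rfl <;> constructor <;> linarith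
  have hcl : cl (O (n + 1)) l (x + 2) = !(cl (O (n + 1)) l x) := by
    unfold cl
    have g2 := h2
    unfold al at g2
    rw [not_not, show x + 2 - 1 = x + 1 by ring, ← H.cur.hb l x hx] at g2
    rw [ho, tog_at (Or.inl rfl), tog_off (show x + 2 ≠ x ∧ x + 2 ≠ x + 1 from ⟨by omega, by omega⟩),
      ← g2]
    cases O n l x <;> cases par l <;> rfl
  have hca : col1 a = cl (O (n + 1)) l x := by
    cases hp : par l with
    | false =>
      rw [hp, if_pos rfl] at hpar
      rw [hcol1, hpar.1, cx_u, hc, hp, if_pos rfl]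
    | true =>
      rw [hp, if_neg (by simp)] at hpar
      rw [hcol1, hpar.1, cx_v huv, hc, hp, if_neg (by simp), Bool.not_not]
  have hcb : col1 b = cl (O (n + 1)) l (x + 2) := by
    rw [hcl]
    cases hp : par l with
    | false =>
      rw [hp, if_pos rfl] at hpar
      rw [hcol1, hpar.2, cx_v huv, hc, hp, if_pos rfl]
    | true =>
      rw [hp, if_neg (by simp)] at hpar
      rw [hcol1, hpar.2, cx_u, hc, hp, if_neg (by simp)]
  obtain ⟨M', S', hAl⟩ := sg_birth H1.cur (h.brick (n + 1) (by omega)) (h.supp (n + 1) (by omega))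
    ho hx h0 h2 ha hb na nb Dab Dba la lb hca hcb
    (by
      cases hp : par l with
      | false => rw [hp, if_pos rfl] at hpar; rw [if_pos rfl, hpar.1, hpar.2]; exact huv
      | true => rw [hp, if_neg (by simp)] at hpar; rw [if_neg (by simp), hpar.1, hpar.2]; exact huv)
    (by
      intro y hy hyx
      have := hord1 y hy hyx
      cases hp : par l with
      | false =>
        rw [hp, if_pos rfl] at this hpar
        rw [if_pos rfl, hpar.1, hpar.2]
        exact ⟨this, by linarith⟩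
      | true =>
        rw [hp, if_neg (by simp)] at this hpar
        rw [if_neg (by simp), hpar.1, hpar.2]
        exact ⟨this, by linarith⟩)
    (by
      intro y hy hyx
      have := hord2 y hy hyx
      cases hp : par l with
      | false =>
        rw [hp, if_pos rfl] at this hpar
        rw [if_pos rfl, hpar.1, hpar.2]
        exact ⟨by linarith, this⟩
      | true =>
        rw [hp, if_neg (by simp)] at this hpar
        rw [if_neg (by simp), hpar.1, hpar.2]
        exact ⟨by linarith, this⟩)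
    (by
      intro z hz hnz hza hzb
      have hzu : z ≠ u ∧ z ≠ v := by
        rcases habuv with ⟨rfl, rfl⟩ | ⟨rfl, rfl⟩
        · exact ⟨hza, hzb⟩
        · exact ⟨hzb, hza⟩
      have hzX : z ∈ X := by
        rcases (hX z).1 hz with g | g | g
        · exact absurd g hzu.1
        · exact absurd g hzu.2
        · exact g
      have e1 : D1 z = D z := sw_off _ hzu.1 hzu.2
      have hDz := (H.cur.dd.mem z hzX hnz).1
      have k1 := hsp z hzX hnz
      have k2 : ¬ (z < v ∧ v < D z) := by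
        rintro ⟨g1, g2⟩
        apply k1
        refine ⟨?_, by linarith⟩
        rcases hgap z hzX with g | g <;> linarith
      rw [e1]
      constructor
      · rcases au with rfl | rfl
        · exact k1
        · exact k2
      · rcases bu with rfl | rfl
        · exact k1
        · exact k2)
  set ι' := upd (ι n) l x a b with hι'
  have hal : ∀ l' y, al (O (n + 1)) l' y →
      (al (O n) l' y ∧ ¬ (l' = l ∧ (y = x ∨ y = x + 2))) ∨ (l' = l ∧ (y = x ∨ y = x + 2)) := by
    intro l' y hy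
    rw [ho, al_tog] at hy
    split_ifs at hy with hh
    · exact Or.inr hh
    · exact Or.inl ⟨hy, hh⟩
  have hring : W n l x ↔ W n l (x + 2) := by
    refine hF.ring n hn l x hx ?_
    rw [ho, tog_at (Or.inl rfl)]
    cases O n l x <;> simp
  have hι : ∀ l' y, al (O n) l' y → al (O (n + 1)) l' y → ι' l' y = ι n l' y := by
    intro l' y g1 g2
    refine upd_off _ _ _ ?_
    rintro ⟨rfl, rfl | rfl⟩
    · exact h0 g1
    · exact h2 g1
  have ia : ι' l x = a := upd_x _ _ _ _ _
  have ib : ι' l (x + 2) = b := upd_x2 _ _ _ _ _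
  have hAc : ∀ z ∈ X1, ¬ Al (O (n + 1)) ι' z → ¬ Al (O n) (ι n) z ∧ D1 z = D1 z := by
    intro z _ hz
    exact ⟨fun hh => hz ((hAl z).2 (Or.inl hh)), rfl⟩
  have step := fun e => step_birth H1.cur S' ho hx h0 h2 hι hAc (by rw [ia]; exact na)
    (by rw [ib]; exact nb) (by rw [ia, ib]; exact Dab) (by rw [ia, ib]; exact Dba) e
  have hsad : ∀ e, sadb (O n) l x e =
      (cc (O n) (stp e l) x || cc (O n) (stp e l) (x + 1)) := by
    intro e
    unfold sadb sadp
    rw [bne_nal.2 h0, bne_nal2.2 h2]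
    simp
  have ax : al (O (n + 1)) l x := by
    rw [ho, al_tog, if_pos ⟨rfl, Or.inl rfl⟩]; exact h0
  have ax2 : al (O (n + 1)) l (x + 2) := by
    rw [ho, al_tog, if_pos ⟨rfl, Or.inr rfl⟩]; exact h2
  obtain ⟨K2, G2, H2, hK2⟩ := tm_append hn hF H1 S' (sadb (O n) l x)
    (fun e he => (step e).1 (by rw [← hsad]; exact he))
    (fun e he => by
      have := (step e).2 (by rw [← hsad]; exact he)
      rw [hA] at this; exact this)
    (fun l' y g1 g2 => hι l' y g1 g2)
    (fun l' x' hx' hne => by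
      rw [ho] at hne
      obtain ⟨rfl, rfl⟩ := tog_brick hx hx' hne
      refine ⟨_, _, Or.inr ⟨h0, rfl⟩, Or.inr ⟨h2, rfl⟩, by rw [ia]; exact ha,
        by rw [ib]; exact hb, Or.inr (Or.inl ⟨false, ?_⟩)⟩
      rw [ia, ib]
      have := H1.cur.dead false a ha na
      rw [Dab] at this
      exact this)
    (fun l1 y l' y' g1 g2 he => by
      rcases hal _ _ g2 with ⟨g3, g4⟩ | ⟨rfl, g3 | g3⟩
      · rw [hι _ _ g3 g2] at he
        obtain ⟨rfl, rfl⟩ := H.cur.tk.inj g1 g3 he
        exact Iff.rfl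
      · subst g3
        rw [ia] at he
        exact absurd ⟨_, _, g1, he⟩ na
      · subst g3
        rw [ib] at he
        exact absurd ⟨_, _, g1, he⟩ nb)
    (fun l' y' g1 g2 e => by
      rcases hal _ _ g1 with ⟨g3, g4⟩ | ⟨rfl, g3 | g3⟩
      · rw [hι _ _ g3 g1] at g2
        exact absurd ⟨_, _, g3, rfl⟩ g2
      · subst g3
        rw [ia]
        exact gext_u au
      · subst g3
        rw [ib]
        exact (gext_u bu).trans hring)
    (fun l1 y g1 g2 => absurd ((hAl _).2 (Or.inl ⟨_, _, g1, rfl⟩)) g2)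
    (fun z hz _ _ => rfl)
  refine ⟨X1, col1, _, D1, _, K2, G2, H2, surj_app ?_, ?_⟩
  · intro z hz
    have hz' : z = a ∨ z = b ∨ z ∈ X := by
      rcases (hX z).1 hz with g | g | g
      · rcases habuv with ⟨g1, g2⟩ | ⟨g1, g2⟩
        · exact Or.inl (g.trans g1.symm)
        · exact Or.inr (Or.inl (g.trans g2.symm))
      · rcases habuv with ⟨g1, g2⟩ | ⟨g1, g2⟩
        · exact Or.inr (Or.inl (g.trans g2.symm))
        · exact Or.inl (g.trans g1.symm)
      · exact Or.inr (Or.inr g)
    rcases hz' with rfl | rfl | g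
    · exact Or.inr ⟨_, _, ax, ia⟩
    · exact Or.inr ⟨_, _, ax2, ib⟩
    · exact Or.inl (hsur z g)
  have hb' : Brick (tog (O n) l x) := by rw [← ho]; exact h.brick (n + 1) (by omega)
  have hchi := chi_step (H.cur.hb) hx hb' hbox
  rw [← ho, hA] at hchi
  have e1 : (O n l (x - 1) == O n l (x + 2)) = true := by
    have g1 := h0
    have g2 := h2
    unfold al at g1 g2
    rw [show x + 2 - 1 = x + 1 by ring, ← H.cur.hb l x hx] at g2
    cases hv1 : O n l (x - 1) <;> cases hv2 : O n l x <;> cases hv3 : O n l (x + 2) <;>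
      rw [hv1, hv2] at g1 <;> rw [hv2, hv3] at g2 <;> simp at g1 g2 ⊢
  rw [e1] at hchi
  have hd : dcard (O (n + 1)) ι' X1 = dcard (O n) (ι n) X := by
    unfold dcard
    congr 1
    ext z
    rw [Finset.mem_filter, Finset.mem_filter, hAl, hX]
    constructor
    · rintro ⟨g1, g2⟩
      push Not at g2
      obtain ⟨g3, g4, g5⟩ := g2
      refine ⟨?_, g3⟩
      rcases g1 with g | g | g
      · exfalso
        rcases habuv with ⟨k1, k2⟩ | ⟨k1, k2⟩
        · exact g4 (g.trans k1.symm)
        · exact g5 (g.trans k2.symm)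
      · exfalso
        rcases habuv with ⟨k1, k2⟩ | ⟨k1, k2⟩
        · exact g5 (g.trans k2.symm)
        · exact g4 (g.trans k1.symm)
      · exact g
    · rintro ⟨g1, g2⟩
      refine ⟨Or.inr (Or.inr g1), ?_⟩
      rintro (k | k | k)
      · exact g2 k
      · rcases au with g | g
        · exact F.ne_u g1 (k.trans g)
        · exact F.ne_v g1 (k.trans g)
      · rcases bu with g | g
        · exact F.ne_u g1 (k.trans g)
        · exact F.ne_v g1 (k.trans g)
  have hXc : (X1.card : ℤ) = X.card + 2 := by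
    rw [hX1, Finset.card_insert_of_notMem, Finset.card_insert_of_notMem]
    · push_cast; ring
    · exact fun hh => F.ne_v hh rfl
    · rw [Finset.mem_insert]
      rintro (g | g)
      · exact huv.ne g
      · exact F.ne_u g rfl
  rw [sm_succ, hchi, app_succ, hd, hXc, card_ite _ _ _ (hK2 false), card_ite _ _ _ (hK2 true)]
  have : n1 true = 1 := rfl
  rw [this]
  linarith

theorem ind_step (h : Mv N B O A) (hs : Single N O) (hF : Fam N O A γ W) (hn : n < N)
    (hI : Ind B A O γ n) : Ind B A O γ (n + 1) := by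
  rcases hs n hn with ho | ⟨l, x, hx, ho⟩
  · exact ind_id hF hn ho hI
  · by_cases h0 : al (O n) l x <;> by_cases h2 : al (O n) l (x + 2)
    · exact ind_death h hF hn hx ho h0 h2 hI
    · exact ind_jogR h hF hn hx ho h0 h2 hI
    · exact ind_jogL h hF hn hx ho h0 h2 hI
    · exact ind_birth h hF hn hx ho h0 h2 hI

theorem ind_all (h : Mv N B O A) (hs : Single N O) (hF : Fam N O A γ W) :
    ∀ n, n ≤ N → Ind B A O γ n := by
  intro n
  induction n with
  | zero => exact fun _ => ind_zero h γ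
  | succ n ih => exact fun hn => ind_step h hs hF (by omega) (ih (by omega))

/-- T1 -/
theorem T1.toggle_movie {n : ℕ} {B : ℤ} {O : ℕ → St} {A : ℕ → Bool} (h : Mv n B O A)
    (hs : Single n O)
    (hchi : 12 ≤ ∑ i ∈ Finset.range n, sgn (A i) * (chi6 B (O (i + 1)) - chi6 B (O i)))
    (htr : Tr n O) {γ : Bool → ℕ → ℤ → ℤ → Prop} {W : ℕ → ℤ → ℤ → Prop} (hF : Fam n O A γ W) :
    ∃ c : Prop, ∀ i, i ≤ n → ∀ e l x, al (O i) l x → (γ e i l x ↔ c) := by
  classical
  obtain ⟨X, col, ι, D, M, K, G, H, hsur, hcnt⟩ := ind_all h hs hF n le_rfl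
  have hna := no_al h.last
  have hnA : ∀ z, ¬ Al (O n) (ι n) z := by
    rintro z ⟨l, y, hy, -⟩
    exact hna l y hy
  have hd : dcard (O n) (ι n) X = X.card := by
    unfold dcard
    congr 1
    ext z
    rw [Finset.mem_filter]
    exact ⟨fun g => g.1, fun g => ⟨g, hnA z⟩⟩
  have hK : (K false).card + (K true).card + 2 ≤ X.card := by
    rw [hd] at hcnt
    have : Sm B A O n = ∑ i ∈ Finset.range n, sgn (A i) * (chi6 B (O (i + 1)) - chi6 B (O i)) := rfl
    rw [← this] at hchi
    omega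
  have htr' : ∀ p : ℚ → Prop, (∀ e, ∀ i, i ≤ n → ∀ x ∈ X, (p x ↔ p (M e i x))) →
      ∀ x ∈ X, ∀ y ∈ X, (p x ↔ p y) := by
    intro p hp x hx y hy
    obtain ⟨i, hi, l, x', h1, h2⟩ := hsur x hx
    obtain ⟨j, hj, l', y', h3, h4⟩ := hsur y hy
    have key := htr (fun i l x => p (ι i l x)) (fun i l x => p (tkn O ι i l x)) ?_ ?_ ?_ ?_ i hi j hj
      l x' l' y' h1 h3
    · rw [← h2, ← h4]; exact key
    · intro i hi k a b hr
      have m1 := H.runs i hi k a b hr
      have m2 := H.mem i hi _ _ ((H.brk i hi).al_left hr)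
      have := hp (par k) i hi _ m2
      show p (ι i (row k a) a) ↔ p (ι i (row k b) b)
      rw [this]
      have e1 : M (par k) i (ι i (row k a) a) = ι i (row k b) b := m1
      rw [e1]
    · intro i hi l x hx
      show p (ι i l x) ↔ p (tkn O ι i l x)
      unfold tkn
      rw [if_pos hx]
    · intro i hi l x hx
      show p (ι (i + 1) l x) ↔ p (tkn O ι i l x)
      unfold tkn
      split_ifs with hh
      · rw [H.pers i hi l x hh hx]
      · exact Iff.rfl
    · intro i hi l x hx hne
      show p (tkn O ι i l x) ↔ p (tkn O ι i l (x + 2))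
      obtain ⟨m1, m2, m3⟩ := H.link i hi l x hx hne
      rcases m3 with m3 | ⟨e, j, hj, m3⟩
      · rw [m3]
      · rw [hp e j hj _ m1, m3]
  obtain ⟨c, hc⟩ := CL.closing H.path H.h0
    (fun x hx => by
      have e1 := H.cur.dead false x hx (hnA x)
      have e2 := H.cur.dead true x hx (hnA x)
      exact e1.trans e2.symm)
    hK htr' H.gM H.gk H.g0 (fun x hx => H.gd x hx (hnA x))
  refine ⟨c, fun i hi e l x hx => ?_⟩
  rw [← H.gal e i hi l x hx]
  exact hc e i hi _ (H.mem i hi l x hx)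

end

end Pool.BW
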