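import Pool.Agent.MP42.BW.T2
import Pool.Agent.MP42.BW.Core3

/-!
# The brick level: final theorems
-/

set_option autoImplicit false

namespace Pool.BW

theorem toggle_movie {n : ℕ} {B : ℤ} {O : ℕ → St} {A : ℕ → Bool} (h : Mv n B O A)
    (hs : Single n O)
    (hchi : 12 ≤ ∑ i ∈ Finset.range n, sgn (A i) * (chi6 B (O (i + 1)) - chi6 B (O i)))
    (htr : Tr n O) {γ : Bool → ℕ → ℤ → ℤ → Prop} {W : ℕ → ℤ → ℤ → Prop} (hF : Fam n O A γ W) :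
    ∃ c : Prop, ∀ i, i ≤ n → ∀ e l x, al (O i) l x → (γ e i l x ↔ c) :=
  T1.toggle_movie h hs hchi htr hF

theorem brick_movie {n : ℕ} {B : ℤ} {O : ℕ → St} {A : ℕ → Bool} (h : Mv n B O A)
    (hchi : 12 ≤ ∑ i ∈ Finset.range n, sgn (A i) * (chi6 B (O (i + 1)) - chi6 B (O i)))
    (htr : Tr n O) {γ : Bool → ℕ → ℤ → ℤ → Prop} {W : ℕ → ℤ → ℤ → Prop} (hF : Fam n O A γ W) :
    ∃ c : Prop, ∀ i, i ≤ n → ∀ e l x, al (O i) l x → (γ e i l x ↔ c) :=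
  brick_movie_of (fun _ _ _ _ h hs hc ht _ _ hF => T1.toggle_movie h hs hc ht hF) h hchi htr hF

end Pool.BW
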