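import Pool.Agent.MP42.BW.SGL

/-!
# Births (helper50, T1)
-/

set_option autoImplicit false

namespace Pool.BW

open Tk (T)

section

variable {B : ℤ} {o o' : St} {X : Finset ℚ} {col : ℚ → Bool} {ι : ℤ → ℤ → ℚ} {D : ℚ → ℚ}
  {M : Bool → ℚ → ℚ} {l x : ℤ}

open Classical in
/-- a place for two new tokens -/
theorem find_uv (S : SG B o X col ι D M) (h0 : ¬ al o l x) :
    ∃ u v : ℚ, u < v ∧ (l : ℚ) < u ∧ v < (l : ℚ) + 1 ∧ (∀ z ∈ X, z < u ∨ v < z) ∧
      (∀ z ∈ X, ¬ Al o ι z → ¬ (z < u ∧ u < D z)) ∧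
      (∀ y, al o l y → y < x → if par l = false then ι l y < u else v < ι l y) ∧
      (∀ y, al o l y → x < y → if par l = false then v < ι l y else ι l y < u) := by
  -- tokens to the left
  set Lft : Finset ℚ := X.filter (fun z => ∃ y, al o l y ∧ ι l y = z ∧
    (if par l = false then y < x else x < y)) with hL
  obtain ⟨base, hb1, hb2, hb3, hb4⟩ : ∃ base : ℚ, (l : ℚ) ≤ base ∧ base < (l : ℚ) + 1 ∧
      (∀ z ∈ Lft, z ≤ base) ∧ (base = l ∨ base ∈ Lft) := by
    by_cases hne : Lft.Nonempty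
    · obtain ⟨m, hm1, hm2⟩ : ∃ m, m ∈ Lft ∧ ∀ z ∈ Lft, z ≤ m :=
        ⟨Lft.max' hne, Finset.max'_mem _ _, fun z hz => Finset.le_max' _ _ hz⟩
      have hm3 := hm1
      rw [hL, Finset.mem_filter] at hm3
      obtain ⟨-, y, h1, h2, -⟩ := hm3
      refine ⟨m, ?_, ?_, hm2, Or.inr hm1⟩
      · rw [← h2]; exact (S.tk.lo _ _ h1).le
      · rw [← h2]; exact S.tk.hi _ _ h1
    · refine ⟨l, le_rfl, by linarith, fun z hz => absurd ⟨z, hz⟩ hne, Or.inl rfl⟩
  set U : Finset ℚ := insert ((l : ℚ) + 1) (X.filter (fun z => base < z)) with hU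
  have hUne : U.Nonempty := ⟨_, Finset.mem_insert_self _ _⟩
  set nx := U.min' hUne with hnx
  have hn1 : base < nx := by
    have := Finset.min'_mem U hUne
    rw [← hnx, hU, Finset.mem_insert, Finset.mem_filter] at this
    rcases this with h | h
    · rw [h]; exact hb2
    · exact h.2
  have hn2 : nx ≤ (l : ℚ) + 1 := Finset.min'_le _ _ (Finset.mem_insert_self _ _)
  have hn3 : ∀ z ∈ X, base < z → nx ≤ z := by
    intro z hz hlt
    exact Finset.min'_le _ _ (Finset.mem_insert_of_mem (Finset.mem_filter.2 ⟨hz, hlt⟩))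
  refine ⟨base + (nx - base) / 3, base + (nx - base) * (2 / 3), by linarith, by linarith, by linarith,
    ?_, ?_, ?_, ?_⟩
  · intro z hz
    by_cases h : base < z
    · right
      have := hn3 z hz h
      linarith
    · left
      linarith
  · rintro z hz hna ⟨i1, i2⟩
    have hz1 : z ≤ base := by
      by_contra hh
      have := hn3 z hz (not_le.1 hh)
      linarith
    rcases hb4 with h | h
    · obtain ⟨l', f1, f2, f3, f4⟩ := S.dd.fl z hz hna
      have g1 : (l' : ℚ) < l := by linarith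
      have g2 : l' < l := by exact_mod_cast g1
      have g3 : l' + 1 ≤ l := by omega
      have g4 : (l' : ℚ) + 1 ≤ l := by exact_mod_cast g3
      linarith
    · rw [hL, Finset.mem_filter] at h
      obtain ⟨-, y, g1, g2, -⟩ := h
      have hA : Al o ι base := ⟨_, _, g1, g2⟩
      have hne : z ≠ base := fun he => hna (he ▸ hA)
      have hlt : z < base := lt_of_le_of_ne hz1 hne
      exact S.dd.none z hz hna base hA ⟨hlt, by linarith⟩
  · intro y hy hyx
    cases hp : par l with
    | false =>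
      rw [if_pos rfl]
      have : ι l y ∈ Lft := by
        rw [hL, Finset.mem_filter]
        exact ⟨S.mem _ _ hy, y, hy, rfl, by rw [if_pos hp]; exact hyx⟩
      have := hb3 _ this
      linarith
    | true =>
      rw [if_neg (by simp)]
      have hlt : base < ι l y := by
        rcases hb4 with h | h
        · rw [h]; exact S.tk.lo _ _ hy
        · rw [hL, Finset.mem_filter] at h
          obtain ⟨-, y', g1, g2, g3⟩ := h
          rw [if_neg (by rw [hp]; simp)] at g3
          rw [← g2]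
          exact S.tk.ordO _ _ _ hy g1 (by omega) hp
      have := hn3 _ (S.mem _ _ hy) hlt
      linarith
  · intro y hy hyx
    cases hp : par l with
    | true =>
      rw [if_neg (by simp)]
      have : ι l y ∈ Lft := by
        rw [hL, Finset.mem_filter]
        exact ⟨S.mem _ _ hy, y, hy, rfl, by rw [if_neg (by rw [hp]; simp)]; exact hyx⟩
      have := hb3 _ this
      linarith
    | false =>
      rw [if_pos rfl]
      have hlt : base < ι l y := by
        rcases hb4 with h | h
        · rw [h]; exact S.tk.lo _ _ hy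
        · rw [hL, Finset.mem_filter] at h
          obtain ⟨-, y', g1, g2, g3⟩ := h
          rw [if_pos hp] at g3
          rw [← g2]
          exact S.tk.ordE _ _ _ g1 hy (by omega) hp
      have := hn3 _ (S.mem _ _ hy) hlt
      linarith

/-- extension of a function by a swap -/
def sw (u v : ℚ) (f : ℚ → ℚ) : ℚ → ℚ := fun z => if z = u then v else if z = v then u else f z

lemma sw_u (u v : ℚ) (f : ℚ → ℚ) : sw u v f u = v := by unfold sw; rw [if_pos rfl]

lemma sw_v {u v : ℚ} (h : u < v) (f : ℚ → ℚ) : sw u v f v = u := by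
  unfold sw; rw [if_neg h.ne', if_pos rfl]

lemma sw_off {u v z : ℚ} (f : ℚ → ℚ) (h1 : z ≠ u) (h2 : z ≠ v) : sw u v f z = f z := by
  unfold sw; rw [if_neg h1, if_neg h2]

/-- extension of the colours -/
def cx (u v : ℚ) (c : Bool) (col : ℚ → Bool) : ℚ → Bool :=
  fun z => if z = u then c else if z = v then !c else col z

lemma cx_u (u v : ℚ) (c : Bool) (col : ℚ → Bool) : cx u v c col u = c := by
  unfold cx; rw [if_pos rfl]

lemma cx_v {u v : ℚ} (h : u < v) (c : Bool) (col : ℚ → Bool) : cx u v c col v = !c := by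
  unfold cx; rw [if_neg h.ne', if_pos rfl]

lemma cx_off {u v z : ℚ} (c : Bool) (col : ℚ → Bool) (h1 : z ≠ u) (h2 : z ≠ v) :
    cx u v c col z = col z := by
  unfold cx; rw [if_neg h1, if_neg h2]

/-- two neighbouring new tokens -/
structure Fresh (X : Finset ℚ) (u v : ℚ) : Prop where
  lt : u < v
  gap : ∀ z ∈ X, z < u ∨ v < z

lemma Fresh.ne_u {u v z : ℚ} (h : Fresh X u v) (hz : z ∈ X) : z ≠ u := by
  intro he
  have := h.lt
  rcases h.gap z hz with h1 | h1 <;> linarith

lemma Fresh.ne_v {u v z : ℚ} (h : Fresh X u v) (hz : z ∈ X) : z ≠ v := by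
  intro he
  have := h.lt
  rcases h.gap z hz with h1 | h1 <;> linarith

/-- insertion of a pair of neighbouring tokens in the state before the birth -/
theorem sg_ext (S : SG B o X col ι D M) {u v : ℚ} (F : Fresh X u v) (hl : (l : ℚ) < u)
    (hl' : v < (l : ℚ) + 1) (hsp : ∀ z ∈ X, ¬ Al o ι z → ¬ (z < u ∧ u < D z)) (c : Bool) :
    SG B o (insert u (insert v X)) (cx u v c col) ι (sw u v D) (fun e => sw u v (M e)) := by
  have hX : ∀ z, z ∈ insert u (insert v X) ↔ z = u ∨ z = v ∨ z ∈ X := by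
    intro z; rw [Finset.mem_insert, Finset.mem_insert]
  have nu : ¬ Al o ι u := fun hh => F.ne_u (S.mem_of_al hh) rfl
  have nv : ¬ Al o ι v := fun hh => F.ne_v (S.mem_of_al hh) rfl
  have huv := F.lt
  refine ⟨S.hb, S.hs, S.tk, fun l' y h => (hX _).2 (Or.inr (Or.inr (S.mem _ _ h))), ?_, ?_, ?_, ?_⟩
  · intro l' y h
    have := S.mem _ _ h
    rw [cx_off _ _ (F.ne_u this) (F.ne_v this)]
    exact S.colr _ _ h
  · refine ⟨?_, ?_, ?_, ?_, ?_, ?_⟩
    · intro z hz hn
      rcases (hX z).1 hz with rfl | rfl | hz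
      · rw [sw_u]; exact ⟨(hX _).2 (Or.inr (Or.inl rfl)), nv⟩
      · rw [sw_v huv]; exact ⟨(hX _).2 (Or.inl rfl), nu⟩
      · rw [sw_off _ (F.ne_u hz) (F.ne_v hz)]
        obtain ⟨h1, h2⟩ := S.dd.mem z hz hn
        exact ⟨(hX _).2 (Or.inr (Or.inr h1)), h2⟩
    · intro z hz hn
      rcases (hX z).1 hz with rfl | rfl | hz
      · rw [sw_u, sw_v huv]
      · rw [sw_v huv, sw_u]
      · obtain ⟨h1, h2⟩ := S.dd.mem z hz hn
        rw [sw_off _ (F.ne_u hz) (F.ne_v hz), sw_off _ (F.ne_u h1) (F.ne_v h1)]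
        exact S.dd.inv z hz hn
    · intro z hz hn
      rcases (hX z).1 hz with rfl | rfl | hz
      · rw [sw_u, cx_u, cx_v huv]
      · rw [sw_v huv, cx_u, cx_v huv, Bool.not_not]
      · obtain ⟨h1, h2⟩ := S.dd.mem z hz hn
        rw [sw_off _ (F.ne_u hz) (F.ne_v hz), cx_off _ _ (F.ne_u hz) (F.ne_v hz),
          cx_off _ _ (F.ne_u h1) (F.ne_v h1)]
        exact S.dd.colr z hz hn
    · intro z hz hn
      rcases (hX z).1 hz with rfl | rfl | hz
      · rw [sw_u]; exact ⟨l, hl, by linarith, by linarith, hl'⟩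
      · rw [sw_v huv]; exact ⟨l, by linarith, hl', hl, by linarith⟩
      · rw [sw_off _ (F.ne_u hz) (F.ne_v hz)]
        exact S.dd.fl z hz hn
    · intro z hz hn w hw
      have hwX := S.mem_of_al hw
      rcases (hX z).1 hz with rfl | rfl | hz
      · rw [sw_u]
        rintro ⟨i1, i2⟩
        rcases F.gap w hwX with h | h <;> linarith
      · rw [sw_v huv]
        rintro ⟨i1, i2⟩
        linarith
      · rw [sw_off _ (F.ne_u hz) (F.ne_v hz)]
        exact S.dd.none z hz hn w hw
    · intro z hz w hw hnz hnw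
      rcases (hX z).1 hz with rfl | rfl | hz1
      · rw [sw_u]
        rintro ⟨i1, i2, i3⟩
        rcases (hX w).1 hw with rfl | rfl | hw
        · exact lt_irrefl _ i1
        · exact lt_irrefl _ i2
        · rcases F.gap w hw with h | h <;> linarith
      · rw [sw_v huv]
        rintro ⟨i1, i2, i3⟩
        linarith
      · rw [sw_off _ (F.ne_u hz1) (F.ne_v hz1)]
        rcases (hX w).1 hw with rfl | rfl | hw
        · rintro ⟨i1, i2, i3⟩
          exact hsp z hz1 hnz ⟨i1, i2⟩
        · rw [sw_v huv]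
          rintro ⟨i1, i2, i3⟩
          linarith
        · rw [sw_off _ (F.ne_u hw) (F.ne_v hw)]
          exact S.dd.nc z hz1 w hw hnz hnw
  · intro k a b hr
    obtain ⟨m1, m2⟩ := S.run _ _ _ hr
    have ma : T ι k a ∈ X := S.mem _ _ (S.hb.al_left hr)
    have mb : T ι k b ∈ X := S.mem _ _ (S.hb.al_right hr)
    have e1 : ∀ z ∈ X, sw u v (M (par k)) z = M (par k) z := fun z hz =>
      sw_off _ (F.ne_u hz) (F.ne_v hz)
    exact ⟨by rw [e1 _ ma]; exact m1, by rw [e1 _ mb]; exact m2⟩
  · intro e z hz hn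
    rcases (hX z).1 hz with rfl | rfl | hz
    · rw [sw_u, sw_u]
    · rw [sw_v huv, sw_v huv]
    · rw [sw_off _ (F.ne_u hz) (F.ne_v hz), sw_off _ (F.ne_u hz) (F.ne_v hz)]
      exact S.dead e z hz hn

/-- the state after the birth; `a`, `b` are the tokens at `x`, `x + 2` -/
theorem sg_birth (S : SG B o X col ι D M) (hb' : Brick o') (hs' : Supp B o') (ho : o' = tog o l x)
    (hx : (x - l) % 2 = 0) (h0 : ¬ al o l x) (h2 : ¬ al o l (x + 2)) {a b : ℚ} (ha : a ∈ X)
    (hb : b ∈ X) (na : ¬ Al o ι a) (nb : ¬ Al o ι b) (hab : D a = b) (hba : D b = a)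
    (la : (l : ℚ) < a ∧ a < (l : ℚ) + 1) (lb : (l : ℚ) < b ∧ b < (l : ℚ) + 1)
    (hca : col a = cl o' l x) (hcb : col b = cl o' l (x + 2))
    (ord0 : if par l = false then a < b else b < a)
    (ord1 : ∀ y, al o l y → y < x → if par l = false then ι l y < a ∧ ι l y < b else
      a < ι l y ∧ b < ι l y)
    (ord2 : ∀ y, al o l y → x < y → if par l = false then a < ι l y ∧ b < ι l y else
      ι l y < a ∧ ι l y < b)
    (hsp : ∀ z ∈ X, ¬ Al o ι z → z ≠ a → z ≠ b → ¬ (z < a ∧ a < D z) ∧ ¬ (z < b ∧ b < D z)) :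
    ∃ M', SG B o' X col (upd ι l x a b) D M' ∧
      (∀ z, Al o' (upd ι l x a b) z ↔ Al o ι z ∨ z = a ∨ z = b) := by
  set ι' := upd ι l x a b with hι'
  have hal : ∀ l' y, al o' l' y ↔ (al o l' y ∨ (l' = l ∧ (y = x ∨ y = x + 2))) := by
    intro l' y
    rw [ho, al_tog]
    split_ifs with h
    · obtain ⟨rfl, h4 | h4⟩ := h
      · subst h4
        exact ⟨fun _ => Or.inr ⟨rfl, Or.inl rfl⟩, fun _ => h0⟩
      · subst h4
        exact ⟨fun _ => Or.inr ⟨rfl, Or.inr rfl⟩, fun _ => h2⟩
    · exact ⟨fun h3 => Or.inl h3, fun h3 => h3.resolve_right h⟩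
  have offp : ∀ l' y, al o l' y → ¬ (l' = l ∧ (y = x ∨ y = x + 2)) := by
    rintro l' y hy ⟨rfl, rfl | rfl⟩
    · exact h0 hy
    · exact h2 hy
  have off : ∀ l' y, al o l' y → ι' l' y = ι l' y := fun l' y hy => upd_off _ _ _ (offp l' y hy)
  have hAl : ∀ z, Al o' ι' z ↔ Al o ι z ∨ z = a ∨ z = b := by
    intro z
    constructor
    · rintro ⟨l', y, hy, rfl⟩
      rcases (hal _ _).1 hy with h | ⟨rfl, rfl | rfl⟩
      · left; exact ⟨l', y, h, (off _ _ h).symm⟩
      · right; left; rw [hι', upd_x]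
      · right; right; rw [hι', upd_x2]
    · rintro (⟨l', y, hy, rfl⟩ | rfl | rfl)
      · exact ⟨l', y, (hal _ _).2 (Or.inl hy), off _ _ hy⟩
      · exact ⟨l, x, (hal _ _).2 (Or.inr ⟨rfl, Or.inl rfl⟩), by rw [hι', upd_x]⟩
      · exact ⟨l, x + 2, (hal _ _).2 (Or.inr ⟨rfl, Or.inr rfl⟩), by rw [hι', upd_x2]⟩
  have ne1 : ∀ y, al o l y → y ≠ x + 1 := fun y hy he => by
    have := S.hb.al_par hy; omega
  have tk' : Tk o' ι' := by
    refine ⟨?_, ?_, ?_, ?_⟩
    · intro l' y h
      rcases (hal _ _).1 h with h | ⟨rfl, rfl | rfl⟩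
      · rw [off _ _ h]; exact S.tk.lo _ _ h
      · rw [hι', upd_x]; exact la.1
      · rw [hι', upd_x2]; exact lb.1
    · intro l' y h
      rcases (hal _ _).1 h with h | ⟨rfl, rfl | rfl⟩
      · rw [off _ _ h]; exact S.tk.hi _ _ h
      · rw [hι', upd_x]; exact la.2
      · rw [hι', upd_x2]; exact lb.2
    · intro l' y z hy hz hlt hp
      rcases (hal _ _).1 hy with hy | ⟨rfl, hy⟩
      · rw [off _ _ hy]
        rcases (hal _ _).1 hz with hz | ⟨rfl, rfl | rfl⟩
        · rw [off _ _ hz]; exact S.tk.ordE _ _ _ hy hz hlt hp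
        · rw [hι', upd_x]
          have := ord1 y hy hlt
          rw [if_pos hp] at this
          exact this.1
        · rw [hι', upd_x2]
          have h3 := ne1 y hy
          have h4 : y ≠ x := fun he => h0 (he ▸ hy)
          have := ord1 y hy (by omega)
          rw [if_pos hp] at this
          exact this.2
      · rcases (hal _ _).1 hz with hz | ⟨-, hz⟩
        · rw [off _ _ hz]
          have := ord2 z hz (by omega)
          rw [if_pos hp] at this
          rcases hy with rfl | rfl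
          · rw [hι', upd_x]; exact this.1
          · rw [hι', upd_x2]; exact this.2
        · have h3 : y = x ∧ z = x + 2 := by omega
          obtain ⟨rfl, rfl⟩ := h3
          rw [hι', upd_x, upd_x2]
          rw [if_pos hp] at ord0
          exact ord0
    · intro l' y z hy hz hlt hp
      rcases (hal _ _).1 hy with hy | ⟨rfl, hy⟩
      · rw [off _ _ hy]
        rcases (hal _ _).1 hz with hz | ⟨rfl, rfl | rfl⟩
        · rw [off _ _ hz]; exact S.tk.ordO _ _ _ hy hz hlt hp
        · rw [hι', upd_x]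
          have := ord1 y hy hlt
          rw [if_neg (by rw [hp]; simp)] at this
          exact this.1
        · rw [hι', upd_x2]
          have h3 := ne1 y hy
          have h4 : y ≠ x := fun he => h0 (he ▸ hy)
          have := ord1 y hy (by omega)
          rw [if_neg (by rw [hp]; simp)] at this
          exact this.2
      · rcases (hal _ _).1 hz with hz | ⟨-, hz⟩
        · rw [off _ _ hz]
          have := ord2 z hz (by omega)
          rw [if_neg (by rw [hp]; simp)] at this
          rcases hy with rfl | rfl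
          · rw [hι', upd_x]; exact this.1
          · rw [hι', upd_x2]; exact this.2
        · have h3 : y = x ∧ z = x + 2 := by omega
          obtain ⟨rfl, rfl⟩ := h3
          rw [hι', upd_x, upd_x2]
          rw [if_neg (by rw [hp]; simp)] at ord0
          exact ord0
  obtain ⟨M', hM1, hM2⟩ := mkM hb' hs' tk' D
  refine ⟨M', ⟨hb', hs', tk', ?_, ?_, ?_, hM1, fun e z _ hz => hM2 e z hz⟩, hAl⟩
  · intro l' y h
    rcases (hal _ _).1 h with h | ⟨rfl, rfl | rfl⟩
    · rw [off _ _ h]; exact S.mem _ _ h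
    · rw [hι', upd_x]; exact ha
    · rw [hι', upd_x2]; exact hb
  · intro l' y h
    rcases (hal _ _).1 h with h1 | ⟨rfl, rfl | rfl⟩
    · rw [off _ _ h1, S.colr _ _ h1]
      exact (cl_off ho hb' hx (offp _ _ h1) h).symm
    · rw [hι', upd_x]; exact hca
    · rw [hι', upd_x2]; exact hcb
  · have old : ∀ z, ¬ Al o' ι' z → ¬ Al o ι z ∧ z ≠ a ∧ z ≠ b := by
      intro z hz
      rw [hAl] at hz
      push Not at hz
      exact hz
    refine ⟨?_, ?_, ?_, ?_, ?_, ?_⟩
    · intro z hz hn
      obtain ⟨g1, g2, g3⟩ := old z hn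
      obtain ⟨g4, g5⟩ := S.dd.mem z hz g1
      refine ⟨g4, fun hh => ?_⟩
      rcases (hAl _).1 hh with h | h | h
      · exact g5 h
      · have := S.dd.inv z hz g1
        rw [h, hab] at this
        exact g3 this.symm
      · have := S.dd.inv z hz g1
        rw [h, hba] at this
        exact g2 this.symm
    · intro z hz hn
      exact S.dd.inv z hz (old z hn).1
    · intro z hz hn
      exact S.dd.colr z hz (old z hn).1
    · intro z hz hn
      exact S.dd.fl z hz (old z hn).1
    · intro z hz hn w hw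
      obtain ⟨g1, g2, g3⟩ := old z hn
      rcases (hAl _).1 hw with h | rfl | rfl
      · exact S.dd.none z hz g1 w h
      · exact (hsp z hz g1 g2 g3).1
      · exact (hsp z hz g1 g2 g3).2
    · intro z hz w hw hn hn'
      exact S.dd.nc z hz w hw (old z hn).1 (old w hn').1

end

end Pool.BW
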