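import Pool.Agent.MP42.BW.Movie

/-!
# The closing lemma (CL) of `Pool.BW.Movie`

Two paths of matchings with common ends are glued to one circular movie: first the path
`M false` forward, then the path `M true` backward.
-/

set_option autoImplicit false

namespace Pool.BW.CL

open Pool.BW

/-- the matchings of the circular movie -/
def F (n : ℕ) (M : Bool → ℕ → ℚ → ℚ) (i : ℕ) : ℚ → ℚ :=
  if i ≤ n then M false i else M true (2 * n - i)

lemma F_lo {n : ℕ} {M : Bool → ℕ → ℚ → ℚ} {i : ℕ} (h : i ≤ n) : F n M i = M false i := by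
  simp [F, h]

lemma F_hi {X : Finset ℚ} {n : ℕ} {M : Bool → ℕ → ℚ → ℚ}
    (hn : ∀ x ∈ X, M false n x = M true n x) {i : ℕ} (h : i ≤ n) :
    ∀ x ∈ X, F n M (2 * n - i) x = M true i x := by
  intro x hx
  rcases Nat.lt_or_ge i n with h1 | h1
  · have h2 : ¬ (2 * n - i ≤ n) := by omega
    have h3 : 2 * n - (2 * n - i) = i := by omega
    simp only [F, h2, if_false, h3]
  · have h2 : i = n := by omega
    subst h2
    have h3 : 2 * i - i = i := by omega
    rw [h3, F_lo le_rfl]
    exact hn x hx

/-- the markings of the circular movie -/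
def Gr (n : ℕ) (G : Bool → ℕ → ℚ → Prop) (i : ℕ) : ℚ → Prop :=
  if i ≤ n then G false i else G true (2 * n - i)

lemma G_lo {n : ℕ} {G : Bool → ℕ → ℚ → Prop} {i : ℕ} (h : i ≤ n) : Gr n G i = G false i := by
  simp [Gr, h]

lemma G_hi {X : Finset ℚ} {n : ℕ} {G : Bool → ℕ → ℚ → Prop}
    (hn : ∀ x ∈ X, (G false n x ↔ G true n x)) {i : ℕ} (h : i ≤ n) :
    ∀ x ∈ X, (Gr n G (2 * n - i) x ↔ G true i x) := by
  intro x hx
  rcases Nat.lt_or_ge i n with h1 | h1
  · have h2 : ¬ (2 * n - i ≤ n) := by omega
    have h3 : 2 * n - (2 * n - i) = i := by omega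
    simp only [Gr, h2, if_false, h3]
  · have h2 : i = n := by omega
    subst h2
    have h3 : 2 * i - i = i := by omega
    rw [h3, G_lo le_rfl]
    exact hn x hx

lemma cyc_swap {x y z : ℚ} (h1 : x ≠ y) (h2 : y ≠ z) (h3 : x ≠ z) :
    cyc x y z ↔ ¬ cyc x z y := by
  unfold cyc
  rcases lt_or_gt_of_ne h1 with a | a <;> rcases lt_or_gt_of_ne h2 with b | b <;>
    rcases lt_or_gt_of_ne h3 with c | c <;>
    simp only [a, b, c, a.not_gt, b.not_gt, c.not_gt] <;> tauto

/-- the reversed saddle -/
lemma sad_rev {X : Finset ℚ} {col : ℚ → Bool} {M M' : ℚ → ℚ} {s : Bool}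
    (hc : ∀ x ∈ X, col (M x) ≠ col x) (hc' : ∀ x ∈ X, col (M' x) ≠ col x)
    (hi : ∀ x ∈ X, M (M x) = x)
    (h : Sad X col M M' s) : Sad X col M' M (!s) := by
  obtain ⟨p, hp, q, hq, r, hr, t, ht, hpr, h1, h2, h3, h4, h5, h6⟩ := h
  refine ⟨p, hp, t, ht, r, hr, q, hq, hpr, h3, h4, h1, h2, ?_, ?_⟩
  · intro z hz z1 z2 z3 z4
    exact (h5 z hz z1 z4 z3 z2).symm
  · have e1 : p ≠ q := by
      intro h
      exact hc p hp (by rw [h1, ← h])
    have e2 : p ≠ t := by
      intro h
      exact hc' p hp (by rw [h3, ← h])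
    have e3 : q ≠ t := by
      intro h
      apply hpr
      rw [← hi p hp, ← hi r hr, h1, h2, h]
    have e4 := cyc_swap e1 e3 e2
    have e5 : ((!s) = true) ↔ ¬ (s = true) := by cases s <;> simp
    rw [e5, h6, e4]
    by_cases k1 : cyc p t q <;> by_cases k2 : col p = true <;> simp [k1, k2]

/-- the saddle in the form of the circular movie -/
lemma sad_black {X : Finset ℚ} {col : ℚ → Bool} {M M' : ℚ → ℚ} {s : Bool}
    (hc : ∀ x ∈ X, col (M x) ≠ col x) (hc' : ∀ x ∈ X, col (M' x) ≠ col x)
    (hi : ∀ x ∈ X, M (M x) = x) (hi' : ∀ x ∈ X, M' (M' x) = x)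
    (hnc : ∀ x ∈ X, ∀ y ∈ X, ¬ (x < y ∧ y < M x ∧ M x < M y))
    (hnc' : ∀ x ∈ X, ∀ y ∈ X, ¬ (x < y ∧ y < M' x ∧ M' x < M' y))
    (h : Sad X col M M' s) :
    ∃ a ∈ X, ∃ c ∈ X, a ≠ c ∧ col a = true ∧ col c = true ∧ M' a = M c ∧ M' c = M a ∧
      (∀ z ∈ X, col z = true → z ≠ a → z ≠ c → M' z = M z) ∧
      ((!s) = true ↔ cyc a (M c) (M a)) := by
  obtain ⟨p, hp, q, hq, r, hr, t, ht, hpr, h1, h2, h3, h4, h5, h6⟩ := h
  have c1 : col q ≠ col p := by rw [← h1]; exact hc p hp
  have c2 : col t ≠ col r := by rw [← h2]; exact hc r hr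
  have c3 : col t ≠ col p := by rw [← h3]; exact hc' p hp
  have c4 : col q ≠ col r := by rw [← h4]; exact hc' r hr
  have e1 : p ≠ q := by
    intro h; rw [h] at c1; exact c1 rfl
  have e2 : p ≠ t := by
    intro h; rw [h] at c3; exact c3 rfl
  have e3 : q ≠ t := by
    intro h
    apply hpr
    rw [← hi p hp, ← hi r hr, h1, h2, h]
  have e5 : r ≠ t := by
    intro h; rw [h] at c2; exact c2 rfl
  have e6 : q ≠ r := by
    intro h; rw [h] at c4; exact c4 rfl
  have e4 := cyc_swap e1 e3 e2
  have es : ((!s) = true) ↔ ¬ (s = true) := by cases s <;> simp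
  have q1 : M q = p := by rw [← h1]; exact hi p hp
  have t1 : M t = r := by rw [← h2]; exact hi r hr
  have q2 : M' q = r := by rw [← h4]; exact hi' r hr
  have t2 : M' t = p := by rw [← h3]; exact hi' p hp
  cases hcp : col p with
  | true =>
    have b2 : col r = true := by
      rw [hcp] at c1
      cases hq' : col q with
      | true => exact absurd hq' c1
      | false => cases hr' : col r with
        | true => rfl
        | false => rw [hq', hr'] at c4; exact absurd rfl c4
    have w1 : col q = false := by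
      cases hq' : col q with
      | true => rw [hcp, hq'] at c1; exact absurd rfl c1
      | false => rfl
    have w2 : col t = false := by
      cases hq' : col t with
      | true => rw [hcp, hq'] at c3; exact absurd rfl c3
      | false => rfl
    refine ⟨p, hp, r, hr, hpr, hcp, b2, by rw [h3, h2], by rw [h4, h1], ?_, ?_⟩
    · intro z hz zc z1 z2
      refine h5 z hz z1 ?_ z2 ?_
      · intro h; rw [h, w1] at zc; exact absurd zc (by simp)
      · intro h; rw [h, w2] at zc; exact absurd zc (by simp)
    · rw [es, h6, h1, h2, e4, hcp]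
      simp
  | false =>
    have w2 : col r = false := by
      rw [hcp] at c1
      cases hr' : col r with
      | false => rfl
      | true => cases hq' : col q with
        | true => rw [hq', hr'] at c4; exact absurd rfl c4
        | false => exact absurd hq' c1
    have b1 : col q = true := by
      cases hq' : col q with
      | true => rfl
      | false => rw [hcp, hq'] at c1; exact absurd rfl c1
    have b2 : col t = true := by
      cases hq' : col t with
      | true => rfl
      | false => rw [hcp, hq'] at c3; exact absurd rfl c3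
    refine ⟨q, hq, t, ht, e3, b1, b2, by rw [q2, t1], by rw [t2, q1], ?_, ?_⟩
    · intro z hz zc z1 z2
      refine h5 z hz ?_ z1 ?_ z2
      · intro h; rw [h, hcp] at zc; exact absurd zc (by simp)
      · intro h; rw [h, w2] at zc; exact absurd zc (by simp)
    · rw [es, h6, q1, t1, hcp]
      have key : cyc p q t ↔ cyc q r p := by
        have n1 := hnc p hp r hr
        have n2 := hnc p hp t ht
        have n3 := hnc q hq r hr
        have n4 := hnc q hq t ht
        have n5 := hnc r hr p hp
        have n6 := hnc r hr q hq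
        have n7 := hnc t ht p hp
        have n8 := hnc t ht q hq
        have m1 := hnc' p hp r hr
        have m2 := hnc' p hp q hq
        have m3 := hnc' t ht r hr
        have m4 := hnc' t ht q hq
        have m5 := hnc' r hr p hp
        have m6 := hnc' r hr t ht
        have m7 := hnc' q hq p hp
        have m8 := hnc' q hq t ht
        rw [h1, h2] at n1
        rw [h1, t1] at n2
        rw [q1, h2] at n3
        rw [q1, t1] at n4
        rw [h2, h1] at n5
        rw [h2, q1] at n6
        rw [t1, h1] at n7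
        rw [t1, q1] at n8
        rw [h3, h4] at m1
        rw [h3, q2] at m2
        rw [t2, h4] at m3
        rw [t2, q2] at m4
        rw [h4, h3] at m5
        rw [h4, t2] at m6
        rw [q2, h3] at m7
        rw [q2, t2] at m8
        unfold cyc
        rcases lt_or_gt_of_ne e1 with a | a <;> rcases lt_or_gt_of_ne e2 with b | b <;>
          rcases lt_or_gt_of_ne e3 with c | c <;> rcases lt_or_gt_of_ne e5 with d | d <;>
          rcases lt_or_gt_of_ne e6 with e | e <;> rcases lt_or_gt_of_ne hpr with f | f <;>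
          simp only [a, b, c, d, e, f, a.not_gt, b.not_gt, c.not_gt, d.not_gt, e.not_gt,
            f.not_gt, and_true, and_false, or_true, or_false, not_true_eq_false,
            not_false_iff] at *
      rw [key]
      simp

/-- the statement of `Pool.CM.circular_movie_mirror` (helper20) for positions in `ℚ` -/
def Mirror : Prop :=
  ∀ (X : Type) [Fintype X] (pos : X → ℚ) (_ : Function.Injective pos) (col : X → Bool)
    (T : ℕ) (m : ℕ → X → X) (sg : ℕ → Bool) (K : Finset ℕ)
    (_ : ∀ i ≤ T, ∀ x, m i (m i x) = x)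
    (_ : ∀ i ≤ T, ∀ x, col (m i x) ≠ col x)
    (_ : ∀ i ≤ T, ∀ x y,
      ¬ (pos x < pos y ∧ pos y < pos (m i x) ∧ pos (m i x) < pos (m i y)))
    (_ : m T = m 0)
    (_ : ∀ i < T, i ∉ K → m (i + 1) = m i)
    (_ : ∀ i < T, i ∈ K → ∃ a c, a ≠ c ∧ col a = true ∧ col c = true ∧
      m (i + 1) a = m i c ∧ m (i + 1) c = m i a ∧
      (∀ z, col z = true → z ≠ a → z ≠ c → m (i + 1) z = m i z) ∧
      (sg i = true ↔ cyc (pos a) (pos (m i c)) (pos (m i a))))
    (_ : K.card + 2 ≤ Fintype.card X)
    (_ : ∀ p : X → Prop, (∀ i ≤ T, ∀ x, p x ↔ p (m i x)) → ∀ x y, p x ↔ p y)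
    (g : ℕ → X → Prop)
    (_ : ∀ i ≤ T, ∀ x, g i x ↔ g i (m i x))
    (_ : ∀ i < T, sg i = true → ∀ b, col b = true → (g i b ↔ g (i + 1) b))
    (_ : ∀ i < T, sg i = false → ∀ w, col w = false → (g i w ↔ g (i + 1) w))
    (_ : ∀ x, g T x ↔ g 0 x),
    ∀ i ≤ T, ∀ j ≤ T, ∀ x y, g i x ↔ g j y

/-- CL: the closing lemma of `Pool.BW.Movie` from the circular movie theorem -/
theorem closing_of (H : Mirror) {X : Finset ℚ} {col : ℚ → Bool} {n : ℕ} {A : ℕ → Bool} {M : Bool → ℕ → ℚ → ℚ}
    {K : Bool → Finset ℕ} (hP : ∀ e, Path X col n A (M e) (K e))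
    (h0 : ∀ x ∈ X, M false 0 x = M true 0 x) (hn : ∀ x ∈ X, M false n x = M true n x)
    (hK : (K false).card + (K true).card + 2 ≤ X.card)
    (htr : ∀ p : ℚ → Prop, (∀ e, ∀ i, i ≤ n → ∀ x ∈ X, (p x ↔ p (M e i x))) →
      ∀ x ∈ X, ∀ y ∈ X, (p x ↔ p y))
    {G : Bool → ℕ → ℚ → Prop}
    (hG : ∀ e, ∀ i, i ≤ n → ∀ x ∈ X, (G e i x ↔ G e i (M e i x)))
    (hk : ∀ e, ∀ i, i < n → ∀ x ∈ X, col x = (e == A i) → (G e i x ↔ G e (i + 1) x))
    (hG0 : ∀ x ∈ X, (G false 0 x ↔ G true 0 x)) (hGn : ∀ x ∈ X, (G false n x ↔ G true n x)) :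
    ∃ c : Prop, ∀ e, ∀ i, i ≤ n → ∀ x ∈ X, (G e i x ↔ c) := by
  classical
  -- every time of the circular movie comes from a time of one of the two paths
  have split : ∀ i ≤ 2 * n, ∃ (e : Bool) (j : ℕ), j ≤ n ∧ (i = if e then 2 * n - j else j) := by
    intro i hi
    rcases Nat.lt_or_ge n i with h | h
    · exact ⟨true, 2 * n - i, by omega, by simp; omega⟩
    · exact ⟨false, i, h, by simp⟩
  have FF : ∀ e j, j ≤ n → ∀ x ∈ X, F n M (if e then 2 * n - j else j) x = M e j x := by
    intro e j hj x hx
    cases e with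
    | false => simp [F_lo hj]
    | true => simpa using F_hi hn hj x hx
  have GG : ∀ e j, j ≤ n → ∀ x ∈ X, (Gr n G (if e then 2 * n - j else j) x ↔ G e j x) := by
    intro e j hj x hx
    cases e with
    | false => simp [G_lo hj]
    | true => simpa using G_hi hGn hj x hx
  have Fmem : ∀ i ≤ 2 * n, ∀ x ∈ X, F n M i x ∈ X := by
    intro i hi x hx
    obtain ⟨e, j, hj, rfl⟩ := split i hi
    rw [FF e j hj x hx]
    exact (hP e).mem j hj x hx
  let m : ℕ → {x // x ∈ X} → {x // x ∈ X} := fun i x =>
    if h : F n M i x.1 ∈ X then ⟨F n M i x.1, h⟩ else x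
  have mval : ∀ i ≤ 2 * n, ∀ x : {x // x ∈ X}, (m i x : ℚ) = F n M i x := by
    intro i hi x
    have h := Fmem i hi x.1 x.2
    simp only [m, h, dif_pos]
  have mval' : ∀ e j, j ≤ n → ∀ x : {x // x ∈ X},
      (m (if e then 2 * n - j else j) x : ℚ) = M e j x := by
    intro e j hj x
    rw [mval (if e then 2 * n - j else j) (by split_ifs <;> omega), FF e j hj x x.2]
  let g : ℕ → {x // x ∈ X} → Prop := fun i x => Gr n G i x
  have gval' : ∀ e j, j ≤ n → ∀ x : {x // x ∈ X},
      (g (if e then 2 * n - j else j) x ↔ G e j x) := by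
    intro e j hj x
    exact GG e j hj x x.2
  let sg : ℕ → Bool := fun i => if i < n then !(A i) else A (2 * n - 1 - i)
  let KK : Finset ℕ := K false ∪ (K true).image (fun i => 2 * n - 1 - i)
  have KKlo : ∀ i, i < n → (i ∈ KK ↔ i ∈ K false) := by
    intro i hi
    simp only [KK, Finset.mem_union, Finset.mem_image]
    constructor
    · rintro (h | ⟨j, hj, h⟩)
      · exact h
      · have := (hP true).sub j hj
        omega
    · exact fun h => Or.inl h
  have KKhi : ∀ i, n ≤ i → i < 2 * n → (i ∈ KK ↔ 2 * n - 1 - i ∈ K true) := by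
    intro i hi hi2
    simp only [KK, Finset.mem_union, Finset.mem_image]
    constructor
    · rintro (h | ⟨j, hj, h⟩)
      · have := (hP false).sub i h
        omega
      · have := (hP true).sub j hj
        have e : 2 * n - 1 - i = j := by omega
        rw [e]
        exact hj
    · intro h
      exact Or.inr ⟨_, h, by omega⟩
  have main := H {x // x ∈ X} (fun x => x.1)
    Subtype.val_injective (fun x => col x.1) (2 * n) m sg KK
    ?hinv ?hcol ?hnc ?hclosed ?hid ?hstep ?hK ?htrans g ?hg ?hgw ?hgb ?hgc
  case hinv =>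
    intro i hi x
    obtain ⟨e, j, hj, rfl⟩ := split i hi
    apply Subtype.ext
    rw [mval' e j hj, mval' e j hj]
    exact (hP e).inv j hj x x.2
  case hcol =>
    intro i hi x
    obtain ⟨e, j, hj, rfl⟩ := split i hi
    rw [mval' e j hj]
    exact (hP e).colr j hj x x.2
  case hnc =>
    intro i hi x y
    obtain ⟨e, j, hj, rfl⟩ := split i hi
    rw [mval' e j hj, mval' e j hj]
    exact (hP e).nc j hj x x.2 y y.2
  case hclosed =>
    funext x
    apply Subtype.ext
    have h1 := mval' true 0 (Nat.zero_le n) x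
    have h2 := mval' false 0 (Nat.zero_le n) x
    simp only [if_true, Nat.sub_zero, Bool.false_eq_true, if_false] at h1 h2
    rw [h1, h2]
    exact (h0 x x.2).symm
  case hid =>
    intro i hi hiK
    funext x
    apply Subtype.ext
    rcases Nat.lt_or_ge i n with h | h
    · have h1 := mval' false i (by omega) x
      have h2 := mval' false (i + 1) (by omega) x
      simp only [Bool.false_eq_true, if_false] at h1 h2
      rw [h1, h2]
      rw [KKlo i h] at hiK
      exact (hP false).same i h hiK x x.2
    · have h1 := mval' true (2 * n - i) (by omega) x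
      have h2 := mval' true (2 * n - 1 - i) (by omega) x
      simp only [if_true] at h1 h2
      have e1 : 2 * n - (2 * n - i) = i := by omega
      have e2 : 2 * n - (2 * n - 1 - i) = i + 1 := by omega
      rw [e1] at h1
      rw [e2] at h2
      rw [h1, h2]
      rw [KKhi i h hi] at hiK
      have e3 := (hP true).same (2 * n - 1 - i) (by omega) hiK x x.2
      have e4 : 2 * n - 1 - i + 1 = 2 * n - i := by omega
      rw [e4] at e3
      exact e3.symm
  case hstep =>
    intro i hi hiK
    rcases Nat.lt_or_ge i n with h | h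
    · rw [KKlo i h] at hiK
      have hs := (hP false).sad i h hiK
      obtain ⟨a, ha, c, hc, hac, ca, cc, e1, e2, e3, e4⟩ :=
        sad_black ((hP false).colr i (by omega)) ((hP false).colr (i + 1) (by omega))
          ((hP false).inv i (by omega)) ((hP false).inv (i + 1) (by omega))
          ((hP false).nc i (by omega)) ((hP false).nc (i + 1) (by omega)) hs
      have v1 : ∀ x : {x // x ∈ X}, (m i x : ℚ) = M false i x := fun x => by
        simpa using mval' false i (by omega) x
      have v2 : ∀ x : {x // x ∈ X}, (m (i + 1) x : ℚ) = M false (i + 1) x := fun x => by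
        simpa using mval' false (i + 1) (by omega) x
      refine ⟨⟨a, ha⟩, ⟨c, hc⟩, fun h => hac (congrArg Subtype.val h), ca, cc, ?_, ?_, ?_, ?_⟩
      · apply Subtype.ext
        rw [v2, v1]
        exact e1
      · apply Subtype.ext
        rw [v2, v1]
        exact e2
      · intro z hz z1 z2
        apply Subtype.ext
        rw [v2, v1]
        exact e3 z z.2 hz (fun h => z1 (Subtype.ext h)) (fun h => z2 (Subtype.ext h))
      · have e5 : sg i = !(A i) := by simp only [sg, h, if_true]
        rw [e5, v1, v1]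
        exact e4
    · rw [KKhi i h hi] at hiK
      have hj1 : 2 * n - 1 - i < n := by omega
      have hj2 : 2 * n - 1 - i + 1 = 2 * n - i := by omega
      have hs := sad_rev ((hP true).colr _ hj1.le) ((hP true).colr _ hj1)
        ((hP true).inv _ hj1.le) ((hP true).sad _ hj1 hiK)
      obtain ⟨a, ha, c, hc, hac, ca, cc, e1, e2, e3, e4⟩ :=
        sad_black ((hP true).colr _ hj1) ((hP true).colr _ hj1.le)
          ((hP true).inv _ hj1) ((hP true).inv _ hj1.le)
          ((hP true).nc _ hj1) ((hP true).nc _ hj1.le) hs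
      have v1 : ∀ x : {x // x ∈ X}, (m i x : ℚ) = M true (2 * n - 1 - i + 1) x := fun x => by
        have h1 := mval' true (2 * n - i) (by omega) x
        simp only [if_true] at h1
        have e1 : 2 * n - (2 * n - i) = i := by omega
        rw [e1] at h1
        rw [h1, hj2]
      have v2 : ∀ x : {x // x ∈ X}, (m (i + 1) x : ℚ) = M true (2 * n - 1 - i) x := fun x => by
        have h2 := mval' true (2 * n - 1 - i) (by omega) x
        simp only [if_true] at h2
        have e2 : 2 * n - (2 * n - 1 - i) = i + 1 := by omega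
        rw [e2] at h2
        exact h2
      refine ⟨⟨a, ha⟩, ⟨c, hc⟩, fun h => hac (congrArg Subtype.val h), ca, cc, ?_, ?_, ?_, ?_⟩
      · apply Subtype.ext
        rw [v2, v1]
        exact e1
      · apply Subtype.ext
        rw [v2, v1]
        exact e2
      · intro z hz z1 z2
        apply Subtype.ext
        rw [v2, v1]
        exact e3 z z.2 hz (fun h => z1 (Subtype.ext h)) (fun h => z2 (Subtype.ext h))
      · have e5 : sg i = A (2 * n - 1 - i) := by
          have : ¬ (i < n) := by omega
          simp only [sg, this, if_false]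
        rw [e5, v1, v1]
        rw [Bool.not_not] at e4
        exact e4
  case hK =>
    rw [Fintype.card_coe]
    have h1 : KK.card ≤ (K false).card + (K true).card :=
      (Finset.card_union_le _ _).trans (Nat.add_le_add_left Finset.card_image_le _)
    omega
  case htrans =>
    intro p hp x y
    have h := htr (fun x => ∃ h : x ∈ X, p ⟨x, h⟩) ?_ x x.2 y y.2
    · constructor
      · intro hx
        obtain ⟨h', h2⟩ := h.1 ⟨x.2, hx⟩
        exact h2
      · intro hy
        obtain ⟨h', h2⟩ := h.2 ⟨y.2, hy⟩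
        exact h2
    · intro e j hj x hx
      have h1 := hp (if e then 2 * n - j else j) (by split_ifs <;> omega) ⟨x, hx⟩
      have h2 : m (if e then 2 * n - j else j) ⟨x, hx⟩ = ⟨M e j x, (hP e).mem j hj x hx⟩ :=
        Subtype.ext (mval' e j hj ⟨x, hx⟩)
      rw [h2] at h1
      constructor
      · rintro ⟨_, h3⟩
        exact ⟨(hP e).mem j hj x hx, h1.1 h3⟩
      · rintro ⟨_, h3⟩
        exact ⟨hx, h1.2 h3⟩
  case hg =>
    intro i hi x
    obtain ⟨e, j, hj, rfl⟩ := split i hi
    rw [gval' e j hj, gval' e j hj, mval' e j hj]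
    exact hG e j hj x x.2
  case hgw =>
    intro i hi hs x hx
    rcases Nat.lt_or_ge i n with h | h
    · have h1 := gval' false i (by omega) x
      have h2 := gval' false (i + 1) (by omega) x
      simp only [Bool.false_eq_true, if_false] at h1 h2
      rw [h1, h2]
      refine hk false i h x x.2 ?_
      simp only [sg, h, if_true] at hs
      have : A i = false := by simpa using hs
      rw [hx, this]
      rfl
    · have h1 := gval' true (2 * n - i) (by omega) x
      have h2 := gval' true (2 * n - 1 - i) (by omega) x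
      simp only [if_true] at h1 h2
      have e1 : 2 * n - (2 * n - i) = i := by omega
      have e2 : 2 * n - (2 * n - 1 - i) = i + 1 := by omega
      rw [e1] at h1
      rw [e2] at h2
      rw [h1, h2]
      have h3 : ¬ (i < n) := by omega
      simp only [sg, h3, if_false] at hs
      have h4 := hk true (2 * n - 1 - i) (by omega) x x.2 (by rw [hx, hs]; rfl)
      have e4 : 2 * n - 1 - i + 1 = 2 * n - i := by omega
      rw [e4] at h4
      exact h4.symm
  case hgb =>
    intro i hi hs x hx
    rcases Nat.lt_or_ge i n with h | h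
    · have h1 := gval' false i (by omega) x
      have h2 := gval' false (i + 1) (by omega) x
      simp only [Bool.false_eq_true, if_false] at h1 h2
      rw [h1, h2]
      refine hk false i h x x.2 ?_
      simp only [sg, h, if_true] at hs
      have : A i = true := by simpa using hs
      rw [hx, this]
      rfl
    · have h1 := gval' true (2 * n - i) (by omega) x
      have h2 := gval' true (2 * n - 1 - i) (by omega) x
      simp only [if_true] at h1 h2
      have e1 : 2 * n - (2 * n - i) = i := by omega
      have e2 : 2 * n - (2 * n - 1 - i) = i + 1 := by omega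
      rw [e1] at h1
      rw [e2] at h2
      rw [h1, h2]
      have h3 : ¬ (i < n) := by omega
      simp only [sg, h3, if_false] at hs
      have h4 := hk true (2 * n - 1 - i) (by omega) x x.2 (by rw [hx, hs]; rfl)
      have e4 : 2 * n - 1 - i + 1 = 2 * n - i := by omega
      rw [e4] at h4
      exact h4.symm
  case hgc =>
    intro x
    have h1 := gval' true 0 (Nat.zero_le n) x
    have h2 := gval' false 0 (Nat.zero_le n) x
    simp only [if_true, Nat.sub_zero, Bool.false_eq_true, if_false] at h1 h2
    rw [h1, h2]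
    exact (hG0 x x.2).symm
  -- the conclusion
  have hne : 0 < X.card := by omega
  obtain ⟨x0, hx0⟩ := Finset.card_pos.1 hne
  refine ⟨g 0 ⟨x0, hx0⟩, ?_⟩
  intro e i hi x hx
  rw [← gval' e i hi ⟨x, hx⟩]
  exact main (if e then 2 * n - i else i) (by split_ifs <;> omega) 0 (Nat.zero_le _) _ _

end Pool.BW.CL
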