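import Pool.Agent.MP42.BW.RunL

/-!
# The change of the Euler characteristic at a toggle (helper50, T1)
-/

set_option autoImplicit false

namespace Pool.BW

/-- there is a saddle in the strip with the values `c`, `d`; `a`, `b` = there are points at `x`,
`x + 2` -/
def sadp (a b c d : Bool) : Bool :=
  if a then (if b then !(c && d) else (!c && d)) else (if b then (c && !d) else (c || d))

/-- there is a saddle in the strip of class `e` -/
def sadb (o : St) (l x : ℤ) (e : Bool) : Bool :=
  sadp (o l (x - 1) != o l x) (o l (x + 1) != o l (x + 2)) (cc o (stp e l) x)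
    (cc o (stp e l) (x + 1))

def n1 (b : Bool) : ℤ := if b then 1 else 0

/-- the sum over the six corners of a brick -/
def six (a m b d0 d1 u0 u1 : Bool) : ℤ :=
  cv a m d0 + cv d0 d1 m + cv m b d1 + cv a m u0 + cv u0 u1 m + cv m b u1

lemma six_count : ∀ a m b d0 d1 u0 u1 : Bool,
    six a true b d0 d1 u0 u1 - six a false b d0 d1 u0 u1 =
      6 * (n1 (a == b) - n1 (sadp (a != m) (m != b) (xor d0 m) (xor d1 m)) -
        n1 (sadp (a != m) (m != b) (xor m u0) (xor m u1))) := by decide

lemma sum_six (o : St) (hb : Brick o) {l x : ℤ} (hx : (x - l) % 2 = 0) :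
    ∑ k ∈ ({l, l + 1} : Finset ℤ), ∑ y ∈ ({x, x + 1, x + 2} : Finset ℤ), vx o k y =
      six (o l (x - 1)) (o l x) (o l (x + 2)) (o (l - 1) x) (o (l - 1) (x + 1)) (o (l + 1) x)
        (o (l + 1) (x + 1)) := by
  have s3 : ∀ f : ℤ → ℤ, ∑ y ∈ ({x, x + 1, x + 2} : Finset ℤ), f y = f x + f (x + 1) + f (x + 2) := by
    intro f
    rw [Finset.sum_insert, Finset.sum_insert, Finset.sum_singleton]
    · ring
    · simp
    · simp
  rw [Finset.sum_insert (by simp), Finset.sum_singleton, s3, s3]
  have r1 : row l x = l := row_eq hx (Or.inl rfl)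
  have r2 : row l (x + 1) = l - 1 := row_eq (by omega) (Or.inr (by ring))
  have r3 : row l (x + 2) = l := row_eq (by omega) (Or.inl rfl)
  have r4 : row (l + 1) x = l := row_eq hx (Or.inr rfl)
  have r5 : row (l + 1) (x + 1) = l + 1 := row_eq (by omega) (Or.inl rfl)
  have r6 : row (l + 1) (x + 2) = l := row_eq (by omega) (Or.inr rfl)
  have b1 : o l (x + 1) = o l x := (hb l x hx).symm
  have b2 : o (l - 1) (x + 2) = o (l - 1) (x + 1) := by
    have := hb (l - 1) (x + 1) (by omega)
    rw [show x + 1 + 1 = x + 2 by ring] at this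
    exact this.symm
  have b3 : o (l + 1) (x + 2) = o (l + 1) (x + 1) := by
    have := hb (l + 1) (x + 1) (by omega)
    rw [show x + 1 + 1 = x + 2 by ring] at this
    exact this.symm
  unfold vx six
  rw [r1, r2, r3, r4, r5, r6, show x + 1 - 1 = x by ring, show x + 2 - 1 = x + 1 by ring,
    show 2 * l - 1 - l = l - 1 by ring, show 2 * l - 1 - (l - 1) = l by ring,
    show 2 * (l + 1) - 1 - l = l + 1 by ring, show 2 * (l + 1) - 1 - (l + 1) = l by ring, b1, b2, b3]
  ring

lemma vx_tog_off (o : St) {l x k y : ℤ} (hx : (x - l) % 2 = 0)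
    (h : ¬ (k ∈ ({l, l + 1} : Finset ℤ) ∧ y ∈ ({x, x + 1, x + 2} : Finset ℤ))) :
    vx (tog o l x) k y = vx o k y := by
  simp only [Finset.mem_insert, Finset.mem_singleton] at h
  obtain ⟨r1, r2⟩ := row_spec k y
  have key : ∀ l' y', ¬ (l' = l ∧ (y' = x ∨ y' = x + 1)) → tog o l x l' y' = o l' y' := by
    intro l' y' hh
    unfold tog
    rw [if_neg hh]
  unfold vx
  rw [key, key, key]
  · rcases r2 with r2 | r2 <;> rw [r2] <;> omega
  · omega
  · omega

/-- the change of the Euler characteristic -/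
theorem chi_step {B : ℤ} {o : St} (hb : Brick o) {l x : ℤ} (hx : (x - l) % 2 = 0)
    (hb' : Brick (tog o l x)) (hB : -B < l ∧ l < B ∧ -B < x ∧ x + 1 < B) :
    sgn (tog o l x l x) * (chi6 B (tog o l x) - chi6 B o) =
      6 * (n1 (o l (x - 1) == o l (x + 2)) - n1 (sadb o l x false) - n1 (sadb o l x true)) := by
  set o' := tog o l x with ho'
  have h1 : chi6 B o' - chi6 B o =
      ∑ k ∈ ({l, l + 1} : Finset ℤ), ∑ y ∈ ({x, x + 1, x + 2} : Finset ℤ), (vx o' k y - vx o k y) := by
    unfold chi6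
    rw [← Finset.sum_sub_distrib]
    have h2 : ∀ k ∈ Finset.Icc (-B) B, (∑ y ∈ Finset.Icc (-B) B, vx o' k y - ∑ y ∈ Finset.Icc (-B) B, vx o k y)
        = ∑ y ∈ Finset.Icc (-B) B, (vx o' k y - vx o k y) := fun k _ => (Finset.sum_sub_distrib _ _).symm
    rw [Finset.sum_congr rfl h2]
    have h3 : ({l, l + 1} : Finset ℤ) ⊆ Finset.Icc (-B) B := by
      intro k hk
      simp only [Finset.mem_insert, Finset.mem_singleton] at hk
      rw [Finset.mem_Icc]; omega
    have h4 : ({x, x + 1, x + 2} : Finset ℤ) ⊆ Finset.Icc (-B) B := by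
      intro k hk
      simp only [Finset.mem_insert, Finset.mem_singleton] at hk
      rw [Finset.mem_Icc]; omega
    rw [← Finset.sum_subset h3]
    · refine Finset.sum_congr rfl fun k _ => ?_
      rw [← Finset.sum_subset h4]
      intro y _ hy
      rw [ho', vx_tog_off o hx (fun hh => hy hh.2)]
      ring
    · intro k _ hk
      refine Finset.sum_eq_zero fun y _ => ?_
      rw [ho', vx_tog_off o hx (fun hh => hk hh.1)]
      ring
  have h5 : chi6 B o' - chi6 B o =
      ∑ k ∈ ({l, l + 1} : Finset ℤ), ∑ y ∈ ({x, x + 1, x + 2} : Finset ℤ), vx o' k y -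
      ∑ k ∈ ({l, l + 1} : Finset ℤ), ∑ y ∈ ({x, x + 1, x + 2} : Finset ℤ), vx o k y := by
    rw [h1, ← Finset.sum_sub_distrib]
    refine Finset.sum_congr rfl fun k _ => ?_
    rw [Finset.sum_sub_distrib]
  rw [h5, sum_six o' hb' hx, sum_six o hb hx]
  have t0 : o' l (x - 1) = o l (x - 1) := by rw [ho']; exact tog_off ⟨by omega, by omega⟩
  have t1 : o' l x = !(o l x) := by rw [ho']; exact tog_at (Or.inl rfl)
  have t2 : o' l (x + 2) = o l (x + 2) := by rw [ho']; exact tog_off ⟨by omega, by omega⟩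
  have t3 : ∀ y, o' (l - 1) y = o (l - 1) y := fun y => by rw [ho']; exact tog_ne_row (by omega) y
  have t4 : ∀ y, o' (l + 1) y = o (l + 1) y := fun y => by rw [ho']; exact tog_ne_row (by omega) y
  rw [t0, t1, t2, t3, t3, t4, t4]
  have b1 : o l (x + 1) = o l x := (hb l x hx).symm
  have key := six_count (o l (x - 1)) (o l x) (o l (x + 2)) (o (l - 1) x) (o (l - 1) (x + 1))
    (o (l + 1) x) (o (l + 1) (x + 1))
  have hs : n1 (sadb o l x false) + n1 (sadb o l x true) =
      n1 (sadp (o l (x - 1) != o l x) (o l x != o l (x + 2)) (xor (o (l - 1) x) (o l x))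
        (xor (o (l - 1) (x + 1)) (o l x))) +
      n1 (sadp (o l (x - 1) != o l x) (o l x != o l (x + 2)) (xor (o l x) (o (l + 1) x))
        (xor (o l x) (o (l + 1) (x + 1)))) := by
    unfold sadb
    rw [b1]
    cases hp : par l with
    | false =>
      have e1 : stp false l = l := by unfold stp; rw [if_pos hp]
      have e2 : stp true l = l + 1 := by unfold stp; rw [if_neg (by rw [hp]; simp)]
      rw [e1, e2]
      unfold cc
      rw [show l + 1 - 1 = l by ring, b1]
    | true =>
      have e1 : stp true l = l := by unfold stp; rw [if_pos hp]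
      have e2 : stp false l = l + 1 := by unfold stp; rw [if_neg (by rw [hp]; simp)]
      rw [e1, e2]
      unfold cc
      rw [show l + 1 - 1 = l by ring, b1]
      ring
  have hm : sgn (!(o l x)) * (six (o l (x - 1)) (!(o l x)) (o l (x + 2)) (o (l - 1) x)
      (o (l - 1) (x + 1)) (o (l + 1) x) (o (l + 1) (x + 1)) -
      six (o l (x - 1)) (o l x) (o l (x + 2)) (o (l - 1) x)
      (o (l - 1) (x + 1)) (o (l + 1) x) (o (l + 1) (x + 1))) =
      six (o l (x - 1)) true (o l (x + 2)) (o (l - 1) x)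
      (o (l - 1) (x + 1)) (o (l + 1) x) (o (l + 1) (x + 1)) -
      six (o l (x - 1)) false (o l (x + 2)) (o (l - 1) x)
      (o (l - 1) (x + 1)) (o (l + 1) x) (o (l + 1) (x + 1)) := by
    cases o l x <;> simp [sgn]
  rw [hm, key]
  linarith

end Pool.BW
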