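import Pool.Agent.MP42.BW.AppL

/-!
# The induction (helper50, T1)
-/

set_option autoImplicit false

namespace Pool.BW

open Tk (T)

open Classical in
/-- number of tokens without a point -/
noncomputable def dcard (o : St) (ι : ℤ → ℤ → ℚ) (X : Finset ℚ) : ℕ :=
  (X.filter (fun z => ¬ Al o ι z)).card

/-- the sum of the changes of the Euler characteristic -/
noncomputable def Sm (B : ℤ) (A : ℕ → Bool) (O : ℕ → St) (n : ℕ) : ℤ :=
  ∑ i ∈ Finset.range n, sgn (A i) * (chi6 B (O (i + 1)) - chi6 B (O i))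

/-- the induction hypothesis -/
def Ind (B : ℤ) (A : ℕ → Bool) (O : ℕ → St) (γ : Bool → ℕ → ℤ → ℤ → Prop) (n : ℕ) : Prop :=
  ∃ (X : Finset ℚ) (col : ℚ → Bool) (ι : ℕ → ℤ → ℤ → ℚ) (D : ℚ → ℚ) (M : Bool → ℕ → ℚ → ℚ)
    (K : Bool → Finset ℕ) (G : Bool → ℕ → ℚ → Prop), TM B n O A γ X col ι D M K G ∧
    (∀ z ∈ X, ∃ i, i ≤ n ∧ ∃ l y, al (O i) l y ∧ ι i l y = z) ∧
    3 * ((X.card : ℤ) + dcard (O n) (ι n) X) =
      Sm B A O n + 6 * (((K false).card : ℤ) + (K true).card)

lemma no_al {o : St} (h : ∀ l x, o l x = false) (l x : ℤ) : ¬ al o l x := by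
  unfold al; rw [h, h]; simp

theorem ind_zero {N : ℕ} {B : ℤ} {O : ℕ → St} {A : ℕ → Bool} (h : Mv N B O A)
    (γ : Bool → ℕ → ℤ → ℤ → Prop) : Ind B A O γ 0 := by
  have hna := no_al h.zero
  have hnr : ∀ k a b, ¬ Run (cc (O 0) k) a b := by
    intro k a b hr
    have := hr.2.2.2 a le_rfl hr.1
    unfold cc at this
    rw [h.zero, h.zero] at this
    simp at this
  refine ⟨∅, fun _ => false, fun _ _ _ => 0, id, fun _ _ => id, fun _ => ∅, fun _ _ _ => True, ?_,
    ?_, ?_⟩
  · refine ⟨?_, ?_, ?_, ?_, ?_, ?_, ?_, ?_, ?_, ?_, ?_, ?_, ?_⟩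
    · intro e
      refine ⟨?_, ?_, ?_, ?_, ?_, ?_, ?_⟩
      · intro i _ z hz; exact absurd hz (Finset.notMem_empty _)
      · intro i _ z hz; rfl
      · intro i _ z hz; exact absurd hz (Finset.notMem_empty _)
      · intro i _ z hz; exact absurd hz (Finset.notMem_empty _)
      · intro i hi; exact absurd hi (Finset.notMem_empty _)
      · intro i hi; omega
      · intro i hi; omega
    · intro i hi
      obtain rfl : i = 0 := by omega
      exact h.brick 0 (Nat.zero_le _)
    · refine ⟨h.brick 0 (Nat.zero_le _), h.supp 0 (Nat.zero_le _), ?_, ?_, ?_, ?_, ?_, ?_⟩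
      · exact ⟨fun l x hx => absurd hx (hna l x), fun l x hx => absurd hx (hna l x),
          fun l x y hx => absurd hx (hna l x), fun l x y hx => absurd hx (hna l x)⟩
      · exact fun l x hx => absurd hx (hna l x)
      · exact fun l x hx => absurd hx (hna l x)
      · refine ⟨?_, ?_, ?_, ?_, ?_, ?_⟩ <;> intro z hz <;> exact absurd hz (Finset.notMem_empty _)
      · exact fun k a b hr => absurd hr (hnr k a b)
      · intro e z hz; exact absurd hz (Finset.notMem_empty _)
    · intro z hz; exact absurd hz (Finset.notMem_empty _)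
    · intro i hi l x hx
      obtain rfl : i = 0 := by omega
      exact absurd hx (hna l x)
    · intro i hi k a b hr
      obtain rfl : i = 0 := by omega
      exact absurd hr (hnr k a b)
    · intro i hi; omega
    · intro i hi; omega
    · intro e i _ z hz; exact absurd hz (Finset.notMem_empty _)
    · intro e i hi; omega
    · intro e i hi l x hx
      obtain rfl : i = 0 := by omega
      exact absurd hx (hna l x)
    · intro z hz; exact absurd hz (Finset.notMem_empty _)
    · intro z hz; exact absurd hz (Finset.notMem_empty _)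
  · intro z hz; exact absurd hz (Finset.notMem_empty _)
  · simp [dcard, Sm]

lemma bne_al {o : St} {l x : ℤ} : (o l (x - 1) != o l x) = true ↔ al o l x := by
  unfold al; simp

lemma bne_al2 {o : St} {l x : ℤ} : (o l (x + 1) != o l (x + 2)) = true ↔ al o l (x + 2) := by
  unfold al; rw [show x + 2 - 1 = x + 1 by ring]; simp

lemma bne_nal {o : St} {l x : ℤ} : (o l (x - 1) != o l x) = false ↔ ¬ al o l x := by
  rw [← bne_al]; simp

lemma bne_nal2 {o : St} {l x : ℤ} : (o l (x + 1) != o l (x + 2)) = false ↔ ¬ al o l (x + 2) := by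
  rw [← bne_al2]; simp

/-- surjectivity after appending -/
lemma surj_app {n : ℕ} {O : ℕ → St} {X : Finset ℚ} {ι : ℕ → ℤ → ℤ → ℚ} {ι' : ℤ → ℤ → ℚ}
    (h : ∀ z ∈ X, (∃ i, i ≤ n ∧ ∃ l y, al (O i) l y ∧ ι i l y = z) ∨ Al (O (n + 1)) ι' z) :
    ∀ z ∈ X, ∃ i, i ≤ n + 1 ∧ ∃ l y, al (O i) l y ∧ app n ι ι' i l y = z := by
  intro z hz
  rcases h z hz with ⟨i, hi, l, y, h1, h2⟩ | ⟨l, y, h1, h2⟩
  · exact ⟨i, by omega, l, y, h1, by rw [app_le _ _ hi]; exact h2⟩
  · exact ⟨n + 1, le_rfl, l, y, h1, by rw [app_succ]; exact h2⟩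

lemma sm_succ (B : ℤ) (A : ℕ → Bool) (O : ℕ → St) (n : ℕ) :
    Sm B A O (n + 1) = Sm B A O n + sgn (A n) * (chi6 B (O (n + 1)) - chi6 B (O n)) := by
  unfold Sm; rw [Finset.sum_range_succ]

lemma card_ite (K : Finset ℕ) (K2 : Finset ℕ) (s : Bool)
    (h : K2.card = K.card + (if s then 1 else 0)) : (K2.card : ℤ) = K.card + n1 s := by
  rw [h]; unfold n1; cases s <;> simp

/-- the brick is in the box and the type of the step is the new value -/
lemma tog_facts {N n : ℕ} {B : ℤ} {O : ℕ → St} {A : ℕ → Bool} (h : Mv N B O A) (hn : n < N)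
    {l x : ℤ} (hx : (x - l) % 2 = 0) (ho : O (n + 1) = tog (O n) l x) :
    (-B < l ∧ l < B ∧ -B < x ∧ x + 1 < B) ∧ O (n + 1) l x = A n := by
  have e0 : O (n + 1) l x = !(O n l x) := by rw [ho, tog_at (Or.inl rfl)]
  have e1 : O n l (x + 1) = O n l x := (h.brick n (by omega) l x hx).symm
  have e2 : O (n + 1) l (x + 1) = O (n + 1) l x := (h.brick (n + 1) (by omega) l x hx).symm
  refine ⟨?_, ?_⟩
  · cases hv : O n l x with
    | true =>
      rw [hv] at e1
      have h1 := h.supp n (by omega) l x hv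
      have h2 := h.supp n (by omega) l (x + 1) e1
      exact ⟨h1.1, h1.2.1, h1.2.2.1, h2.2.2.2⟩
    | false =>
      rw [hv] at e0
      rw [e0] at e2
      have h1 := h.supp (n + 1) (by omega) l x e0
      have h2 := h.supp (n + 1) (by omega) l (x + 1) e2
      exact ⟨h1.1, h1.2.1, h1.2.2.1, h2.2.2.2⟩
  · cases hA : A n with
    | true =>
      have := h.add n hn hA l x
      cases hv : O n l x <;> rw [hv] at e0 this
      · exact e0
      · rw [this rfl] at e0; cases e0
    | false =>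
      have := h.rem n hn hA l x
      cases hv : O (n + 1) l x
      · rfl
      · rw [hv] at e0 this
        rw [this rfl] at e0; cases e0

/-- the changed brick -/
lemma tog_brick {o : St} {l x l' x' : ℤ} (hx : (x - l) % 2 = 0) (hx' : (x' - l') % 2 = 0)
    (h : o l' x' ≠ tog o l x l' x') : l' = l ∧ x' = x := by
  unfold tog at h
  split_ifs at h with hh
  · obtain ⟨rfl, h1 | h1⟩ := hh
    · exact ⟨rfl, h1⟩
    · omega
  · exact absurd rfl h

/-- identity steps -/
theorem ind_id {N n : ℕ} {B : ℤ} {O : ℕ → St} {A : ℕ → Bool}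
    {γ : Bool → ℕ → ℤ → ℤ → Prop} {W : ℕ → ℤ → ℤ → Prop} (hF : Fam N O A γ W) (hn : n < N)
    (ho : O (n + 1) = O n) (hI : Ind B A O γ n) : Ind B A O γ (n + 1) := by
  obtain ⟨X, col, ι, D, M, K, G, H, hsur, hcnt⟩ := hI
  have S' : SG B (O (n + 1)) X col (ι n) D (fun e => M e n) := by rw [ho]; exact H.cur
  obtain ⟨K2, G2, H2, hK2⟩ := tm_append hn hF H S' (fun _ => false) (fun e _ z _ => rfl)
    (fun e he => by simp at he) (fun l x _ _ => rfl)
    (fun l x _ hne => absurd (by rw [ho]) hne)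
    (fun l y l' y' h1 h2 he => by
      rw [ho] at h2
      obtain ⟨rfl, rfl⟩ := H.cur.tk.inj h1 h2 he
      exact Iff.rfl)
    (fun l' y' h1 h2 => by
      rw [ho] at h1
      exact absurd ⟨l', y', h1, rfl⟩ h2)
    (fun l y h1 h2 => by
      rw [ho] at h2
      exact absurd ⟨l, y, h1, rfl⟩ h2)
    (fun z _ _ _ => rfl)
  refine ⟨X, col, _, D, _, K2, G2, H2, surj_app (fun z hz => Or.inl (hsur z hz)), ?_⟩
  rw [sm_succ, ho, app_succ, hK2, hK2]
  simp only [Bool.false_eq_true, if_false, add_zero, sub_self, mul_zero]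
  exact hcnt

end Pool.BW
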