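import Pool.Agent.MP42.BW.Core

/-!
# The induction step for a toggle (helper50, T1)
-/

set_option autoImplicit false

namespace Pool.BW

open Tk (T)

section

variable {N n : ℕ} {B : ℤ} {O : ℕ → St} {A : ℕ → Bool} {γ : Bool → ℕ → ℤ → ℤ → Prop}
  {W : ℕ → ℤ → ℤ → Prop} {l x : ℤ}

theorem ind_death (h : Mv N B O A) (hF : Fam N O A γ W) (hn : n < N) (hx : (x - l) % 2 = 0)
    (ho : O (n + 1) = tog (O n) l x) (h0 : al (O n) l x) (h2 : al (O n) l (x + 2))
    (hI : Ind B A O γ n) : Ind B A O γ (n + 1) := by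
  classical
  obtain ⟨X, col, ι, D, M, K, G, H, hsur, hcnt⟩ := hI
  obtain ⟨hbox, hA⟩ := tog_facts h hn hx ho
  obtain ⟨M', S', hAl⟩ := sg_death H.cur (h.brick (n + 1) (by omega)) (h.supp (n + 1) (by omega))
    ho hx h0 h2
  set D' : ℚ → ℚ := fun z => if z = ι n l x then ι n l (x + 2) else
    if z = ι n l (x + 2) then ι n l x else D z with hD'
  have hab : ι n l x ≠ ι n l (x + 2) := fun he => by
    have := (H.cur.tk.inj h0 h2 he).2; omega
  have Da : D' (ι n l x) = ι n l (x + 2) := by rw [hD']; simp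
  have Db : D' (ι n l (x + 2)) = ι n l x := by rw [hD']; simp [hab.symm]
  have Doff : ∀ z, z ≠ ι n l x → z ≠ ι n l (x + 2) → D' z = D z := by
    intro z g1 g2; rw [hD']; simp [g1, g2]
  have hal : ∀ l' y, al (O (n + 1)) l' y → al (O n) l' y := by
    intro l' y hy
    rw [ho, al_tog] at hy
    split_ifs at hy with hh
    · obtain ⟨rfl, rfl | rfl⟩ := hh
      · exact absurd h0 hy
      · exact absurd h2 hy
    · exact hy
  have hring : W n l x ↔ W n l (x + 2) := by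
    refine hF.ring n hn l x hx ?_
    rw [ho, tog_at (Or.inl rfl)]
    cases O n l x <;> simp
  have na : ¬ Al (O (n + 1)) (ι n) (ι n l x) := fun hh => ((hAl _).1 hh).2.1 rfl
  have nb : ¬ Al (O (n + 1)) (ι n) (ι n l (x + 2)) := fun hh => ((hAl _).1 hh).2.2 rfl
  have hAc : ∀ z ∈ X, ¬ Al (O n) (ι n) z → ¬ Al (O (n + 1)) (ι n) z ∧ D' z = D z := by
    intro z _ hz
    refine ⟨fun hh => hz ((hAl z).1 hh).1, Doff z ?_ ?_⟩
    · rintro rfl; exact hz ⟨_, _, h0, rfl⟩
    · rintro rfl; exact hz ⟨_, _, h2, rfl⟩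
  have step := fun e => step_death H.cur S' ho hx h0 h2 (fun _ _ _ _ => rfl) hAc na nb Da Db e
  have hsad : ∀ e, sadb (O n) l x e =
      !(cc (O n) (stp e l) x && cc (O n) (stp e l) (x + 1)) := by
    intro e
    unfold sadb sadp
    rw [bne_al.2 h0, bne_al2.2 h2]
    simp
  obtain ⟨K2, G2, H2, hK2⟩ := tm_append hn hF H S' (sadb (O n) l x)
    (fun e he => (step e).1 (by rw [← hsad]; exact he))
    (fun e he => by
      have := (step e).2 (by rw [← hsad]; exact he)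
      rw [hA] at this; exact this)
    (fun _ _ _ _ => rfl)
    (fun l' x' hx' hne => by
      rw [ho] at hne
      obtain ⟨rfl, rfl⟩ := tog_brick hx hx' hne
      refine ⟨_, _, Or.inl ⟨h0, rfl⟩, Or.inl ⟨h2, rfl⟩, H.cur.mem _ _ h0, H.cur.mem _ _ h2,
        Or.inr (Or.inr ⟨false, ?_⟩)⟩
      rw [S'.dead false _ (H.cur.mem _ _ h0) na, Da])
    (fun l1 y l' y' g1 g2 he => by
      obtain ⟨rfl, rfl⟩ := H.cur.tk.inj g1 (hal _ _ g2) he
      exact Iff.rfl)
    (fun l' y' g1 g2 => absurd ⟨l', y', hal _ _ g1, rfl⟩ g2)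
    (fun l1 y g1 g2 => by
      have g3 : ι n l1 y = ι n l x ∨ ι n l1 y = ι n l (x + 2) := by
        by_contra hh
        push Not at hh
        exact g2 ((hAl _).2 ⟨⟨_, _, g1, rfl⟩, hh.1, hh.2⟩)
      rcases g3 with g3 | g3
      · obtain ⟨rfl, rfl⟩ := H.cur.tk.inj g1 h0 g3
        exact ⟨_, _, h2, Da, hring⟩
      · obtain ⟨rfl, rfl⟩ := H.cur.tk.inj g1 h2 g3
        exact ⟨_, _, h0, Db, hring.symm⟩)
    (fun z hz _ g2 => (hAc z hz g2).2)
  refine ⟨X, col, _, D', _, K2, G2, H2, surj_app (fun z hz => Or.inl (hsur z hz)), ?_⟩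
  -- count
  have hb' : Brick (tog (O n) l x) := by rw [← ho]; exact h.brick (n + 1) (by omega)
  have hchi := chi_step (H.cur.hb) hx hb' hbox
  rw [← ho, hA] at hchi
  have e1 : (O n l (x - 1) == O n l (x + 2)) = true := by
    have g1 := h0
    have g2 := h2
    unfold al at g1 g2
    rw [show x + 2 - 1 = x + 1 by ring, ← H.cur.hb l x hx] at g2
    cases hv1 : O n l (x - 1) <;> cases hv2 : O n l x <;> cases hv3 : O n l (x + 2) <;>
      rw [hv1, hv2] at g1 <;> rw [hv2, hv3] at g2 <;> simp at g1 g2 ⊢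
  rw [e1] at hchi
  have hd : dcard (O (n + 1)) (ι n) X = dcard (O n) (ι n) X + 2 := by
    unfold dcard
    have : X.filter (fun z => ¬ Al (O (n + 1)) (ι n) z) =
        insert (ι n l x) (insert (ι n l (x + 2)) (X.filter (fun z => ¬ Al (O n) (ι n) z))) := by
      ext z
      rw [Finset.mem_filter, Finset.mem_insert, Finset.mem_insert, Finset.mem_filter, hAl]
      constructor
      · rintro ⟨g1, g2⟩
        by_cases g3 : z = ι n l x
        · exact Or.inl g3
        by_cases g4 : z = ι n l (x + 2)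
        · exact Or.inr (Or.inl g4)
        exact Or.inr (Or.inr ⟨g1, fun hh => g2 ⟨hh, g3, g4⟩⟩)
      · rintro (rfl | rfl | ⟨g1, g2⟩)
        · exact ⟨H.cur.mem _ _ h0, fun hh => hh.2.1 rfl⟩
        · exact ⟨H.cur.mem _ _ h2, fun hh => hh.2.2 rfl⟩
        · exact ⟨g1, fun hh => g2 hh.1⟩
    rw [this, Finset.card_insert_of_notMem, Finset.card_insert_of_notMem]
    · rw [Finset.mem_filter]
      rintro ⟨-, g⟩
      exact g ⟨_, _, h2, rfl⟩
    · rw [Finset.mem_insert, Finset.mem_filter]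
      rintro (g | ⟨-, g⟩)
      · exact hab g
      · exact g ⟨_, _, h0, rfl⟩
  rw [sm_succ, hchi, app_succ, hd, card_ite _ _ _ (hK2 false), card_ite _ _ _ (hK2 true)]
  have : n1 true = 1 := rfl
  rw [this]
  push_cast
  linarith

theorem ind_jogR (h : Mv N B O A) (hF : Fam N O A γ W) (hn : n < N) (hx : (x - l) % 2 = 0)
    (ho : O (n + 1) = tog (O n) l x) (h0 : al (O n) l x) (h2 : ¬ al (O n) l (x + 2))
    (hI : Ind B A O γ n) : Ind B A O γ (n + 1) := by
  classical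
  obtain ⟨X, col, ι, D, M, K, G, H, hsur, hcnt⟩ := hI
  obtain ⟨hbox, hA⟩ := tog_facts h hn hx ho
  obtain ⟨M', S', hAl⟩ := sg_jogR H.cur (h.brick (n + 1) (by omega)) (h.supp (n + 1) (by omega))
    ho hx h0 h2
  set ι' := upd (ι n) l x (ι n l x) (ι n l x) with hι'
  have hal : ∀ l' y, al (O (n + 1)) l' y →
      (al (O n) l' y ∧ ¬ (l' = l ∧ (y = x ∨ y = x + 2))) ∨ (l' = l ∧ y = x + 2) := by
    intro l' y hy
    rw [ho, al_tog] at hy
    split_ifs at hy with hh
    · obtain ⟨rfl, rfl | rfl⟩ := hh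
      · exact absurd h0 hy
      · exact Or.inr ⟨rfl, rfl⟩
    · exact Or.inl ⟨hy, hh⟩
  have hring : W n l x ↔ W n l (x + 2) := by
    refine hF.ring n hn l x hx ?_
    rw [ho, tog_at (Or.inl rfl)]
    cases O n l x <;> simp
  have hι : ∀ l' y, al (O n) l' y → al (O (n + 1)) l' y → ι' l' y = ι n l' y := by
    intro l' y g1 g2
    rcases hal _ _ g2 with ⟨-, g3⟩ | ⟨rfl, rfl⟩
    · exact upd_off _ _ _ g3
    · exact absurd g1 h2
  have hu : ι' l (x + 2) = ι n l x := upd_x2 _ _ _ _ _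
  have hAc : ∀ z ∈ X, ¬ Al (O (n + 1)) ι' z → ¬ Al (O n) (ι n) z ∧ D z = D z := by
    intro z _ hz
    exact ⟨fun hh => hz ((hAl z).2 hh), rfl⟩
  have step := fun e => step_jogR H.cur S' ho hx h0 h2 hι hAc hu e
  have hsad : ∀ e, sadb (O n) l x e =
      (!(cc (O n) (stp e l) x) && cc (O n) (stp e l) (x + 1)) := by
    intro e
    unfold sadb sadp
    rw [bne_al.2 h0, bne_nal2.2 h2]
    simp
  obtain ⟨K2, G2, H2, hK2⟩ := tm_append hn hF H S' (sadb (O n) l x)
    (fun e he => (step e).1 (by rw [← hsad]; exact he))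
    (fun e he => by
      have := (step e).2 (by rw [← hsad]; exact he)
      rw [hA] at this; exact this)
    (fun l' y g1 g2 => hι l' y g1 g2)
    (fun l' x' hx' hne => by
      rw [ho] at hne
      obtain ⟨rfl, rfl⟩ := tog_brick hx hx' hne
      exact ⟨_, _, Or.inl ⟨h0, rfl⟩, Or.inr ⟨h2, rfl⟩, H.cur.mem _ _ h0,
        by rw [hu]; exact H.cur.mem _ _ h0, Or.inl hu.symm⟩)
    (fun l1 y l' y' g1 g2 he => by
      rcases hal _ _ g2 with ⟨g3, g4⟩ | ⟨rfl, rfl⟩
      · rw [hι _ _ g3 g2] at he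
        obtain ⟨rfl, rfl⟩ := H.cur.tk.inj g1 g3 he
        exact Iff.rfl
      · rw [hu] at he
        obtain ⟨rfl, rfl⟩ := H.cur.tk.inj g1 h0 he
        exact hring)
    (fun l' y' g1 g2 => absurd ((hAl _).1 ⟨l', y', g1, rfl⟩) g2)
    (fun l1 y g1 g2 => absurd ((hAl _).2 ⟨_, _, g1, rfl⟩) g2)
    (fun z hz _ _ => rfl)
  refine ⟨X, col, _, D, _, K2, G2, H2, surj_app (fun z hz => Or.inl (hsur z hz)), ?_⟩
  have hb' : Brick (tog (O n) l x) := by rw [← ho]; exact h.brick (n + 1) (by omega)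
  have hchi := chi_step (H.cur.hb) hx hb' hbox
  rw [← ho, hA] at hchi
  have e1 : (O n l (x - 1) == O n l (x + 2)) = false := by
    have g1 := h0
    have g2 := h2
    unfold al at g1 g2
    rw [show x + 2 - 1 = x + 1 by ring, ← H.cur.hb l x hx] at g2
    cases hv1 : O n l (x - 1) <;> cases hv2 : O n l x <;> cases hv3 : O n l (x + 2) <;>
      rw [hv1, hv2] at g1 <;> rw [hv2, hv3] at g2 <;> simp at g1 g2 ⊢
  rw [e1] at hchi
  have hd : dcard (O (n + 1)) ι' X = dcard (O n) (ι n) X := by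
    unfold dcard
    congr 1
    ext z
    rw [Finset.mem_filter, Finset.mem_filter, hAl]
  rw [sm_succ, hchi, app_succ, hd, card_ite _ _ _ (hK2 false), card_ite _ _ _ (hK2 true)]
  have : n1 false = 0 := rfl
  rw [this]
  linarith

theorem ind_jogL (h : Mv N B O A) (hF : Fam N O A γ W) (hn : n < N) (hx : (x - l) % 2 = 0)
    (ho : O (n + 1) = tog (O n) l x) (h0 : ¬ al (O n) l x) (h2 : al (O n) l (x + 2))
    (hI : Ind B A O γ n) : Ind B A O γ (n + 1) := by
  classical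
  obtain ⟨X, col, ι, D, M, K, G, H, hsur, hcnt⟩ := hI
  obtain ⟨hbox, hA⟩ := tog_facts h hn hx ho
  obtain ⟨M', S', hAl⟩ := sg_jogL H.cur (h.brick (n + 1) (by omega)) (h.supp (n + 1) (by omega))
    ho hx h0 h2
  set ι' := upd (ι n) l x (ι n l (x + 2)) (ι n l (x + 2)) with hι'
  have hal : ∀ l' y, al (O (n + 1)) l' y →
      (al (O n) l' y ∧ ¬ (l' = l ∧ (y = x ∨ y = x + 2))) ∨ (l' = l ∧ y = x) := by
    intro l' y hy
    rw [ho, al_tog] at hy
    split_ifs at hy with hh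
    · obtain ⟨rfl, rfl | rfl⟩ := hh
      · exact Or.inr ⟨rfl, rfl⟩
      · exact absurd h2 hy
    · exact Or.inl ⟨hy, hh⟩
  have hring : W n l x ↔ W n l (x + 2) := by
    refine hF.ring n hn l x hx ?_
    rw [ho, tog_at (Or.inl rfl)]
    cases O n l x <;> simp
  have hι : ∀ l' y, al (O n) l' y → al (O (n + 1)) l' y → ι' l' y = ι n l' y := by
    intro l' y g1 g2
    rcases hal _ _ g2 with ⟨-, g3⟩ | ⟨rfl, rfl⟩
    · exact upd_off _ _ _ g3
    · exact absurd g1 h0
  have hu : ι' l x = ι n l (x + 2) := upd_x _ _ _ _ _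
  have hAc : ∀ z ∈ X, ¬ Al (O n) (ι n) z → ¬ Al (O (n + 1)) ι' z ∧ D z = D z := by
    intro z _ hz
    exact ⟨fun hh => hz ((hAl z).1 hh), rfl⟩
  have step := fun e => step_jogL H.cur S' ho hx h0 h2 hι hAc hu e
  have hsad : ∀ e, sadb (O n) l x e =
      (cc (O n) (stp e l) x && !(cc (O n) (stp e l) (x + 1))) := by
    intro e
    unfold sadb sadp
    rw [bne_nal.2 h0, bne_al2.2 h2]
    simp
  obtain ⟨K2, G2, H2, hK2⟩ := tm_append hn hF H S' (sadb (O n) l x)
    (fun e he => (step e).1 (by rw [← hsad]; exact he))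
    (fun e he => by
      have := (step e).2 (by rw [← hsad]; exact he)
      rw [hA] at this; exact this)
    (fun l' y g1 g2 => hι l' y g1 g2)
    (fun l' x' hx' hne => by
      rw [ho] at hne
      obtain ⟨rfl, rfl⟩ := tog_brick hx hx' hne
      exact ⟨_, _, Or.inr ⟨h0, rfl⟩, Or.inl ⟨h2, rfl⟩, by rw [hu]; exact H.cur.mem _ _ h2,
        H.cur.mem _ _ h2, Or.inl hu⟩)
    (fun l1 y l' y' g1 g2 he => by
      rcases hal _ _ g2 with ⟨g3, g4⟩ | ⟨rfl, rfl⟩
      · rw [hι _ _ g3 g2] at he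
        obtain ⟨rfl, rfl⟩ := H.cur.tk.inj g1 g3 he
        exact Iff.rfl
      · rw [hu] at he
        obtain ⟨rfl, rfl⟩ := H.cur.tk.inj g1 h2 he
        exact hring.symm)
    (fun l' y' g1 g2 => absurd ((hAl _).1 ⟨l', y', g1, rfl⟩) g2)
    (fun l1 y g1 g2 => absurd ((hAl _).2 ⟨_, _, g1, rfl⟩) g2)
    (fun z hz _ _ => rfl)
  refine ⟨X, col, _, D, _, K2, G2, H2, surj_app (fun z hz => Or.inl (hsur z hz)), ?_⟩
  have hb' : Brick (tog (O n) l x) := by rw [← ho]; exact h.brick (n + 1) (by omega)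
  have hchi := chi_step (H.cur.hb) hx hb' hbox
  rw [← ho, hA] at hchi
  have e1 : (O n l (x - 1) == O n l (x + 2)) = false := by
    have g1 := h0
    have g2 := h2
    unfold al at g1 g2
    rw [show x + 2 - 1 = x + 1 by ring, ← H.cur.hb l x hx] at g2
    cases hv1 : O n l (x - 1) <;> cases hv2 : O n l x <;> cases hv3 : O n l (x + 2) <;>
      rw [hv1, hv2] at g1 <;> rw [hv2, hv3] at g2 <;> simp at g1 g2 ⊢
  rw [e1] at hchi
  have hd : dcard (O (n + 1)) ι' X = dcard (O n) (ι n) X := by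
    unfold dcard
    congr 1
    ext z
    rw [Finset.mem_filter, Finset.mem_filter, hAl]
  rw [sm_succ, hchi, app_succ, hd, card_ite _ _ _ (hK2 false), card_ite _ _ _ (hK2 true)]
  have : n1 false = 0 := rfl
  rw [this]
  linarith

end

end Pool.BW
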