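import Mathlib

/-!
# Brick wall movies: definitions

A state is a solid region in a brick wall: rows `l : ℤ`, fine positions `x : ℤ`; the bricks of the
row `l` are `{x, x + 1}` with `x ≡ l (mod 2)`.  The strip `k` lies between the rows `k - 1` and `k`.
-/

set_option autoImplicit false

namespace Pool.BW

/-- a state of the brick wall: row `l`, fine position `x` -/
abbrev St := ℤ → ℤ → Bool

def Brick (o : St) : Prop := ∀ l x : ℤ, (x - l) % 2 = 0 → o l x = o l (x + 1)

/-- the solid positions are inside the box -/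
def Supp (B : ℤ) (o : St) : Prop := ∀ l x, o l x = true → -B < l ∧ l < B ∧ -B < x ∧ x < B

/-- parity class of rows and strips: `true` = odd -/
def par (k : ℤ) : Bool := decide (k % 2 = 1)

/-- there is a point of the row `l` at the position `x` -/
def al (o : St) (l x : ℤ) : Prop := o l (x - 1) ≠ o l x

/-- the function of the strip `k`: the rows `k - 1` and `k` differ -/
def cc (o : St) (k x : ℤ) : Bool := xor (o (k - 1) x) (o k x)

/-- the row of the points of the strip `k` at the position `x` -/
def row (k x : ℤ) : ℤ := if (x - k) % 2 = 0 then k else k - 1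

/-- maximal intervals `[a, b)` of `c` -/
def Run (c : ℤ → Bool) (a b : ℤ) : Prop :=
  a < b ∧ c (a - 1) = false ∧ c b = false ∧ ∀ x, a ≤ x → x < b → c x = true

/-- colour of a point, `true` = black: in even rows the fronts are black, in odd rows the backs -/
def cl (o : St) (l x : ℤ) : Bool := xor (o l x) (par l)

/-- change of one brick -/
def tog (o : St) (l x : ℤ) : St := fun l' y => if l' = l ∧ (y = x ∨ y = x + 1) then !(o l' y) else o l' y

/-- corner value: one of three bricks solid `1`, two of three `-1` -/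
def cv (a b c : Bool) : ℤ :=
  if (a && b && c) || !(a || b || c) then 0
  else if (a && b) || (b && c) || (a && c) then -1 else 1

/-- the value of the vertex `(k, x)`; it lies on the strip `k` -/
def vx (o : St) (k x : ℤ) : ℤ := cv (o (row k x) (x - 1)) (o (row k x) x) (o (2 * k - 1 - row k x) x)

/-- six times the Euler characteristic of a state -/
noncomputable def chi6 (B : ℤ) (o : St) : ℤ := ∑ k ∈ Finset.Icc (-B) B, ∑ x ∈ Finset.Icc (-B) B, vx o k x

/-- sign of a step: `true` = bricks are added -/
def sgn (b : Bool) : ℤ := if b then 1 else -1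

/-- monotone movies of states from nothing to nothing -/
structure Mv (n : ℕ) (B : ℤ) (O : ℕ → St) (A : ℕ → Bool) : Prop where
  brick : ∀ i, i ≤ n → Brick (O i)
  supp : ∀ i, i ≤ n → Supp B (O i)
  zero : ∀ l x, O 0 l x = false
  last : ∀ l x, O n l x = false
  add : ∀ i, i < n → A i = true → ∀ l x, O i l x = true → O (i + 1) l x = true
  rem : ∀ i, i < n → A i = false → ∀ l x, O (i + 1) l x = true → O i l x = true

/-- the surface is connected -/
def Tr (n : ℕ) (O : ℕ → St) : Prop :=
  ∀ φ W : ℕ → ℤ → ℤ → Prop,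
    (∀ i, i ≤ n → ∀ k a b, Run (cc (O i) k) a b → (φ i (row k a) a ↔ φ i (row k b) b)) →
    (∀ i, i < n → ∀ l x, al (O i) l x → (φ i l x ↔ W i l x)) →
    (∀ i, i < n → ∀ l x, al (O (i + 1)) l x → (φ (i + 1) l x ↔ W i l x)) →
    (∀ i, i < n → ∀ l x, (x - l) % 2 = 0 → O i l x ≠ O (i + 1) l x → (W i l x ↔ W i l (x + 2))) →
    ∀ i, i ≤ n → ∀ j, j ≤ n → ∀ l x l' x', al (O i) l x → al (O j) l' x' → (φ i l x ↔ φ j l' x')

/-- consistent families: `γ e i l x` is the value of the strand of the arc at the point `(l, x)` in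
the strip of class `e`, at the time `i`; `W i l x` is the value of the ring at the step `i` -/
structure Fam (n : ℕ) (O : ℕ → St) (A : ℕ → Bool) (γ : Bool → ℕ → ℤ → ℤ → Prop)
    (W : ℕ → ℤ → ℤ → Prop) : Prop where
  run : ∀ i, i ≤ n → ∀ k a b, Run (cc (O i) k) a b →
    (γ (par k) i (row k a) a ↔ γ (par k) i (row k b) b)
  left : ∀ i, i < n → ∀ e l x, al (O i) l x → cl (O i) l x = (e == A i) → (γ e i l x ↔ W i l x)
  right : ∀ i, i < n → ∀ e l x, al (O (i + 1)) l x → cl (O (i + 1)) l x = (e == A i) →
    (γ e (i + 1) l x ↔ W i l x)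
  ring : ∀ i, i < n → ∀ l x, (x - l) % 2 = 0 → O i l x ≠ O (i + 1) l x → (W i l x ↔ W i l (x + 2))

/-- every step changes at most one brick -/
def Single (n : ℕ) (O : ℕ → St) : Prop :=
  ∀ i, i < n → O (i + 1) = O i ∨ ∃ l x, (x - l) % 2 = 0 ∧ O (i + 1) = tog (O i) l x

end Pool.BW
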