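import Pool.Agent.MP42.BW.PDefs
import Pool.Agent.MP42.NE.FLay3

/-!
# T7: from the dictionary to the edge unfolding

All rings carry one strand.  The lines of a slab carry one strand with letter NE if the solid grows
at its west plane and shrinks at its east plane, one strand with letter SE if it shrinks at its
west plane and grows at its east plane, and no strand otherwise.
-/

set_option autoImplicit false

namespace Pool.BW

open Pool.Agent.Helper55.UNF Pool.Agent.Helper55.UNF.GridSolid Pool.Agent.MP42 Pool.Agent.MP42.NE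

/-- the flux of a slab -/
def fx (A : ℤ → Bool) (x : ℤ) : ℤ :=
  if A x = true ∧ A (x + 1) = false then 1
  else if A x = false ∧ A (x + 1) = true then -1 else 0

lemma exists_planes {P : GridSolid} (h : GenX P) : ∃ A, Planes P A := by
  classical
  have hs : ∀ x j l : ℤ, sec P x j l = true ↔ (![x, j, l] : Fin 3 → ℤ) ∈ P.cells := by
    intro x j l; unfold sec; simp
  refine ⟨fun x => decide (∀ j l, sec P (x - 1) j l = true → sec P x j l = true), ?_, ?_⟩
  · intro x j l hA hc
    exact of_decide_eq_true hA j l hc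
  · intro x j l hA hc
    by_contra hc'
    have hA' := of_decide_eq_false hA
    push Not at hA'
    obtain ⟨j', l', h1, h2⟩ := hA'
    rw [hs] at h1 hc
    rw [Ne, hs] at h2
    rw [hs] at hc'
    have e1 : shift (![x - 1, j', l'] : Fin 3 → ℤ) (0, true) = ![x, j', l'] := by
      ext i; fin_cases i <;> simp [shift]
    have e2 : shift (![x, j, l] : Fin 3 → ℤ) (0, false) = ![x - 1, j, l] := by
      ext i; fin_cases i <;> simp [shift, sub_eq_add_neg]
    have f1 : P.IsFacet (![x - 1, j', l'], ((0, true) : Dir)) := ⟨h1, by rw [e1]; exact h2⟩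
    have f2 : P.IsFacet (![x, j, l], ((0, false) : Dir)) := ⟨hc, by rw [e2]; exact hc'⟩
    exact h _ _ f1 f2 (by simp)

section

variable {P : GridSolid}

lemma sl_r2 (d : Dart P) : sl (r2D P d) = sl d := rfl

lemma e_rN (d : Dart P) : (rN P d).1.1.e = d.1.1.e := by
  have key : ∀ n : ℕ, ((pN ^ n) d.1).1.e = d.1.1.e := by
    intro n
    induction n with
    | zero => rfl
    | succ n ih => rw [pow_succ', Equiv.Perm.mul_apply, stN_e', ih]
  show (retFun pN IsDart d.1).1.e = _
  rw [retFun_eq]
  exact key _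

lemma can_rN' {d : Dart P} (h : Can d) : Can (rN P d) := by
  unfold Can
  rw [e_rN]
  exact h

lemma e_dart (d : Dart P) : d.1.1.e = (0, true) ∨ d.1.1.e = (0, false) := by
  have h : d.1.1.e.1 = 0 := d.2.2
  rcases h2 : d.1.1.e with ⟨a, b⟩
  rw [h2] at h
  cases b
  · right; rw [← h]
  · left; rw [← h]

lemma can_r2' (d : Dart P) : Can (r2D P d) ↔ ¬ Can d := by
  show opp d.1.1.e = (0, true) ↔ ¬ d.1.1.e = (0, true)
  rcases e_dart d with h | h <;> rw [h] <;> decide

lemma xe_can' {d : Dart P} (h : Can d) : xe d = sl d + 1 := by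
  unfold xe sl
  have : d.1.1.e = (0, true) := h
  rw [this]
  simp

lemma xw_can' {d : Dart P} (h : Can d) : xw d = sl d := by
  unfold xw sl
  have : d.1.1.e = (0, true) := h
  rw [this]
  simp

lemma sl_rN (hsl : ∀ d : Dart P, Can d → sl (rN P d) = sl d) (d : Dart P) :
    sl (rN P d) = sl d := by
  by_cases h : Can d
  · exact hsl d h
  · have h1 : Can (r2D P (rN P d)) := by
      rw [can_r2']
      unfold Can
      rw [e_rN]
      exact h
    have h2 := hsl _ h1
    have h3 : r2D P (rN P (r2D P (rN P d))) = d := (sysP P).rN d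
    have h4 : rN P (r2D P (rN P d)) = r2D P d := by
      have h5 := congrArg (r2D P) h3
      have h6 : r2D P (r2D P (rN P (r2D P (rN P d)))) = rN P (r2D P (rN P d)) := (sysP P).rr _
      rw [h6] at h5
      exact h5
    rw [h4] at h2
    exact h2.symm

/-- the flow -/
lemma fl_fx (hsl : ∀ d : Dart P, Can d → sl (rN P d) = sl d) (A : ℤ → Bool) :
    (sysP P).Fl (fun _ => 1) (fun d => fx A (sl d)) where
  er := fun _ => rfl
  vr := fun d => by
    show fx A (sl (r2D P (rN P d))) = fx A (sl d)
    rw [sl_r2, sl_rN hsl]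
  bal := fun _ => rfl

lemma fx_cases (A : ℤ → Bool) (x : ℤ) :
    (A x = true ∧ A (x + 1) = false ∧ fx A x = 1) ∨
    (A x = false ∧ A (x + 1) = true ∧ fx A x = -1) ∨
    (A x = true ∧ A (x + 1) = true ∧ fx A x = 0) ∨
    (A x = false ∧ A (x + 1) = false ∧ fx A x = 0) := by
  unfold fx
  cases A x <;> cases A (x + 1) <;> simp

lemma cnt_fx (A : ℤ → Bool) (d : Dart P) :
    (sysP P).cnt (fun _ => 1) (fun d => fx A (sl d)) d =
      1 + (fx A (sl d)).toNat + (-fx A (sl d)).toNat := rfl

/-- **T7** -/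
theorem fconn_fx (hsl : ∀ d : Dart P, Can d → sl (rN P d) = sl d) (A : ℤ → Bool)
    (huniv : ∀ (ν v : Dart P → Prop), (∀ d, v d ↔ v (r2D P (phi P d))) →
      (∀ d, Can d → (v d ↔ val A ν (xe d) d)) →
      (∀ d, Can d → (v (r2D P d) ↔ val A ν (xw d) d)) → ∀ p q, Can p → Can q → (ν p ↔ ν q)) :
    (sysP P).FConn (fun _ => 1) (fun d => fx A (sl d)) := by
  intro g hg
  set V : Dart P → ℤ := fun d => fx A (sl d) with hV
  have hVr : ∀ d, V (r2D P d) = V d := fun d => rfl
  have hVN : ∀ d, V (rN P d) = V d := fun d => by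
    show fx A (sl (rN P d)) = fx A (sl d)
    rw [sl_rN hsl]
  let ν : Dart P → Prop := fun q =>
    if A (sl q) = false ∧ A (sl q + 1) = false then g (rN P q) 0 else g q 0
  let v : Dart P → Prop := fun d => g d (V d).toNat
  -- the value on the west side
  have hvw : ∀ d : Dart P, v (r2D P d) ↔ g d (-V d).toNat := by
    intro d
    show g (r2D P d) (V (r2D P d)).toNat ↔ _
    have h1 := hg.cr d (V d).toNat (by rw [cnt_fx]; show (V d).toNat < 1 + (V d).toNat + _; omega)
    rw [hVr]
    have h2 : (sysP P).cnt (fun _ => 1) (fun d => fx A (sl d)) d - 1 - (V d).toNat =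
        (-V d).toNat := by
      rw [cnt_fx]
      show 1 + (V d).toNat + (-V d).toNat - 1 - (V d).toNat = _
      omega
    rw [← h2]
    exact h1
  have hv : ∀ d, v d ↔ v (r2D P (phi P d)) := by
    intro d
    rw [hvw]
    have h1 := hg.cE d 0 one_pos
    rw [Nat.add_zero, Nat.add_zero] at h1
    exact h1
  have hνN : ∀ d : Dart P, sl ((rN P).symm d) = sl d := by
    intro d
    have := sl_rN hsl ((rN P).symm d)
    rw [Equiv.apply_symm_apply] at this
    exact this.symm
  -- the second strand of a dart belongs to the arc from the south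
  have hs1 : ∀ d : Dart P, V d ≠ 0 → (g d 1 ↔ g ((rN P).symm d) 0) := by
    intro d hd
    have e1 : rN P ((rN P).symm d) = d := Equiv.apply_symm_apply _ _
    have e2 : V ((rN P).symm d) = V d := by
      show fx A (sl ((rN P).symm d)) = fx A (sl d)
      rw [hνN]
    rcases fx_cases A (sl d) with ⟨-, -, h⟩ | ⟨-, -, h⟩ | ⟨-, -, h⟩ | ⟨-, -, h⟩
    · have hVd : V d = 1 := h
      have h1 := hg.cNp ((rN P).symm d) 0 (by
        show ((0 : ℕ) : ℤ) < V ((rN P).symm d)
        rw [e2, hVd]; norm_num)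
      have h2 : ((-V (rN P ((rN P).symm d))).toNat + 1 + 0) = 1 := by rw [e1, hVd]; rfl
      have h3 : g ((rN P).symm d) 0 ↔ g (rN P ((rN P).symm d))
        ((-V (rN P ((rN P).symm d))).toNat + 1 + 0) := h1
      rw [h2, e1] at h3
      exact h3.symm
    · have hVd : V d = -1 := h
      have h1 := hg.cNm ((rN P).symm d) 0 (by
        show ((0 : ℕ) : ℤ) < -V ((rN P).symm d)
        rw [e2, hVd]; norm_num)
      have h2 : ((V (rN P ((rN P).symm d))).toNat + 1 + 0) = 1 := by rw [e1, hVd]; rfl
      have h3 : g ((rN P).symm d) 0 ↔ g (rN P ((rN P).symm d))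
        ((V (rN P ((rN P).symm d))).toNat + 1 + 0) := h1
      rw [h2, e1] at h3
      exact h3.symm
    · exact absurd h hd
    · exact absurd h hd
  have he : ∀ d, Can d → (v d ↔ val A ν (xe d) d) := by
    intro d hd
    rw [xe_can' hd]
    show g d (V d).toNat ↔ if A (sl d + 1) then ν d else ν ((rN P).symm d)
    have e2 := hνN d
    have e1 : rN P ((rN P).symm d) = d := Equiv.apply_symm_apply _ _
    have hn1 : ν d ↔ if A (sl d) = false ∧ A (sl d + 1) = false then g (rN P d) 0 else g d 0 :=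
      Iff.rfl
    have hn2 : ν ((rN P).symm d) ↔
        if A (sl d) = false ∧ A (sl d + 1) = false then g d 0 else g ((rN P).symm d) 0 := by
      show (if A (sl ((rN P).symm d)) = false ∧ A (sl ((rN P).symm d) + 1) = false then
        g (rN P ((rN P).symm d)) 0 else g ((rN P).symm d) 0) ↔ _
      rw [e1, e2]
    rcases fx_cases A (sl d) with ⟨h1, h2, h⟩ | ⟨h1, h2, h⟩ | ⟨h1, h2, h⟩ | ⟨h1, h2, h⟩
    · have hVd : V d = 1 := h
      rw [hn2, h1, h2, hVd]
      simpa using hs1 d (by rw [hVd]; norm_num)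
    · have hVd : V d = -1 := h
      rw [hn1, h1, h2, hVd]
      simp
    · have hVd : V d = 0 := h
      rw [hn1, h1, h2, hVd]
      simp
    · have hVd : V d = 0 := h
      rw [hn2, h1, h2, hVd]
      simp
  have hw : ∀ d, Can d → (v (r2D P d) ↔ val A ν (xw d) d) := by
    intro d hd
    rw [xw_can' hd, hvw]
    show g d (-V d).toNat ↔ if A (sl d) then ν d else ν ((rN P).symm d)
    have e2 := hνN d
    have e1 : rN P ((rN P).symm d) = d := Equiv.apply_symm_apply _ _
    have hn1 : ν d ↔ if A (sl d) = false ∧ A (sl d + 1) = false then g (rN P d) 0 else g d 0 :=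
      Iff.rfl
    have hn2 : ν ((rN P).symm d) ↔
        if A (sl d) = false ∧ A (sl d + 1) = false then g d 0 else g ((rN P).symm d) 0 := by
      show (if A (sl ((rN P).symm d)) = false ∧ A (sl ((rN P).symm d) + 1) = false then
        g (rN P ((rN P).symm d)) 0 else g ((rN P).symm d) 0) ↔ _
      rw [e1, e2]
    rcases fx_cases A (sl d) with ⟨h1, h2, h⟩ | ⟨h1, h2, h⟩ | ⟨h1, h2, h⟩ | ⟨h1, h2, h⟩
    · have hVd : V d = 1 := h
      rw [hn1, h1, h2, hVd]
      simp
    · have hVd : V d = -1 := h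
      rw [hn2, h1, h2, hVd]
      simpa using hs1 d (by rw [hVd]; norm_num)
    · have hVd : V d = 0 := h
      rw [hn1, h1, h2, hVd]
      simp
    · have hVd : V d = 0 := h
      rw [hn2, h1, h2, hVd]
      simp
  have hcan := huniv ν v hv he hw
  -- all strands of canonical darts
  have hex : ∃ c : Prop, ∀ p : Dart P, Can p → (ν p ↔ c) := by
    by_cases h : ∃ p : Dart P, Can p
    · obtain ⟨p, hp⟩ := h
      exact ⟨ν p, fun q hq => hcan q p hq hp⟩
    · exact ⟨True, fun p hp => absurd ⟨p, hp⟩ h⟩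
  obtain ⟨c, hc⟩ := hex
  have hcs : ∀ p : Dart P, Can p → Can ((rN P).symm p) := by
    intro p hp
    have := e_rN ((rN P).symm p)
    rw [Equiv.apply_symm_apply] at this
    unfold Can
    rw [← this]
    exact hp
  have hc0 : ∀ p : Dart P, Can p → (g p 0 ↔ c) := by
    intro p hp
    by_cases h : A (sl p) = false ∧ A (sl p + 1) = false
    · have h1 := hc ((rN P).symm p) (hcs p hp)
      have e1 : rN P ((rN P).symm p) = p := Equiv.apply_symm_apply _ _
      have h2 : ν ((rN P).symm p) ↔ g p 0 := by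
        show (if A (sl ((rN P).symm p)) = false ∧ A (sl ((rN P).symm p) + 1) = false then
          g (rN P ((rN P).symm p)) 0 else g ((rN P).symm p) 0) ↔ _
        rw [e1, hνN, if_pos h]
      rw [← h2]
      exact h1
    · have h2 : ν p ↔ g p 0 := by
        show (if A (sl p) = false ∧ A (sl p + 1) = false then g (rN P p) 0 else g p 0) ↔ _
        rw [if_neg h]
      rw [← h2]
      exact hc p hp
  have hct : ∀ p : Dart P, Can p → ∀ t, t < 1 + (V p).toNat + (-V p).toNat → (g p t ↔ c) := by
    intro p hp t ht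
    rcases Nat.eq_zero_or_pos t with h0 | h0
    · subst h0
      exact hc0 p hp
    · have hV1 : V p = 1 ∨ V p = -1 ∨ V p = 0 := by
        rcases fx_cases A (sl p) with ⟨-, -, h⟩ | ⟨-, -, h⟩ | ⟨-, -, h⟩ | ⟨-, -, h⟩
        · exact Or.inl h
        · exact Or.inr (Or.inl h)
        · exact Or.inr (Or.inr h)
        · exact Or.inr (Or.inr h)
      have h1 : t = 1 ∧ V p ≠ 0 := by
        rcases hV1 with h | h | h <;> rw [h] at ht ⊢
        · refine ⟨?_, one_ne_zero⟩
          have : (1 : ℤ).toNat = 1 := rfl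
          have : (-1 : ℤ).toNat = 0 := rfl
          omega
        · refine ⟨?_, by norm_num⟩
          have : (-1 : ℤ).toNat = 0 := rfl
          have : (- -1 : ℤ).toNat = 1 := rfl
          omega
        · exfalso
          have : (0 : ℤ).toNat = 0 := rfl
          have : (-0 : ℤ).toNat = 0 := rfl
          omega
      rw [h1.1, hs1 p h1.2]
      exact hc0 _ (hcs p hp)
  refine ⟨c, ?_⟩
  intro d t ht
  rw [cnt_fx] at ht
  have ht' : t < 1 + (V d).toNat + (-V d).toNat := ht
  by_cases hd : Can d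
  · exact hct d hd t ht'
  · have h1 : Can (r2D P d) := (can_r2' d).2 hd
    have h2 := hg.cr (r2D P d) t (by rw [cnt_fx]; exact ht')
    have h3 : (sysP P).r (r2D P d) = d := (sysP P).rr d
    rw [h3] at h2
    rw [h2]
    refine hct _ h1 _ ?_
    have h4 : (sysP P).cnt (fun _ => 1) (fun d => fx A (sl d)) (r2D P d) =
      1 + (V d).toNat + (-V d).toNat := rfl
    rw [h4, hVr]
    omega

/-- the unfolding of a polyhedron from the dictionary -/
theorem unfold_of_univ (hP : P.IsOrthogonalPolyhedron)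
    (hsl : ∀ d : Dart P, Can d → sl (rN P d) = sl d) (A : ℤ → Bool)
    (huniv : ∀ (ν v : Dart P → Prop), (∀ d, v d ↔ v (r2D P (phi P d))) →
      (∀ d, Can d → (v d ↔ val A ν (xe d) d)) →
      (∀ d, Can d → (v (r2D P d) ↔ val A ν (xw d) d)) → ∀ p q, Can p → Can q → (ν p ↔ ν q)) :
    (P.refine 35 (by norm_num)).HasEdgeUnfolding := by
  have hb : ∀ x, fx A x ≤ 1 ∧ -1 ≤ fx A x := by
    intro x
    rcases fx_cases A x with ⟨-, -, h⟩ | ⟨-, -, h⟩ | ⟨-, -, h⟩ | ⟨-, -, h⟩ <;> rw [h] <;>
      norm_num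
  exact hasEdgeUnfolding_of_flow (fl_fx hsl A) (fconn_fx hsl A huniv) (fun _ => one_pos)
    (K := 3) (k := 1) (fun _ => le_rfl) (fun d => by exact_mod_cast (hb (sl d)).1)
    (fun d => by exact_mod_cast (hb (sl d)).2) le_rfl hP.2.nonempty (by norm_num)

end

end Pool.BW
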