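import Pool.Agent.MP42.BW.T6

/-!
# The dictionary: final theorem (genus 0, no plane orthogonal to `x` with both facings)
-/

set_option autoImplicit false

namespace Pool.BW

open Pool.Agent.Helper55.UNF Pool.Agent.Helper55.UNF.GridSolid Pool.Agent.MP42 Pool.Agent.MP42.NE

/-- `ν p` = value of the arc from `p` to `rN P p` (`p` canonical), `v d` = value on the east side
of the dart `d` -/
theorem univ_const {P : GridSolid} (hP : P.IsOrthogonalPolyhedron) {A : ℤ → Bool}
    (hA : Planes P A)
    (hE : eul P = 2) (ν v : Dart P → Prop) (hv : ∀ d, v d ↔ v (r2D P (phi P d)))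
    (he : ∀ d, Can d → (v d ↔ val A ν (xe d) d)) (hw : ∀ d, Can d → (v (r2D P d) ↔ val A ν (xw d) d)) :
    ∀ p q, Can p → Can q → (ν p ↔ ν q) :=
  univ_const' hP hA hE ν v hv he hw

end Pool.BW
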