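import Pool.Agent.MP42.A9
import Pool.Agent.MP42.BW.Univ
import Pool.Agent.MP42.BW.T7

/-!
# Genus zero, no plane with both facings (helper50)
-/

set_option autoImplicit false

namespace Pool.BW

open Pool.Agent.Helper55.UNF Pool.Agent.Helper55.UNF.GridSolid Pool.Agent.MP42 Pool.Agent.MP42.NE

/-- no grid plane orthogonal to the axis `a` contains facets with both outer normals -/
def OneSided (P : GridSolid) (a : Fin 3) : Prop :=
  ∀ c c', P.IsFacet (c, (a, true)) → P.IsFacet (c', (a, false)) → c a + 1 ≠ c' a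

theorem unfold35_x {P : GridSolid} (hP : P.IsOrthogonalPolyhedron) (hE : eul P = 2)
    (hG : OneSided P 0) : (P.refine 35 (by norm_num)).HasEdgeUnfolding := by
  obtain ⟨A, hA⟩ := exists_planes (P := P) hG
  refine unfold_of_univ hP (fun d hd => (arc_rN hP.1 d hd).2.1) A ?_
  intro ν v hv he hw
  exact univ_const hP hA hE ν v hv he hw

section

variable (P : GridSolid) (σ : Equiv.Perm (Fin 3))

lemma onV_rl (v : Fin 3 → ℤ) : OnV (rl P σ) (rlc σ v) ↔ OnV P v := by
  unfold OnV
  constructor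
  · rintro ⟨ε, δ, h1, h2⟩
    refine ⟨(rlb σ).symm ε, (rlb σ).symm δ, ?_, ?_⟩
    · rw [← corner_rl P σ, Equiv.apply_symm_apply]; exact h1
    · rw [← corner_rl P σ, Equiv.apply_symm_apply]; exact h2
  · rintro ⟨ε, δ, h1, h2⟩
    exact ⟨rlb σ ε, rlb σ δ, (corner_rl P σ v ε).2 h1, fun h => h2 ((corner_rl P σ v δ).1 h)⟩

lemma onE_rl (a : Fin 3) (v : Fin 3 → ℤ) :
    OnE (rl P σ) (σ.symm a, rlc σ v) ↔ OnE P (a, v) := by
  unfold OnE
  constructor
  · rintro ⟨ε, δ, h0, h0', h1, h2⟩
    refine ⟨(rlb σ).symm ε, (rlb σ).symm δ, h0, h0', ?_, ?_⟩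
    · rw [← corner_rl P σ, Equiv.apply_symm_apply]; exact h1
    · rw [← corner_rl P σ, Equiv.apply_symm_apply]; exact h2
  · rintro ⟨ε, δ, h0, h0', h1, h2⟩
    refine ⟨rlb σ ε, rlb σ δ, ?_, ?_, (corner_rl P σ v ε).2 h1,
      fun h => h2 ((corner_rl P σ v δ).1 h)⟩
    · show ε (σ (σ.symm a)) = true
      rw [Equiv.apply_symm_apply]; exact h0
    · show δ (σ (σ.symm a)) = true
      rw [Equiv.apply_symm_apply]; exact h0'

lemma eul_rl : eul (rl P σ) = eul P := by
  have hV : {v | OnV (rl P σ) v}.ncard = {v | OnV P v}.ncard := by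
    have : {v | OnV (rl P σ) v} = rlc σ '' {v | OnV P v} := by
      ext v
      constructor
      · intro h
        refine ⟨rlc σ.symm v, ?_, rlc_symm σ v⟩
        show OnV P _
        rw [← onV_rl P σ, rlc_symm]; exact h
      · rintro ⟨w, hw, rfl⟩
        exact (onV_rl P σ w).2 hw
    rw [this, Set.ncard_image_of_injective _ (rlc_inj σ)]
  have hE : {p | OnE (rl P σ) p}.ncard = {p | OnE P p}.ncard := by
    have : {p | OnE (rl P σ) p} = (fun p : Fin 3 × (Fin 3 → ℤ) => (σ.symm p.1, rlc σ p.2)) ''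
        {p | OnE P p} := by
      ext ⟨a, v⟩
      constructor
      · intro h
        refine ⟨(σ a, rlc σ.symm v), ?_, ?_⟩
        · show OnE P _
          rw [← onE_rl P σ, rlc_symm, Equiv.symm_apply_apply]; exact h
        · simp only [Equiv.symm_apply_apply, rlc_symm]
      · rintro ⟨⟨b, w⟩, hw, he⟩
        rw [← he]
        exact (onE_rl P σ b w).2 hw
    rw [this, Set.ncard_image_of_injective]
    rintro ⟨a, v⟩ ⟨b, w⟩ h
    simp only [Prod.mk.injEq] at h
    rw [σ.symm.injective h.1, rlc_inj σ h.2]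
  have hF : Nat.card (rl P σ).Facet = Nat.card P.Facet := (Nat.card_congr (rlF P σ)).symm
  unfold eul
  rw [hV, hE, hF]

lemma oneSided_rl (a : Fin 3) (h : OneSided P (σ a)) : OneSided (rl P σ) a := by
  intro c c' h1 h2
  have k1 : P.IsFacet (rlc σ.symm c, (σ a, true)) := by
    rw [← isFacet_rl P σ]
    simp only [rlc_symm]
    unfold rld
    simp only [Equiv.symm_apply_apply]
    exact h1
  have k2 : P.IsFacet (rlc σ.symm c', (σ a, false)) := by
    rw [← isFacet_rl P σ]
    simp only [rlc_symm]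
    unfold rld
    simp only [Equiv.symm_apply_apply]
    exact h2
  have := h _ _ k1 k2
  simpa using this

end

/-- Genus zero (`V - E + F = 2`) and, for some axis, no grid plane orthogonal to it contains facets
with both outer normals: the 35 by 35 refinement has an edge unfolding. -/
theorem genus_zero_one_sided (P : GridSolid) (hP : P.IsOrthogonalPolyhedron) (hE : eul P = 2)
    (hG : ∃ a, OneSided P a) : (P.refine 35 (by norm_num)).HasEdgeUnfolding := by
  obtain ⟨a, ha⟩ := hG
  have h1 : OneSided (rl P (Equiv.swap 0 a)) 0 :=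
    oneSided_rl P _ 0 (by rw [Equiv.swap_apply_left]; exact ha)
  exact refine_of_rl P (Equiv.swap 0 a)
    (unfold35_x (isOrthogonalPolyhedron_rl P _ hP) (by rw [eul_rl]; exact hE) h1)

end Pool.BW
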