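import Pool.Agent.MP42.BW.StepL

/-!
# Jogs and the reversed toggles (helper50, T1)
-/

set_option autoImplicit false

namespace Pool.BW

open Tk (T)

section

variable {B : ℤ} {o o' : St} {X : Finset ℚ} {col : ℚ → Bool} {ι ι' : ℤ → ℤ → ℚ} {D D' : ℚ → ℚ}
  {M M' : Bool → ℚ → ℚ} {l x : ℤ}

/-- the point moves from `x` to `x + 2` -/
theorem step_jogR (S : SG B o X col ι D M) (S' : SG B o' X col ι' D' M') (ho : o' = tog o l x)
    (hx : (x - l) % 2 = 0) (h0 : al o l x) (h2 : ¬ al o l (x + 2))
    (hι : ∀ l' y, al o l' y → al o' l' y → ι' l' y = ι l' y)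
    (hA : ∀ z ∈ X, ¬ Al o' ι' z → ¬ Al o ι z ∧ D' z = D z)
    (hu : ι' l (x + 2) = ι l x) (e : Bool) :
    ((!(cc o (stp e l) x) && cc o (stp e l) (x + 1)) = false → ∀ z ∈ X, M' e z = M e z) ∧
    ((!(cc o (stp e l) x) && cc o (stp e l) (x + 1)) = true → Sad X col (M e) (M' e) (o' l x)) := by
  have hk := stp_cases e l
  have hpar := par_stp e l
  have far := fun z (hz : z ∈ X) => far_step S S' ho hι hA e hz
  obtain ⟨c1, c2, c3⟩ := strip_vals ho hk
  generalize stp e l = k at *
  have hx2 : (x + 2 - l) % 2 = 0 := by omega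
  have d1 : cc o k (x - 1) = !(cc o k x) := by
    have h0' := h0
    rw [← row_eq hx hk, ← S.hb.cc_al] at h0'
    cases h7 : cc o k (x - 1) <;> cases h8 : cc o k x <;> rw [h7, h8] at h0' <;> simp at h0' ⊢
  have d2 : cc o k (x + 2) = cc o k (x + 1) := by
    by_contra hne
    apply h2
    have := (S.hb.cc_al k (x + 2)).1 (by rw [show x + 2 - 1 = x + 1 by ring]; exact fun hh => hne hh.symm)
    rwa [row_eq hx2 hk] at this
  have e1 : cc o' k (x - 1) = !(cc o k x) := by rw [c1 _ (by omega) (by omega), d1]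
  have e2 : cc o' k (x + 2) = cc o k (x + 1) := by rw [c1 _ (by omega) (by omega), d2]
  have ax2 : al o' l (x + 2) := by
    rw [ho, al_tog, if_pos ⟨rfl, Or.inr rfl⟩]; exact h2
  have Tx : T ι k x = ι l x := T_eq hx hk ι
  have Tx2 : T ι' k (x + 2) = ι l x := by rw [T_eq hx2 hk ι', hu]
  -- nothing changes: the only touching run is (a, b) and its tokens are matched in `M`
  have triv : ∀ a b, Run (cc o' k) a b → x ≤ b → a ≤ x + 2 → M e (T ι' k a) = T ι' k b →
      M e (T ι' k b) = T ι' k a →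
      (∀ a' b', Run (cc o' k) a' b' → x ≤ b' → a' ≤ x + 2 → a' = a ∧ b' = b) →
      ∀ z ∈ X, M' e z = M e z := by
    intro a b hr _ _ m1 m2 htouch z hz
    rcases far z hz with h | ⟨a', b', h3, h4, h5, h6⟩
    · exact h
    · obtain ⟨rfl, rfl⟩ := htouch a' b' h3 h4 h5
      have m := S'.run _ _ _ hr
      rw [hpar] at m
      rcases h6 with h6 | h6
      · rw [h6, m.1, m1]
      · rw [h6, m.2, m2]
  cases v1 : cc o k x <;> cases v2 : cc o k (x + 1) <;> rw [v1] at d1 e1 c2 <;> rw [v2] at d2 e2 c3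
    <;> simp only [Bool.not_true, Bool.not_false] at d1 e1 c2 c3
  · -- 1000 -> 1110
    refine ⟨fun _ => ?_, fun hh => by simp at hh⟩
    obtain ⟨p, b0, hr, hp0, hb0⟩ := exists_run (supp_cc S.hs k) d1
    have : b0 = x := by
      by_contra hne
      have := hr.2.2.2 x (by omega) (by omega)
      rw [v1] at this; cases this
    subst this
    have hr1 : Run (cc o' k) p (b0 + 2) := by
      refine ⟨by omega, ?_, e2, fun y hy1 hy2 => ?_⟩
      · rw [c1 _ (by omega) (by omega)]; exact hr.2.1
      · by_cases hy3 : y < b0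
        · rw [c1 _ (by omega) (by omega)]; exact hr.2.2.2 y hy1 hy3
        · have : y = b0 ∨ y = b0 + 1 := by omega
          rcases this with rfl | rfl
          · exact c2
          · exact c3
    have tp : T ι' k p = T ι k p := hι _ _ (S.hb.al_left hr) (S'.hb.al_left hr1)
    have m := S.run _ _ _ hr
    rw [hpar, Tx] at m
    refine triv p (b0 + 2) hr1 (by omega) (by omega) (by rw [tp, Tx2]; exact m.1)
      (by rw [tp, Tx2]; exact m.2) ?_
    intro a b hab h4 h5
    rcases hab.sep hr1 with ⟨r1, r2⟩ | h | h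
    · exact ⟨r1, r2⟩
    · omega
    · omega
  · -- 1011 -> 1101
    refine ⟨fun hh => by simp at hh, fun _ => ?_⟩
    obtain ⟨p, b0, hr, hp0, hb0⟩ := exists_run (supp_cc S.hs k) d1
    have : b0 = x := by
      by_contra hne
      have := hr.2.2.2 x (by omega) (by omega)
      rw [v1] at this; cases this
    subst this
    obtain ⟨a0, q, hrq, ha0, hq0⟩ := exists_run (supp_cc S.hs k) v2
    have : a0 = b0 + 1 := by
      by_contra hne
      have := hrq.2.2.2 b0 (by omega) (by omega)
      rw [v1] at this; cases this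
    subst this
    have hq : b0 + 2 < q := by
      by_contra hne
      have h7 := hrq.2.2.1
      have : q = b0 + 2 := by omega
      rw [this, d2] at h7; cases h7
    have hr1 : Run (cc o' k) p (b0 + 1) := by
      refine ⟨by omega, ?_, c3, fun y hy1 hy2 => ?_⟩
      · rw [c1 _ (by omega) (by omega)]; exact hr.2.1
      · by_cases hy3 : y < b0
        · rw [c1 _ (by omega) (by omega)]; exact hr.2.2.2 y hy1 hy3
        · have : y = b0 := by omega
          subst this; exact c2
    have hr2 : Run (cc o' k) (b0 + 2) q := by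
      refine ⟨by omega, ?_, ?_, fun y hy1 hy2 => ?_⟩
      · rw [show b0 + 2 - 1 = b0 + 1 by ring]; exact c3
      · rw [c1 _ (by omega) (by omega)]; exact hrq.2.2.1
      · rw [c1 _ (by omega) (by omega)]; exact hrq.2.2.2 y (by omega) hy2
    have ap := S.hb.al_left hr
    have aq := S.hb.al_right hrq
    have aβ := S.hb.al_left hrq
    have tp : T ι' k p = T ι k p := hι _ _ ap (S'.hb.al_left hr1)
    have tq : T ι' k q = T ι k q := hι _ _ aq (S'.hb.al_right hr2)
    have tβ : T ι' k (b0 + 1) = T ι k (b0 + 1) := hι _ _ aβ (S'.hb.al_right hr1)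
    have m1 := S.run _ _ _ hr
    have m2 := S.run _ _ _ hrq
    have m3 := S'.run _ _ _ hr1
    have m4 := S'.run _ _ _ hr2
    rw [hpar] at m1 m2 m3 m4
    rw [Tx] at m1
    rw [tp, tβ] at m3
    rw [Tx2, tq] at m4
    have ax' : al o (row k b0) b0 := by rw [row_eq hx hk]; exact h0
    refine ⟨T ι k p, S.mem _ _ ap, ι l b0, S.mem _ _ h0, T ι k q, S.mem _ _ aq, T ι k (b0 + 1),
      S.mem _ _ aβ, ?_, m1.1, m2.2, m3.1, m4.2, ?_, ?_⟩
    · intro he
      have := (S.tk.inj ap aq he).2
      omega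
    · intro z hz n1 n2 n3 n4
      rcases far z hz with h | ⟨a, b, h3, h4, h5, h6⟩
      · exact h
      · exfalso
        rcases h3.sep hr1 with ⟨r1, r2⟩ | h | h
        · subst r1; subst r2
          rcases h6 with h6 | h6
          · rw [tp] at h6; exact n1 h6
          · rw [tβ] at h6; exact n4 h6
        · omega
        · rcases h3.sep hr2 with ⟨r1, r2⟩ | h' | h'
          · subst r1; subst r2
            rcases h6 with h6 | h6
            · rw [Tx2] at h6; exact n2 h6
            · rw [tq] at h6; exact n3 h6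
          · have := h3.lt; omega
          · omega
    · have h3 := S.tk.orient ap ax' aβ (by omega) (by omega)
      rw [Tx] at h3
      rw [h3]
      have hc : col (T ι k p) = !(col (ι l b0)) := by
        have := S.m_col e (S.mem _ _ ap)
        have h7 : M e (ι (row k p) p) = ι l b0 := m1.1
        rw [h7] at this
        rw [this, Bool.not_not]
        rfl
      rw [hc, S.colr _ _ h0]
      unfold cl
      have h8 : o' l b0 = !(o l b0) := by rw [ho, tog_at (Or.inl rfl)]
      have h9 : b0 % 2 = 0 ↔ par l = false := by rw [par_false]; omega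
      rw [h8, h9]
      cases o l b0 <;> cases par l <;> simp
  · -- 0100 -> 0010
    refine ⟨fun _ => ?_, fun hh => by simp at hh⟩
    have hr : Run (cc o k) x (x + 1) := by
      refine ⟨by omega, d1, v2, fun y hy1 hy2 => ?_⟩
      have : y = x := by omega
      subst this; exact v1
    have hr1 : Run (cc o' k) (x + 1) (x + 2) := by
      refine ⟨by omega, ?_, e2, fun y hy1 hy2 => ?_⟩
      · rw [show x + 1 - 1 = x by ring]; exact c2
      · have : y = x + 1 := by omega
        subst this; exact c3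
    have tβ : T ι' k (x + 1) = T ι k (x + 1) := hι _ _ (S.hb.al_right hr) (S'.hb.al_left hr1)
    have m := S.run _ _ _ hr
    rw [hpar, Tx] at m
    refine triv (x + 1) (x + 2) hr1 (by omega) (by omega) (by rw [tβ, Tx2]; exact m.2)
      (by rw [tβ, Tx2]; exact m.1) ?_
    intro a b hab h4 h5
    rcases hab.sep hr1 with ⟨r1, r2⟩ | h | h
    · exact ⟨r1, r2⟩
    · have := hab.lt
      have h7 := hab.2.2.1
      have h8 := hab.2.2.2 (b - 1) (by omega) (by omega)
      have : b = x := by omega
      subst this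
      rw [e1] at h8; cases h8
    · omega
  · -- 0111 -> 0001
    refine ⟨fun _ => ?_, fun hh => by simp at hh⟩
    obtain ⟨a0, q, hr, ha0, hq0⟩ := exists_run (supp_cc S.hs k) v1
    have : a0 = x := by
      by_contra hne
      have := hr.2.2.2 (x - 1) (by omega) (by omega)
      rw [d1] at this; cases this
    subst this
    have hq : a0 + 2 < q := by
      by_contra hne
      have h7 := hr.2.2.1
      have : q = a0 + 1 ∨ q = a0 + 2 := by omega
      rcases this with h8 | h8
      · rw [h8, v2] at h7; cases h7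
      · rw [h8, d2] at h7; cases h7
    have hr2 : Run (cc o' k) (a0 + 2) q := by
      refine ⟨by omega, ?_, ?_, fun y hy1 hy2 => ?_⟩
      · rw [show a0 + 2 - 1 = a0 + 1 by ring]; exact c3
      · rw [c1 _ (by omega) (by omega)]; exact hr.2.2.1
      · rw [c1 _ (by omega) (by omega)]; exact hr.2.2.2 y (by omega) hy2
    have tq : T ι' k q = T ι k q := hι _ _ (S.hb.al_right hr) (S'.hb.al_right hr2)
    have m := S.run _ _ _ hr
    rw [hpar, Tx] at m
    refine triv (a0 + 2) q hr2 (by omega) (by omega) (by rw [tq, Tx2]; exact m.1)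
      (by rw [tq, Tx2]; exact m.2) ?_
    intro a b hab h4 h5
    rcases hab.sep hr2 with ⟨r1, r2⟩ | h | h
    · exact ⟨r1, r2⟩
    · have := hab.lt
      have h8 := hab.2.2.2 (b - 1) (by omega) (by omega)
      have : b = a0 ∨ b = a0 + 1 := by omega
      rcases this with h9 | h9
      · rw [h9, e1] at h8; cases h8
      · rw [h9, show a0 + 1 - 1 = a0 by ring, c2] at h8; cases h8
    · omega

/-! ## reversed toggles -/

theorem step_death (S : SG B o X col ι D M) (S' : SG B o' X col ι' D' M') (ho : o' = tog o l x)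
    (hx : (x - l) % 2 = 0) (h0 : al o l x) (h2 : al o l (x + 2))
    (hι : ∀ l' y, al o l' y → al o' l' y → ι' l' y = ι l' y)
    (hA : ∀ z ∈ X, ¬ Al o ι z → ¬ Al o' ι' z ∧ D' z = D z)
    (hu : ¬ Al o' ι' (ι l x)) (hv : ¬ Al o' ι' (ι l (x + 2)))
    (huv : D' (ι l x) = ι l (x + 2)) (hvu : D' (ι l (x + 2)) = ι l x) (e : Bool) :
    ((!(cc o (stp e l) x && cc o (stp e l) (x + 1))) = false → ∀ z ∈ X, M' e z = M e z) ∧
    ((!(cc o (stp e l) x && cc o (stp e l) (x + 1))) = true → Sad X col (M e) (M' e) (o' l x)) := by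
  have ho' : o = tog o' l x := by rw [ho, tog_tog]
  have g0 : ¬ al o' l x := by
    rw [ho, al_tog, if_pos ⟨rfl, Or.inl rfl⟩]; exact not_not.2 h0
  have g2 : ¬ al o' l (x + 2) := by
    rw [ho, al_tog, if_pos ⟨rfl, Or.inr rfl⟩]; exact not_not.2 h2
  have key := step_birth S' S ho' hx g0 g2 (fun l' y h h' => (hι l' y h' h).symm)
    (fun z hz hh => ⟨(hA z hz hh).1, (hA z hz hh).2.symm⟩) hu hv huv hvu e
  obtain ⟨c1, c2, c3⟩ := strip_vals ho (stp_cases e l)
  rw [c2, c3] at key
  have e1 : (!(cc o (stp e l) x && cc o (stp e l) (x + 1))) =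
      (!(cc o (stp e l) x) || !(cc o (stp e l) (x + 1))) := by
    cases cc o (stp e l) x <;> cases cc o (stp e l) (x + 1) <;> rfl
  rw [e1]
  refine ⟨fun h z hz => (key.1 h z hz).symm, fun h => ?_⟩
  have h3 := key.2 h
  have h4 := h3.symm (fun z hz => S'.m_inv e hz) (fun z hz => S'.m_col e hz)
    (fun z hz => S.m_col e hz)
  have h5 : (!(o l x)) = o' l x := by rw [ho, tog_at (Or.inl rfl)]
  rw [h5] at h4
  exact h4

theorem step_jogL (S : SG B o X col ι D M) (S' : SG B o' X col ι' D' M') (ho : o' = tog o l x)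
    (hx : (x - l) % 2 = 0) (h0 : ¬ al o l x) (h2 : al o l (x + 2))
    (hι : ∀ l' y, al o l' y → al o' l' y → ι' l' y = ι l' y)
    (hA : ∀ z ∈ X, ¬ Al o ι z → ¬ Al o' ι' z ∧ D' z = D z)
    (hu : ι' l x = ι l (x + 2)) (e : Bool) :
    ((cc o (stp e l) x && !(cc o (stp e l) (x + 1))) = false → ∀ z ∈ X, M' e z = M e z) ∧
    ((cc o (stp e l) x && !(cc o (stp e l) (x + 1))) = true → Sad X col (M e) (M' e) (o' l x)) := by
  have ho' : o = tog o' l x := by rw [ho, tog_tog]
  have g0 : al o' l x := by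
    rw [ho, al_tog, if_pos ⟨rfl, Or.inl rfl⟩]; exact h0
  have g2 : ¬ al o' l (x + 2) := by
    rw [ho, al_tog, if_pos ⟨rfl, Or.inr rfl⟩]; exact not_not.2 h2
  have key := step_jogR S' S ho' hx g0 g2 (fun l' y h h' => (hι l' y h' h).symm)
    (fun z hz hh => ⟨(hA z hz hh).1, (hA z hz hh).2.symm⟩) hu.symm e
  obtain ⟨c1, c2, c3⟩ := strip_vals ho (stp_cases e l)
  rw [c2, c3] at key
  rw [Bool.not_not] at key
  refine ⟨fun h z hz => (key.1 h z hz).symm, fun h => ?_⟩
  have h3 := key.2 h
  have h4 := h3.symm (fun z hz => S'.m_inv e hz) (fun z hz => S'.m_col e hz)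
    (fun z hz => S.m_col e hz)
  have h5 : (!(o l x)) = o' l x := by rw [ho, tog_at (Or.inl rfl)]
  rw [h5] at h4
  exact h4

end

end Pool.BW
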