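import Mathlib

/-!
# Two paths of matchings with common ends (target of T1; closing lemma = CL)
-/

set_option autoImplicit false

namespace Pool.BW

/-- the cyclic order (same as `Pool.CM.cyc`) -/
def cyc {α : Type*} [LinearOrder α] (x y z : α) : Prop :=
  (x < y ∧ y < z) ∨ (y < z ∧ z < x) ∨ (z < x ∧ x < y)

/-- a saddle: `(p, q), (r, t) -> (p, t), (r, q)`; `s` is the sign -/
def Sad (X : Finset ℚ) (col : ℚ → Bool) (M M' : ℚ → ℚ) (s : Bool) : Prop :=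
  ∃ p ∈ X, ∃ q ∈ X, ∃ r ∈ X, ∃ t ∈ X, p ≠ r ∧ M p = q ∧ M r = t ∧ M' p = t ∧ M' r = q ∧
    (∀ z ∈ X, z ≠ p → z ≠ q → z ≠ r → z ≠ t → M' z = M z) ∧
    (s = true ↔ (cyc p q t ↔ col p = true))

/-- a path of noncrossing matchings; `K` = times of the saddles -/
structure Path (X : Finset ℚ) (col : ℚ → Bool) (n : ℕ) (A : ℕ → Bool) (M : ℕ → ℚ → ℚ)
    (K : Finset ℕ) : Prop where
  mem : ∀ i, i ≤ n → ∀ x ∈ X, M i x ∈ X
  inv : ∀ i, i ≤ n → ∀ x ∈ X, M i (M i x) = x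
  colr : ∀ i, i ≤ n → ∀ x ∈ X, col (M i x) ≠ col x
  nc : ∀ i, i ≤ n → ∀ x ∈ X, ∀ y ∈ X, ¬ (x < y ∧ y < M i x ∧ M i x < M i y)
  sub : ∀ i ∈ K, i < n
  same : ∀ i, i < n → i ∉ K → ∀ x ∈ X, M (i + 1) x = M i x
  sad : ∀ i, i < n → i ∈ K → Sad X col (M i) (M (i + 1)) (A i)

/-- CL (volunteer; from `Pool.CM.circular_movie_mirror` of helper20, note 1702): first the path
`M false` forward, then the path `M true` backward; `sg = !A` resp. `sg = A` -/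
theorem closing {X : Finset ℚ} {col : ℚ → Bool} {n : ℕ} {A : ℕ → Bool} {M : Bool → ℕ → ℚ → ℚ}
    {K : Bool → Finset ℕ} (hP : ∀ e, Path X col n A (M e) (K e))
    (h0 : ∀ x ∈ X, M false 0 x = M true 0 x) (hn : ∀ x ∈ X, M false n x = M true n x)
    (hK : (K false).card + (K true).card + 2 ≤ X.card)
    (htr : ∀ p : ℚ → Prop, (∀ e, ∀ i, i ≤ n → ∀ x ∈ X, (p x ↔ p (M e i x))) →
      ∀ x ∈ X, ∀ y ∈ X, (p x ↔ p y))
    {G : Bool → ℕ → ℚ → Prop}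
    (hG : ∀ e, ∀ i, i ≤ n → ∀ x ∈ X, (G e i x ↔ G e i (M e i x)))
    (hk : ∀ e, ∀ i, i < n → ∀ x ∈ X, col x = (e == A i) → (G e i x ↔ G e (i + 1) x))
    (hG0 : ∀ x ∈ X, (G false 0 x ↔ G true 0 x)) (hGn : ∀ x ∈ X, (G false n x ↔ G true n x)) :
    ∃ c : Prop, ∀ e, ∀ i, i ≤ n → ∀ x ∈ X, (G e i x ↔ c) := sorry

end Pool.BW
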