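import Pool.Agent.MP42.BW.RunL
import Pool.Agent.MP42.BW.Movie

/-!
# Tokens on the circle (helper50, T1)
-/

set_option autoImplicit false

namespace Pool.BW

/-- `ι l x` is the place of the point `(l, x)` on the circle -/
structure Tk (o : St) (ι : ℤ → ℤ → ℚ) : Prop where
  lo : ∀ l x, al o l x → (l : ℚ) < ι l x
  hi : ∀ l x, al o l x → ι l x < (l : ℚ) + 1
  ordE : ∀ l x y, al o l x → al o l y → x < y → par l = false → ι l x < ι l y
  ordO : ∀ l x y, al o l x → al o l y → x < y → par l = true → ι l y < ι l x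

lemma cyc_rot {α : Type*} [LinearOrder α] {x y z : α} : cyc x y z ↔ cyc y z x := by
  unfold cyc; tauto

lemma cyc_swap {α : Type*} [LinearOrder α] {x y z : α} (h1 : x ≠ y) (h2 : y ≠ z) (h3 : x ≠ z) :
    cyc x y z ↔ ¬ cyc x z y := by
  unfold cyc
  rcases lt_or_gt_of_ne h1 with a | a <;> rcases lt_or_gt_of_ne h2 with b | b <;>
    rcases lt_or_gt_of_ne h3 with c | c <;>
    simp only [a, b, c, a.not_gt, b.not_gt, c.not_gt, and_true, true_and, and_false, false_and, or_true,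
      true_or, or_false, false_or, not_true, not_false_iff, iff_true, iff_false] <;>
    first
    | exact absurd (a.trans b) c.not_gt
    | exact absurd (b.trans a) c.not_gt
    | trivial

namespace Tk

variable {o : St} {ι : ℤ → ℤ → ℚ}

lemma row_inj (h : Tk o ι) {l x l' x' : ℤ} (hx : al o l x) (hx' : al o l' x')
    (he : ι l x = ι l' x') : l = l' := by
  have h1 := h.lo _ _ hx
  have h2 := h.hi _ _ hx
  have h3 := h.lo _ _ hx'
  have h4 := h.hi _ _ hx'
  rw [he] at h1 h2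
  have h5 : (l : ℚ) < l' + 1 := lt_trans h1 h4
  have h6 : (l' : ℚ) < l + 1 := lt_trans h3 h2
  have h7 : l < l' + 1 := by exact_mod_cast h5
  have h8 : l' < l + 1 := by exact_mod_cast h6
  omega

lemma inj (h : Tk o ι) {l x l' x' : ℤ} (hx : al o l x) (hx' : al o l' x')
    (he : ι l x = ι l' x') : l = l' ∧ x = x' := by
  have h1 := h.row_inj hx hx' he
  subst h1
  refine ⟨rfl, ?_⟩
  cases hp : par l with
  | false =>
    rcases lt_trichotomy x x' with h2 | h2 | h2
    · exact absurd he (h.ordE _ _ _ hx hx' h2 hp).ne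
    · exact h2
    · exact absurd he (h.ordE _ _ _ hx' hx h2 hp).ne'
  | true =>
    rcases lt_trichotomy x x' with h2 | h2 | h2
    · exact absurd he (h.ordO _ _ _ hx hx' h2 hp).ne'
    · exact h2
    · exact absurd he (h.ordO _ _ _ hx' hx h2 hp).ne

/-- the token in the strip `k` -/
def T (ι : ℤ → ℤ → ℚ) (k x : ℤ) : ℚ := ι (row k x) x

/-- in an even strip the later token is outside -/
lemma radE (h : Tk o ι) {k x y : ℤ} (hk : k % 2 = 0) (hx : al o (row k x) x)
    (hy : al o (row k y) y) (hxy : x < y) :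
    (y % 2 = 0 → T ι k x < T ι k y) ∧ (y % 2 = 1 → T ι k y < T ι k x) := by
  unfold T
  obtain ⟨hx1, hx2⟩ := row_spec k x
  obtain ⟨hy1, hy2⟩ := row_spec k y
  refine ⟨fun hp => ?_, fun hp => ?_⟩
  · have e2 : row k y = k := by omega
    rcases hx2 with e1 | e1
    · rw [e1] at hx ⊢
      rw [e2] at hy ⊢
      exact h.ordE _ _ _ hx hy hxy (par_false.2 hk)
    · rw [e1] at hx ⊢
      rw [e2] at hy ⊢
      have h1 := h.hi _ _ hx
      have h2 := h.lo _ _ hy
      push_cast at h1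
      linarith
  · have e2 : row k y = k - 1 := by omega
    rcases hx2 with e1 | e1
    · rw [e1] at hx ⊢
      rw [e2] at hy ⊢
      have h1 := h.lo _ _ hx
      have h2 := h.hi _ _ hy
      push_cast at h2
      linarith
    · rw [e1] at hx ⊢
      rw [e2] at hy ⊢
      exact h.ordO _ _ _ hx hy hxy (par_true.2 (by omega))

/-- in an odd strip the earlier token is outside -/
lemma radO (h : Tk o ι) {k x y : ℤ} (hk : k % 2 = 1) (hx : al o (row k x) x)
    (hy : al o (row k y) y) (hxy : x < y) :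
    (x % 2 = 0 → T ι k x < T ι k y) ∧ (x % 2 = 1 → T ι k y < T ι k x) := by
  unfold T
  obtain ⟨hx1, hx2⟩ := row_spec k x
  obtain ⟨hy1, hy2⟩ := row_spec k y
  refine ⟨fun hp => ?_, fun hp => ?_⟩
  · have e2 : row k x = k - 1 := by omega
    rcases hy2 with e1 | e1
    · rw [e1] at hy ⊢
      rw [e2] at hx ⊢
      have h1 := h.hi _ _ hx
      have h2 := h.lo _ _ hy
      push_cast at h1
      linarith
    · rw [e1] at hy ⊢
      rw [e2] at hx ⊢
      exact h.ordE _ _ _ hx hy hxy (par_false.2 (by omega))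
  · have e2 : row k x = k := by omega
    rcases hy2 with e1 | e1
    · rw [e1] at hy ⊢
      rw [e2] at hx ⊢
      exact h.ordO _ _ _ hx hy hxy (par_true.2 hk)
    · rw [e1] at hy ⊢
      rw [e2] at hx ⊢
      have h1 := h.lo _ _ hx
      have h2 := h.hi _ _ hy
      push_cast at h2
      linarith

/-- the cyclic order of three tokens of a strip -/
lemma orient (h : Tk o ι) {k x y z : ℤ} (hx : al o (row k x) x) (hy : al o (row k y) y)
    (hz : al o (row k z) z) (hxy : x < y) (hyz : y < z) :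
    cyc (T ι k x) (T ι k y) (T ι k z) ↔ y % 2 = 0 := by
  unfold cyc
  rcases Int.emod_two_eq_zero_or_one k with hk | hk
  · have a := h.radE hk hx hy hxy
    have b := h.radE hk hy hz hyz
    have c := h.radE hk hx hz (hxy.trans hyz)
    rcases Int.emod_two_eq_zero_or_one y with hy2 | hy2 <;>
      rcases Int.emod_two_eq_zero_or_one z with hz2 | hz2
    · have a1 := a.1 hy2; have b1 := b.1 hz2
      exact ⟨fun _ => hy2, fun _ => Or.inl ⟨a1, b1⟩⟩
    · have a1 := a.1 hy2; have b1 := c.2 hz2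
      exact ⟨fun _ => hy2, fun _ => Or.inr (Or.inr ⟨b1, a1⟩)⟩
    · have a1 := a.2 hy2; have b1 := b.1 hz2; have c1 := c.1 hz2
      refine ⟨fun hh => ?_, fun hh => by omega⟩
      exfalso
      rcases hh with hh | hh | hh
      · exact lt_asymm hh.1 a1
      · exact lt_asymm hh.2 c1
      · exact lt_asymm hh.1 c1
    · have a1 := a.2 hy2; have b1 := b.2 hz2; have c1 := c.2 hz2
      refine ⟨fun hh => ?_, fun hh => by omega⟩
      exfalso
      rcases hh with hh | hh | hh
      · exact lt_asymm hh.1 a1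
      · exact lt_asymm hh.1 b1
      · exact lt_asymm hh.2 a1
  · have a := h.radO hk hx hy hxy
    have b := h.radO hk hy hz hyz
    have c := h.radO hk hx hz (hxy.trans hyz)
    rcases Int.emod_two_eq_zero_or_one y with hy2 | hy2 <;>
      rcases Int.emod_two_eq_zero_or_one x with hx2 | hx2
    · have a1 := a.1 hx2; have b1 := b.1 hy2
      exact ⟨fun _ => hy2, fun _ => Or.inl ⟨a1, b1⟩⟩
    · have a1 := b.1 hy2; have b1 := c.2 hx2
      exact ⟨fun _ => hy2, fun _ => Or.inr (Or.inl ⟨a1, b1⟩)⟩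
    · have a1 := a.1 hx2; have b1 := b.2 hy2; have c1 := c.1 hx2
      refine ⟨fun hh => ?_, fun hh => by omega⟩
      exfalso
      rcases hh with hh | hh | hh
      · exact lt_asymm hh.2 b1
      · exact lt_asymm hh.2 c1
      · exact lt_asymm hh.1 c1
    · have a1 := a.2 hx2; have b1 := b.2 hy2; have c1 := c.2 hx2
      refine ⟨fun hh => ?_, fun hh => by omega⟩
      exfalso
      rcases hh with hh | hh | hh
      · exact lt_asymm hh.1 a1
      · exact lt_asymm hh.1 b1
      · exact lt_asymm hh.2 a1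

/-- tokens of runs: the later run is outside (even strips) or inside (odd strips), so two arcs do
not cross -/
lemma nc_strip (hb : Brick o) (h : Tk o ι) {k a b a' b' : ℤ} (hr : Run (cc o k) a b)
    (hr' : Run (cc o k) a' b') (hlt : b < a') :
    ∀ x y z w : ℚ, ((x = T ι k a ∧ z = T ι k b) ∨ (x = T ι k b ∧ z = T ι k a)) →
      ((y = T ι k a' ∧ w = T ι k b') ∨ (y = T ι k b' ∧ w = T ι k a')) →
      ¬ (x < y ∧ y < z ∧ z < w) ∧ ¬ (y < x ∧ x < w ∧ w < z) := by
  intro x y z w hxz hyw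
  have ha := hb.al_left hr
  have hb1 := hb.al_right hr
  have ha' := hb.al_left hr'
  have hb' := hb.al_right hr'
  have l1 := hr.lt
  have l2 := hr'.lt
  rcases Int.emod_two_eq_zero_or_one k with hk | hk
  · -- outer tokens: a', b'
    have A1 := h.radE hk ha ha' (by omega)
    have A2 := h.radE hk hb1 ha' (by omega)
    have B1 := h.radE hk ha hb' (by omega)
    have B2 := h.radE hk hb1 hb' (by omega)
    have key1 : (T ι k a < T ι k a' ∧ T ι k b < T ι k a') ∨
        (T ι k a' < T ι k a ∧ T ι k a' < T ι k b) := by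
      rcases Int.emod_two_eq_zero_or_one a' with e | e
      · exact Or.inl ⟨A1.1 e, A2.1 e⟩
      · exact Or.inr ⟨A1.2 e, A2.2 e⟩
    have key2 : (T ι k a < T ι k b' ∧ T ι k b < T ι k b') ∨
        (T ι k b' < T ι k a ∧ T ι k b' < T ι k b) := by
      rcases Int.emod_two_eq_zero_or_one b' with e | e
      · exact Or.inl ⟨B1.1 e, B2.1 e⟩
      · exact Or.inr ⟨B1.2 e, B2.2 e⟩
    constructor
    · rintro ⟨h1, h2, h3⟩
      rcases hxz with ⟨rfl, rfl⟩ | ⟨rfl, rfl⟩ <;> rcases hyw with ⟨rfl, rfl⟩ | ⟨rfl, rfl⟩ <;>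
        rcases key1 with ⟨k1, k2⟩ | ⟨k1, k2⟩ <;> rcases key2 with ⟨k3, k4⟩ | ⟨k3, k4⟩ <;> linarith
    · rintro ⟨h1, h2, h3⟩
      rcases hxz with ⟨rfl, rfl⟩ | ⟨rfl, rfl⟩ <;> rcases hyw with ⟨rfl, rfl⟩ | ⟨rfl, rfl⟩ <;>
        rcases key1 with ⟨k1, k2⟩ | ⟨k1, k2⟩ <;> rcases key2 with ⟨k3, k4⟩ | ⟨k3, k4⟩ <;> linarith
  · -- outer tokens: a, b
    have A1 := h.radO hk ha ha' (by omega)
    have A2 := h.radO hk hb1 ha' (by omega)
    have B1 := h.radO hk ha hb' (by omega)
    have B2 := h.radO hk hb1 hb' (by omega)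
    have key1 : (T ι k a < T ι k a' ∧ T ι k a < T ι k b') ∨
        (T ι k a' < T ι k a ∧ T ι k b' < T ι k a) := by
      rcases Int.emod_two_eq_zero_or_one a with e | e
      · exact Or.inl ⟨A1.1 e, B1.1 e⟩
      · exact Or.inr ⟨A1.2 e, B1.2 e⟩
    have key2 : (T ι k b < T ι k a' ∧ T ι k b < T ι k b') ∨
        (T ι k a' < T ι k b ∧ T ι k b' < T ι k b) := by
      rcases Int.emod_two_eq_zero_or_one b with e | e
      · exact Or.inl ⟨A2.1 e, B2.1 e⟩
      · exact Or.inr ⟨A2.2 e, B2.2 e⟩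
    constructor
    · rintro ⟨h1, h2, h3⟩
      rcases hxz with ⟨rfl, rfl⟩ | ⟨rfl, rfl⟩ <;> rcases hyw with ⟨rfl, rfl⟩ | ⟨rfl, rfl⟩ <;>
        rcases key1 with ⟨k1, k2⟩ | ⟨k1, k2⟩ <;> rcases key2 with ⟨k3, k4⟩ | ⟨k3, k4⟩ <;> linarith
    · rintro ⟨h1, h2, h3⟩
      rcases hxz with ⟨rfl, rfl⟩ | ⟨rfl, rfl⟩ <;> rcases hyw with ⟨rfl, rfl⟩ | ⟨rfl, rfl⟩ <;>
        rcases key1 with ⟨k1, k2⟩ | ⟨k1, k2⟩ <;> rcases key2 with ⟨k3, k4⟩ | ⟨k3, k4⟩ <;> linarith

/-- tokens of the strip `k` lie in `(k - 1, k + 1)` -/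
lemma T_mem (h : Tk o ι) {k x : ℤ} (hx : al o (row k x) x) :
    (k : ℚ) - 1 < T ι k x ∧ T ι k x < (k : ℚ) + 1 := by
  obtain ⟨-, h2⟩ := row_spec k x
  have h3 := h.lo _ _ hx
  have h4 := h.hi _ _ hx
  unfold T
  rcases h2 with h2 | h2 <;> rw [h2] at h3 h4 ⊢
  · constructor <;> linarith
  · push_cast at h3 h4
    constructor <;> linarith

end Tk

end Pool.BW
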