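import Pool.Agent.MP42.BW.Defs
import Pool.Agent.MP42.NE.SysP

/-!
# From polycubes to brick wall movies

`x` is the time.  The section of the solid in the slab `[x, x + 1]` is a set of cells `(j, l)`,
`j` = the `y`-index, `l` = the `z`-index.  Even rows: the cell `j` is `[4 j, 4 j + 4)`; odd rows:
the cell `j` is `[4 j + 1, 4 j + 3)`, and the connector `[4 j - 1, 4 j + 1)` is solid iff the cells
`j - 1` and `j` are solid.
-/

set_option autoImplicit false

namespace Pool.BW

open Pool.Agent.Helper55.UNF Pool.Agent.Helper55.UNF.GridSolid Pool.Agent.MP42 Pool.Agent.MP42.NE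

/-! ## sections -/

def sec (P : GridSolid) (x j l : ℤ) : Bool := decide ((![x, j, l] : Fin 3 → ℤ) ∈ P.cells)

def fine (S : ℤ → ℤ → Bool) : St := fun l κ =>
  if l % 2 = 0 then S (κ / 4) l
  else if κ % 4 = 1 ∨ κ % 4 = 2 then S (κ / 4) l
  else S ((κ + 1) / 4 - 1) l && S ((κ + 1) / 4) l

/-- the point of a fine position -/
def pt (κ : ℤ) : ℤ := (κ + 1) / 4

/-- the fine position of the point `(l, j)` -/
def key (l j : ℤ) (front : Bool) : ℤ := if l % 2 = 0 then 4 * j else if front then 4 * j + 1 else 4 * j - 1

/-- no plane orthogonal to `x` contains facets with both outer normals -/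
def GenX (P : GridSolid) : Prop := ∀ c c', P.IsFacet (c, ((0, true) : Dir)) →
  P.IsFacet (c', ((0, false) : Dir)) → c 0 + 1 ≠ c' 0

/-- type of the planes: `A x = true`: the solid grows at the plane `x` -/
def Planes (P : GridSolid) (A : ℤ → Bool) : Prop :=
  (∀ x j l, A x = true → sec P (x - 1) j l = true → sec P x j l = true) ∧
  (∀ x j l, A x = false → sec P x j l = true → sec P (x - 1) j l = true)

/-! ## Euler characteristic -/

/-- the grid point `v` lies on the surface -/
def OnV (P : GridSolid) (v : Fin 3 → ℤ) : Prop :=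
  ∃ ε δ : Fin 3 → Bool, corner v ε ∈ P.cells ∧ corner v δ ∉ P.cells

/-- the grid edge with the direction `p.1` and the starting point `p.2` lies on the surface -/
def OnE (P : GridSolid) (p : Fin 3 × (Fin 3 → ℤ)) : Prop :=
  ∃ ε δ : Fin 3 → Bool, ε p.1 = true ∧ δ p.1 = true ∧ corner p.2 ε ∈ P.cells ∧ corner p.2 δ ∉ P.cells

/-- Euler characteristic of the surface -/
noncomputable def eul (P : GridSolid) : ℤ :=
  ({v | OnV P v}.ncard : ℤ) - ({p | OnE P p}.ncard : ℤ) + (Nat.card P.Facet : ℤ)

/-! ## darts -/

variable {P : GridSolid}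

/-- canonical darts: east is `+ x` -/
def Can (d : Dart P) : Prop := d.1.1.e = (0, true)

/-- the slab of a dart -/
def sl (d : Dart P) : ℤ := d.1.1.c 0

/-- the row of a dart -/
def ll (d : Dart P) : ℤ := d.1.1.c 2

/-- the position of a dart (the `y`-coordinate of the facet) -/
def jj (d : Dart P) : ℤ := d.1.1.c 1 + (if d.1.1.d.2 then 1 else 0)

/-- front facets: outer normal `- y` -/
def fr (d : Dart P) : Bool := !d.1.1.d.2

/-- the plane on the east side of a dart -/
def xe (d : Dart P) : ℤ := d.1.1.c 0 + (if d.1.1.e.2 then 1 else 0)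

/-- the plane on the west side of a dart -/
def xw (d : Dart P) : ℤ := d.1.1.c 0 + (if d.1.1.e.2 then 0 else 1)

/-- the value of the strand of the ring next to the plane `x` at the canonical dart `p`: at planes
of type `true` it is the value of the arc from `p` to `rN p`, else of the arc from `rN⁻¹ p` to `p` -/
def val (A : ℤ → Bool) (ν : Dart P → Prop) (x : ℤ) (p : Dart P) : Prop :=
  if A x then ν p else ν ((rN P).symm p)

open Classical in
/-- the canonical dart of the same facet -/
noncomputable def can1 (d : Dart P) : Dart P := if Can d then d else r2D P d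

end Pool.BW
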