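import Pool.Agent.MP42.BW.Defs

/-! # Statements of the brick level (T1: helper50, T2: volunteer) -/

set_option autoImplicit false

namespace Pool.BW

/-- T1 (helper50) -/
theorem toggle_movie {n : ℕ} {B : ℤ} {O : ℕ → St} {A : ℕ → Bool} (h : Mv n B O A)
    (hs : Single n O)
    (hchi : 12 ≤ ∑ i ∈ Finset.range n, sgn (A i) * (chi6 B (O (i + 1)) - chi6 B (O i)))
    (htr : Tr n O) {γ : Bool → ℕ → ℤ → ℤ → Prop} {W : ℕ → ℤ → ℤ → Prop} (hF : Fam n O A γ W) :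
    ∃ c : Prop, ∀ i, i ≤ n → ∀ e l x, al (O i) l x → (γ e i l x ↔ c) := sorry

/-- T2 (from T1, by insertion of one intermediate state after the other) -/
theorem brick_movie {n : ℕ} {B : ℤ} {O : ℕ → St} {A : ℕ → Bool} (h : Mv n B O A)
    (hchi : 12 ≤ ∑ i ∈ Finset.range n, sgn (A i) * (chi6 B (O (i + 1)) - chi6 B (O i)))
    (htr : Tr n O) {γ : Bool → ℕ → ℤ → ℤ → Prop} {W : ℕ → ℤ → ℤ → Prop} (hF : Fam n O A γ W) :
    ∃ c : Prop, ∀ i, i ≤ n → ∀ e l x, al (O i) l x → (γ e i l x ↔ c) := sorry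

end Pool.BW
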