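import Pool.Agent.MP42.BW.PDefs
import Pool.Agent.MP42.BW.Stmt

/-! # Statements of the dictionary polycube -> brick wall movie -/

set_option autoImplicit false

namespace Pool.BW

open Pool.Agent.Helper55.UNF Pool.Agent.Helper55.UNF.GridSolid Pool.Agent.MP42 Pool.Agent.MP42.NE

/-! ## T3: sections and arcs -/

theorem brick_fine (S : ℤ → ℤ → Bool) : Brick (fine S) := sorry

theorem al_fine (S : ℤ → ℤ → Bool) (l κ : ℤ) :
    al (fine S) l κ ↔ S (pt κ - 1) l ≠ S (pt κ) l ∧ κ = key l (pt κ) (S (pt κ) l) := sorry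

variable {P : GridSolid}

theorem dart_of_al {x l κ : ℤ} (h : al (fine (sec P x)) l κ) :
    ∃ d : Dart P, Can d ∧ sl d = x ∧ ll d = l ∧ key (ll d) (jj d) (fr d) = κ := sorry

theorem al_of_dart (d : Dart P) :
    al (fine (sec P (sl d))) (ll d) (key (ll d) (jj d) (fr d)) := sorry

theorem dart_inj {d d' : Dart P} (h : Can d) (h' : Can d') (h1 : sl d = sl d') (h2 : ll d = ll d')
    (h3 : jj d = jj d') : d = d' := sorry

/-- the arc from `d` to the north: fronts go up, backs go down -/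
theorem arc_rN (hM : P.IsManifold) (d : Dart P) (h : Can d) :
    Can (rN P d) ∧ sl (rN P d) = sl d ∧
    ∃ k, k = (if fr d then ll d + 1 else ll d) ∧
      row k (key (ll d) (jj d) (fr d)) = ll d ∧
      row k (key (ll (rN P d)) (jj (rN P d)) (fr (rN P d))) = ll (rN P d) ∧
      (Run (cc (fine (sec P (sl d))) k) (key (ll d) (jj d) (fr d))
        (key (ll (rN P d)) (jj (rN P d)) (fr (rN P d))) ∨
      Run (cc (fine (sec P (sl d))) k) (key (ll (rN P d)) (jj (rN P d)) (fr (rN P d)))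
        (key (ll d) (jj d) (fr d))) := sorry

/-! ## T4: rings -/

/-- consecutive facets of the ring at a plane are linked by changed cells -/
theorem ring_link (hM : P.IsManifold) (W : ℤ → ℤ → ℤ → Prop)
    (hW : ∀ x l j, sec P (x - 1) j l ≠ sec P x j l → (W x l j ↔ W x l (j + 1))) (d : Dart P) :
    xw (phi P d) = xe d ∧ ll (phi P d) = ll d ∧
      (W (xe d) (ll d) (jj d) ↔ W (xe d) (ll d) (jj (phi P d))) := sorry

/-- `v d` = value on the east side of the dart `d` -/
theorem ring_W (hM : P.IsManifold) (v : Dart P → Prop) (hv : ∀ d, v d ↔ v (r2D P (phi P d))) :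
    ∃ W : ℤ → ℤ → ℤ → Prop,
      (∀ x l j, sec P (x - 1) j l ≠ sec P x j l → (W x l j ↔ W x l (j + 1))) ∧
      ∀ d, W (xe d) (ll d) (jj d) ↔ v d := sorry

/-! ## T5: Euler characteristic -/

theorem chi_eul (hM : P.IsManifold) {A : ℤ → Bool} (hA : Planes P A) (m : ℤ) (n : ℕ) (B : ℤ)
    (hB : ∀ c ∈ P.cells, m < c 0 ∧ c 0 < m + n ∧ -B < 4 * c 1 - 8 ∧ 4 * c 1 + 8 < B ∧
      -B < c 2 - 8 ∧ c 2 + 8 < B) :
    ∑ i ∈ Finset.range n, sgn (A (m + i + 1)) *
      (chi6 B (fine (sec P (m + i + 1))) - chi6 B (fine (sec P (m + i)))) = 6 * eul P := sorry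

/-! ## T6: the dictionary -/

/-- `ν p` = value of the arc from `p` to `rN P p` (`p` canonical), `v d` = value on the east side
of the dart `d` -/
theorem univ_const (hP : P.IsOrthogonalPolyhedron) {A : ℤ → Bool} (hA : Planes P A)
    (hE : eul P = 2) (ν v : Dart P → Prop) (hv : ∀ d, v d ↔ v (r2D P (phi P d)))
    (he : ∀ d, Can d → (v d ↔ val A ν (xe d) d)) (hw : ∀ d, Can d → (v (r2D P d) ↔ val A ν (xw d) d)) :
    ∀ p q, Can p → Can q → (ν p ↔ ν q) := sorry

end Pool.BW
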