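import Pool.Agent.MP42.BW.Defs

/-!
# Runs (helper50, T1)
-/

set_option autoImplicit false

namespace Pool.BW

lemma par_true {k : ℤ} : par k = true ↔ k % 2 = 1 := by simp [par]

lemma par_false {k : ℤ} : par k = false ↔ k % 2 = 0 := by
  simp only [par, decide_eq_false_iff_not]; omega

lemma Run.lt {c : ℤ → Bool} {a b : ℤ} (h : Run c a b) : a < b := h.1

lemma Run.eq_left {c : ℤ → Bool} {a b b' : ℤ} (h : Run c a b) (h' : Run c a b') : b = b' := by
  obtain ⟨h1, h2, h3, h4⟩ := h
  obtain ⟨g1, g2, g3, g4⟩ := h'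
  rcases lt_trichotomy b b' with hb | hb | hb
  · have := g4 b h1.le hb; rw [h3] at this; cases this
  · exact hb
  · have := h4 b' g1.le hb; rw [g3] at this; cases this

lemma Run.eq_right {c : ℤ → Bool} {a a' b : ℤ} (h : Run c a b) (h' : Run c a' b) : a = a' := by
  obtain ⟨h1, h2, h3, h4⟩ := h
  obtain ⟨g1, g2, g3, g4⟩ := h'
  rcases lt_trichotomy a a' with hb | hb | hb
  · have := h4 (a' - 1) (by omega) (by omega); rw [g2] at this; cases this
  · exact hb
  · have := g4 (a - 1) (by omega) (by omega); rw [h2] at this; cases this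

/-- different runs are disjoint -/
lemma Run.sep {c : ℤ → Bool} {a b a' b' : ℤ} (h : Run c a b) (h' : Run c a' b') :
    (a = a' ∧ b = b') ∨ b < a' ∨ b' < a := by
  obtain ⟨h1, h2, h3, h4⟩ := h
  obtain ⟨g1, g2, g3, g4⟩ := h'
  by_contra hn
  push Not at hn
  obtain ⟨n1, n2, n3⟩ := hn
  -- b ≥ a', b' ≥ a
  have e1 : a = a' := by
    rcases lt_trichotomy a a' with hb | hb | hb
    · have := h4 (a' - 1) (by omega) (by omega); rw [g2] at this; cases this
    · exact hb
    · have := g4 (a - 1) (by omega) (by omega); rw [h2] at this; cases this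
  subst e1
  have e2 : b = b' := Run.eq_left ⟨h1, h2, h3, h4⟩ ⟨g1, g2, g3, g4⟩
  exact n1 rfl e2

lemma Run.not_both {c : ℤ → Bool} {a b b' : ℤ} (h : Run c a b) (h' : Run c b' a) : False := by
  have h1 := h.2.2.2 a le_rfl h.1
  have h2 := h'.2.2.1
  rw [h1] at h2; cases h2

/-- finite support -/
def FS (c : ℤ → Bool) : Prop := ∃ B : ℤ, ∀ x, c x = true → -B < x ∧ x < B

lemma exists_run {c : ℤ → Bool} (hc : FS c) {y : ℤ} (hy : c y = true) :
    ∃ a b, Run c a b ∧ a ≤ y ∧ y < b := by
  obtain ⟨B, hB⟩ := hc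
  -- right end
  have h1 : ∃ n : ℕ, c (y + n) = false := by
    refine ⟨(B - y).toNat, ?_⟩
    by_contra hne
    have := hB _ (Bool.eq_true_of_not_eq_false hne)
    have h2 := hB _ hy
    omega
  have h2 : ∃ n : ℕ, c (y - n) = false := by
    refine ⟨(y + B).toNat, ?_⟩
    by_contra hne
    have := hB _ (Bool.eq_true_of_not_eq_false hne)
    have h2 := hB _ hy
    omega
  classical
  refine ⟨y - (Nat.find h2) + 1, y + Nat.find h1, ⟨?_, ?_, ?_, ?_⟩, ?_, ?_⟩
  · have e1 : Nat.find h1 ≠ 0 := by
      intro h0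
      have := Nat.find_spec h1
      rw [h0] at this
      simp [hy] at this
    have e2 : Nat.find h2 ≠ 0 := by
      intro h0
      have := Nat.find_spec h2
      rw [h0] at this
      simp [hy] at this
    omega
  · have := Nat.find_spec h2
    rw [show y - (Nat.find h2 : ℤ) + 1 - 1 = y - (Nat.find h2 : ℤ) by ring]
    exact this
  · exact Nat.find_spec h1
  · intro x hx1 hx2
    rcases le_or_gt y x with hxy | hxy
    · have hlt : (x - y).toNat < Nat.find h1 := by omega
      have := Nat.find_min h1 hlt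
      rw [show y + ((x - y).toNat : ℤ) = x by omega] at this
      exact Bool.eq_true_of_not_eq_false this
    · have hlt : (y - x).toNat < Nat.find h2 := by omega
      have := Nat.find_min h2 hlt
      rw [show y - ((y - x).toNat : ℤ) = x by omega] at this
      exact Bool.eq_true_of_not_eq_false this
  · have e2 : Nat.find h2 ≠ 0 := by
      intro h0
      have := Nat.find_spec h2
      rw [h0] at this
      simp [hy] at this
    omega
  · have e1 : Nat.find h1 ≠ 0 := by
      intro h0
      have := Nat.find_spec h1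
      rw [h0] at this
      simp [hy] at this
    omega

/-- the run at a point where `c` changes -/
lemma exists_run_at {c : ℤ → Bool} (hc : FS c) {y : ℤ} (hy : c (y - 1) ≠ c y) :
    ∃ b, Run c y b ∨ Run c b y := by
  cases h : c y with
  | true =>
    rw [h] at hy
    have h1 : c (y - 1) = false := by
      cases h2 : c (y - 1) with
      | false => rfl
      | true => exact absurd h2 hy
    obtain ⟨a, b, hr, ha, hb⟩ := exists_run hc h
    have : a = y := by
      by_contra hne
      have := hr.2.2.2 (y - 1) (by omega) (by omega)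
      rw [h1] at this; cases this
    exact ⟨b, Or.inl (this ▸ hr)⟩
  | false =>
    rw [h] at hy
    have h1 : c (y - 1) = true := by
      cases h2 : c (y - 1) with
      | true => rfl
      | false => exact absurd h2 hy
    obtain ⟨a, b, hr, ha, hb⟩ := exists_run hc h1
    have : b = y := by
      by_contra hne
      have := hr.2.2.2 y (by omega) (by omega)
      rw [h] at this; cases this
    exact ⟨a, Or.inr (this ▸ hr)⟩

lemma Run.ne_at_left {c : ℤ → Bool} {a b : ℤ} (h : Run c a b) : c (a - 1) ≠ c a := by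
  rw [h.2.1, h.2.2.2 a le_rfl h.1]; simp

lemma Run.ne_at_right {c : ℤ → Bool} {a b : ℤ} (h : Run c a b) : c (b - 1) ≠ c b := by
  rw [h.2.2.1, h.2.2.2 (b - 1) (by have := h.1; omega) (by omega)]; simp

/-! ## strips of brick states -/

lemma row_spec (k x : ℤ) : (x - row k x) % 2 = 0 ∧ (row k x = k ∨ row k x = k - 1) := by
  unfold row
  split_ifs with h
  · exact ⟨h, Or.inl rfl⟩
  · exact ⟨by omega, Or.inr rfl⟩

lemma row_eq {k x l : ℤ} (h : (x - l) % 2 = 0) (hk : k = l ∨ k = l + 1) : row k x = l := by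
  unfold row
  split_ifs with h1
  · omega
  · omega

lemma supp_cc {B : ℤ} {o : St} (h : Supp B o) (k : ℤ) : FS (cc o k) := by
  refine ⟨B, fun x hx => ?_⟩
  unfold cc at hx
  cases h1 : o (k - 1) x with
  | true => exact ⟨(h _ _ h1).2.2.1, (h _ _ h1).2.2.2⟩
  | false =>
    rw [h1] at hx
    simp at hx
    exact ⟨(h _ _ hx).2.2.1, (h _ _ hx).2.2.2⟩

lemma Brick.al_par {o : St} (h : Brick o) {l x : ℤ} (hx : al o l x) : (x - l) % 2 = 0 := by
  by_contra hne
  apply hx
  have := h l (x - 1) (by omega)
  rw [show x - 1 + 1 = x by ring] at this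
  exact this

/-- the strip changes exactly at the points of its rows -/
lemma Brick.cc_al {o : St} (h : Brick o) (k x : ℤ) :
    cc o k (x - 1) ≠ cc o k x ↔ al o (row k x) x := by
  obtain ⟨h1, h2⟩ := row_spec k x
  unfold cc al
  rcases h2 with h2 | h2
  · rw [h2] at h1 ⊢
    have h3 := h (k - 1) (x - 1) (by omega)
    rw [show x - 1 + 1 = x by ring] at h3
    rw [h3]
    cases o (k - 1) x <;> cases o k (x - 1) <;> cases o k x <;> simp
  · rw [h2] at h1 ⊢
    have h3 := h k (x - 1) (by omega)
    rw [show x - 1 + 1 = x by ring] at h3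
    rw [h3]
    cases o (k - 1) (x - 1) <;> cases o (k - 1) x <;> cases o k x <;> simp

lemma Brick.al_left {o : St} (h : Brick o) {k a b : ℤ} (hr : Run (cc o k) a b) :
    al o (row k a) a := (h.cc_al k a).1 hr.ne_at_left

lemma Brick.al_right {o : St} (h : Brick o) {k a b : ℤ} (hr : Run (cc o k) a b) :
    al o (row k b) b := (h.cc_al k b).1 hr.ne_at_right

/-- the strip of class `e` at the row `l` -/
def stp (e : Bool) (l : ℤ) : ℤ := if par l = e then l else l + 1

lemma par_stp (e : Bool) (l : ℤ) : par (stp e l) = e := by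
  unfold stp
  split_ifs with h
  · exact h
  · cases e
    · have : par l = true := by simpa using h
      rw [par_true] at this
      rw [par_false]; omega
    · have : par l = false := by simpa using h
      rw [par_false] at this
      rw [par_true]; omega

lemma stp_cases (e : Bool) (l : ℤ) : stp e l = l ∨ stp e l = l + 1 := by
  unfold stp; split_ifs <;> simp

lemma eq_stp {e : Bool} {k l : ℤ} (h : par k = e) (hk : k = l ∨ k = l + 1) : k = stp e l := by
  have h1 : par (stp e l) = par k := (par_stp e l).trans h.symm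
  have h2 := stp_cases e l
  unfold par at h1
  rw [decide_eq_decide] at h1
  omega

lemma row_stp {e : Bool} {l x : ℤ} (h : (x - l) % 2 = 0) : row (stp e l) x = l :=
  row_eq h (stp_cases e l)

/-- every point has an arc in the strip of class `e` -/
lemma Brick.exists_arc {B : ℤ} {o : St} (h : Brick o) (hs : Supp B o) (e : Bool) {l x : ℤ}
    (hx : al o l x) : ∃ b, Run (cc o (stp e l)) x b ∨ Run (cc o (stp e l)) b x := by
  apply exists_run_at (supp_cc hs _)
  rw [h.cc_al, row_stp (h.al_par hx)]
  exact hx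

/-! ## toggles -/

lemma tog_ne_row {o : St} {l x l' : ℤ} (h : l' ≠ l) (y : ℤ) : tog o l x l' y = o l' y := by
  unfold tog; rw [if_neg (fun hh => h hh.1)]

lemma tog_at {o : St} {l x y : ℤ} (h : y = x ∨ y = x + 1) : tog o l x l y = !(o l y) := by
  unfold tog; rw [if_pos ⟨rfl, h⟩]

lemma tog_off {o : St} {l x l' y : ℤ} (h : y ≠ x ∧ y ≠ x + 1) : tog o l x l' y = o l' y := by
  unfold tog; rw [if_neg (fun hh => by rcases hh.2 with h1 | h1; exact h.1 h1; exact h.2 h1)]

lemma tog_tog (o : St) (l x : ℤ) : tog (tog o l x) l x = o := by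
  funext l' y
  by_cases h : l' = l ∧ (y = x ∨ y = x + 1)
  · obtain ⟨rfl, h⟩ := h
    rw [tog_at h, tog_at h, Bool.not_not]
  · unfold tog
    rw [if_neg h, if_neg h]

/-- the points after a toggle -/
lemma al_tog (o : St) (l x l' y : ℤ) :
    al (tog o l x) l' y ↔ if l' = l ∧ (y = x ∨ y = x + 2) then ¬ al o l' y else al o l' y := by
  by_cases h : l' = l
  · subst h
    by_cases h1 : y = x
    · subst h1
      rw [if_pos ⟨rfl, Or.inl rfl⟩]
      unfold al
      rw [tog_at (Or.inl rfl), tog_off (show y - 1 ≠ y ∧ y - 1 ≠ y + 1 from ⟨by omega, by omega⟩)]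
      cases o l' (y - 1) <;> cases o l' y <;> simp
    by_cases h2 : y = x + 2
    · subst h2
      rw [if_pos ⟨rfl, Or.inr rfl⟩]
      unfold al
      rw [show x + 2 - 1 = x + 1 by ring, tog_at (Or.inr rfl),
        tog_off (show x + 2 ≠ x ∧ x + 2 ≠ x + 1 from ⟨by omega, by omega⟩)]
      cases o l' (x + 1) <;> cases o l' (x + 2) <;> simp
    rw [if_neg (by rintro ⟨-, h3 | h3⟩ <;> omega)]
    by_cases h3 : y = x + 1
    · subst h3
      unfold al
      rw [show x + 1 - 1 = x by ring, tog_at (Or.inl rfl), tog_at (Or.inr rfl)]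
      cases o l' x <;> cases o l' (x + 1) <;> simp
    · unfold al
      rw [tog_off ⟨h1, h3⟩, tog_off ⟨by omega, by omega⟩]
  · rw [if_neg (fun hh => h hh.1)]
    unfold al
    rw [tog_ne_row h, tog_ne_row h]

lemma cc_tog_off {o : St} {l x k : ℤ} (h : k ≠ l ∧ k ≠ l + 1) : cc (tog o l x) k = cc o k := by
  funext y
  unfold cc
  rw [tog_ne_row h.1, tog_ne_row (by omega)]

lemma cc_tog_out {o : St} {l x k y : ℤ} (h : y ≠ x ∧ y ≠ x + 1) : cc (tog o l x) k y = cc o k y := by
  unfold cc
  rw [tog_off h, tog_off h]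

lemma cc_tog_in {o : St} {l x k y : ℤ} (hk : k = l ∨ k = l + 1) (h : y = x ∨ y = x + 1) :
    cc (tog o l x) k y = !(cc o k y) := by
  unfold cc
  rcases hk with hk | hk
  · subst hk
    rw [tog_at h, tog_ne_row (by omega)]
    cases o (k - 1) y <;> cases o k y <;> rfl
  · subst hk
    rw [show l + 1 - 1 = l by ring, tog_at h, tog_ne_row (by omega)]
    cases o (l + 1) y <;> cases o l y <;> rfl

end Pool.BW
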