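import Pool.Agent.MP42.BW.JogL

/-!
# The new state after a toggle (helper50, T1)
-/

set_option autoImplicit false

namespace Pool.BW

open Tk (T)

open Classical in
/-- existence of the matchings of a state -/
theorem mkM {B : ℤ} {o : St} {ι : ℤ → ℤ → ℚ} (hb : Brick o) (hs : Supp B o) (tk : Tk o ι)
    (D : ℚ → ℚ) : ∃ M : Bool → ℚ → ℚ,
      (∀ k a b, Run (cc o k) a b → M (par k) (T ι k a) = T ι k b ∧ M (par k) (T ι k b) = T ι k a) ∧
      (∀ e z, ¬ Al o ι z → M e z = D z) := by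
  set R : Bool → ℚ → ℚ → Prop := fun e z w => ∃ k a b, par k = e ∧ Run (cc o k) a b ∧
    ((z = T ι k a ∧ w = T ι k b) ∨ (z = T ι k b ∧ w = T ι k a)) with hR
  have same : ∀ k k' y y', par k = par k' → al o (row k y) y → al o (row k' y') y' →
      T ι k y = T ι k' y' → k = k' ∧ y = y' := by
    intro k k' y y' hp h1 h2 he
    obtain ⟨h3, h4⟩ := tk.inj h1 h2 he
    refine ⟨?_, h4⟩
    obtain ⟨-, r1⟩ := row_spec k y
    obtain ⟨-, r2⟩ := row_spec k' y'
    unfold par at hp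
    rw [decide_eq_decide] at hp
    omega
  have fn : ∀ e z w w', R e z w → R e z w' → w = w' := by
    rintro e z w w' ⟨k, a, b, hk, hr, h1⟩ ⟨k', a', b', hk', hr', h1'⟩
    have ha := hb.al_left hr
    have hb1 := hb.al_right hr
    have ha' := hb.al_left hr'
    have hb1' := hb.al_right hr'
    have hp : par k = par k' := hk.trans hk'.symm
    rcases h1 with ⟨g1, g2⟩ | ⟨g1, g2⟩ <;> rcases h1' with ⟨g3, g4⟩ | ⟨g3, g4⟩
    · obtain ⟨rfl, rfl⟩ := same _ _ _ _ hp ha ha' (g1.symm.trans g3)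
      rw [g2, g4, hr.eq_left hr']
    · obtain ⟨rfl, rfl⟩ := same _ _ _ _ hp ha hb1' (g1.symm.trans g3)
      exact (hr.not_both hr').elim
    · obtain ⟨rfl, rfl⟩ := same _ _ _ _ hp hb1 ha' (g1.symm.trans g3)
      exact (hr'.not_both hr).elim
    · obtain ⟨rfl, rfl⟩ := same _ _ _ _ hp hb1 hb1' (g1.symm.trans g3)
      rw [g2, g4, hr.eq_right hr']
  refine ⟨fun e z => if h : ∃ w, R e z w then Classical.choose h else D z, ?_, ?_⟩
  · intro k a b hr
    constructor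
    · have h : ∃ w, R (par k) (T ι k a) w := ⟨_, k, a, b, rfl, hr, Or.inl ⟨rfl, rfl⟩⟩
      show (if h : ∃ w, R (par k) (T ι k a) w then Classical.choose h else D _) = _
      rw [dif_pos h]
      exact fn _ _ _ _ (Classical.choose_spec h) ⟨k, a, b, rfl, hr, Or.inl ⟨rfl, rfl⟩⟩
    · have h : ∃ w, R (par k) (T ι k b) w := ⟨_, k, a, b, rfl, hr, Or.inr ⟨rfl, rfl⟩⟩
      show (if h : ∃ w, R (par k) (T ι k b) w then Classical.choose h else D _) = _
      rw [dif_pos h]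
      exact fn _ _ _ _ (Classical.choose_spec h) ⟨k, a, b, rfl, hr, Or.inr ⟨rfl, rfl⟩⟩
  · intro e z hz
    show (if h : ∃ w, R e z w then Classical.choose h else D z) = _
    rw [dif_neg]
    rintro ⟨w, k, a, b, hk, hr, h1⟩
    apply hz
    rcases h1 with ⟨g1, -⟩ | ⟨g1, -⟩
    · exact ⟨_, _, hb.al_left hr, g1.symm⟩
    · exact ⟨_, _, hb.al_right hr, g1.symm⟩

/-- new tokens at the positions `x`, `x + 2` of the row `l` -/
def upd (ι : ℤ → ℤ → ℚ) (l x : ℤ) (a b : ℚ) : ℤ → ℤ → ℚ := fun l' y =>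
  if l' = l ∧ y = x then a else if l' = l ∧ y = x + 2 then b else ι l' y

lemma upd_x (ι : ℤ → ℤ → ℚ) (l x : ℤ) (a b : ℚ) : upd ι l x a b l x = a := by
  unfold upd; rw [if_pos ⟨rfl, rfl⟩]

lemma upd_x2 (ι : ℤ → ℤ → ℚ) (l x : ℤ) (a b : ℚ) : upd ι l x a b l (x + 2) = b := by
  unfold upd; rw [if_neg (by omega), if_pos ⟨rfl, rfl⟩]

lemma upd_off (ι : ℤ → ℤ → ℚ) {l x : ℤ} (a b : ℚ) {l' y : ℤ} (h : ¬ (l' = l ∧ (y = x ∨ y = x + 2))) :
    upd ι l x a b l' y = ι l' y := by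
  unfold upd; rw [if_neg (fun hh => h ⟨hh.1, Or.inl hh.2⟩), if_neg (fun hh => h ⟨hh.1, Or.inr hh.2⟩)]

section

variable {B : ℤ} {o o' : St} {X : Finset ℚ} {col : ℚ → Bool} {ι : ℤ → ℤ → ℚ} {D : ℚ → ℚ}
  {M : Bool → ℚ → ℚ} {l x : ℤ}

/-- the colour away from the toggle -/
lemma cl_off (ho : o' = tog o l x) (hb' : Brick o') (hx : (x - l) % 2 = 0) {l' y : ℤ}
    (h : ¬ (l' = l ∧ (y = x ∨ y = x + 2))) (ha : al o' l' y) : cl o' l' y = cl o l' y := by
  unfold cl
  congr 1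
  rw [ho]
  unfold tog
  rw [if_neg]
  rintro ⟨rfl, h1 | h1⟩
  · exact h ⟨rfl, Or.inl h1⟩
  · have := hb'.al_par ha
    omega

/-- both points die: the order of the tokens between them -/
lemma none_between (S : SG B o X col ι D M) (hx : (x - l) % 2 = 0) (h0 : al o l x)
    (h2 : al o l (x + 2)) {z : ℚ} (hz : Al o ι z) :
    ¬ (ι l x < z ∧ z < ι l (x + 2)) ∧ ¬ (ι l (x + 2) < z ∧ z < ι l x) := by
  obtain ⟨l', y, hy, rfl⟩ := hz
  have a1 := S.tk.lo _ _ h0
  have a2 := S.tk.hi _ _ h0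
  have b1 := S.tk.lo _ _ h2
  have b2 := S.tk.hi _ _ h2
  have c1 := S.tk.lo _ _ hy
  have c2 := S.tk.hi _ _ hy
  have hrow : (l : ℚ) < ι l' y → ι l' y < (l : ℚ) + 1 → l' = l := by
    intro h3 h4
    have h5 : (l : ℚ) < l' + 1 := lt_trans h3 c2
    have h6 : (l' : ℚ) < l + 1 := lt_trans c1 h4
    have h7 : l < l' + 1 := by exact_mod_cast h5
    have h8 : l' < l + 1 := by exact_mod_cast h6
    omega
  have key : l' = l → y ≤ x ∨ x + 2 ≤ y := by
    intro h
    have := S.hb.al_par hy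
    omega
  constructor
  · rintro ⟨g1, g2⟩
    have hl := hrow (by linarith) (by linarith)
    subst hl
    rcases key rfl with h | h
    · rcases h.lt_or_eq with h | h
      · cases hp : par l' with
        | false => have := S.tk.ordE _ _ _ hy h0 h hp; linarith
        | true =>
          have := S.tk.ordO _ _ _ h0 h2 (by omega) hp
          linarith
      · subst h; linarith
    · rcases h.lt_or_eq with h | h
      · cases hp : par l' with
        | false => have := S.tk.ordE _ _ _ h2 hy h hp; linarith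
        | true =>
          have := S.tk.ordO _ _ _ h0 h2 (by omega) hp
          linarith
      · subst h; linarith
  · rintro ⟨g1, g2⟩
    have hl := hrow (by linarith) (by linarith)
    subst hl
    rcases key rfl with h | h
    · rcases h.lt_or_eq with h | h
      · cases hp : par l' with
        | true => have := S.tk.ordO _ _ _ hy h0 h hp; linarith
        | false =>
          have := S.tk.ordE _ _ _ h0 h2 (by omega) hp
          linarith
      · subst h; linarith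
    · rcases h.lt_or_eq with h | h
      · cases hp : par l' with
        | true => have := S.tk.ordO _ _ _ h2 hy h hp; linarith
        | false =>
          have := S.tk.ordE _ _ _ h0 h2 (by omega) hp
          linarith
      · subst h; linarith

open Classical in
/-- death of the points `x`, `x + 2` -/
theorem sg_death (S : SG B o X col ι D M) (hb' : Brick o') (hs' : Supp B o') (ho : o' = tog o l x)
    (hx : (x - l) % 2 = 0) (h0 : al o l x) (h2 : al o l (x + 2)) :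
    ∃ M', SG B o' X col ι (fun z => if z = ι l x then ι l (x + 2) else if z = ι l (x + 2) then ι l x
      else D z) M' ∧ (∀ z, Al o' ι z ↔ Al o ι z ∧ z ≠ ι l x ∧ z ≠ ι l (x + 2)) := by
  have hal : ∀ l' y, al o' l' y ↔ (al o l' y ∧ ¬ (l' = l ∧ (y = x ∨ y = x + 2))) := by
    intro l' y
    rw [ho, al_tog]
    split_ifs with h
    · constructor
      · intro h3
        exfalso
        obtain ⟨rfl, h4 | h4⟩ := h
        · subst h4; exact h3 h0
        · subst h4; exact h3 h2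
      · rintro ⟨-, h3⟩; exact absurd h h3
    · exact ⟨fun h3 => ⟨h3, h⟩, fun h3 => h3.1⟩
  have hab : ι l x ≠ ι l (x + 2) := fun he => by
    have := (S.tk.inj h0 h2 he).2; omega
  have tk' : Tk o' ι :=
    { lo := fun l' y h => S.tk.lo _ _ ((hal _ _).1 h).1
      hi := fun l' y h => S.tk.hi _ _ ((hal _ _).1 h).1
      ordE := fun l' y y' h h' => S.tk.ordE _ _ _ ((hal _ _).1 h).1 ((hal _ _).1 h').1
      ordO := fun l' y y' h h' => S.tk.ordO _ _ _ ((hal _ _).1 h).1 ((hal _ _).1 h').1 }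
  have hAl : ∀ z, Al o' ι z ↔ Al o ι z ∧ z ≠ ι l x ∧ z ≠ ι l (x + 2) := by
    intro z
    constructor
    · rintro ⟨l', y, hy, rfl⟩
      obtain ⟨g1, g2⟩ := (hal _ _).1 hy
      refine ⟨⟨_, _, g1, rfl⟩, ?_, ?_⟩
      · intro he
        obtain ⟨e1, e2⟩ := S.tk.inj g1 h0 he
        exact g2 ⟨e1, Or.inl e2⟩
      · intro he
        obtain ⟨e1, e2⟩ := S.tk.inj g1 h2 he
        exact g2 ⟨e1, Or.inr e2⟩
    · rintro ⟨⟨l', y, hy, rfl⟩, g1, g2⟩
      refine ⟨_, _, (hal _ _).2 ⟨hy, ?_⟩, rfl⟩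
      rintro ⟨rfl, rfl | rfl⟩
      · exact g1 rfl
      · exact g2 rfl
  obtain ⟨M', hM1, hM2⟩ := mkM hb' hs' tk' (fun z => if z = ι l x then ι l (x + 2) else
    if z = ι l (x + 2) then ι l x else D z)
  refine ⟨M', ⟨hb', hs', tk', fun l' y h => S.mem _ _ ((hal _ _).1 h).1, ?_, ?_, hM1,
    fun e z _ hz => hM2 e z hz⟩, hAl⟩
  · intro l' y h
    rw [S.colr _ _ ((hal _ _).1 h).1]
    exact (cl_off ho hb' hx ((hal _ _).1 h).2 h).symm
  · -- the dead
    have m0 := S.mem _ _ h0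
    have m2 := S.mem _ _ h2
    have n0 : ¬ Al o' ι (ι l x) := fun hh => ((hAl _).1 hh).2.1 rfl
    have n2 : ¬ Al o' ι (ι l (x + 2)) := fun hh => ((hAl _).1 hh).2.2 rfl
    have old : ∀ z, ¬ Al o' ι z → z ≠ ι l x → z ≠ ι l (x + 2) → ¬ Al o ι z :=
      fun z hz e1 e2 hh => hz ((hAl z).2 ⟨hh, e1, e2⟩)
    have A0 : Al o ι (ι l x) := ⟨_, _, h0, rfl⟩
    have A2 : Al o ι (ι l (x + 2)) := ⟨_, _, h2, rfl⟩
    have Dne : ∀ z ∈ X, ¬ Al o ι z → D z ≠ ι l x ∧ D z ≠ ι l (x + 2) := by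
      intro z hz hn
      have := (S.dd.mem z hz hn).2
      exact ⟨fun he => this (he ▸ A0), fun he => this (he ▸ A2)⟩
    have hcol : col (ι l (x + 2)) = !(col (ι l x)) := by
      rw [S.colr _ _ h0, S.colr _ _ h2]
      unfold cl
      have e1 : o l (x + 1) = o l x := (S.hb l x hx).symm
      unfold al at h2
      rw [show x + 2 - 1 = x + 1 by ring, e1] at h2
      cases hh : o l x <;> cases hh2 : o l (x + 2) <;> rw [hh, hh2] at h2 <;> cases par l <;> simp at h2 ⊢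
    have a1 := S.tk.lo _ _ h0
    have a2 := S.tk.hi _ _ h0
    have b1 := S.tk.lo _ _ h2
    have b2 := S.tk.hi _ _ h2
    refine ⟨?_, ?_, ?_, ?_, ?_, ?_⟩
    · intro z hz hn
      by_cases e1 : z = ι l x
      · simp only [if_pos e1]; exact ⟨m2, n2⟩
      by_cases e2 : z = ι l (x + 2)
      · simp only [if_neg e1, if_pos e2]; exact ⟨m0, n0⟩
      simp only [if_neg e1, if_neg e2]
      have h3 := old z hn e1 e2
      obtain ⟨g1, g2⟩ := S.dd.mem z hz h3
      exact ⟨g1, fun hh => g2 ((hAl _).1 hh).1⟩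
    · intro z hz hn
      by_cases e1 : z = ι l x
      · rw [e1]; simp [hab.symm]
      by_cases e2 : z = ι l (x + 2)
      · rw [e2]; simp [hab.symm]
      have h3 := old z hn e1 e2
      simp only [if_neg e1, if_neg e2, if_neg (Dne z hz h3).1, if_neg (Dne z hz h3).2]
      exact S.dd.inv z hz h3
    · intro z hz hn
      by_cases e1 : z = ι l x
      · simp only [if_pos e1]; rw [e1, hcol]
      by_cases e2 : z = ι l (x + 2)
      · simp only [if_neg e1, if_pos e2]; rw [e2, hcol, Bool.not_not]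
      simp only [if_neg e1, if_neg e2]
      exact S.dd.colr z hz (old z hn e1 e2)
    · intro z hz hn
      by_cases e1 : z = ι l x
      · simp only [if_pos e1]; rw [e1]; exact ⟨l, a1, a2, b1, b2⟩
      by_cases e2 : z = ι l (x + 2)
      · simp only [if_neg e1, if_pos e2]; rw [e2]; exact ⟨l, b1, b2, a1, a2⟩
      simp only [if_neg e1, if_neg e2]
      exact S.dd.fl z hz (old z hn e1 e2)
    · intro z hz hn w hw
      have hw' := ((hAl w).1 hw).1
      by_cases e1 : z = ι l x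
      · simp only [if_pos e1]; rw [e1]; exact (none_between S hx h0 h2 hw').1
      by_cases e2 : z = ι l (x + 2)
      · simp only [if_neg e1, if_pos e2]; rw [e2]; exact (none_between S hx h0 h2 hw').2
      simp only [if_neg e1, if_neg e2]
      exact S.dd.none z hz (old z hn e1 e2) w hw'
    · intro z hz w hw hnz hnw
      by_cases e1 : z = ι l x
      · by_cases e3 : w = ι l x
        · rintro ⟨i1, -, -⟩; rw [e1, e3] at i1; exact lt_irrefl _ i1
        by_cases e4 : w = ι l (x + 2)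
        · simp only [if_pos e1]; rintro ⟨-, i2, -⟩; rw [e4] at i2; exact lt_irrefl _ i2
        simp only [if_pos e1, if_neg e3, if_neg e4]
        rintro ⟨i1, i2, i3⟩
        exact S.dd.none w hw (old w hnw e3 e4) _ A2 ⟨i2, i3⟩
      by_cases e2 : z = ι l (x + 2)
      · by_cases e3 : w = ι l x
        · simp only [if_neg e1, if_pos e2]; rintro ⟨-, i2, -⟩; rw [e3] at i2; exact lt_irrefl _ i2
        by_cases e4 : w = ι l (x + 2)
        · rintro ⟨i1, -, -⟩; rw [e2, e4] at i1; exact lt_irrefl _ i1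
        simp only [if_neg e1, if_pos e2, if_neg e3, if_neg e4]
        rintro ⟨i1, i2, i3⟩
        exact S.dd.none w hw (old w hnw e3 e4) _ A0 ⟨i2, i3⟩
      simp only [if_neg e1, if_neg e2]
      have hz3 := old z hnz e1 e2
      by_cases e3 : w = ι l x
      · rintro ⟨i1, i2, -⟩
        rw [e3] at i1 i2
        exact S.dd.none z hz hz3 _ A0 ⟨i1, i2⟩
      by_cases e4 : w = ι l (x + 2)
      · rintro ⟨i1, i2, -⟩
        rw [e4] at i1 i2
        exact S.dd.none z hz hz3 _ A2 ⟨i1, i2⟩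
      simp only [if_neg e3, if_neg e4]
      exact S.dd.nc z hz w hw hz3 (old w hnw e3 e4)

/-- the dead part is unchanged if the set of the living tokens is -/
lemma Dd.congr {ι' : ℤ → ℤ → ℚ} (h : Dd o ι X col D) (hAl : ∀ z, Al o' ι' z ↔ Al o ι z) :
    Dd o' ι' X col D where
  mem := fun z hz hn => by
    rw [hAl] at hn ⊢; exact h.mem z hz hn
  inv := fun z hz hn => by
    rw [hAl] at hn; exact h.inv z hz hn
  colr := fun z hz hn => by
    rw [hAl] at hn; exact h.colr z hz hn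
  fl := fun z hz hn => by
    rw [hAl] at hn; exact h.fl z hz hn
  none := fun z hz hn w hw => by
    rw [hAl] at hn hw; exact h.none z hz hn w hw
  nc := fun z hz w hw hn hn' => by
    rw [hAl] at hn hn'; exact h.nc z hz w hw hn hn'

/-- jog from `x` to `x + 2` -/
theorem sg_jogR (S : SG B o X col ι D M) (hb' : Brick o') (hs' : Supp B o') (ho : o' = tog o l x)
    (hx : (x - l) % 2 = 0) (h0 : al o l x) (h2 : ¬ al o l (x + 2)) :
    ∃ M', SG B o' X col (upd ι l x (ι l x) (ι l x)) D M' ∧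
      (∀ z, Al o' (upd ι l x (ι l x) (ι l x)) z ↔ Al o ι z) := by
  set ι' := upd ι l x (ι l x) (ι l x) with hι'
  have hal : ∀ l' y, al o' l' y ↔ ((al o l' y ∧ ¬ (l' = l ∧ y = x)) ∨ (l' = l ∧ y = x + 2)) := by
    intro l' y
    rw [ho, al_tog]
    split_ifs with h
    · obtain ⟨rfl, h4 | h4⟩ := h
      · subst h4
        exact ⟨fun h3 => absurd h0 h3, fun h3 => by rcases h3 with h3 | h3; exact absurd ⟨rfl, rfl⟩ h3.2; omega⟩
      · subst h4
        exact ⟨fun _ => Or.inr ⟨rfl, rfl⟩, fun _ => h2⟩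
    · constructor
      · intro h3; exact Or.inl ⟨h3, fun hh => h ⟨hh.1, Or.inl hh.2⟩⟩
      · rintro (h3 | h3)
        · exact h3.1
        · exact absurd ⟨h3.1, Or.inr h3.2⟩ h
  -- every point of `o'` is a point of `o`, up to the jog
  have old : ∀ l' y, al o' l' y → ∃ y', al o l' y' ∧ ι' l' y = ι l' y' ∧
      ((l' = l ∧ y = x + 2 ∧ y' = x) ∨ (y' = y ∧ ¬ (l' = l ∧ (y = x ∨ y = x + 2)))) := by
    intro l' y hy
    rcases (hal _ _).1 hy with ⟨g1, g2⟩ | ⟨rfl, rfl⟩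
    · have g3 : ¬ (l' = l ∧ (y = x ∨ y = x + 2)) := by
        rintro ⟨rfl, rfl | rfl⟩
        · exact g2 ⟨rfl, rfl⟩
        · exact h2 g1
      exact ⟨y, g1, by rw [hι', upd_off _ _ _ g3], Or.inr ⟨rfl, g3⟩⟩
    · exact ⟨x, h0, by rw [hι', upd_x2], Or.inl ⟨rfl, rfl, rfl⟩⟩
  have tk' : Tk o' ι' := by
    have ord : ∀ l' y1 y2 z1 z2, al o' l' y1 → al o' l' y2 → y1 < y2 → al o l' z1 → al o l' z2 →
        ((l' = l ∧ y1 = x + 2 ∧ z1 = x) ∨ (z1 = y1 ∧ ¬ (l' = l ∧ (y1 = x ∨ y1 = x + 2)))) →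
        ((l' = l ∧ y2 = x + 2 ∧ z2 = x) ∨ (z2 = y2 ∧ ¬ (l' = l ∧ (y2 = x ∨ y2 = x + 2)))) →
        z1 < z2 := by
      intro l' y1 y2 z1 z2 a1 a2 hlt a3 a4 c1 c2
      rcases c1 with ⟨e1, e2, e3⟩ | ⟨e1, e2⟩ <;> rcases c2 with ⟨e4, e5, e6⟩ | ⟨e4, e5⟩
      · omega
      · omega
      · subst e4
        have := S.hb.al_par a3
        rw [e1] at this ⊢
        rw [e6]
        have h7 : y1 ≠ x := fun hh => e2 ⟨rfl, Or.inl hh⟩
        omega
      · omega
    refine ⟨?_, ?_, ?_, ?_⟩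
    · intro l' y h
      obtain ⟨y', g1, g2, -⟩ := old l' y h
      rw [g2]; exact S.tk.lo _ _ g1
    · intro l' y h
      obtain ⟨y', g1, g2, -⟩ := old l' y h
      rw [g2]; exact S.tk.hi _ _ g1
    · intro l' y1 y2 h1 h2 hlt hp
      obtain ⟨z1, g1, g2, g3⟩ := old l' y1 h1
      obtain ⟨z2, g4, g5, g6⟩ := old l' y2 h2
      rw [g2, g5]
      exact S.tk.ordE _ _ _ g1 g4 (ord l' y1 y2 z1 z2 h1 h2 hlt g1 g4 g3 g6) hp
    · intro l' y1 y2 h1 h2 hlt hp
      obtain ⟨z1, g1, g2, g3⟩ := old l' y1 h1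
      obtain ⟨z2, g4, g5, g6⟩ := old l' y2 h2
      rw [g2, g5]
      exact S.tk.ordO _ _ _ g1 g4 (ord l' y1 y2 z1 z2 h1 h2 hlt g1 g4 g3 g6) hp
  have hAl : ∀ z, Al o' ι' z ↔ Al o ι z := by
    intro z
    constructor
    · rintro ⟨l', y, hy, rfl⟩
      obtain ⟨y', g1, g2, -⟩ := old l' y hy
      exact ⟨l', y', g1, g2.symm⟩
    · rintro ⟨l', y, hy, rfl⟩
      by_cases h : l' = l ∧ y = x
      · obtain ⟨rfl, rfl⟩ := h
        exact ⟨l', y + 2, (hal _ _).2 (Or.inr ⟨rfl, rfl⟩), by rw [hι', upd_x2]⟩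
      · refine ⟨l', y, (hal _ _).2 (Or.inl ⟨hy, h⟩), ?_⟩
        rw [hι', upd_off]
        rintro ⟨rfl, rfl | rfl⟩
        · exact h ⟨rfl, rfl⟩
        · exact h2 hy
  obtain ⟨M', hM1, hM2⟩ := mkM hb' hs' tk' D
  refine ⟨M', ⟨hb', hs', tk', ?_, ?_, S.dd.congr hAl, hM1, fun e z _ hz => hM2 e z hz⟩, hAl⟩
  · intro l' y h
    obtain ⟨y', g1, g2, -⟩ := old l' y h
    rw [g2]; exact S.mem _ _ g1
  · intro l' y h
    obtain ⟨y', g1, g2, g3⟩ := old l' y h
    rw [g2, S.colr _ _ g1]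
    rcases g3 with ⟨e1, e2, e3⟩ | ⟨e1, e2⟩
    · subst e1; subst e2; subst e3
      unfold cl
      congr 1
      rw [ho, tog_off ⟨by omega, by omega⟩]
      unfold al at h2
      rw [not_not, show y' + 2 - 1 = y' + 1 by ring] at h2
      rw [← h2]
      exact S.hb _ _ hx
    · subst e1
      exact (cl_off ho hb' hx e2 h).symm

/-- jog from `x + 2` to `x` -/
theorem sg_jogL (S : SG B o X col ι D M) (hb' : Brick o') (hs' : Supp B o') (ho : o' = tog o l x)
    (hx : (x - l) % 2 = 0) (h0 : ¬ al o l x) (h2 : al o l (x + 2)) :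
    ∃ M', SG B o' X col (upd ι l x (ι l (x + 2)) (ι l (x + 2))) D M' ∧
      (∀ z, Al o' (upd ι l x (ι l (x + 2)) (ι l (x + 2))) z ↔ Al o ι z) := by
  set ι' := upd ι l x (ι l (x + 2)) (ι l (x + 2)) with hι'
  have hal : ∀ l' y, al o' l' y ↔ ((al o l' y ∧ ¬ (l' = l ∧ y = x + 2)) ∨ (l' = l ∧ y = x)) := by
    intro l' y
    rw [ho, al_tog]
    split_ifs with h
    · obtain ⟨rfl, h4 | h4⟩ := h
      · subst h4
        exact ⟨fun _ => Or.inr ⟨rfl, rfl⟩, fun _ => h0⟩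
      · subst h4
        exact ⟨fun h3 => absurd h2 h3, fun h3 => by rcases h3 with h3 | h3; exact absurd ⟨rfl, rfl⟩ h3.2; omega⟩
    · constructor
      · intro h3; exact Or.inl ⟨h3, fun hh => h ⟨hh.1, Or.inr hh.2⟩⟩
      · rintro (h3 | h3)
        · exact h3.1
        · exact absurd ⟨h3.1, Or.inl h3.2⟩ h
  have old : ∀ l' y, al o' l' y → ∃ y', al o l' y' ∧ ι' l' y = ι l' y' ∧
      ((l' = l ∧ y = x ∧ y' = x + 2) ∨ (y' = y ∧ ¬ (l' = l ∧ (y = x ∨ y = x + 2)))) := by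
    intro l' y hy
    rcases (hal _ _).1 hy with ⟨g1, g2⟩ | ⟨rfl, rfl⟩
    · have g3 : ¬ (l' = l ∧ (y = x ∨ y = x + 2)) := by
        rintro ⟨rfl, rfl | rfl⟩
        · exact h0 g1
        · exact g2 ⟨rfl, rfl⟩
      exact ⟨y, g1, by rw [hι', upd_off _ _ _ g3], Or.inr ⟨rfl, g3⟩⟩
    · exact ⟨y + 2, h2, by rw [hι', upd_x], Or.inl ⟨rfl, rfl, rfl⟩⟩
  have tk' : Tk o' ι' := by
    have ord : ∀ l' y1 y2 z1 z2, al o' l' y1 → al o' l' y2 → y1 < y2 → al o l' z1 → al o l' z2 →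
        ((l' = l ∧ y1 = x ∧ z1 = x + 2) ∨ (z1 = y1 ∧ ¬ (l' = l ∧ (y1 = x ∨ y1 = x + 2)))) →
        ((l' = l ∧ y2 = x ∧ z2 = x + 2) ∨ (z2 = y2 ∧ ¬ (l' = l ∧ (y2 = x ∨ y2 = x + 2)))) →
        z1 < z2 := by
      intro l' y1 y2 z1 z2 a1 a2 hlt a3 a4 c1 c2
      rcases c1 with ⟨e1, e2, e3⟩ | ⟨e1, e2⟩ <;> rcases c2 with ⟨e4, e5, e6⟩ | ⟨e4, e5⟩
      · omega
      · have := S.hb.al_par a4
        rw [e1] at *
        have h7 : y2 ≠ x + 2 := fun hh => e5 ⟨rfl, Or.inr hh⟩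
        omega
      · omega
      · omega
    refine ⟨?_, ?_, ?_, ?_⟩
    · intro l' y h
      obtain ⟨y', g1, g2, -⟩ := old l' y h
      rw [g2]; exact S.tk.lo _ _ g1
    · intro l' y h
      obtain ⟨y', g1, g2, -⟩ := old l' y h
      rw [g2]; exact S.tk.hi _ _ g1
    · intro l' y1 y2 h1 h2 hlt hp
      obtain ⟨z1, g1, g2, g3⟩ := old l' y1 h1
      obtain ⟨z2, g4, g5, g6⟩ := old l' y2 h2
      rw [g2, g5]
      exact S.tk.ordE _ _ _ g1 g4 (ord l' y1 y2 z1 z2 h1 h2 hlt g1 g4 g3 g6) hp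
    · intro l' y1 y2 h1 h2 hlt hp
      obtain ⟨z1, g1, g2, g3⟩ := old l' y1 h1
      obtain ⟨z2, g4, g5, g6⟩ := old l' y2 h2
      rw [g2, g5]
      exact S.tk.ordO _ _ _ g1 g4 (ord l' y1 y2 z1 z2 h1 h2 hlt g1 g4 g3 g6) hp
  have hAl : ∀ z, Al o' ι' z ↔ Al o ι z := by
    intro z
    constructor
    · rintro ⟨l', y, hy, rfl⟩
      obtain ⟨y', g1, g2, -⟩ := old l' y hy
      exact ⟨l', y', g1, g2.symm⟩
    · rintro ⟨l', y, hy, rfl⟩
      by_cases h : l' = l ∧ y = x + 2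
      · obtain ⟨rfl, rfl⟩ := h
        exact ⟨l', x, (hal _ _).2 (Or.inr ⟨rfl, rfl⟩), by rw [hι', upd_x]⟩
      · refine ⟨l', y, (hal _ _).2 (Or.inl ⟨hy, h⟩), ?_⟩
        rw [hι', upd_off]
        rintro ⟨rfl, rfl | rfl⟩
        · exact h0 hy
        · exact h ⟨rfl, rfl⟩
  obtain ⟨M', hM1, hM2⟩ := mkM hb' hs' tk' D
  refine ⟨M', ⟨hb', hs', tk', ?_, ?_, S.dd.congr hAl, hM1, fun e z _ hz => hM2 e z hz⟩, hAl⟩
  · intro l' y h
    obtain ⟨y', g1, g2, -⟩ := old l' y h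
    rw [g2]; exact S.mem _ _ g1
  · intro l' y h
    obtain ⟨y', g1, g2, g3⟩ := old l' y h
    rw [g2, S.colr _ _ g1]
    rcases g3 with ⟨e1, e2, e3⟩ | ⟨e1, e2⟩
    · subst e1; subst e3
      rw [e2]
      unfold cl
      congr 1
      rw [ho, tog_at (Or.inl rfl), S.hb _ _ hx]
      unfold al at h2
      rw [show x + 2 - 1 = x + 1 by ring] at h2
      cases hh : o l' (x + 1) <;> cases hh2 : o l' (x + 2) <;> rw [hh, hh2] at h2 <;> simp at h2 ⊢
    · subst e1
      exact (cl_off ho hb' hx e2 h).symm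

end

end Pool.BW
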