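import Pool.Agent.MP42.BW.OrdL

/-!
# Matchings of a state (helper50, T1)
-/

set_option autoImplicit false

namespace Pool.BW

open Tk (T)

lemma par_sub_one (k : ℤ) : par (k - 1) = !par k := by
  cases h : par k with
  | true => rw [par_true] at h; rw [show (!true) = false from rfl, par_false]; omega
  | false => rw [par_false] at h; rw [show (!false) = true from rfl, par_true]; omega

/-- both rows are constant along a run -/
lemma Brick.run_const {o : St} (hb : Brick o) {k a b : ℤ} (hr : Run (cc o k) a b) :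
    ∀ y, a ≤ y → y < b → o k y = o k a ∧ o (k - 1) y = o (k - 1) a := by
  intro y hy
  induction y, hy using Int.le_induction with
  | base => exact fun _ => ⟨rfl, rfl⟩
  | succ y hy ih =>
    intro hyb
    obtain ⟨h1, h2⟩ := ih (by omega)
    have c1 := hr.2.2.2 y hy (by omega)
    have c2 := hr.2.2.2 (y + 1) (by omega) hyb
    have h3 : ¬ al o (row k (y + 1)) (y + 1) := by
      rw [← hb.cc_al, show y + 1 - 1 = y by ring, c1, c2]
      simp
    have h4 : o k (y + 1) = o k y ∧ o (k - 1) (y + 1) = o (k - 1) y := by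
      obtain ⟨r1, r2⟩ := row_spec k (y + 1)
      unfold al at h3
      rw [not_not, show y + 1 - 1 = y by ring] at h3
      rcases r2 with r2 | r2
      · rw [r2] at h3 r1
        exact ⟨h3.symm, (hb (k - 1) y (by omega)).symm⟩
      · rw [r2] at h3 r1
        exact ⟨(hb k y (by omega)).symm, h3.symm⟩
    rw [h4.1, h4.2]
    exact ⟨h1, h2⟩

/-- the ends of an arc have different colours -/
lemma Brick.cl_run {o : St} (hb : Brick o) {k a b : ℤ} (hr : Run (cc o k) a b) :
    cl o (row k b) b = !(cl o (row k a) a) := by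
  have l1 := hr.lt
  obtain ⟨c1, c2⟩ := hb.run_const hr (b - 1) (by omega) (by omega)
  have h1 := hr.2.2.2 a le_rfl l1
  have h2 := hr.2.2.1
  obtain ⟨ra1, ra2⟩ := row_spec k a
  obtain ⟨rb1, rb2⟩ := row_spec k b
  have p1 := par_sub_one k
  unfold cc at h1 h2
  unfold cl
  rcases ra2 with ra2 | ra2 <;> rcases rb2 with rb2 | rb2 <;> rw [ra2] at ra1 ⊢ <;>
    rw [rb2] at rb1 ⊢
  · have h3 := hb (k - 1) (b - 1) (by omega)
    rw [show b - 1 + 1 = b by ring] at h3
    rw [← h3, c2] at h2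
    revert h1 h2
    cases o (k - 1) a <;> cases o k a <;> cases o k b <;> cases par k <;> simp
  · have h3 := hb k (b - 1) (by omega)
    rw [show b - 1 + 1 = b by ring] at h3
    rw [← h3, c1] at h2
    rw [p1]
    revert h1 h2
    cases o (k - 1) a <;> cases o k a <;> cases o (k - 1) b <;> cases par k <;> simp
  · have h3 := hb (k - 1) (b - 1) (by omega)
    rw [show b - 1 + 1 = b by ring] at h3
    rw [← h3, c2] at h2
    rw [p1]
    revert h1 h2
    cases o (k - 1) a <;> cases o k a <;> cases o k b <;> cases par k <;> simp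
  · have h3 := hb k (b - 1) (by omega)
    rw [show b - 1 + 1 = b by ring] at h3
    rw [← h3, c1] at h2
    rw [p1]
    revert h1 h2
    cases o (k - 1) a <;> cases o k a <;> cases o (k - 1) b <;> cases par k <;> simp

/-- `z` is the token of a point -/
def Al (o : St) (ι : ℤ → ℤ → ℚ) (z : ℚ) : Prop := ∃ l y, al o l y ∧ ι l y = z

/-- the tokens without a point, `D` = their matching -/
structure Dd (o : St) (ι : ℤ → ℤ → ℚ) (X : Finset ℚ) (col : ℚ → Bool) (D : ℚ → ℚ) : Prop where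
  mem : ∀ x ∈ X, ¬ Al o ι x → D x ∈ X ∧ ¬ Al o ι (D x)
  inv : ∀ x ∈ X, ¬ Al o ι x → D (D x) = x
  colr : ∀ x ∈ X, ¬ Al o ι x → col (D x) = !(col x)
  fl : ∀ x ∈ X, ¬ Al o ι x → ∃ l : ℤ, (l : ℚ) < x ∧ x < (l : ℚ) + 1 ∧ (l : ℚ) < D x ∧ D x < (l : ℚ) + 1
  none : ∀ x ∈ X, ¬ Al o ι x → ∀ z, Al o ι z → ¬ (x < z ∧ z < D x)
  nc : ∀ x ∈ X, ∀ y ∈ X, ¬ Al o ι x → ¬ Al o ι y → ¬ (x < y ∧ y < D x ∧ D x < D y)

/-- the state at one time -/
structure SG (B : ℤ) (o : St) (X : Finset ℚ) (col : ℚ → Bool) (ι : ℤ → ℤ → ℚ) (D : ℚ → ℚ)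
    (M : Bool → ℚ → ℚ) : Prop where
  hb : Brick o
  hs : Supp B o
  tk : Tk o ι
  mem : ∀ l x, al o l x → ι l x ∈ X
  colr : ∀ l x, al o l x → col (ι l x) = cl o l x
  dd : Dd o ι X col D
  run : ∀ k a b, Run (cc o k) a b → M (par k) (T ι k a) = T ι k b ∧ M (par k) (T ι k b) = T ι k a
  dead : ∀ e z, z ∈ X → ¬ Al o ι z → M e z = D z

namespace SG

variable {B : ℤ} {o : St} {X : Finset ℚ} {col : ℚ → Bool} {ι : ℤ → ℤ → ℚ} {D : ℚ → ℚ}
  {M : Bool → ℚ → ℚ}

/-- the arc of a token -/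
lemma arc (h : SG B o X col ι D M) (e : Bool) {l x : ℤ} (hx : al o l x) :
    ∃ k a b, par k = e ∧ (k = l ∨ k = l + 1) ∧ Run (cc o k) a b ∧
      ((ι l x = T ι k a ∧ M e (ι l x) = T ι k b ∧ x = a) ∨
       (ι l x = T ι k b ∧ M e (ι l x) = T ι k a ∧ x = b)) := by
  obtain ⟨b, hr⟩ := h.hb.exists_arc h.hs e hx
  have hk := par_stp e l
  have hrow := row_stp (e := e) (h.hb.al_par hx)
  rcases hr with hr | hr
  · refine ⟨stp e l, x, b, hk, stp_cases e l, hr, Or.inl ⟨?_, ?_, rfl⟩⟩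
    · unfold T; rw [hrow]
    · have := (h.run _ _ _ hr).1
      rw [hk] at this
      rw [← this]
      unfold T; rw [hrow]
  · refine ⟨stp e l, b, x, hk, stp_cases e l, hr, Or.inr ⟨?_, ?_, rfl⟩⟩
    · unfold T; rw [hrow]
    · have := (h.run _ _ _ hr).2
      rw [hk] at this
      rw [← this]
      unfold T; rw [hrow]

lemma arc' (h : SG B o X col ι D M) (e : Bool) {z : ℚ} (hz : Al o ι z) :
    ∃ k a b, par k = e ∧ Run (cc o k) a b ∧
      ((z = T ι k a ∧ M e z = T ι k b) ∨ (z = T ι k b ∧ M e z = T ι k a)) := by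
  obtain ⟨l, x, hx, rfl⟩ := hz
  obtain ⟨k, a, b, h1, -, h2, h3⟩ := h.arc e hx
  exact ⟨k, a, b, h1, h2, h3.imp (fun hh => ⟨hh.1, hh.2.1⟩) (fun hh => ⟨hh.1, hh.2.1⟩)⟩

lemma al_T_left (h : SG B o X col ι D M) {k a b : ℤ} (hr : Run (cc o k) a b) :
    Al o ι (T ι k a) := ⟨_, _, h.hb.al_left hr, rfl⟩

lemma al_T_right (h : SG B o X col ι D M) {k a b : ℤ} (hr : Run (cc o k) a b) :
    Al o ι (T ι k b) := ⟨_, _, h.hb.al_right hr, rfl⟩

lemma al_M (h : SG B o X col ι D M) (e : Bool) {z : ℚ} (hz : Al o ι z) : Al o ι (M e z) := by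
  obtain ⟨k, a, b, h1, h2, h3 | h3⟩ := h.arc' e hz
  · rw [h3.2]; exact h.al_T_right h2
  · rw [h3.2]; exact h.al_T_left h2

lemma mem_of_al (h : SG B o X col ι D M) {z : ℚ} (hz : Al o ι z) : z ∈ X := by
  obtain ⟨l, x, hx, rfl⟩ := hz
  exact h.mem _ _ hx

lemma m_mem (h : SG B o X col ι D M) (e : Bool) {z : ℚ} (hz : z ∈ X) : M e z ∈ X := by
  by_cases ha : Al o ι z
  · exact h.mem_of_al (h.al_M e ha)
  · rw [h.dead e z hz ha]
    exact (h.dd.mem z hz ha).1

lemma m_inv (h : SG B o X col ι D M) (e : Bool) {z : ℚ} (hz : z ∈ X) : M e (M e z) = z := by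
  by_cases ha : Al o ι z
  · obtain ⟨k, a, b, h1, h2, h3 | h3⟩ := h.arc' e ha
    · rw [h3.2, h3.1]
      have := (h.run _ _ _ h2).2
      rw [h1] at this
      exact this
    · rw [h3.2, h3.1]
      have := (h.run _ _ _ h2).1
      rw [h1] at this
      exact this
  · rw [h.dead e z hz ha]
    obtain ⟨h1, h2⟩ := h.dd.mem z hz ha
    rw [h.dead e _ h1 h2]
    exact h.dd.inv z hz ha

lemma m_col (h : SG B o X col ι D M) (e : Bool) {z : ℚ} (hz : z ∈ X) :
    col (M e z) = !(col z) := by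
  by_cases ha : Al o ι z
  · obtain ⟨k, a, b, h1, h2, h3 | h3⟩ := h.arc' e ha
    · rw [h3.2, h3.1]
      have e1 := h.colr _ _ (h.hb.al_left h2)
      have e2 := h.colr _ _ (h.hb.al_right h2)
      unfold T
      rw [e1, e2]
      exact h.hb.cl_run h2
    · rw [h3.2, h3.1]
      have e1 := h.colr _ _ (h.hb.al_left h2)
      have e2 := h.colr _ _ (h.hb.al_right h2)
      unfold T
      rw [e1, e2, h.hb.cl_run h2, Bool.not_not]
  · rw [h.dead e z hz ha]
    exact h.dd.colr z hz ha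

lemma m_nc (h : SG B o X col ι D M) (e : Bool) {x y : ℚ} (hx : x ∈ X) (hy : y ∈ X) :
    ¬ (x < y ∧ y < M e x ∧ M e x < M e y) := by
  by_cases ax : Al o ι x
  · by_cases ay : Al o ι y
    · obtain ⟨k, a, b, h1, h2, h3⟩ := h.arc' e ax
      obtain ⟨k', a', b', h1', h2', h3'⟩ := h.arc' e ay
      by_cases hkk : k = k'
      · subst hkk
        rcases h2.sep h2' with ⟨e1, e2⟩ | hlt | hlt
        · subst e1; subst e2
          rintro ⟨i1, i2, i3⟩
          rcases h3 with ⟨j1, j2⟩ | ⟨j1, j2⟩ <;> rcases h3' with ⟨j3, j4⟩ | ⟨j3, j4⟩ <;>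
            rw [j2] at i2 i3 <;> rw [j4] at i3 <;> rw [j1] at i1 <;> rw [j3] at i1 i2 <;>
            first
            | exact lt_irrefl _ i1
            | exact lt_irrefl _ i2
        · exact (Tk.nc_strip h.hb h.tk h2 h2' hlt x y (M e x) (M e y) h3 h3').1
        · exact (Tk.nc_strip h.hb h.tk h2' h2 hlt y x (M e y) (M e x) h3' h3).2
      · -- different strips
        have ta := h.tk.T_mem (h.hb.al_left h2)
        have tb := h.tk.T_mem (h.hb.al_right h2)
        have ta' := h.tk.T_mem (h.hb.al_left h2')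
        have tb' := h.tk.T_mem (h.hb.al_right h2')
        have hpar : k % 2 = k' % 2 := by
          have : par k = par k' := h1.trans h1'.symm
          unfold par at this
          rw [decide_eq_decide] at this
          omega
        rintro ⟨i1, i2, i3⟩
        rcases lt_or_gt_of_ne hkk with hlt | hlt
        · have hk2 : k + 2 ≤ k' := by omega
          have hk3 : (k : ℚ) + 2 ≤ k' := by exact_mod_cast hk2
          rcases h3 with ⟨j1, j2⟩ | ⟨j1, j2⟩ <;> rcases h3' with ⟨j3, j4⟩ | ⟨j3, j4⟩ <;>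
            rw [j2] at i2 <;> rw [j3] at i2 <;> linarith
        · have hk2 : k' + 2 ≤ k := by omega
          have hk3 : (k' : ℚ) + 2 ≤ k := by exact_mod_cast hk2
          rcases h3 with ⟨j1, j2⟩ | ⟨j1, j2⟩ <;> rcases h3' with ⟨j3, j4⟩ | ⟨j3, j4⟩ <;>
            rw [j1] at i1 <;> rw [j3] at i1 <;> linarith
    · rw [h.dead e y hy ay]
      rintro ⟨i1, i2, i3⟩
      exact h.dd.none y hy ay _ (h.al_M e ax) ⟨i2, i3⟩
  · by_cases ay : Al o ι y
    · rw [h.dead e x hx ax]
      rintro ⟨i1, i2, i3⟩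
      exact h.dd.none x hx ax _ ay ⟨i1, i2⟩
    · rw [h.dead e x hx ax, h.dead e y hy ay]
      exact h.dd.nc x hx y hy ax ay

end SG

end Pool.BW
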