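import Pool.Agent.MP42.BW.StL

/-!
# One toggle (helper50, T1)
-/

set_option autoImplicit false

namespace Pool.BW

open Tk (T)

/-- a run far from the toggle -/
lemma Run.off {c c' : ℤ → Bool} {x a b : ℤ} (h : ∀ y, y ≠ x → y ≠ x + 1 → c' y = c y)
    (hr : Run c' a b) (hf : b < x ∨ x + 2 < a) : Run c a b := by
  obtain ⟨h1, h2, h3, h4⟩ := hr
  refine ⟨h1, ?_, ?_, ?_⟩
  · rw [← h _ (by omega) (by omega)]; exact h2
  · rw [← h _ (by omega) (by omega)]; exact h3
  · intro y hy1 hy2
    rw [← h _ (by omega) (by omega)]; exact h4 y hy1 hy2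

lemma Sad.symm {X : Finset ℚ} {col : ℚ → Bool} {M M' : ℚ → ℚ} {s : Bool}
    (h : Sad X col M M' s) (hi : ∀ z ∈ X, M (M z) = z)
    (hc : ∀ z ∈ X, col (M z) = !(col z)) (hc' : ∀ z ∈ X, col (M' z) = !(col z)) :
    Sad X col M' M (!s) := by
  obtain ⟨p, hp, q, hq, r, hr, t, ht, h1, h2, h3, h4, h5, h6, h7⟩ := h
  refine ⟨p, hp, t, ht, r, hr, q, hq, h1, h4, h5, h2, h3, ?_, ?_⟩
  · intro z hz e1 e2 e3 e4
    exact (h6 z hz e1 e4 e3 e2).symm
  · have n1 : p ≠ q := by
      intro he
      have := hc p hp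
      rw [h2, ← he] at this
      cases hcp : col p <;> rw [hcp] at this <;> cases this
    have n2 : q ≠ t := by
      intro he
      apply h1
      rw [← hi p hp, ← hi r hr, h2, h3, he]
    have n3 : p ≠ t := by
      intro he
      have := hc' p hp
      rw [h4, ← he] at this
      cases hcp : col p <;> rw [hcp] at this <;> cases this
    rw [cyc_swap n1 n2 n3] at h7
    cases s <;> simp only [Bool.not_true, Bool.not_false, false_iff, true_iff, iff_true, iff_false] at h7 ⊢
    · cases hcp : col p <;> rw [hcp] at h7 <;> simp at h7 ⊢ <;> exact h7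
    · cases hcp : col p <;> rw [hcp] at h7 <;> simp at h7 ⊢ <;> exact h7

section

variable {B : ℤ} {o o' : St} {X : Finset ℚ} {col : ℚ → Bool} {ι ι' : ℤ → ℤ → ℚ} {D D' : ℚ → ℚ}
  {M M' : Bool → ℚ → ℚ} {l x : ℤ}

/-- away from the toggle nothing changes -/
lemma far_step (S : SG B o X col ι D M) (S' : SG B o' X col ι' D' M') (ho : o' = tog o l x)
    (hι : ∀ l' y, al o l' y → al o' l' y → ι' l' y = ι l' y)
    (hA : ∀ z ∈ X, ¬ Al o' ι' z → ¬ Al o ι z ∧ D' z = D z) (e : Bool) {z : ℚ} (hz : z ∈ X) :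
    M' e z = M e z ∨ ∃ a b, Run (cc o' (stp e l)) a b ∧ x ≤ b ∧ a ≤ x + 2 ∧
      (z = T ι' (stp e l) a ∨ z = T ι' (stp e l) b) := by
  have same : ∀ k a b, Run (cc o' k) a b → Run (cc o k) a b → par k = e →
      ((z = T ι' k a ∧ M' e z = T ι' k b) ∨ (z = T ι' k b ∧ M' e z = T ι' k a)) →
      M' e z = M e z := by
    intro k a b hr' hr hk hzz
    have e1 : T ι' k a = T ι k a := hι _ _ (S.hb.al_left hr) (S'.hb.al_left hr')
    have e2 : T ι' k b = T ι k b := hι _ _ (S.hb.al_right hr) (S'.hb.al_right hr')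
    have h3 := S.run _ _ _ hr
    rw [hk] at h3
    rcases hzz with ⟨h1, h2⟩ | ⟨h1, h2⟩
    · rw [h2, h1, e1, e2]; exact h3.1.symm
    · rw [h2, h1, e1, e2]; exact h3.2.symm
  by_cases ha : Al o' ι' z
  · obtain ⟨k, a, b, h1, h2, h3⟩ := S'.arc' e ha
    by_cases hk : k = l ∨ k = l + 1
    · have hk1 := eq_stp h1 hk
      rw [← hk1]
      by_cases hf : b < x ∨ x + 2 < a
      · left
        refine same k a b h2 (Run.off (c' := cc o' k) (x := x) ?_ h2 hf) h1 h3
        intro y hy1 hy2
        rw [ho]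
        exact cc_tog_out ⟨hy1, hy2⟩
      · right
        push Not at hf
        exact ⟨a, b, h2, hf.1, hf.2, h3.imp (fun hh => hh.1) (fun hh => hh.1)⟩
    · left
      push Not at hk
      refine same k a b h2 ?_ h1 h3
      rw [ho, cc_tog_off hk] at h2
      exact h2
  · left
    obtain ⟨h1, h2⟩ := hA z hz ha
    rw [S'.dead e z hz ha, S.dead e z hz h1, h2]

/-- data of one toggle at the strip -/
lemma strip_vals (ho : o' = tog o l x) {k : ℤ} (hk : k = l ∨ k = l + 1) :
    (∀ y, y ≠ x → y ≠ x + 1 → cc o' k y = cc o k y) ∧ cc o' k x = !(cc o k x) ∧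
      cc o' k (x + 1) = !(cc o k (x + 1)) := by
  subst ho
  exact ⟨fun y h1 h2 => cc_tog_out ⟨h1, h2⟩, cc_tog_in hk (Or.inl rfl), cc_tog_in hk (Or.inr rfl)⟩

lemma T_eq (hx : (x - l) % 2 = 0) {k : ℤ} (hk : k = l ∨ k = l + 1) (ι : ℤ → ℤ → ℚ) :
    T ι k x = ι l x := by unfold T; rw [row_eq hx hk]

lemma al_of_cc (S : SG B o X col ι D M) {k y : ℤ} (h : cc o k (y - 1) ≠ cc o k y) :
    al o (row k y) y := (S.hb.cc_al k y).1 h

/-- the sign of the saddle at a birth -/
lemma sign_birth (S' : SG B o' X col ι' D' M') (hx : (x - l) % 2 = 0) {k p q : ℤ}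
    (hk : k = l ∨ k = l + 1) (hp : al o' (row k p) p) (hq : al o' (row k q) q)
    (hax : al o' l x) (hpq : (p < x ∧ x < q) ∨ (p = x + 1 ∧ x + 1 < q)) {s : Bool}
    (hs : o' l x = s) (hcol : col (T ι' k p) = !(col (T ι' k x))) :
    (s = true ↔ (cyc (T ι' k p) (T ι' k q) (T ι' k x) ↔ col (T ι' k p) = true)) := by
  have hax' : al o' (row k x) x := by rw [row_eq hx hk]; exact hax
  have hcx : col (T ι' k x) = xor s (par l) := by
    rw [T_eq hx hk, S'.colr _ _ hax]
    unfold cl
    rw [hs]
  have key : cyc (T ι' k p) (T ι' k q) (T ι' k x) ↔ par l = true := by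
    rw [par_true]
    rcases hpq with ⟨h1, h2⟩ | ⟨h1, h2⟩
    · have h3 := S'.tk.orient hp hax' hq h1 h2
      have n1 : T ι' k p ≠ T ι' k q := fun he => by
        have := (S'.tk.inj hp hq he).2; omega
      have n2 : T ι' k q ≠ T ι' k x := fun he => by
        have := (S'.tk.inj hq hax' he).2; omega
      have n3 : T ι' k p ≠ T ι' k x := fun he => by
        have := (S'.tk.inj hp hax' he).2; omega
      rw [cyc_swap n1 n2 n3, h3]
      omega
    · subst h1
      have h3 := S'.tk.orient hax' hp hq (by omega) h2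
      rw [← cyc_rot, h3]
      omega
  rw [key, hcol, hcx]
  cases s <;> cases par l <;> simp

theorem step_birth (S : SG B o X col ι D M) (S' : SG B o' X col ι' D' M') (ho : o' = tog o l x)
    (hx : (x - l) % 2 = 0) (h0 : ¬ al o l x) (h2 : ¬ al o l (x + 2))
    (hι : ∀ l' y, al o l' y → al o' l' y → ι' l' y = ι l' y)
    (hA : ∀ z ∈ X, ¬ Al o' ι' z → ¬ Al o ι z ∧ D' z = D z)
    (hu : ¬ Al o ι (ι' l x)) (hv : ¬ Al o ι (ι' l (x + 2)))
    (huv : D (ι' l x) = ι' l (x + 2)) (hvu : D (ι' l (x + 2)) = ι' l x) (e : Bool) :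
    ((cc o (stp e l) x || cc o (stp e l) (x + 1)) = false → ∀ z ∈ X, M' e z = M e z) ∧
    ((cc o (stp e l) x || cc o (stp e l) (x + 1)) = true → Sad X col (M e) (M' e) (o' l x)) := by
  have hk := stp_cases e l
  have hpar := par_stp e l
  have far := fun z (hz : z ∈ X) => far_step S S' ho hι hA e hz
  obtain ⟨c1, c2, c3⟩ := strip_vals ho hk
  generalize stp e l = k at *
  have hx2 : (x + 2 - l) % 2 = 0 := by omega
  -- values of c at the ends
  have d1 : cc o k (x - 1) = cc o k x := by
    by_contra hne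
    apply h0
    have := (S.hb.cc_al k x).1 hne
    rwa [row_eq hx hk] at this
  have d2 : cc o k (x + 2) = cc o k (x + 1) := by
    by_contra hne
    apply h2
    have := (S.hb.cc_al k (x + 2)).1 (by rw [show x + 2 - 1 = x + 1 by ring]; exact fun hh => hne hh.symm)
    rwa [row_eq hx2 hk] at this
  have e1 : cc o' k (x - 1) = cc o k x := by rw [c1 _ (by omega) (by omega), d1]
  have e2 : cc o' k (x + 2) = cc o k (x + 1) := by rw [c1 _ (by omega) (by omega), d2]
  have ax : al o' l x := by
    rw [ho, al_tog, if_pos ⟨rfl, Or.inl rfl⟩]; exact h0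
  have ax2 : al o' l (x + 2) := by
    rw [ho, al_tog, if_pos ⟨rfl, Or.inr rfl⟩]; exact h2
  have hmu : M e (ι' l x) = ι' l (x + 2) := by
    rw [S.dead e _ (S'.mem _ _ ax) hu, huv]
  have hmv : M e (ι' l (x + 2)) = ι' l x := by
    rw [S.dead e _ (S'.mem _ _ ax2) hv, hvu]
  have Tx : T ι' k x = ι' l x := T_eq hx hk ι'
  have Tx2 : T ι' k (x + 2) = ι' l (x + 2) := T_eq hx2 hk ι'
  -- the general saddle
  have sad : ∀ p q, Run (cc o k) p q → (Run (cc o' k) p x ∨ Run (cc o' k) x p) →
      (Run (cc o' k) (x + 2) q ∨ Run (cc o' k) q (x + 2)) →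
      ((p < x ∧ x < q) ∨ (p = x + 1 ∧ x + 1 < q)) →
      (∀ a b, Run (cc o' k) a b → x ≤ b → a ≤ x + 2 →
        (a = p ∨ a = q ∨ a = x ∨ a = x + 2) ∧ (b = p ∨ b = q ∨ b = x ∨ b = x + 2)) →
      Sad X col (M e) (M' e) (o' l x) := by
    intro p q hr hr1 hr2 hpq htouch
    have ap := S.hb.al_left hr
    have aq := S.hb.al_right hr
    have ap' : al o' (row k p) p := by
      rcases hr1 with h | h
      · exact S'.hb.al_left h
      · exact S'.hb.al_right h
    have aq' : al o' (row k q) q := by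
      rcases hr2 with h | h
      · exact S'.hb.al_right h
      · exact S'.hb.al_left h
    have tp : T ι' k p = T ι k p := hι _ _ ap ap'
    have tq : T ι' k q = T ι k q := hι _ _ aq aq'
    have m1 := (S.run _ _ _ hr).1
    rw [hpar] at m1
    have m2 : M' e (T ι k p) = ι' l x := by
      rw [← tp, ← Tx, ← hpar]
      rcases hr1 with h | h
      · exact (S'.run _ _ _ h).1
      · exact (S'.run _ _ _ h).2
    have m3 : M' e (ι' l (x + 2)) = T ι k q := by
      rw [← tq, ← Tx2, ← hpar]
      rcases hr2 with h | h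
      · exact (S'.run _ _ _ h).1
      · exact (S'.run _ _ _ h).2
    refine ⟨T ι k p, S.mem _ _ ap, T ι k q, S.mem _ _ aq, ι' l (x + 2), S'.mem _ _ ax2, ι' l x,
      S'.mem _ _ ax, ?_, m1, hmv, m2, m3, ?_, ?_⟩
    · intro he
      apply hv
      rw [← he]
      exact ⟨_, _, ap, rfl⟩
    · intro z hz n1 n2 n3 n4
      rcases far z hz with h | ⟨a, b, h3, h4, h5, h6⟩
      · exact h
      · exfalso
        obtain ⟨t1, t2⟩ := htouch a b h3 h4 h5
        have : ∀ y, (y = p ∨ y = q ∨ y = x ∨ y = x + 2) → z ≠ T ι' k y := by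
          rintro y (rfl | rfl | rfl | rfl)
          · rw [tp]; exact n1
          · rw [tq]; exact n2
          · rw [Tx]; exact n4
          · rw [Tx2]; exact n3
        rcases h6 with h6 | h6
        · exact this a t1 h6
        · exact this b t2 h6
    · have hc : col (T ι' k p) = !(col (T ι' k x)) := by
        have := S'.m_col e (S'.mem _ _ ap')
        have h7 : M' e (ι' (row k p) p) = T ι' k x := by
          have h8 := m2
          rw [← tp, ← Tx] at h8
          exact h8
        rw [h7] at this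
        rw [this, Bool.not_not]
        rfl
      have := sign_birth S' hx hk ap' aq' ax hpq rfl hc
      rw [tp, tq, Tx] at this
      exact this
  cases v1 : cc o k x <;> cases v2 : cc o k (x + 1) <;> rw [v1] at d1 e1 c2 <;> rw [v2] at d2 e2 c3
  · -- 0000 -> 0110
    refine ⟨fun _ z hz => ?_, fun hh => by simp at hh⟩
    have hr' : Run (cc o' k) x (x + 2) := by
      refine ⟨by omega, e1, e2, fun y hy1 hy2 => ?_⟩
      have : y = x ∨ y = x + 1 := by omega
      rcases this with rfl | rfl
      · exact c2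
      · exact c3
    rcases far z hz with h | ⟨a, b, h3, h4, h5, h6⟩
    · exact h
    · have hab : a = x ∧ b = x + 2 := by
        rcases h3.sep hr' with h | h | h
        · exact h
        · omega
        · omega
      obtain ⟨rfl, rfl⟩ := hab
      have m := S'.run _ _ _ hr'
      rw [hpar, Tx, Tx2] at m
      rcases h6 with h6 | h6
      · rw [h6, Tx, m.1, hmu]
      · rw [h6, Tx2, m.2, hmv]
  · -- 0011 -> 0101
    refine ⟨fun hh => by simp at hh, fun _ => ?_⟩
    obtain ⟨a0, q, hr, ha0, hq0⟩ := exists_run (supp_cc S.hs k) v2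
    have : a0 = x + 1 := by
      by_contra hne
      have := hr.2.2.2 x (by omega) (by omega)
      rw [v1] at this; cases this
    subst this
    have hq : x + 2 < q := by
      by_contra hne
      have h7 := hr.2.2.1
      have : q = x + 2 := by omega
      rw [this, d2] at h7; cases h7
    have hr1 : Run (cc o' k) x (x + 1) := by
      refine ⟨by omega, e1, c3, fun y hy1 hy2 => ?_⟩
      have : y = x := by omega
      subst this; exact c2
    have hr2 : Run (cc o' k) (x + 2) q := by
      refine ⟨by omega, ?_, ?_, fun y hy1 hy2 => ?_⟩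
      · rw [show x + 2 - 1 = x + 1 by ring]; exact c3
      · rw [c1 _ (by omega) (by omega)]; exact hr.2.2.1
      · rw [c1 _ (by omega) (by omega)]; exact hr.2.2.2 y (by omega) hy2
    refine sad (x + 1) q hr (Or.inr hr1) (Or.inl hr2) (Or.inr ⟨rfl, by omega⟩) ?_
    intro a b hab h4 h5
    rcases hab.sep hr1 with ⟨r1, r2⟩ | h | h
    · subst r1; subst r2; exact ⟨by omega, by omega⟩
    · exfalso; omega
    · rcases hab.sep hr2 with ⟨r1, r2⟩ | h' | h'
      · subst r1; subst r2; exact ⟨by omega, by omega⟩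
      · have := hab.lt; omega
      · omega
  · -- 1100 -> 1010
    refine ⟨fun hh => by simp at hh, fun _ => ?_⟩
    obtain ⟨p, b0, hr, hp0, hb0⟩ := exists_run (supp_cc S.hs k) v1
    have : b0 = x + 1 := by
      by_contra hne
      have := hr.2.2.2 (x + 1) (by omega) (by omega)
      rw [v2] at this; cases this
    subst this
    have hp : p < x := by
      by_contra hne
      have h7 := hr.2.1
      have : p = x := by omega
      rw [this, d1] at h7; cases h7
    have hr1 : Run (cc o' k) p x := by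
      refine ⟨hp, ?_, c2, fun y hy1 hy2 => ?_⟩
      · rw [c1 _ (by omega) (by omega)]; exact hr.2.1
      · rw [c1 _ (by omega) (by omega)]; exact hr.2.2.2 y hy1 (by omega)
    have hr2 : Run (cc o' k) (x + 1) (x + 2) := by
      refine ⟨by omega, ?_, e2, fun y hy1 hy2 => ?_⟩
      · rw [show x + 1 - 1 = x by ring]; exact c2
      · have : y = x + 1 := by omega
        subst this; exact c3
    refine sad p (x + 1) hr (Or.inl hr1) (Or.inr hr2) (Or.inl ⟨hp, by omega⟩) ?_
    intro a b hab h4 h5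
    rcases hab.sep hr1 with ⟨r1, r2⟩ | h | h
    · subst r1; subst r2; exact ⟨by omega, by omega⟩
    · exfalso; omega
    · rcases hab.sep hr2 with ⟨r1, r2⟩ | h' | h'
      · subst r1; subst r2; exact ⟨by omega, by omega⟩
      · have := hab.lt; omega
      · omega
  · -- 1111 -> 1001
    refine ⟨fun hh => by simp at hh, fun _ => ?_⟩
    obtain ⟨p, q, hr, hp0, hq0⟩ := exists_run (supp_cc S.hs k) v1
    have hp : p < x := by
      by_contra hne
      have h7 := hr.2.1
      have : p = x := by omega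
      rw [this, d1] at h7; cases h7
    have hq : x + 2 < q := by
      by_contra hne
      have h7 := hr.2.2.1
      have : q = x + 1 ∨ q = x + 2 := by omega
      rcases this with h8 | h8
      · rw [h8, v2] at h7; cases h7
      · rw [h8, d2] at h7; cases h7
    have hr1 : Run (cc o' k) p x := by
      refine ⟨hp, ?_, c2, fun y hy1 hy2 => ?_⟩
      · rw [c1 _ (by omega) (by omega)]; exact hr.2.1
      · rw [c1 _ (by omega) (by omega)]; exact hr.2.2.2 y hy1 (by omega)
    have hr2 : Run (cc o' k) (x + 2) q := by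
      refine ⟨by omega, ?_, ?_, fun y hy1 hy2 => ?_⟩
      · rw [show x + 2 - 1 = x + 1 by ring]; exact c3
      · rw [c1 _ (by omega) (by omega)]; exact hr.2.2.1
      · rw [c1 _ (by omega) (by omega)]; exact hr.2.2.2 y (by omega) hy2
    refine sad p q hr (Or.inl hr1) (Or.inl hr2) (Or.inl ⟨hp, by omega⟩) ?_
    intro a b hab h4 h5
    rcases hab.sep hr1 with ⟨r1, r2⟩ | h | h
    · subst r1; subst r2; exact ⟨by omega, by omega⟩
    · exfalso; omega
    · rcases hab.sep hr2 with ⟨r1, r2⟩ | h' | h'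
      · subst r1; subst r2; exact ⟨by omega, by omega⟩
      · have := hab.lt; omega
      · omega

end

end Pool.BW
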