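import Pool.Agent.MP42.BW.StL

/-!
# T2: from toggle movies to brick movies (helper59)
-/

set_option autoImplicit false

namespace Pool.BW

/-! ## insertion of one entry -/

/-- the sequence `f` with the entry `a` inserted after the place `i₀` -/
def ins {α : Type*} (f : ℕ → α) (i₀ : ℕ) (a : α) (j : ℕ) : α :=
  if j ≤ i₀ then f j else if j = i₀ + 1 then a else f (j - 1)

lemma ins_le {α : Type*} (f : ℕ → α) {i₀ j : ℕ} (a : α) (h : j ≤ i₀) : ins f i₀ a j = f j :=
  if_pos h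

lemma ins_eq {α : Type*} (f : ℕ → α) (i₀ : ℕ) (a : α) : ins f i₀ a (i₀ + 1) = a := by
  unfold ins; rw [if_neg (by omega), if_pos rfl]

lemma ins_gt {α : Type*} (f : ℕ → α) {i₀ j : ℕ} (a : α) (h : i₀ < j) :
    ins f i₀ a (j + 1) = f j := by
  unfold ins; rw [if_neg (by omega), if_neg (by omega), Nat.add_sub_cancel]

lemma sum_ins {F F' : ℕ → ℤ} {i₀ n : ℕ} (hi : i₀ < n) (h1 : ∀ i, i < i₀ → F' i = F i)
    (h2 : F' i₀ + F' (i₀ + 1) = F i₀) (h3 : ∀ i, i₀ < i → F' (i + 1) = F i) :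
    ∑ i ∈ Finset.range (n + 1), F' i = ∑ i ∈ Finset.range n, F i := by
  obtain ⟨k, rfl⟩ : ∃ k, n = i₀ + 1 + k := ⟨n - (i₀ + 1), by omega⟩
  rw [show i₀ + 1 + k + 1 = (i₀ + 2) + k by omega, Finset.sum_range_add F' (i₀ + 2) k,
    Finset.sum_range_add F (i₀ + 1) k, Finset.sum_range_succ F' (i₀ + 1),
    Finset.sum_range_succ F' i₀, Finset.sum_range_succ F i₀]
  have e1 : ∑ i ∈ Finset.range i₀, F' i = ∑ i ∈ Finset.range i₀, F i :=
    Finset.sum_congr rfl (fun i hi => h1 i (Finset.mem_range.1 hi))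
  have e2 : ∑ i ∈ Finset.range k, F' (i₀ + 2 + i) = ∑ i ∈ Finset.range k, F (i₀ + 1 + i) := by
    apply Finset.sum_congr rfl
    intro i _
    rw [show i₀ + 2 + i = (i₀ + 1 + i) + 1 by omega]
    exact h3 _ (by omega)
  rw [e1, e2]
  omega

/-- a step of the new sequence -/
lemma step_cases {i₀ i : ℕ} : i < i₀ ∨ i = i₀ ∨ i = i₀ + 1 ∨ ∃ j, i₀ < j ∧ i = j + 1 := by
  rcases lt_trichotomy i i₀ with h | h | h
  · exact Or.inl h
  · exact Or.inr (Or.inl h)
  · rcases Nat.eq_or_lt_of_le (show i₀ + 1 ≤ i from h) with h1 | h1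
    · exact Or.inr (Or.inr (Or.inl h1.symm))
    · exact Or.inr (Or.inr (Or.inr ⟨i - 1, by omega, by omega⟩))

/-- a place of the new sequence -/
lemma place_cases {i₀ i : ℕ} : i ≤ i₀ ∨ i = i₀ + 1 ∨ ∃ j, i₀ < j ∧ i = j + 1 := by
  rcases step_cases (i₀ := i₀) (i := i) with h | h | h | h
  · exact Or.inl h.le
  · exact Or.inl h.le
  · exact Or.inr (Or.inl h)
  · exact Or.inr (Or.inr h)

/-! ## toggles between two states -/

lemma brick_tog {o : St} (h : Brick o) {l x : ℤ} (hx : (x - l) % 2 = 0) : Brick (tog o l x) := by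
  intro l' y hy
  by_cases hl : l' = l
  · subst hl
    by_cases h1 : y = x
    · subst h1
      rw [tog_at (Or.inl rfl), tog_at (Or.inr rfl), h _ _ hy]
    · rw [tog_off ⟨h1, by omega⟩, tog_off ⟨by omega, by omega⟩]
      exact h _ _ hy
  · rw [tog_ne_row hl, tog_ne_row hl]
    exact h _ _ hy

section

variable {o o' : St} (ho : Brick o) (ho' : Brick o') {l₀ x₀ : ℤ} (hx : (x₀ - l₀) % 2 = 0)
  (hc : o l₀ x₀ ≠ o' l₀ x₀)

include ho ho' hx hc

/-- the new value is the value of `o'` at the brick, the value of `o` elsewhere -/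
lemma mid_val (l y : ℤ) : (l = l₀ ∧ (y = x₀ ∨ y = x₀ + 1) ∧ tog o l₀ x₀ l y = o' l y ∧
    o l y ≠ o' l y) ∨ (¬ (l = l₀ ∧ (y = x₀ ∨ y = x₀ + 1)) ∧ tog o l₀ x₀ l y = o l y) := by
  by_cases h : l = l₀ ∧ (y = x₀ ∨ y = x₀ + 1)
  · obtain ⟨rfl, h1⟩ := h
    left
    have h2 : o l y ≠ o' l y := by
      rcases h1 with h1 | h1
      · rw [h1]; exact hc
      · rw [h1, ← ho _ _ hx, ← ho' _ _ hx]; exact hc
    refine ⟨rfl, h1, ?_, h2⟩
    rw [tog_at h1]
    revert h2
    cases o l y <;> cases o' l y <;> simp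
  · right
    refine ⟨h, ?_⟩
    unfold tog
    rw [if_neg h]

/-- the other bricks change in the second half -/
lemma mid_ne {l y : ℤ} (h : ¬ (l = l₀ ∧ (y = x₀ ∨ y = x₀ + 1))) :
    tog o l₀ x₀ l y = o l y := by
  rcases mid_val ho ho' hx hc l y with h1 | h1
  · exact absurd ⟨h1.1, h1.2.1⟩ h
  · exact h1.2

end

/-- a changed pair of states -/
structure Chg (B : ℤ) (a : Bool) (o o' : St) (l₀ x₀ : ℤ) : Prop where
  ho : Brick o
  ho' : Brick o'
  so : Supp B o
  so' : Supp B o'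
  add : a = true → ∀ l x, o l x = true → o' l x = true
  rem : a = false → ∀ l x, o' l x = true → o l x = true
  hx : (x₀ - l₀) % 2 = 0
  hc : o l₀ x₀ ≠ o' l₀ x₀

namespace Chg

variable {B : ℤ} {a : Bool} {o o' : St} {l₀ x₀ : ℤ} (h : Chg B a o o' l₀ x₀)

set_option linter.unusedSectionVars false

include h

lemma brick : Brick (tog o l₀ x₀) := brick_tog h.ho h.hx

lemma supp : Supp B (tog o l₀ x₀) := by
  intro l y hy
  rcases mid_val h.ho h.ho' h.hx h.hc l y with h1 | h1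
  · rw [h1.2.2.1] at hy; exact h.so' _ _ hy
  · rw [h1.2] at hy; exact h.so _ _ hy

lemma add1 (ha : a = true) (l x : ℤ) (hh : o l x = true) : tog o l₀ x₀ l x = true := by
  rcases mid_val h.ho h.ho' h.hx h.hc l x with h1 | h1
  · rw [h1.2.2.1]; exact h.add ha _ _ hh
  · rw [h1.2]; exact hh

lemma add2 (ha : a = true) (l x : ℤ) (hh : tog o l₀ x₀ l x = true) : o' l x = true := by
  rcases mid_val h.ho h.ho' h.hx h.hc l x with h1 | h1
  · rw [h1.2.2.1] at hh; exact hh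
  · rw [h1.2] at hh; exact h.add ha _ _ hh

lemma rem1 (ha : a = false) (l x : ℤ) (hh : tog o l₀ x₀ l x = true) : o l x = true := by
  rcases mid_val h.ho h.ho' h.hx h.hc l x with h1 | h1
  · rw [h1.2.2.1] at hh; exact h.rem ha _ _ hh
  · rw [h1.2] at hh; exact hh

lemma rem2 (ha : a = false) (l x : ℤ) (hh : o' l x = true) : tog o l₀ x₀ l x = true := by
  rcases mid_val h.ho h.ho' h.hx h.hc l x with h1 | h1
  · rw [h1.2.2.1]; exact hh
  · rw [h1.2]; exact h.rem ha _ _ hh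

/-- a point of `o` that vanishes in the middle does not come back -/
lemma no_back {l x : ℤ} (h1 : al o l x) (h2 : ¬ al (tog o l₀ x₀) l x) : ¬ al o' l x := by
  unfold al at h1 h2 ⊢
  push Not at h2 ⊢
  cases ha : a with
  | true =>
    have e1 := h.add1 ha l x
    have e2 := h.add1 ha l (x - 1)
    have e3 := h.add2 ha l x
    have e4 := h.add2 ha l (x - 1)
    revert h1 h2 e1 e2 e3 e4
    cases o l x <;> cases o l (x - 1) <;> cases tog o l₀ x₀ l x <;>
      cases tog o l₀ x₀ l (x - 1) <;> cases o' l x <;> cases o' l (x - 1) <;> simp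
  | false =>
    have e1 := h.rem1 ha l x
    have e2 := h.rem1 ha l (x - 1)
    have e3 := h.rem2 ha l x
    have e4 := h.rem2 ha l (x - 1)
    revert h1 h2 e1 e2 e3 e4
    cases o l x <;> cases o l (x - 1) <;> cases tog o l₀ x₀ l x <;>
      cases tog o l₀ x₀ l (x - 1) <;> cases o' l x <;> cases o' l (x - 1) <;> simp

/-- the point between two changed places is not a point of `o` -/
lemma between {l x : ℤ} (h1 : o l (x - 1) ≠ o' l (x - 1)) (h2 : o l x ≠ o' l x) : ¬ al o l x := by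
  unfold al
  push Not
  cases ha : a with
  | true =>
    have e3 := h.add ha l x
    have e4 := h.add ha l (x - 1)
    revert h1 h2 e3 e4
    cases o l x <;> cases o l (x - 1) <;> cases o' l x <;> cases o' l (x - 1) <;> simp
  | false =>
    have e3 := h.rem ha l x
    have e4 := h.rem ha l (x - 1)
    revert h1 h2 e3 e4
    cases o l x <;> cases o l (x - 1) <;> cases o' l x <;> cases o' l (x - 1) <;> simp

/-- a point of the middle state that is not a point of `o` -/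
lemma new_pt {l y : ℤ} (h1 : al (tog o l₀ x₀) l y) (h2 : ¬ al o l y) :
    l = l₀ ∧ (y = x₀ ∨ y = x₀ + 2) := by
  by_contra h3
  rw [al_tog, if_neg h3] at h1
  exact h2 h1

/-- a point of `o` that is not a point of the middle state -/
lemma old_pt {l y : ℤ} (h1 : ¬ al (tog o l₀ x₀) l y) (h2 : al o l y) :
    l = l₀ ∧ (y = x₀ ∨ y = x₀ + 2) := by
  by_contra h3
  rw [al_tog, if_neg h3] at h1
  exact h1 h2

lemma pt_iff {y : ℤ} (hy : y = x₀ ∨ y = x₀ + 2) : al (tog o l₀ x₀) l₀ y ↔ ¬ al o l₀ y := by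
  rw [al_tog, if_pos ⟨rfl, hy⟩]

/-- with the leftmost changed brick the left point of the brick stays -/
lemma left_pt (hl : o l₀ (x₀ - 1) = o' l₀ (x₀ - 1)) (h1 : al (tog o l₀ x₀) l₀ x₀) :
    al o' l₀ x₀ := by
  unfold al at h1 ⊢
  rcases mid_val h.ho h.ho' h.hx h.hc l₀ x₀ with h2 | h2
  · rcases mid_val h.ho h.ho' h.hx h.hc l₀ (x₀ - 1) with h3 | h3
    · exfalso; rcases h3.2.1 with h4 | h4 <;> omega
    · rw [h2.2.2.1, h3.2, hl] at h1
      exact h1
  · exact absurd ⟨rfl, Or.inl rfl⟩ h2.1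

/-- every point of the middle state is linked to a point of `o` or `o'` -/
lemma link (hl : o l₀ (x₀ - 1) = o' l₀ (x₀ - 1)) {φ0 φm φ1 W0 W1 : ℤ → ℤ → Prop}
    (h1 : ∀ l x, al o l x → (φ0 l x ↔ W0 l x)) (h2 : ∀ l x, al (tog o l₀ x₀) l x → (φm l x ↔ W0 l x))
    (h3 : ∀ l x, al (tog o l₀ x₀) l x → (φm l x ↔ W1 l x)) (h4 : ∀ l x, al o' l x → (φ1 l x ↔ W1 l x))
    (h5 : W0 l₀ x₀ ↔ W0 l₀ (x₀ + 2)) {l x : ℤ} (hlx : al (tog o l₀ x₀) l x) :
    (∃ l1 x1, al o l1 x1 ∧ (φm l x ↔ φ0 l1 x1)) ∨ (∃ l1 x1, al o' l1 x1 ∧ (φm l x ↔ φ1 l1 x1)) := by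
  by_cases ha : al o l x
  · exact Or.inl ⟨l, x, ha, (h2 _ _ hlx).trans (h1 _ _ ha).symm⟩
  · obtain ⟨rfl, hxx⟩ := h.new_pt hlx ha
    have key : (∃ l1 x1, al o l1 x1 ∧ (W0 l x₀ ↔ φ0 l1 x1)) ∨
        (∃ l1 x1, al o' l1 x1 ∧ (W0 l x₀ ↔ φ1 l1 x1)) := by
      by_cases hb : al o l x₀
      · exact Or.inl ⟨l, x₀, hb, (h1 _ _ hb).symm⟩
      · have hc := (h.pt_iff (Or.inl rfl)).2 hb
        have hd := h.left_pt hl hc
        exact Or.inr ⟨l, x₀, hd, ((h2 _ _ hc).symm.trans (h3 _ _ hc)).trans (h4 _ _ hd).symm⟩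
    have e : φm l x ↔ W0 l x₀ := by
      rcases hxx with rfl | rfl
      · exact h2 _ _ hlx
      · exact (h2 _ _ hlx).trans h5.symm
    rcases key with ⟨l1, x1, k1, k2⟩ | ⟨l1, x1, k1, k2⟩
    · exact Or.inl ⟨l1, x1, k1, e.trans k2⟩
    · exact Or.inr ⟨l1, x1, k1, e.trans k2⟩

end Chg

/-! ## insertion of a state -/

section insert

variable {n : ℕ} {B : ℤ} {O : ℕ → St} {A : ℕ → Bool} {i₀ : ℕ} {l₀ x₀ : ℤ}

lemma Mv.chg (h : Mv n B O A) (hi : i₀ < n) (hx : (x₀ - l₀) % 2 = 0)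
    (hc : O i₀ l₀ x₀ ≠ O (i₀ + 1) l₀ x₀) : Chg B (A i₀) (O i₀) (O (i₀ + 1)) l₀ x₀ :=
  ⟨h.brick _ hi.le, h.brick _ hi, h.supp _ hi.le, h.supp _ hi, h.add _ hi, h.rem _ hi, hx, hc⟩

lemma Mv.ins (h : Mv n B O A) (hi : i₀ < n) (hx : (x₀ - l₀) % 2 = 0)
    (hc : O i₀ l₀ x₀ ≠ O (i₀ + 1) l₀ x₀) :
    Mv (n + 1) B (ins O i₀ (tog (O i₀) l₀ x₀)) (ins A i₀ (A i₀)) := by
  have H := h.chg hi hx hc
  refine ⟨?_, ?_, ?_, ?_, ?_, ?_⟩
  · intro i hin
    rcases place_cases (i₀ := i₀) (i := i) with h1 | rfl | ⟨j, h1, rfl⟩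
    · rw [ins_le _ _ h1]; exact h.brick _ (by omega)
    · rw [ins_eq]; exact H.brick
    · rw [ins_gt _ _ h1]; exact h.brick _ (by omega)
  · intro i hin
    rcases place_cases (i₀ := i₀) (i := i) with h1 | rfl | ⟨j, h1, rfl⟩
    · rw [ins_le _ _ h1]; exact h.supp _ (by omega)
    · rw [ins_eq]; exact H.supp
    · rw [ins_gt _ _ h1]; exact h.supp _ (by omega)
  · intro l x
    rw [ins_le _ _ (Nat.zero_le _)]; exact h.zero l x
  · intro l x
    rw [ins_gt _ _ hi]; exact h.last l x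
  · intro i hin
    rcases step_cases (i₀ := i₀) (i := i) with h1 | rfl | rfl | ⟨j, h1, rfl⟩
    · rw [ins_le _ _ h1.le, ins_le _ _ h1.le, ins_le _ _ h1]; exact h.add _ (by omega)
    · rw [ins_le _ _ le_rfl, ins_le _ _ le_rfl, ins_eq]
      intro ha; exact H.add1 ha
    · rw [ins_eq, ins_eq, ins_gt _ _ (Nat.lt_succ_self _)]
      intro ha; exact H.add2 ha
    · rw [ins_gt _ _ h1, ins_gt _ _ h1, ins_gt _ _ (by omega)]; exact h.add _ (by omega)
  · intro i hin
    rcases step_cases (i₀ := i₀) (i := i) with h1 | rfl | rfl | ⟨j, h1, rfl⟩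
    · rw [ins_le _ _ h1.le, ins_le _ _ h1.le, ins_le _ _ h1]; exact h.rem _ (by omega)
    · rw [ins_le _ _ le_rfl, ins_le _ _ le_rfl, ins_eq]
      intro ha; exact H.rem1 ha
    · rw [ins_eq, ins_eq, ins_gt _ _ (Nat.lt_succ_self _)]
      intro ha; exact H.rem2 ha
    · rw [ins_gt _ _ h1, ins_gt _ _ h1, ins_gt _ _ (by omega)]; exact h.rem _ (by omega)

lemma chi_ins (hi : i₀ < n) (o : St) :
    ∑ i ∈ Finset.range (n + 1), sgn (ins A i₀ (A i₀) i) *
      (chi6 B (ins O i₀ o (i + 1)) - chi6 B (ins O i₀ o i)) =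
    ∑ i ∈ Finset.range n, sgn (A i) * (chi6 B (O (i + 1)) - chi6 B (O i)) := by
  apply sum_ins hi
  · intro i h1
    rw [ins_le _ _ h1.le, ins_le _ _ h1.le, ins_le _ _ h1]
  · rw [ins_le _ _ le_rfl, ins_le _ _ le_rfl, ins_eq, ins_eq, ins_gt _ _ (Nat.lt_succ_self _)]
    ring
  · intro i h1
    rw [ins_gt _ _ h1, ins_gt _ _ h1, ins_gt _ _ (by omega)]

lemma Tr.ins (h : Mv n B O A) (htr : Tr n O) (hi : i₀ < n) (hx : (x₀ - l₀) % 2 = 0)
    (hc : O i₀ l₀ x₀ ≠ O (i₀ + 1) l₀ x₀) (hl : O i₀ l₀ (x₀ - 1) = O (i₀ + 1) l₀ (x₀ - 1)) :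
    Tr (n + 1) (Pool.BW.ins O i₀ (tog (O i₀) l₀ x₀)) := by
  classical
  have H := h.chg hi hx hc
  intro φ W hrun hL hR hring
  set mid := tog (O i₀) l₀ x₀ with hmid
  -- the steps `i₀` and `i₀ + 1`
  have L0 : ∀ l x, al (O i₀) l x → (φ i₀ l x ↔ W i₀ l x) := by
    intro l x hh
    exact hL i₀ (by omega) l x (by rw [ins_le _ _ le_rfl]; exact hh)
  have R0 : ∀ l x, al mid l x → (φ (i₀ + 1) l x ↔ W i₀ l x) := by
    intro l x hh
    exact hR i₀ (by omega) l x (by rw [ins_eq]; exact hh)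
  have L1 : ∀ l x, al mid l x → (φ (i₀ + 1) l x ↔ W (i₀ + 1) l x) := by
    intro l x hh
    exact hL (i₀ + 1) (by omega) l x (by rw [ins_eq]; exact hh)
  have R1 : ∀ l x, al (O (i₀ + 1)) l x → (φ (i₀ + 2) l x ↔ W (i₀ + 1) l x) := by
    intro l x hh
    exact hR (i₀ + 1) (by omega) l x (by rw [ins_gt _ _ (Nat.lt_succ_self _)]; exact hh)
  have G0 : W i₀ l₀ x₀ ↔ W i₀ l₀ (x₀ + 2) := by
    apply hring i₀ (by omega) l₀ x₀ hx
    rw [ins_le _ _ le_rfl, ins_eq, hmid, tog_at (Or.inl rfl)]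
    cases O i₀ l₀ x₀ <;> simp
  have G1 : ∀ l x, (x - l) % 2 = 0 → mid l x ≠ O (i₀ + 1) l x →
      (W (i₀ + 1) l x ↔ W (i₀ + 1) l (x + 2)) := by
    intro l x h1 h2
    apply hring (i₀ + 1) (by omega) l x h1
    rw [ins_eq, ins_gt _ _ (Nat.lt_succ_self _)]
    exact h2
  let s : ℕ → ℕ := fun i => if i ≤ i₀ then i else i + 1
  have s1 : ∀ {i}, i ≤ i₀ → s i = i := fun hh => if_pos hh
  have s2 : ∀ {i}, i₀ < i → s i = i + 1 := fun hh => if_neg (by omega)
  let Wx : ℤ → ℤ → Prop := fun l x =>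
    if al (O i₀) l x ∧ ¬ al mid l x then W i₀ l x else W (i₀ + 1) l x
  let V : ℕ → ℤ → ℤ → Prop := fun i =>
    if i < i₀ then W i else if i = i₀ then Wx else W (i + 1)
  have v1 : ∀ {i}, i < i₀ → V i = W i := fun hh => if_pos hh
  have v2 : V i₀ = Wx := by show (if i₀ < i₀ then _ else _) = _; rw [if_neg (lt_irrefl _), if_pos rfl]
  have v3 : ∀ {i}, i₀ < i → V i = W (i + 1) := by
    intro i hh
    show (if i < i₀ then _ else _) = _
    rw [if_neg (by omega), if_neg (by omega)]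
  have wx1 : ∀ l x, al (O i₀) l x → (φ i₀ l x ↔ Wx l x) := by
    intro l x hh
    by_cases hm : al mid l x
    · have : Wx l x = W (i₀ + 1) l x := if_neg (fun hk => hk.2 hm)
      rw [this, L0 _ _ hh, ← R0 _ _ hm, L1 _ _ hm]
    · have : Wx l x = W i₀ l x := if_pos ⟨hh, hm⟩
      rw [this]
      exact L0 _ _ hh
  have wx2 : ∀ l x, al (O (i₀ + 1)) l x → (φ (i₀ + 2) l x ↔ Wx l x) := by
    intro l x hh
    have : Wx l x = W (i₀ + 1) l x := if_neg (fun hk => H.no_back hk.1 hk.2 hh)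
    rw [this]
    exact R1 _ _ hh
  -- `Wx` against `W i₀` at the two points of the brick
  have wx3 : ∀ y, (y = x₀ ∨ y = x₀ + 2) → (Wx l₀ y ↔ W i₀ l₀ y) := by
    intro y hy
    by_cases hm : al mid l₀ y
    · have : Wx l₀ y = W (i₀ + 1) l₀ y := if_neg (fun hk => hk.2 hm)
      rw [this, ← L1 _ _ hm, R0 _ _ hm]
    · have h1 : al (O i₀) l₀ y := by
        by_contra h2
        exact hm ((H.pt_iff hy).2 h2)
      have : Wx l₀ y = W i₀ l₀ y := if_pos ⟨h1, hm⟩
      rw [this]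
  have wx4 : ∀ l x, (x - l) % 2 = 0 → O i₀ l x ≠ O (i₀ + 1) l x → (Wx l x ↔ Wx l (x + 2)) := by
    intro l x h1 h2
    by_cases h3 : l = l₀ ∧ x = x₀
    · obtain ⟨rfl, rfl⟩ := h3
      rw [wx3 _ (Or.inl rfl), wx3 _ (Or.inr rfl)]
      exact G0
    · have h4 : mid l x = O i₀ l x := by
        apply mid_ne H.ho H.ho' hx hc
        rintro ⟨rfl, h5 | h5⟩
        · exact h3 ⟨rfl, h5⟩
        · omega
      have h5 : O i₀ l (x + 1) ≠ O (i₀ + 1) l (x + 1) := by
        rw [← H.ho _ _ h1, ← H.ho' _ _ h1]; exact h2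
      have e1 : Wx l x = W (i₀ + 1) l x := by
        refine if_neg ?_
        rintro ⟨k1, k2⟩
        obtain ⟨rfl, k3 | k3⟩ := H.old_pt k2 k1
        · exact h3 ⟨rfl, k3⟩
        · refine H.between (l := l) (x := x) ?_ h2 k1
          rw [k3, show x₀ + 2 - 1 = x₀ + 1 by ring, ← H.ho _ _ hx, ← H.ho' _ _ hx]
          exact hc
      have e2 : Wx l (x + 2) = W (i₀ + 1) l (x + 2) := by
        refine if_neg ?_
        rintro ⟨k1, k2⟩
        obtain ⟨rfl, k3 | k3⟩ := H.old_pt k2 k1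
        · refine H.between (l := l) (x := x + 2) ?_ ?_ k1
          · rw [show x + 2 - 1 = x + 1 by ring]; exact h5
          · rw [k3]; exact hc
        · exact h3 ⟨rfl, by omega⟩
      rw [e1, e2]
      exact G1 l x h1 (by rw [h4]; exact h2)
  have main := htr (fun i => φ (s i)) V ?_ ?_ ?_ ?_
  · -- every point is linked to an old one
    have key : ∀ i, i ≤ n + 1 → ∀ l x, al (Pool.BW.ins O i₀ mid i) l x →
        ∃ i1, i1 ≤ n ∧ ∃ l1 x1, al (O i1) l1 x1 ∧ (φ i l x ↔ φ (s i1) l1 x1) := by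
      intro i hin l x hh
      rcases place_cases (i₀ := i₀) (i := i) with h1 | rfl | ⟨j, h1, rfl⟩
      · rw [ins_le _ _ h1] at hh
        exact ⟨i, by omega, l, x, hh, by rw [s1 h1]⟩
      · rw [ins_eq] at hh
        rcases H.link hl L0 R0 L1 R1 G0 hh with ⟨l1, x1, k1, k2⟩ | ⟨l1, x1, k1, k2⟩
        · exact ⟨i₀, hi.le, l1, x1, k1, by rw [s1 le_rfl]; exact k2⟩
        · exact ⟨i₀ + 1, hi, l1, x1, k1, by rw [s2 (Nat.lt_succ_self _)]; exact k2⟩
      · rw [ins_gt _ _ h1] at hh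
        exact ⟨j, by omega, l, x, hh, by rw [s2 h1]⟩
    intro i hin j hjn l x l' x' h1 h2
    obtain ⟨i1, a1, l1, x1, a2, a3⟩ := key i hin l x h1
    obtain ⟨j1, b1, l2, x2, b2, b3⟩ := key j hjn l' x' h2
    exact (a3.trans (main i1 a1 j1 b1 l1 x1 l2 x2 a2 b2)).trans b3.symm
  · intro i hin k a b hr
    show φ (s i) _ _ ↔ φ (s i) _ _
    by_cases h1 : i ≤ i₀
    · rw [s1 h1]
      exact hrun i (by omega) k a b (by rw [ins_le _ _ h1]; exact hr)
    · rw [s2 (by omega)]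
      exact hrun (i + 1) (by omega) k a b (by rw [ins_gt _ _ (by omega)]; exact hr)
  · intro i hin l x hh
    show φ (s i) _ _ ↔ _
    rcases lt_trichotomy i i₀ with h1 | rfl | h1
    · rw [s1 h1.le, v1 h1]
      exact hL i (by omega) l x (by rw [ins_le _ _ h1.le]; exact hh)
    · rw [s1 le_rfl, v2]
      exact wx1 l x hh
    · rw [s2 h1, v3 h1]
      exact hL (i + 1) (by omega) l x (by rw [ins_gt _ _ h1]; exact hh)
  · intro i hin l x hh
    show φ (s (i + 1)) _ _ ↔ _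
    rcases lt_trichotomy i i₀ with h1 | rfl | h1
    · rw [s1 h1, v1 h1]
      exact hR i (by omega) l x (by rw [ins_le _ _ h1]; exact hh)
    · rw [s2 (Nat.lt_succ_self _), v2]
      exact wx2 l x hh
    · rw [s2 (by omega), v3 h1]
      exact hR (i + 1) (by omega) l x (by rw [ins_gt _ _ (by omega)]; exact hh)
  · intro i hin l x h1 h2
    rcases lt_trichotomy i i₀ with h3 | rfl | h3
    · rw [v1 h3]
      exact hring i (by omega) l x h1 (by rw [ins_le _ _ h3.le, ins_le _ _ h3]; exact h2)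
    · rw [v2]
      exact wx4 l x h1 h2
    · rw [v3 h3]
      exact hring (i + 1) (by omega) l x h1
        (by rw [ins_gt _ _ h3, ins_gt _ _ (by omega)]; exact h2)

/-- the values at the inserted state -/
def gm (mid : St) (a : Bool) (w : ℤ → ℤ → Prop) (e : Bool) (l x : ℤ) : Prop :=
  (cl mid l x = (e == a) ∧ w l x) ∨ (cl mid l x ≠ (e == a) ∧
    ∃ p q, Run (cc mid (stp e l)) p q ∧
      ((x = p ∧ w (row (stp e l) q) q) ∨ (x = q ∧ w (row (stp e l) p) p)))

lemma gm_eq {mid : St} {a : Bool} {w : ℤ → ℤ → Prop} {e : Bool} {l x : ℤ}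
    (h : cl mid l x = (e == a)) : gm mid a w e l x ↔ w l x := by
  unfold gm
  constructor
  · rintro (h1 | h1)
    · exact h1.2
    · exact absurd h h1.1
  · exact fun h1 => Or.inl ⟨h, h1⟩

lemma gm_run {mid : St} (hb : Brick mid) (a : Bool) (w : ℤ → ℤ → Prop) {k p q : ℤ}
    (hr : Run (cc mid k) p q) :
    gm mid a w (par k) (row k p) p ↔ gm mid a w (par k) (row k q) q := by
  have hcl := hb.cl_run hr
  obtain ⟨-, rp⟩ := row_spec k p
  obtain ⟨-, rq⟩ := row_spec k q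
  have sp : stp (par k) (row k p) = k := (eq_stp rfl (by omega)).symm
  have sq : stp (par k) (row k q) = k := (eq_stp rfl (by omega)).symm
  by_cases h1 : cl mid (row k p) p = (par k == a)
  · have h2 : cl mid (row k q) q ≠ (par k == a) := by
      rw [hcl, h1]
      cases (par k == a) <;> simp
    rw [gm_eq h1]
    unfold gm
    rw [sq]
    constructor
    · intro h3
      exact Or.inr ⟨h2, p, q, hr, Or.inr ⟨rfl, h3⟩⟩
    · rintro (h3 | ⟨-, p', q', hr', h3 | h3⟩)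
      · exact absurd h3.1 h2
      · obtain ⟨rfl, -⟩ := h3
        exact (hr'.not_both hr).elim
      · obtain ⟨rfl, h3⟩ := h3
        rw [hr.eq_right hr']; exact h3
  · have h2 : cl mid (row k q) q = (par k == a) := by
      rw [hcl]
      revert h1
      cases cl mid (row k p) p <;> cases (par k == a) <;> simp
    rw [gm_eq h2]
    unfold gm
    rw [sp]
    constructor
    · rintro (h3 | ⟨-, p', q', hr', h3 | h3⟩)
      · exact absurd h3.1 h1
      · obtain ⟨rfl, h3⟩ := h3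
        rw [hr.eq_left hr']; exact h3
      · obtain ⟨rfl, -⟩ := h3
        exact (hr.not_both hr').elim
    · intro h3
      exact Or.inr ⟨h1, p, q, hr, Or.inl ⟨rfl, h3⟩⟩

lemma Fam.ins {γ : Bool → ℕ → ℤ → ℤ → Prop} {W : ℕ → ℤ → ℤ → Prop} (h : Mv n B O A)
    (hF : Fam n O A γ W) (hi : i₀ < n) (hx : (x₀ - l₀) % 2 = 0)
    (hc : O i₀ l₀ x₀ ≠ O (i₀ + 1) l₀ x₀) :
    Fam (n + 1) (Pool.BW.ins O i₀ (tog (O i₀) l₀ x₀)) (Pool.BW.ins A i₀ (A i₀))
      (fun e => Pool.BW.ins (γ e) i₀ (gm (tog (O i₀) l₀ x₀) (A i₀) (W i₀) e))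
      (Pool.BW.ins W i₀ (W i₀)) := by
  have H := h.chg hi hx hc
  refine ⟨?_, ?_, ?_, ?_⟩
  · intro i hin k a b hr
    show Pool.BW.ins (γ (par k)) i₀ _ i _ _ ↔ Pool.BW.ins (γ (par k)) i₀ _ i _ _
    rcases place_cases (i₀ := i₀) (i := i) with h1 | rfl | ⟨j, h1, rfl⟩
    · rw [ins_le _ _ h1] at hr ⊢
      exact hF.run i (by omega) k a b hr
    · rw [ins_eq] at hr ⊢
      exact gm_run H.brick _ _ hr
    · rw [ins_gt _ _ h1] at hr ⊢
      exact hF.run j (by omega) k a b hr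
  · intro i hin e l x hh hcl
    show Pool.BW.ins (γ e) i₀ _ i _ _ ↔ _
    rcases step_cases (i₀ := i₀) (i := i) with h1 | rfl | rfl | ⟨j, h1, rfl⟩
    · rw [ins_le _ _ h1.le] at hh
      rw [ins_le _ _ h1.le, ins_le _ _ h1.le] at hcl
      rw [ins_le _ _ h1.le, ins_le _ _ h1.le]
      exact hF.left i (by omega) e l x hh hcl
    · rw [ins_le _ _ le_rfl] at hh
      rw [ins_le _ _ le_rfl, ins_le _ _ le_rfl] at hcl
      rw [ins_le _ _ le_rfl, ins_le _ _ le_rfl]
      exact hF.left i (by omega) e l x hh hcl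
    · rw [ins_eq, ins_eq] at hcl
      rw [ins_eq, ins_eq]
      exact gm_eq hcl
    · rw [ins_gt _ _ h1] at hh
      rw [ins_gt _ _ h1, ins_gt _ _ h1] at hcl
      rw [ins_gt _ _ h1, ins_gt _ _ h1]
      exact hF.left j (by omega) e l x hh hcl
  · intro i hin e l x hh hcl
    show Pool.BW.ins (γ e) i₀ _ (i + 1) _ _ ↔ _
    rcases step_cases (i₀ := i₀) (i := i) with h1 | rfl | rfl | ⟨j, h1, rfl⟩
    · rw [ins_le _ _ h1] at hh
      rw [ins_le _ _ h1, ins_le _ _ h1.le] at hcl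
      rw [ins_le _ _ h1, ins_le _ _ h1.le]
      exact hF.right i (by omega) e l x hh hcl
    · rw [ins_eq, ins_le _ _ le_rfl] at hcl
      rw [ins_eq, ins_le _ _ le_rfl]
      exact gm_eq hcl
    · rw [ins_gt _ _ (Nat.lt_succ_self _)] at hh
      rw [ins_gt _ _ (Nat.lt_succ_self _), ins_eq] at hcl
      rw [ins_gt _ _ (Nat.lt_succ_self _), ins_eq]
      exact hF.right i₀ hi e l x hh hcl
    · rw [ins_gt _ _ (by omega)] at hh
      rw [ins_gt _ _ (by omega), ins_gt _ _ h1] at hcl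
      rw [ins_gt _ _ (by omega), ins_gt _ _ h1]
      exact hF.right j (by omega) e l x hh hcl
  · intro i hin l x h1 h2
    rcases step_cases (i₀ := i₀) (i := i) with h3 | rfl | rfl | ⟨j, h3, rfl⟩
    · rw [ins_le _ _ h3.le, ins_le _ _ h3] at h2
      rw [ins_le _ _ h3.le]
      exact hF.ring i (by omega) l x h1 h2
    · rw [ins_le _ _ le_rfl, ins_eq] at h2
      rw [ins_le _ _ le_rfl]
      have h4 : l = l₀ ∧ x = x₀ := by
        rcases mid_val H.ho H.ho' hx hc l x with h5 | h5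
        · refine ⟨h5.1, ?_⟩
          rcases h5.2.1 with h6 | h6
          · exact h6
          · have := h5.1; omega
        · exact absurd h5.2.symm h2
      rw [h4.1, h4.2]
      exact hF.ring i hi _ _ hx hc
    · rw [ins_eq, ins_gt _ _ (Nat.lt_succ_self _)] at h2
      rw [ins_eq]
      apply hF.ring i₀ hi l x h1
      rcases mid_val H.ho H.ho' hx hc l x with h5 | h5
      · exact h5.2.2.2
      · rw [← h5.2]; exact h2
    · rw [ins_gt _ _ h3, ins_gt _ _ (by omega)] at h2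
      rw [ins_gt _ _ h3]
      exact hF.ring j (by omega) l x h1 h2

end insert

/-! ## the number of changed bricks -/

/-- the changed bricks -/
noncomputable def chg (B : ℤ) (o o' : St) : Finset (ℤ × ℤ) :=
  (Finset.Icc (-B) B ×ˢ Finset.Icc (-B) B).filter
    (fun p => (p.2 - p.1) % 2 = 0 ∧ o p.1 p.2 ≠ o' p.1 p.2)

lemma mem_chg {B : ℤ} {o o' : St} (h : Supp B o) (h' : Supp B o') {l x : ℤ} :
    (l, x) ∈ chg B o o' ↔ (x - l) % 2 = 0 ∧ o l x ≠ o' l x := by
  unfold chg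
  rw [Finset.mem_filter, Finset.mem_product, Finset.mem_Icc, Finset.mem_Icc]
  constructor
  · exact fun hh => hh.2
  · intro hh
    refine ⟨?_, hh⟩
    have : o l x = true ∨ o' l x = true := by
      revert hh
      cases o l x <;> cases o' l x <;> simp
    rcases this with h1 | h1
    · have := h _ _ h1
      exact ⟨⟨by omega, by omega⟩, ⟨by omega, by omega⟩⟩
    · have := h' _ _ h1
      exact ⟨⟨by omega, by omega⟩, ⟨by omega, by omega⟩⟩

lemma ext_brick {o o' : St} (h : Brick o) (h' : Brick o')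
    (hh : ∀ l x, (x - l) % 2 = 0 → o l x = o' l x) : o' = o := by
  funext l x
  by_cases h1 : (x - l) % 2 = 0
  · exact (hh l x h1).symm
  · have h2 := h l (x - 1) (by omega)
    have h3 := h' l (x - 1) (by omega)
    rw [show x - 1 + 1 = x by ring] at h2 h3
    rw [← h2, ← h3]
    exact (hh l (x - 1) (by omega)).symm

/-- a step with at most one changed brick -/
lemma single_of_card {B : ℤ} {o o' : St} (h : Brick o) (h' : Brick o') (hs : Supp B o)
    (hs' : Supp B o') (hc : (chg B o o').card ≤ 1) :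
    o' = o ∨ ∃ l x, (x - l) % 2 = 0 ∧ o' = tog o l x := by
  rcases (chg B o o').eq_empty_or_nonempty with h0 | ⟨⟨l, x⟩, h0⟩
  · left
    apply ext_brick h h'
    intro l x hx
    by_contra hne
    have : (l, x) ∈ chg B o o' := (mem_chg hs hs').2 ⟨hx, hne⟩
    rw [h0] at this
    exact absurd this (Finset.notMem_empty _)
  · right
    have h1 := (mem_chg hs hs').1 h0
    refine ⟨l, x, h1.1, ?_⟩
    apply ext_brick (brick_tog h h1.1) h'
    intro l' x' hx'
    by_cases h2 : (l', x') = (l, x)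
    · rw [Prod.mk.injEq] at h2
      obtain ⟨rfl, rfl⟩ := h2
      rw [tog_at (Or.inl rfl)]
      have := h1.2
      revert this
      cases o l' x' <;> cases o' l' x' <;> simp
    · have h3 : tog o l x l' x' = o l' x' := by
        apply mid_ne h h' h1.1 h1.2
        rintro ⟨rfl, h4 | h4⟩
        · exact h2 (by rw [h4])
        · have := h1.1; omega
      rw [h3]
      by_contra hne
      have h4 : (l', x') ∈ chg B o o' := (mem_chg hs hs').2 ⟨hx', hne⟩
      exact h2 (Finset.card_le_one.1 hc _ h4 _ h0)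

/-- a leftmost changed brick -/
lemma exists_left {B : ℤ} {o o' : St} (h : Brick o) (h' : Brick o') (hs : Supp B o)
    (hs' : Supp B o') (hc : 1 ≤ (chg B o o').card) :
    ∃ l x, (x - l) % 2 = 0 ∧ o l x ≠ o' l x ∧ o l (x - 1) = o' l (x - 1) := by
  obtain ⟨⟨l, x⟩, hm, hmin⟩ := Finset.exists_min_image (chg B o o') (fun p => p.2)
    (Finset.card_pos.1 hc)
  have h1 := (mem_chg hs hs').1 hm
  refine ⟨l, x, h1.1, h1.2, ?_⟩
  by_contra hne
  have h2 := h l (x - 2) (by omega)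
  have h3 := h' l (x - 2) (by omega)
  rw [show x - 2 + 1 = x - 1 by ring] at h2 h3
  have h4 : (l, x - 2) ∈ chg B o o' := by
    refine (mem_chg hs hs').2 ⟨by omega, ?_⟩
    rw [h2, h3]; exact hne
  have h5 : x ≤ x - 2 := hmin _ h4
  omega

lemma card_mid {B : ℤ} {a : Bool} {o o' : St} {l₀ x₀ : ℤ} (h : Chg B a o o' l₀ x₀) :
    (chg B (tog o l₀ x₀) o').card < (chg B o o').card := by
  apply Finset.card_lt_card
  rw [Finset.ssubset_iff_of_subset]
  · refine ⟨(l₀, x₀), (mem_chg h.so h.so').2 ⟨h.hx, h.hc⟩, ?_⟩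
    rw [mem_chg h.supp h.so']
    rintro ⟨-, h1⟩
    rcases mid_val h.ho h.ho' h.hx h.hc l₀ x₀ with h2 | h2
    · exact h1 h2.2.2.1
    · exact h2.1 ⟨rfl, Or.inl rfl⟩
  · rintro ⟨l, x⟩ hh
    rw [mem_chg h.supp h.so'] at hh
    rw [mem_chg h.so h.so']
    refine ⟨hh.1, ?_⟩
    rcases mid_val h.ho h.ho' h.hx h.hc l x with h2 | h2
    · exact h2.2.2.2
    · rw [← h2.2]; exact hh.2

/-! ## the theorem -/

/-- the statement of T1 -/
def ToggleThm : Prop :=
  ∀ (n : ℕ) (B : ℤ) (O : ℕ → St) (A : ℕ → Bool), Mv n B O A → Single n O →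
    12 ≤ ∑ i ∈ Finset.range n, sgn (A i) * (chi6 B (O (i + 1)) - chi6 B (O i)) →
    Tr n O → ∀ (γ : Bool → ℕ → ℤ → ℤ → Prop) (W : ℕ → ℤ → ℤ → Prop), Fam n O A γ W →
    ∃ c : Prop, ∀ i, i ≤ n → ∀ e l x, al (O i) l x → (γ e i l x ↔ c)

/-- T2: from T1 to movies with arbitrary steps; the first `m` steps are simple already -/
theorem brick_aux (hT : ToggleThm) : ∀ r c n m : ℕ, m + r = n → ∀ (B : ℤ) (O : ℕ → St)
    (A : ℕ → Bool), Mv n B O A →
    (∀ i, i < m → O (i + 1) = O i ∨ ∃ l x, (x - l) % 2 = 0 ∧ O (i + 1) = tog (O i) l x) →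
    (chg B (O m) (O (m + 1))).card ≤ c →
    12 ≤ ∑ i ∈ Finset.range n, sgn (A i) * (chi6 B (O (i + 1)) - chi6 B (O i)) →
    Tr n O → ∀ (γ : Bool → ℕ → ℤ → ℤ → Prop) (W : ℕ → ℤ → ℤ → Prop), Fam n O A γ W →
    ∃ c : Prop, ∀ i, i ≤ n → ∀ e l x, al (O i) l x → (γ e i l x ↔ c) := by
  intro r
  induction r with
  | zero =>
    intro c n m hmn B O A h hs _ hchi htr γ W hF
    obtain rfl : m = n := by omega
    exact hT m B O A h hs hchi htr γ W hF
  | succ r ihr =>
    intro c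
    induction c with
    | zero =>
      intro n m hmn B O A h hs hc hchi htr γ W hF
      refine ihr _ n (m + 1) (by omega) B O A h ?_ le_rfl hchi htr γ W hF
      intro i hi
      rcases Nat.lt_succ_iff_lt_or_eq.1 hi with h1 | rfl
      · exact hs i h1
      · exact single_of_card (h.brick _ (by omega)) (h.brick _ (by omega)) (h.supp _ (by omega))
          (h.supp _ (by omega)) (by omega)
    | succ c ihc =>
      intro n m hmn B O A h hs hc hchi htr γ W hF
      have hm : m < n := by omega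
      by_cases h1 : (chg B (O m) (O (m + 1))).card ≤ 1
      · refine ihr _ n (m + 1) (by omega) B O A h ?_ le_rfl hchi htr γ W hF
        intro i hi
        rcases Nat.lt_succ_iff_lt_or_eq.1 hi with h1 | rfl
        · exact hs i h1
        · exact single_of_card (h.brick _ (by omega)) (h.brick _ (by omega))
            (h.supp _ (by omega)) (h.supp _ (by omega)) h1
      · obtain ⟨l₀, x₀, hx, hne, hl⟩ := exists_left (h.brick m hm.le) (h.brick (m + 1) hm)
          (h.supp m hm.le) (h.supp (m + 1) hm) (by omega)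
        have H := h.chg hm hx hne
        have hcard := card_mid H
        obtain ⟨c', hc'⟩ := ihc (n + 1) (m + 1) (by omega) B
          (ins O m (tog (O m) l₀ x₀)) (ins A m (A m)) (h.ins hm hx hne) (by
            intro i hi
            rcases Nat.lt_succ_iff_lt_or_eq.1 hi with h1 | rfl
            · rw [ins_le _ _ h1, ins_le _ _ h1.le]
              exact hs i h1
            · rw [ins_eq, ins_le _ _ le_rfl]
              exact Or.inr ⟨l₀, x₀, hx, rfl⟩) (by
            have e2 : ins O m (tog (O m) l₀ x₀) (m + 1 + 1) = O (m + 1) := ins_gt _ _ (by omega)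
            rw [ins_eq, e2]
            omega) (by rw [chi_ins hm]; exact hchi) (htr.ins h hm hx hne hl) _ _
          (hF.ins h hm hx hne)
        refine ⟨c', ?_⟩
        intro i hi e l x hh
        by_cases h2 : i ≤ m
        · have h3 := hc' i (by omega) e l x (by rw [ins_le _ _ h2]; exact hh)
          have h4 : ins (γ e) m (gm (tog (O m) l₀ x₀) (A m) (W m) e) i l x ↔ c' := h3
          rw [ins_le _ _ h2] at h4
          exact h4
        · have h3 := hc' (i + 1) (by omega) e l x (by rw [ins_gt _ _ (by omega)]; exact hh)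
          have h4 : ins (γ e) m (gm (tog (O m) l₀ x₀) (A m) (W m) e) (i + 1) l x ↔ c' := h3
          rw [ins_gt _ _ (by omega)] at h4
          exact h4

/-- T2 -/
theorem brick_movie_of (hT : ToggleThm) {n : ℕ} {B : ℤ} {O : ℕ → St} {A : ℕ → Bool}
    (h : Mv n B O A)
    (hchi : 12 ≤ ∑ i ∈ Finset.range n, sgn (A i) * (chi6 B (O (i + 1)) - chi6 B (O i)))
    (htr : Tr n O) {γ : Bool → ℕ → ℤ → ℤ → Prop} {W : ℕ → ℤ → ℤ → Prop} (hF : Fam n O A γ W) :
    ∃ c : Prop, ∀ i, i ≤ n → ∀ e l x, al (O i) l x → (γ e i l x ↔ c) :=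
  brick_aux hT n _ n 0 (by omega) B O A h (by intro i hi; omega) le_rfl hchi htr γ W hF

end Pool.BW
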