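import Pool.Agent.MP42.BW.PDefs

/-!
# T3: sections and arcs (helper77)
-/

set_option autoImplicit false
set_option linter.unusedSimpArgs false

namespace Pool.BW

/-! ## The strip in terms of the cells -/

/-- the function of a strip in terms of the cells of the even row `e` and of the odd row `o` -/
def cf (e o : ℤ → Bool) (x : ℤ) : Bool :=
  xor (e (x / 4)) (if x % 4 = 1 ∨ x % 4 = 2 then o (x / 4) else o ((x + 1) / 4 - 1) && o ((x + 1) / 4))

theorem cf0 (e o : ℤ → Bool) {x i : ℤ} (h : x = 4 * i) : cf e o x = xor (e i) (o (i - 1) && o i) := by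
  have h1 : x / 4 = i := by omega
  have h2 : ¬ (x % 4 = 1 ∨ x % 4 = 2) := by omega
  have h3 : (x + 1) / 4 = i := by omega
  rw [cf, h1, if_neg h2, h3]

theorem cf1 (e o : ℤ → Bool) {x i : ℤ} (h : x = 4 * i + 1) : cf e o x = xor (e i) (o i) := by
  have h1 : x / 4 = i := by omega
  have h2 : (x % 4 = 1 ∨ x % 4 = 2) := by omega
  rw [cf, h1, if_pos h2]

theorem cf2 (e o : ℤ → Bool) {x i : ℤ} (h : x = 4 * i + 2) : cf e o x = xor (e i) (o i) := by
  have h1 : x / 4 = i := by omega
  have h2 : (x % 4 = 1 ∨ x % 4 = 2) := by omega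
  rw [cf, h1, if_pos h2]

theorem cf3 (e o : ℤ → Bool) {x i : ℤ} (h : x = 4 * i + 3) :
    cf e o x = xor (e i) (o i && o (i + 1)) := by
  have h1 : x / 4 = i := by omega
  have h2 : ¬ (x % 4 = 1 ∨ x % 4 = 2) := by omega
  have h3 : (x + 1) / 4 = i + 1 := by omega
  rw [cf, h1, if_neg h2, h3, add_sub_cancel_right]

/-- the end of a run at the left cell boundary `a`: `u` = value before `a`, `p` = value of the even
row after `a` -/
def lk (a : ℤ) (u p : Bool) : ℤ := if p = u then (if p then 4 * a - 1 else 4 * a + 1) else 4 * a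

/-- the end of a run at the right cell boundary `b` -/
def rk (b : ℤ) (v p : Bool) : ℤ := if p = v then (if p then 4 * b + 1 else 4 * b - 1) else 4 * b

theorem run_cf (e o : ℤ → Bool) {a b : ℤ} (hab : a < b) {u v p : Bool}
    (he : ∀ i, a ≤ i → i < b → e i = p) (ho : ∀ i, a ≤ i → i < b → o i = !p)
    (hul : e (a - 1) = u) (hul' : o (a - 1) = u) (hvr : e b = v) (hvr' : o b = v) :
    Run (cf e o) (lk a u p) (rk b v p) := by
  have split : ∀ x : ℤ, ∃ i, x = 4 * i ∨ x = 4 * i + 1 ∨ x = 4 * i + 2 ∨ x = 4 * i + 3 :=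
    fun x => ⟨x / 4, by omega⟩
  have hea := he a le_rfl hab
  have hoa := ho a le_rfl hab
  have heb := he (b - 1) (by omega) (by omega)
  have hob := ho (b - 1) (by omega) (by omega)
  have hbb : b - 1 + 1 = b := by ring
  have haa : a - 1 + 1 = a := by ring
  refine ⟨?_, ?_, ?_, ?_⟩
  · unfold lk rk
    split_ifs <;> omega
  · rcases u with _ | _ <;> rcases p with _ | _ <;> simp only [lk]
    · rw [cf0 e o (i := a) (by simp), hea, hoa, hul']; rfl
    · rw [cf3 e o (i := a - 1) (by simp; ring), hul, hul']; rfl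
    · rw [cf3 e o (i := a - 1) (by simp; ring), hul, hul', haa, hoa]; rfl
    · rw [cf2 e o (i := a - 1) (by simp; ring), hul, hul']; rfl
  · rcases v with _ | _ <;> rcases p with _ | _ <;> simp only [rk]
    · rw [cf3 e o (i := b - 1) (by simp; ring), heb, hob, hbb, hvr']; rfl
    · rw [cf0 e o (i := b) (by simp), hvr, hvr', hob]; rfl
    · rw [cf0 e o (i := b) (by simp), hvr, hvr', hob]; rfl
    · rw [cf1 e o (i := b) (by simp), hvr, hvr']; rfl
  · intro x h1 h2
    obtain ⟨i, hi⟩ := split x
    have hlt : a - 1 ≤ i := by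
      unfold lk at h1
      split_ifs at h1 <;> omega
    have hrt : i ≤ b := by
      unfold rk at h2
      split_ifs at h2 <;> omega
    rcases eq_or_lt_of_le hlt with h3 | h3
    · -- i = a - 1
      subst h3
      unfold lk at h1
      split_ifs at h1 with h4 h5
      · subst h4
        subst h5
        have h6 : x = 4 * (a - 1) + 3 := by omega
        rw [cf3 e o h6, hul, hul', haa, hoa]; rfl
      · omega
      · omega
    · rcases eq_or_lt_of_le hrt with h4 | h4
      · subst h4
        unfold rk at h2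
        split_ifs at h2 with h5 h6
        · subst h5
          subst h6
          have h7 : x = 4 * i := by omega
          rw [cf0 e o h7, hvr, hvr', hob]; rfl
        · omega
        · omega
      · have e1 := he i (by omega) h4
        have o1 := ho i (by omega) h4
        rcases hi with h | h | h | h
        · rw [cf0 e o h, e1, o1]
          rcases eq_or_lt_of_le (show a ≤ i by omega) with h5 | h5
          · subst h5
            rw [hul']
            unfold lk at h1
            rcases u with _ | _ <;> rcases p with _ | _ <;> simp at h1 ⊢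
            omega
          · rw [ho (i - 1) (by omega) (by omega)]
            rcases p with _ | _ <;> rfl
        · rw [cf1 e o h, e1, o1]
          rcases p with _ | _ <;> rfl
        · rw [cf2 e o h, e1, o1]
          rcases p with _ | _ <;> rfl
        · rw [cf3 e o h, e1, o1]
          rcases eq_or_lt_of_le (show i + 1 ≤ b by omega) with h5 | h5
          · rw [h5, hvr']
            unfold rk at h2
            rcases v with _ | _ <;> rcases p with _ | _ <;> simp at h2 ⊢
            omega
          · rw [ho (i + 1) (by omega) h5]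
            rcases p with _ | _ <;> rfl

/-- both rows change at the cell boundary `a` in the same way -/
theorem run_cf_flat (e o : ℤ → Bool) {a : ℤ} {u : Bool}
    (hul : e (a - 1) = u) (hul' : o (a - 1) = u) (hvr : e a = !u) (hvr' : o a = !u) :
    Run (cf e o) (if u then 4 * a - 1 else 4 * a) (if u then 4 * a else 4 * a + 1) := by
  have haa : a - 1 + 1 = a := by ring
  rcases u with _ | _
  · refine ⟨by simp, ?_, ?_, ?_⟩
    · rw [cf3 e o (i := a - 1) (by simp; ring), hul, hul']; rfl
    · rw [cf1 e o (i := a) (by simp), hvr, hvr']; rfl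
    · intro x h1 h2
      simp only [Bool.false_eq_true, if_false] at h1 h2
      rw [cf0 e o (i := a) (by omega), hvr, hvr', hul']; rfl
  · refine ⟨by simp, ?_, ?_, ?_⟩
    · rw [cf2 e o (i := a - 1) (by simp; ring), hul, hul']; rfl
    · rw [cf0 e o (i := a) (by simp), hvr, hvr', hul']; rfl
    · intro x h1 h2
      simp only [if_true] at h1 h2
      rw [cf3 e o (i := a - 1) (by omega), hul, hul', haa, hvr']; rfl

theorem fine_even (S : ℤ → ℤ → Bool) {l : ℤ} (h : l % 2 = 0) (κ : ℤ) :
    fine S l κ = S (κ / 4) l := by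
  rw [fine, if_pos h]

theorem fine_odd (S : ℤ → ℤ → Bool) {l : ℤ} (h : l % 2 = 1) (κ : ℤ) :
    fine S l κ = if κ % 4 = 1 ∨ κ % 4 = 2 then S (κ / 4) l
      else S ((κ + 1) / 4 - 1) l && S ((κ + 1) / 4) l := by
  rw [fine, if_neg (by omega)]

theorem cc_even (S : ℤ → ℤ → Bool) {k : ℤ} (h : k % 2 = 0) :
    cc (fine S) k = cf (fun i => S i k) (fun i => S i (k - 1)) := by
  funext x
  rw [cc, fine_even S h, fine_odd S (show (k - 1) % 2 = 1 by omega), cf, Bool.xor_comm]

theorem cc_odd (S : ℤ → ℤ → Bool) {k : ℤ} (h : k % 2 = 1) :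
    cc (fine S) k = cf (fun i => S i (k - 1)) (fun i => S i k) := by
  funext x
  rw [cc, fine_odd S h, fine_even S (show (k - 1) % 2 = 0 by omega), cf]

/-! ## Bricks and points -/

theorem brick_fine (S : ℤ → ℤ → Bool) : Brick (fine S) := by
  intro l x h
  rcases Int.emod_two_eq_zero_or_one l with hl | hl
  · rw [fine_even S hl, fine_even S hl]
    have : x / 4 = (x + 1) / 4 := by omega
    rw [this]
  · rw [fine_odd S hl, fine_odd S hl]
    by_cases h1 : x % 4 = 1
    · have e1 : (x + 1) / 4 = x / 4 := by omega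
      rw [if_pos (Or.inl h1), if_pos (Or.inr (by omega)), e1]
    · have e1 : (x + 1 + 1) / 4 = (x + 1) / 4 := by omega
      rw [if_neg (by omega), if_neg (by omega), e1]

theorem key_even {l : ℤ} (h : l % 2 = 0) (j : ℤ) (f : Bool) : key l j f = 4 * j := by
  rw [key, if_pos h]

theorem key_odd {l : ℤ} (h : l % 2 = 1) (j : ℤ) (f : Bool) :
    key l j f = if f then 4 * j + 1 else 4 * j - 1 := by
  rw [key, if_neg (by omega)]

theorem pt_key (l j : ℤ) (f : Bool) : pt (key l j f) = j := by
  unfold pt key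
  split_ifs <;> omega

theorem al_fine (S : ℤ → ℤ → Bool) (l κ : ℤ) :
    al (fine S) l κ ↔ S (pt κ - 1) l ≠ S (pt κ) l ∧ κ = key l (pt κ) (S (pt κ) l) := by
  unfold al
  rcases Int.emod_two_eq_zero_or_one l with hl | hl
  · rw [fine_even S hl, fine_even S hl, key_even hl]
    by_cases h : κ % 4 = 0
    · have e1 : (κ - 1) / 4 = pt κ - 1 := by unfold pt; omega
      have e2 : κ / 4 = pt κ := by unfold pt; omega
      have e3 : κ = 4 * pt κ := by unfold pt; omega
      rw [e1, e2]
      exact ⟨fun h => ⟨h, e3⟩, fun h => h.1⟩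
    · have e1 : (κ - 1) / 4 = κ / 4 := by omega
      have e3 : κ ≠ 4 * pt κ := by unfold pt; omega
      rw [e1]
      exact ⟨fun h => absurd rfl h, fun h => absurd h.2 e3⟩
  · rw [fine_odd S hl, fine_odd S hl, key_odd hl]
    have h4 : κ % 4 = 0 ∨ κ % 4 = 1 ∨ κ % 4 = 2 ∨ κ % 4 = 3 := by omega
    rcases h4 with h | h | h | h
    · have e3 : ∀ f : Bool, κ ≠ if f then 4 * pt κ + 1 else 4 * pt κ - 1 := by
        intro f
        unfold pt
        split_ifs <;> omega
      have e1 : (κ - 1 + 1) / 4 = (κ + 1) / 4 := by omega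
      rw [if_neg (by omega), if_neg (by omega), e1]
      exact ⟨fun h => absurd rfl h, fun h => absurd h.2 (e3 _)⟩
    · have e1 : (κ - 1 + 1) / 4 = pt κ := by unfold pt; omega
      have e2 : κ / 4 = pt κ := by unfold pt; omega
      have e3 : κ = 4 * pt κ + 1 := by unfold pt; omega
      rw [if_neg (by omega), if_pos (by omega), e1, e2]
      generalize S (pt κ) l = s at *
      generalize S (pt κ - 1) l = s' at *
      rcases s with _ | _ <;> rcases s' with _ | _ <;> simp
      · omega
      · exact e3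
    · have e3 : ∀ f : Bool, κ ≠ if f then 4 * pt κ + 1 else 4 * pt κ - 1 := by
        intro f
        unfold pt
        split_ifs <;> omega
      have e1 : (κ - 1) / 4 = κ / 4 := by omega
      rw [if_pos (by omega), if_pos (by omega), e1]
      exact ⟨fun h => absurd rfl h, fun h => absurd h.2 (e3 _)⟩
    · have e1 : (κ - 1) / 4 = pt κ - 1 := by unfold pt; omega
      have e2 : (κ + 1) / 4 = pt κ := rfl
      have e3 : κ = 4 * pt κ - 1 := by unfold pt; omega
      rw [if_pos (by omega), if_neg (by omega), e1, e2]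
      generalize S (pt κ) l = s at *
      generalize S (pt κ - 1) l = s' at *
      rcases s with _ | _ <;> rcases s' with _ | _ <;> simp
      · exact e3
      · omega

/-! ## Runs between the ends of a strip of cells -/

theorem run_strip (S : ℤ → ℤ → Bool) (k : ℤ) {a b : ℤ} (hab : a < b) {u v q : Bool}
    (hl : ∀ i, a ≤ i → i < b → S i (k - 1) = q) (hu : ∀ i, a ≤ i → i < b → S i k = !q)
    (h1 : S (a - 1) (k - 1) = u) (h2 : S (a - 1) k = u) (h3 : S b (k - 1) = v) (h4 : S b k = v) :
    Run (cc (fine S) k) (if q = u then key k a (!q) else key (k - 1) a q)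
      (if q = v then key k b v else key (k - 1) b v) := by
  rcases Int.emod_two_eq_zero_or_one k with hk | hk
  · have hk' : (k - 1) % 2 = 1 := by omega
    rw [cc_even S hk]
    have h := run_cf (fun i => S i k) (fun i => S i (k - 1)) hab (p := !q) hu
      (by simpa using hl) h2 h1 h4 h3
    rw [key_even hk, key_odd hk', key_even hk, key_odd hk']
    convert h using 1
    · unfold lk
      rcases u with _ | _ <;> rcases q with _ | _ <;> rfl
    · unfold rk
      rcases v with _ | _ <;> rcases q with _ | _ <;> rfl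
  · have hk' : (k - 1) % 2 = 0 := by omega
    rw [cc_odd S hk]
    have h := run_cf (fun i => S i (k - 1)) (fun i => S i k) hab (p := q) hl
      hu h1 h2 h3 h4
    rw [key_even hk', key_odd hk, key_even hk', key_odd hk]
    convert h using 1
    · unfold lk
      rcases u with _ | _ <;> rcases q with _ | _ <;> rfl
    · unfold rk
      rcases v with _ | _ <;> rcases q with _ | _ <;> rfl

theorem run_strip_flat (S : ℤ → ℤ → Bool) (k : ℤ) {a : ℤ} {u : Bool}
    (h1 : S (a - 1) (k - 1) = u) (h2 : S (a - 1) k = u) (h3 : S a (k - 1) = !u)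
    (h4 : S a k = !u) :
    Run (cc (fine S) k) (key k a (!u)) (key (k - 1) a (!u)) ∨
      Run (cc (fine S) k) (key (k - 1) a (!u)) (key k a (!u)) := by
  rcases Int.emod_two_eq_zero_or_one k with hk | hk
  · have hk' : (k - 1) % 2 = 1 := by omega
    rw [cc_even S hk]
    have h := run_cf_flat (fun i => S i k) (fun i => S i (k - 1)) h2 h1 h4 h3
    rw [key_even hk, key_odd hk']
    rcases u with _ | _
    · exact Or.inl h
    · exact Or.inr h
  · have hk' : (k - 1) % 2 = 0 := by omega
    rw [cc_odd S hk]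
    have h := run_cf_flat (fun i => S i (k - 1)) (fun i => S i k) h1 h2 h3 h4
    rw [key_even hk', key_odd hk]
    rcases u with _ | _
    · exact Or.inr h
    · exact Or.inl h

theorem row_key {k l : ℤ} (h : l = k ∨ l = k - 1) (j : ℤ) (f : Bool) : row k (key l j f) = l := by
  unfold row key
  rcases h with rfl | rfl <;> split_ifs <;> omega

/-! ## Cells and states -/

open Pool.Agent.Helper55.UNF Pool.Agent.Helper55.UNF.GridSolid Pool.Agent.MP42 Pool.Agent.MP42.NE

theorem shift0 (x j l : ℤ) (b : Bool) :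
    shift ![x, j, l] ((0, b) : Dir) = ![x + (if b then 1 else -1), j, l] := by
  funext a
  fin_cases a <;> simp [shift]

theorem shift1 (x j l : ℤ) (b : Bool) :
    shift ![x, j, l] ((1, b) : Dir) = ![x, j + (if b then 1 else -1), l] := by
  funext a
  fin_cases a <;> simp [shift]

theorem shift2 (x j l : ℤ) (b : Bool) :
    shift ![x, j, l] ((2, b) : Dir) = ![x, j, l + (if b then 1 else -1)] := by
  funext a
  fin_cases a <;> simp [shift]

theorem vec_eta (c : Fin 3 → ℤ) : c = ![c 0, c 1, c 2] := by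
  funext a
  fin_cases a <;> rfl

variable {P : GridSolid}

theorem sec_true {x j l : ℤ} : sec P x j l = true ↔ (![x, j, l] : Fin 3 → ℤ) ∈ P.cells := by
  simp [sec]

theorem sec_false {x j l : ℤ} : sec P x j l = false ↔ (![x, j, l] : Fin 3 → ℤ) ∉ P.cells := by
  simp [sec]

theorem oc1 : opp (cross ((1, false) : Dir) ((2, true) : Dir)) = (0, true) := by decide
theorem oc2 : opp (cross ((2, true) : Dir) ((1, true) : Dir)) = (0, true) := by decide
theorem oc3 : opp (cross ((1, true) : Dir) ((2, false) : Dir)) = (0, true) := by decide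
theorem oc4 : opp (cross ((2, false) : Dir) ((1, false) : Dir)) = (0, true) := by decide
theorem op1 : opp ((1, true) : Dir) = (1, false) := by decide
theorem op2 : opp ((1, false) : Dir) = (1, true) := by decide
theorem op3 : opp ((2, true) : Dir) = (2, false) := by decide
theorem op4 : opp ((2, false) : Dir) = (2, true) := by decide

theorem stN_top {s : P.FSt} {x j l : ℤ} (h : s.1 = ⟨![x, j, l], (2, true), (0, true)⟩) :
    s.stN.1 = if ![x, j + 1, l + 1] ∈ P.cells then ⟨![x, j + 1, l + 1], (1, false), (0, true)⟩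
      else if ![x, j + 1, l] ∈ P.cells then ⟨![x, j + 1, l], (2, true), (0, true)⟩
      else ⟨![x, j, l], (1, true), (0, true)⟩ := by
  show (s.1.rotL.stepE P).rotR = _
  rw [h]
  have e1 : cross ((2, true) : Dir) ((0, true) : Dir) = (1, true) := by decide
  simp only [St.rotL, e1, St.stepE, shift1, shift2, if_true]
  split_ifs <;> simp only [St.rotR, oc1, oc2, oc3, oc4, op1, op2, op3, op4]

theorem stN_bot {s : P.FSt} {x j l : ℤ} (h : s.1 = ⟨![x, j, l], (2, false), (0, true)⟩) :
    s.stN.1 = if ![x, j - 1, l - 1] ∈ P.cells then ⟨![x, j - 1, l - 1], (1, true), (0, true)⟩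
      else if ![x, j - 1, l] ∈ P.cells then ⟨![x, j - 1, l], (2, false), (0, true)⟩
      else ⟨![x, j, l], (1, false), (0, true)⟩ := by
  show (s.1.rotL.stepE P).rotR = _
  rw [h]
  have e1 : cross ((2, false) : Dir) ((0, true) : Dir) = (1, false) := by decide
  simp only [St.rotL, e1, St.stepE, shift1, shift2, Bool.false_eq_true, if_false, ← sub_eq_add_neg]
  split_ifs <;> simp only [St.rotR, oc1, oc2, oc3, oc4, op1, op2, op3, op4]

theorem stN_front {s : P.FSt} {x j l : ℤ} (h : s.1 = ⟨![x, j, l], (1, false), (0, true)⟩) :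
    s.stN.1 = if ![x, j - 1, l + 1] ∈ P.cells then ⟨![x, j - 1, l + 1], (2, false), (0, true)⟩
      else if ![x, j, l + 1] ∈ P.cells then ⟨![x, j, l + 1], (1, false), (0, true)⟩
      else ⟨![x, j, l], (2, true), (0, true)⟩ := by
  show (s.1.rotL.stepE P).rotR = _
  rw [h]
  have e1 : cross ((1, false) : Dir) ((0, true) : Dir) = (2, true) := by decide
  simp only [St.rotL, e1, St.stepE, shift1, shift2, Bool.false_eq_true, if_false, if_true,
    ← sub_eq_add_neg]
  split_ifs <;> simp only [St.rotR, oc1, oc2, oc3, oc4, op1, op2, op3, op4]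

theorem stN_back {s : P.FSt} {x j l : ℤ} (h : s.1 = ⟨![x, j, l], (1, true), (0, true)⟩) :
    s.stN.1 = if ![x, j + 1, l - 1] ∈ P.cells then ⟨![x, j + 1, l - 1], (2, true), (0, true)⟩
      else if ![x, j, l - 1] ∈ P.cells then ⟨![x, j, l - 1], (1, true), (0, true)⟩
      else ⟨![x, j, l], (2, false), (0, true)⟩ := by
  show (s.1.rotL.stepE P).rotR = _
  rw [h]
  have e1 : cross ((1, true) : Dir) ((0, true) : Dir) = (2, false) := by decide
  simp only [St.rotL, e1, St.stepE, shift1, shift2, Bool.false_eq_true, if_false, if_true,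
    ← sub_eq_add_neg]
  split_ifs <;> simp only [St.rotR, oc1, oc2, oc3, oc4, op1, op2, op3, op4]

theorem mem_of_st {s : P.FSt} {x j l : ℤ} {d e : Dir} (h : s.1 = ⟨![x, j, l], d, e⟩) :
    (![x, j, l] : Fin 3 → ℤ) ∈ P.cells ∧ shift ![x, j, l] d ∉ P.cells := by
  have h1 := s.2.1
  rw [h] at h1
  exact h1

theorem isDart_of {s : P.FSt} {c : Fin 3 → ℤ} {b : Bool}
    (h : s.1 = ⟨c, (1, b), (0, true)⟩) : IsDart s := by
  unfold IsDart
  rw [h]
  exact ⟨rfl, rfl⟩

theorem not_isDart_of {s : P.FSt} {c : Fin 3 → ℤ} {b : Bool}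
    (h : s.1 = ⟨c, (2, b), (0, true)⟩) : ¬ IsDart s := by
  intro h1
  unfold IsDart at h1
  rw [h] at h1
  have h2 : (2 : Fin 3) = 1 := h1.1
  exact absurd h2 (by decide)

theorem retN_succ {s : P.FSt} (h : ¬ IsDart (pN s)) (hx : ∃ m : ℕ, IsDart ((pN ^ m) s)) :
    retN pN IsDart s = retN pN IsDart (pN s) + 1 := by
  unfold retN
  exact srch_step h (ret_ex _ hx)

/-! ## Walks along the `z`-facets -/

theorem walk_top (hM : P.IsManifold) : ∀ (n : ℕ) (s : P.FSt) (x j l : ℤ),
    s.1 = ⟨![x, j, l], (2, true), (0, true)⟩ → (∃ m : ℕ, IsDart ((pN ^ m) s)) →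
    retN pN IsDart s = n →
    ∃ j', j ≤ j' ∧ (∀ i, j ≤ i → i ≤ j' → sec P x i l = true ∧ sec P x i (l + 1) = false) ∧
      ((sec P x (j' + 1) l = true ∧ sec P x (j' + 1) (l + 1) = true ∧
        (retFun pN IsDart s).1 = ⟨![x, j' + 1, l + 1], (1, false), (0, true)⟩) ∨
       (sec P x (j' + 1) l = false ∧ sec P x (j' + 1) (l + 1) = false ∧
        (retFun pN IsDart s).1 = ⟨![x, j', l], (1, true), (0, true)⟩)) := by
  intro n
  induction n with
  | zero =>
    intro s x j l hs hx hn
    obtain ⟨m1, m2⟩ := mem_of_st hs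
    rw [shift2] at m2
    simp only [if_true] at m2
    have hst := stN_top hs
    have hh : ∀ i, j ≤ i → i ≤ j → sec P x i l = true ∧ sec P x i (l + 1) = false := by
      intro i h1 h2
      obtain rfl : i = j := le_antisymm h2 h1
      exact ⟨sec_true.2 m1, sec_false.2 m2⟩
    by_cases a1 : (![x, j + 1, l + 1] : Fin 3 → ℤ) ∈ P.cells
    · rw [if_pos a1] at hst
      have hd : IsDart (pN s) := isDart_of hst
      rw [retFun_step hd]
      have h3 : (![x, j + 1, l] : Fin 3 → ℤ) ∈ P.cells := by
        have h4 := hM.1 ![x, j, l] 1 2 true true (by decide) m1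
          (by rw [shift1, shift2]; exact a1)
        rw [shift1, shift2] at h4
        exact h4.resolve_right m2
      exact ⟨j, le_rfl, hh, Or.inl ⟨sec_true.2 h3, sec_true.2 a1, hst⟩⟩
    · rw [if_neg a1] at hst
      by_cases a2 : (![x, j + 1, l] : Fin 3 → ℤ) ∈ P.cells
      · rw [if_pos a2] at hst
        exfalso
        have hd : ¬ IsDart (pN s) := not_isDart_of hst
        have := retN_succ hd hx
        omega
      · rw [if_neg a2] at hst
        have hd : IsDart (pN s) := isDart_of hst
        rw [retFun_step hd]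
        exact ⟨j, le_rfl, hh, Or.inr ⟨sec_false.2 a2, sec_false.2 a1, hst⟩⟩
  | succ n ih =>
    intro s x j l hs hx hn
    obtain ⟨m1, m2⟩ := mem_of_st hs
    rw [shift2] at m2
    simp only [if_true] at m2
    have hst := stN_top hs
    have hh : ∀ i, j ≤ i → i ≤ j → sec P x i l = true ∧ sec P x i (l + 1) = false := by
      intro i h1 h2
      obtain rfl : i = j := le_antisymm h2 h1
      exact ⟨sec_true.2 m1, sec_false.2 m2⟩
    by_cases a1 : (![x, j + 1, l + 1] : Fin 3 → ℤ) ∈ P.cells
    · rw [if_pos a1] at hst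
      have hd : IsDart (pN s) := isDart_of hst
      rw [retFun_step hd]
      have h3 : (![x, j + 1, l] : Fin 3 → ℤ) ∈ P.cells := by
        have h4 := hM.1 ![x, j, l] 1 2 true true (by decide) m1
          (by rw [shift1, shift2]; exact a1)
        rw [shift1, shift2] at h4
        exact h4.resolve_right m2
      exact ⟨j, le_rfl, hh, Or.inl ⟨sec_true.2 h3, sec_true.2 a1, hst⟩⟩
    · rw [if_neg a1] at hst
      by_cases a2 : (![x, j + 1, l] : Fin 3 → ℤ) ∈ P.cells
      · rw [if_pos a2] at hst
        have hd : ¬ IsDart (pN s) := not_isDart_of hst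
        have h5 := retN_succ hd hx
        rw [retFun_step' hd hx]
        obtain ⟨j', h6, h7, h8⟩ := ih (pN s) x (j + 1) l hst (ret_ex _ hx) (by omega)
        refine ⟨j', by omega, ?_, h8⟩
        intro i h9 h10
        rcases eq_or_lt_of_le h9 with h11 | h11
        · exact hh i h9 h11.ge
        · exact h7 i (by omega) h10
      · rw [if_neg a2] at hst
        have hd : IsDart (pN s) := isDart_of hst
        rw [retFun_step hd]
        exact ⟨j, le_rfl, hh, Or.inr ⟨sec_false.2 a2, sec_false.2 a1, hst⟩⟩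

theorem walk_bot (hM : P.IsManifold) : ∀ (n : ℕ) (s : P.FSt) (x j l : ℤ),
    s.1 = ⟨![x, j, l], (2, false), (0, true)⟩ → (∃ m : ℕ, IsDart ((pN ^ m) s)) →
    retN pN IsDart s = n →
    ∃ j', j' ≤ j ∧ (∀ i, j' ≤ i → i ≤ j → sec P x i l = true ∧ sec P x i (l - 1) = false) ∧
      ((sec P x (j' - 1) l = true ∧ sec P x (j' - 1) (l - 1) = true ∧
        (retFun pN IsDart s).1 = ⟨![x, j' - 1, l - 1], (1, true), (0, true)⟩) ∨
       (sec P x (j' - 1) l = false ∧ sec P x (j' - 1) (l - 1) = false ∧
        (retFun pN IsDart s).1 = ⟨![x, j', l], (1, false), (0, true)⟩)) := by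
  intro n
  induction n with
  | zero =>
    intro s x j l hs hx hn
    obtain ⟨m1, m2⟩ := mem_of_st hs
    rw [shift2] at m2
    simp only [Bool.false_eq_true, if_false, ← sub_eq_add_neg] at m2
    have hst := stN_bot hs
    have hh : ∀ i, j ≤ i → i ≤ j → sec P x i l = true ∧ sec P x i (l - 1) = false := by
      intro i h1 h2
      obtain rfl : i = j := le_antisymm h2 h1
      exact ⟨sec_true.2 m1, sec_false.2 m2⟩
    by_cases a1 : (![x, j - 1, l - 1] : Fin 3 → ℤ) ∈ P.cells
    · rw [if_pos a1] at hst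
      have hd : IsDart (pN s) := isDart_of hst
      rw [retFun_step hd]
      have h3 : (![x, j - 1, l] : Fin 3 → ℤ) ∈ P.cells := by
        have h4 := hM.1 ![x, j, l] 1 2 false false (by decide) m1
          (by rw [shift1, shift2]; exact a1)
        rw [shift1, shift2] at h4
        exact h4.resolve_right m2
      exact ⟨j, le_rfl, hh, Or.inl ⟨sec_true.2 h3, sec_true.2 a1, hst⟩⟩
    · rw [if_neg a1] at hst
      by_cases a2 : (![x, j - 1, l] : Fin 3 → ℤ) ∈ P.cells
      · rw [if_pos a2] at hst
        exfalso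
        have hd : ¬ IsDart (pN s) := not_isDart_of hst
        have := retN_succ hd hx
        omega
      · rw [if_neg a2] at hst
        have hd : IsDart (pN s) := isDart_of hst
        rw [retFun_step hd]
        exact ⟨j, le_rfl, hh, Or.inr ⟨sec_false.2 a2, sec_false.2 a1, hst⟩⟩
  | succ n ih =>
    intro s x j l hs hx hn
    obtain ⟨m1, m2⟩ := mem_of_st hs
    rw [shift2] at m2
    simp only [Bool.false_eq_true, if_false, ← sub_eq_add_neg] at m2
    have hst := stN_bot hs
    have hh : ∀ i, j ≤ i → i ≤ j → sec P x i l = true ∧ sec P x i (l - 1) = false := by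
      intro i h1 h2
      obtain rfl : i = j := le_antisymm h2 h1
      exact ⟨sec_true.2 m1, sec_false.2 m2⟩
    by_cases a1 : (![x, j - 1, l - 1] : Fin 3 → ℤ) ∈ P.cells
    · rw [if_pos a1] at hst
      have hd : IsDart (pN s) := isDart_of hst
      rw [retFun_step hd]
      have h3 : (![x, j - 1, l] : Fin 3 → ℤ) ∈ P.cells := by
        have h4 := hM.1 ![x, j, l] 1 2 false false (by decide) m1
          (by rw [shift1, shift2]; exact a1)
        rw [shift1, shift2] at h4
        exact h4.resolve_right m2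
      exact ⟨j, le_rfl, hh, Or.inl ⟨sec_true.2 h3, sec_true.2 a1, hst⟩⟩
    · rw [if_neg a1] at hst
      by_cases a2 : (![x, j - 1, l] : Fin 3 → ℤ) ∈ P.cells
      · rw [if_pos a2] at hst
        have hd : ¬ IsDart (pN s) := not_isDart_of hst
        have h5 := retN_succ hd hx
        rw [retFun_step' hd hx]
        obtain ⟨j', h6, h7, h8⟩ := ih (pN s) x (j - 1) l hst (ret_ex _ hx) (by omega)
        refine ⟨j', by omega, ?_, h8⟩
        intro i h9 h10
        rcases eq_or_lt_of_le h10 with h11 | h11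
        · exact hh i h11.ge h10
        · exact h7 i h9 (by omega)
      · rw [if_neg a2] at hst
        have hd : IsDart (pN s) := isDart_of hst
        rw [retFun_step hd]
        exact ⟨j, le_rfl, hh, Or.inr ⟨sec_false.2 a2, sec_false.2 a1, hst⟩⟩

/-! ## Darts -/

theorem of_st {t : Dart P} {x j l : ℤ} {b : Bool} (h : t.1.1 = ⟨![x, j, l], (1, b), (0, true)⟩) :
    Can t ∧ sl t = x ∧ ll t = l ∧ jj t = j + (if b then 1 else 0) ∧ fr t = !b := by
  unfold Can sl ll jj fr
  rw [h]
  exact ⟨rfl, rfl, rfl, rfl, rfl⟩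

theorem st_of_can {d : Dart P} (h : Can d) :
    ∃ x j l b, d.1.1 = ⟨![x, j, l], (1, b), (0, true)⟩ := by
  obtain ⟨⟨⟨c, ⟨a, b⟩, e⟩, h1⟩, h2, h3⟩ := d
  refine ⟨c 0, c 1, c 2, b, ?_⟩
  have h4 : a = 1 := h2
  have h5 : e = (0, true) := h
  subst h4
  subst h5
  show (⟨c, (1, b), (0, true)⟩ : Pool.Agent.Helper55.UNF.St) =
    ⟨![c 0, c 1, c 2], (1, b), (0, true)⟩
  rw [← vec_eta c]

theorem sec_jj (d : Dart P) : sec P (sl d) (jj d) (ll d) = fr d := by
  obtain ⟨⟨⟨c, ⟨a, b⟩, e⟩, ⟨h1, h2⟩, h0⟩, h3, h4⟩ := d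
  have h5 : a = 1 := h3
  subst h5
  show sec P (c 0) (c 1 + if b then 1 else 0) (c 2) = !b
  rcases b with _ | _
  · simp only [Bool.false_eq_true, if_false, add_zero, Bool.not_false]
    rw [sec_true, ← vec_eta c]
    exact h1
  · simp only [if_true, Bool.not_true]
    have h6 : shift c ((1, true) : Dir) ∉ P.cells := h2
    rw [vec_eta c, shift1] at h6
    exact sec_false.2 h6

theorem sec_jj' (d : Dart P) : sec P (sl d) (jj d - 1) (ll d) = !fr d := by
  obtain ⟨⟨⟨c, ⟨a, b⟩, e⟩, ⟨h1, h2⟩, h0⟩, h3, h4⟩ := d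
  have h5 : a = 1 := h3
  subst h5
  show sec P (c 0) (c 1 + (if b then 1 else 0) - 1) (c 2) = !!b
  rcases b with _ | _
  · simp only [Bool.false_eq_true, if_false, add_zero, Bool.not_false, Bool.not_true]
    have h6 : shift c ((1, false) : Dir) ∉ P.cells := h2
    rw [vec_eta c, shift1] at h6
    exact sec_false.2 h6
  · simp only [if_true, Bool.not_true, Bool.not_false, add_sub_cancel_right]
    rw [sec_true, ← vec_eta c]
    exact h1

theorem dart_of_al {x l κ : ℤ} (h : al (fine (sec P x)) l κ) :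
    ∃ d : Dart P, Can d ∧ sl d = x ∧ ll d = l ∧ key (ll d) (jj d) (fr d) = κ := by
  obtain ⟨h1, h2⟩ := (al_fine _ _ _).1 h
  generalize pt κ = j at h1 h2
  rcases hb : sec P x j l with _ | _
  · rw [hb] at h1 h2
    have h3 : sec P x (j - 1) l = true := by
      rcases h4 : sec P x (j - 1) l with _ | _
      · rw [h4] at h1
        exact absurd rfl h1
      · rfl
    have hf : P.IsFacet (![x, j - 1, l], ((1, true) : Dir)) := by
      refine ⟨sec_true.1 h3, ?_⟩
      rw [shift1]
      simp only [if_true, sub_add_cancel]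
      exact sec_false.1 hb
    have hd := of_st (t := (⟨⟨⟨![x, j - 1, l], (1, true), (0, true)⟩, hf,
      show (1 : Fin 3) ≠ 0 by decide⟩,
      ⟨rfl, rfl⟩⟩ : Dart P)) rfl
    refine ⟨_, hd.1, hd.2.1, hd.2.2.1, ?_⟩
    rw [hd.2.2.1, hd.2.2.2.1, hd.2.2.2.2, h2]
    simp
  · rw [hb] at h1 h2
    have h3 : sec P x (j - 1) l = false := by
      rcases h4 : sec P x (j - 1) l with _ | _
      · rfl
      · rw [h4] at h1
        exact absurd rfl h1
    have hf : P.IsFacet (![x, j, l], ((1, false) : Dir)) := by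
      refine ⟨sec_true.1 hb, ?_⟩
      rw [shift1]
      exact sec_false.1 h3
    have hd := of_st (t := (⟨⟨⟨![x, j, l], (1, false), (0, true)⟩, hf,
      show (1 : Fin 3) ≠ 0 by decide⟩,
      ⟨rfl, rfl⟩⟩ : Dart P)) rfl
    refine ⟨_, hd.1, hd.2.1, hd.2.2.1, ?_⟩
    rw [hd.2.2.1, hd.2.2.2.1, hd.2.2.2.2, h2]
    simp

theorem al_of_dart (d : Dart P) :
    al (fine (sec P (sl d))) (ll d) (key (ll d) (jj d) (fr d)) := by
  rw [al_fine, pt_key, sec_jj, sec_jj']
  exact ⟨by cases fr d <;> decide, rfl⟩

theorem dart_inj {d d' : Dart P} (h : Can d) (h' : Can d') (h1 : sl d = sl d') (h2 : ll d = ll d')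
    (h3 : jj d = jj d') : d = d' := by
  have h4 : fr d = fr d' := by rw [← sec_jj, ← sec_jj, h1, h2, h3]
  obtain ⟨x, j, l, b, e⟩ := st_of_can h
  obtain ⟨x', j', l', b', e'⟩ := st_of_can h'
  obtain ⟨-, a1, a2, a3, a4⟩ := of_st e
  obtain ⟨-, a1', a2', a3', a4'⟩ := of_st e'
  have hb : b = b' := by
    rw [a4, a4'] at h4
    exact Bool.not_inj h4
  subst hb
  have hx : x = x' := by rw [← a1, ← a1', h1]
  have hl : l = l' := by rw [← a2, ← a2', h2]
  have hj : j = j' := by
    rw [a3, a3'] at h3
    exact add_right_cancel h3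
  subst hx
  subst hl
  subst hj
  exact Subtype.ext (Subtype.ext (e.trans e'.symm))

/-! ## Arcs -/

/-- the conclusion of `arc_rN` -/
def ArcTo (d t : Dart P) : Prop :=
  Can t ∧ sl t = sl d ∧
    ∃ k, k = (if fr d then ll d + 1 else ll d) ∧
      row k (key (ll d) (jj d) (fr d)) = ll d ∧
      row k (key (ll t) (jj t) (fr t)) = ll t ∧
      (Run (cc (fine (sec P (sl d))) k) (key (ll d) (jj d) (fr d)) (key (ll t) (jj t) (fr t)) ∨
      Run (cc (fine (sec P (sl d))) k) (key (ll t) (jj t) (fr t)) (key (ll d) (jj d) (fr d)))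

/-- walk over the tops of the cells `a, ..., j'` of the lower row `k - 1` -/
theorem arc_top {d t : Dart P} {x k a j' : ℤ} {u v : Bool} (hj : a ≤ j')
    (hc : ∀ i, a ≤ i → i ≤ j' → sec P x i (k - 1) = true ∧ sec P x i k = false)
    (h1 : sec P x (a - 1) (k - 1) = u) (h2 : sec P x (a - 1) k = u)
    (h3 : sec P x (j' + 1) (k - 1) = v) (h4 : sec P x (j' + 1) k = v)
    (ds : sl d = x) (dj : jj d = a) (df : fr d = !u) (dl : ll d = if u then k else k - 1)
    (tc : Can t) (ts : sl t = x) (tj : jj t = j' + 1) (tf : fr t = v)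
    (tl : ll t = if v then k else k - 1) : ArcTo d t := by
  have h := run_strip (sec P x) k (a := a) (b := j' + 1) (u := u) (v := v) (q := true) (by omega)
    (fun i h5 h6 => (hc i h5 (by omega)).1) (fun i h5 h6 => (hc i h5 (by omega)).2) h1 h2 h3 h4
  refine ⟨tc, by rw [ts, ds], k, ?_, ?_, ?_, Or.inl ?_⟩
  · rw [df, dl]
    rcases u with _ | _
    · simp
    · rfl
  · apply row_key
    rw [dl]
    rcases u with _ | _
    · exact Or.inr rfl
    · exact Or.inl rfl
  · apply row_key
    rw [tl]
    rcases v with _ | _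
    · exact Or.inr rfl
    · exact Or.inl rfl
  · rw [ds, dl, dj, df, tl, tj, tf]
    rcases u with _ | _ <;> rcases v with _ | _ <;> exact h

/-- walk along the bottoms of the cells `a, ..., j` of the upper row `k` -/
theorem arc_bot {d t : Dart P} {x k a j : ℤ} {u v : Bool} (hj : a ≤ j)
    (hc : ∀ i, a ≤ i → i ≤ j → sec P x i k = true ∧ sec P x i (k - 1) = false)
    (h1 : sec P x (a - 1) (k - 1) = u) (h2 : sec P x (a - 1) k = u)
    (h3 : sec P x (j + 1) (k - 1) = v) (h4 : sec P x (j + 1) k = v)
    (ds : sl d = x) (dj : jj d = j + 1) (df : fr d = v) (dl : ll d = if v then k - 1 else k)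
    (tc : Can t) (ts : sl t = x) (tj : jj t = a) (tf : fr t = !u)
    (tl : ll t = if u then k - 1 else k) : ArcTo d t := by
  have h := run_strip (sec P x) k (a := a) (b := j + 1) (u := u) (v := v) (q := false) (by omega)
    (fun i h5 h6 => (hc i h5 (by omega)).2) (fun i h5 h6 => (hc i h5 (by omega)).1) h1 h2 h3 h4
  refine ⟨tc, by rw [ts, ds], k, ?_, ?_, ?_, Or.inr ?_⟩
  · rw [df, dl]
    rcases v with _ | _
    · rfl
    · simp
  · apply row_key
    rw [dl]
    rcases v with _ | _
    · exact Or.inl rfl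
    · exact Or.inr rfl
  · apply row_key
    rw [tl]
    rcases u with _ | _
    · exact Or.inl rfl
    · exact Or.inr rfl
  · rw [ds, dl, dj, df, tl, tj, tf]
    rcases u with _ | _ <;> rcases v with _ | _ <;> exact h

theorem arc_rN' (hM : P.IsManifold) (d : Dart P) (h : Can d) : ArcTo d (rN P d) := by
  obtain ⟨x, j, l, b, e⟩ := st_of_can h
  obtain ⟨-, a1, a2, a3, a4⟩ := of_st e
  have hex : ∃ m : ℕ, IsDart ((pN ^ m) d.1) := ⟨0, by simpa using d.2⟩
  have hv : (rN P d).1 = retFun pN IsDart d.1 := ret_val _ _ _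
  obtain ⟨m1, m2⟩ := mem_of_st e
  rw [shift1] at m2
  rcases b with _ | _
  · -- front facet
    simp only [Bool.false_eq_true, if_false, ← sub_eq_add_neg, add_zero, Bool.not_false] at m2 a3 a4
    have hst := stN_front e
    by_cases b1 : (![x, j - 1, l + 1] : Fin 3 → ℤ) ∈ P.cells
    · rw [if_pos b1] at hst
      have hd : ¬ IsDart (pN d.1) := not_isDart_of hst
      rw [retFun_step' hd hex] at hv
      have h3 : (![x, j, l + 1] : Fin 3 → ℤ) ∈ P.cells := by
        have h4 := hM.1 ![x, j, l] 1 2 false true (by decide) m1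
          (by rw [shift1, shift2]; exact b1)
        rw [shift1, shift2] at h4
        exact h4.resolve_left m2
      obtain ⟨j', h6, h7, h8⟩ := walk_bot hM _ (pN d.1) x (j - 1) (l + 1) hst (ret_ex _ hex) rfl
      rcases h8 with ⟨c1, c2, c3⟩ | ⟨c1, c2, c3⟩
      · rw [← hv] at c3
        obtain ⟨f0, f1, f2, f3, f4⟩ := of_st c3
        refine arc_bot (x := x) (k := l + 1) (a := j') (j := j - 1) (u := true) (v := true) h6 h7
          c2 c1 ?_ ?_ a1 (by rw [a3]; ring) a4 (by rw [a2]; simp) f0 f1 ?_ f4 f2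
        · rw [sub_add_cancel, add_sub_cancel_right]; exact sec_true.2 m1
        · rw [sub_add_cancel]; exact sec_true.2 h3
        · rw [f3]; simp
      · rw [← hv] at c3
        obtain ⟨f0, f1, f2, f3, f4⟩ := of_st c3
        refine arc_bot (x := x) (k := l + 1) (a := j') (j := j - 1) (u := false) (v := true) h6 h7
          c2 c1 ?_ ?_ a1 (by rw [a3]; ring) a4 (by rw [a2]; simp) f0 f1 ?_ f4 f2
        · rw [sub_add_cancel, add_sub_cancel_right]; exact sec_true.2 m1
        · rw [sub_add_cancel]; exact sec_true.2 h3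
        · rw [f3]; simp
    · rw [if_neg b1] at hst
      by_cases b2 : (![x, j, l + 1] : Fin 3 → ℤ) ∈ P.cells
      · rw [if_pos b2] at hst
        have hd : IsDart (pN d.1) := isDart_of hst
        rw [retFun_step hd] at hv
        have c3 : (rN P d).1.1 = ⟨![x, j, l + 1], (1, false), (0, true)⟩ := by
          rw [hv]; exact hst
        obtain ⟨f0, f1, f2, f3, f4⟩ := of_st c3
        simp only [Bool.false_eq_true, if_false, add_zero, Bool.not_false] at f3 f4
        have hr := run_strip_flat (sec P x) (l + 1) (a := j) (u := false)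
          (by rw [add_sub_cancel_right]; exact sec_false.2 m2) (sec_false.2 b1)
          (by rw [add_sub_cancel_right]; exact sec_true.2 m1) (sec_true.2 b2)
        rw [add_sub_cancel_right] at hr
        refine ⟨f0, by rw [f1, a1], l + 1, by rw [a4, a2]; rfl, ?_, ?_, ?_⟩
        · exact row_key (Or.inr (by rw [a2]; ring)) _ _
        · exact row_key (Or.inl f2) _ _
        · rw [a1, a2, a3, a4, f2, f3, f4]
          exact hr.symm
      · rw [if_neg b2] at hst
        have hd : ¬ IsDart (pN d.1) := not_isDart_of hst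
        rw [retFun_step' hd hex] at hv
        obtain ⟨j', h6, h7, h8⟩ := walk_top hM _ (pN d.1) x j l hst (ret_ex _ hex) rfl
        rcases h8 with ⟨c1, c2, c3⟩ | ⟨c1, c2, c3⟩
        · rw [← hv] at c3
          obtain ⟨f0, f1, f2, f3, f4⟩ := of_st c3
          refine arc_top (x := x) (k := l + 1) (a := j) (j' := j') (u := false) (v := true) h6
            ?_ ?_ ?_ ?_ c2 a1 a3 a4 (by rw [a2]; simp) f0 f1 ?_ f4 f2
          · intro i g1 g2
            rw [add_sub_cancel_right]
            exact h7 i g1 g2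
          · rw [add_sub_cancel_right]; exact sec_false.2 m2
          · exact sec_false.2 b1
          · rw [add_sub_cancel_right]; exact c1
          · rw [f3]; simp
        · rw [← hv] at c3
          obtain ⟨f0, f1, f2, f3, f4⟩ := of_st c3
          refine arc_top (x := x) (k := l + 1) (a := j) (j' := j') (u := false) (v := false) h6
            ?_ ?_ ?_ ?_ c2 a1 a3 a4 (by rw [a2]; simp) f0 f1 ?_ f4 (by rw [f2]; simp)
          · intro i g1 g2
            rw [add_sub_cancel_right]
            exact h7 i g1 g2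
          · rw [add_sub_cancel_right]; exact sec_false.2 m2
          · exact sec_false.2 b1
          · rw [add_sub_cancel_right]; exact c1
          · rw [f3]; simp
  · -- back facet
    simp only [if_true, Bool.not_true] at m2 a3 a4
    have hst := stN_back e
    by_cases b1 : (![x, j + 1, l - 1] : Fin 3 → ℤ) ∈ P.cells
    · rw [if_pos b1] at hst
      have hd : ¬ IsDart (pN d.1) := not_isDart_of hst
      rw [retFun_step' hd hex] at hv
      have h3 : (![x, j, l - 1] : Fin 3 → ℤ) ∈ P.cells := by
        have h4 := hM.1 ![x, j, l] 1 2 true false (by decide) m1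
          (by rw [shift1, shift2]; exact b1)
        rw [shift1, shift2] at h4
        exact h4.resolve_left m2
      obtain ⟨j', h6, h7, h8⟩ := walk_top hM _ (pN d.1) x (j + 1) (l - 1) hst (ret_ex _ hex) rfl
      rw [sub_add_cancel] at h7 h8
      rcases h8 with ⟨c1, c2, c3⟩ | ⟨c1, c2, c3⟩
      · rw [← hv] at c3
        obtain ⟨f0, f1, f2, f3, f4⟩ := of_st c3
        refine arc_top (x := x) (k := l) (a := j + 1) (j' := j') (u := true) (v := true) h6
          h7 ?_ ?_ c1 c2 a1 a3 a4 a2 f0 f1 ?_ f4 f2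
        · rw [add_sub_cancel_right]; exact sec_true.2 h3
        · rw [add_sub_cancel_right]; exact sec_true.2 m1
        · rw [f3]; simp
      · rw [← hv] at c3
        obtain ⟨f0, f1, f2, f3, f4⟩ := of_st c3
        refine arc_top (x := x) (k := l) (a := j + 1) (j' := j') (u := true) (v := false) h6
          h7 ?_ ?_ c1 c2 a1 a3 a4 a2 f0 f1 ?_ f4 f2
        · rw [add_sub_cancel_right]; exact sec_true.2 h3
        · rw [add_sub_cancel_right]; exact sec_true.2 m1
        · rw [f3]; simp
    · rw [if_neg b1] at hst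
      by_cases b2 : (![x, j, l - 1] : Fin 3 → ℤ) ∈ P.cells
      · rw [if_pos b2] at hst
        have hd : IsDart (pN d.1) := isDart_of hst
        rw [retFun_step hd] at hv
        have c3 : (rN P d).1.1 = ⟨![x, j, l - 1], (1, true), (0, true)⟩ := by
          rw [hv]; exact hst
        obtain ⟨f0, f1, f2, f3, f4⟩ := of_st c3
        simp only [if_true, Bool.not_true] at f3 f4
        have hr := run_strip_flat (sec P x) l (a := j + 1) (u := true)
          (by rw [add_sub_cancel_right]; exact sec_true.2 b2)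
          (by rw [add_sub_cancel_right]; exact sec_true.2 m1)
          (sec_false.2 b1) (sec_false.2 m2)
        refine ⟨f0, by rw [f1, a1], l, by rw [a4, a2]; rfl, ?_, ?_, ?_⟩
        · exact row_key (Or.inl a2) _ _
        · exact row_key (Or.inr f2) _ _
        · rw [a1, a2, a3, a4, f2, f3, f4]
          exact hr
      · rw [if_neg b2] at hst
        have hd : ¬ IsDart (pN d.1) := not_isDart_of hst
        rw [retFun_step' hd hex] at hv
        obtain ⟨j', h6, h7, h8⟩ := walk_bot hM _ (pN d.1) x j l hst (ret_ex _ hex) rfl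
        rcases h8 with ⟨c1, c2, c3⟩ | ⟨c1, c2, c3⟩
        · rw [← hv] at c3
          obtain ⟨f0, f1, f2, f3, f4⟩ := of_st c3
          refine arc_bot (x := x) (k := l) (a := j') (j := j) (u := true) (v := false) h6 h7
            c2 c1 (sec_false.2 b1) (sec_false.2 m2) a1 a3 a4 a2 f0 f1 ?_ f4 f2
          rw [f3]; simp
        · rw [← hv] at c3
          obtain ⟨f0, f1, f2, f3, f4⟩ := of_st c3
          refine arc_bot (x := x) (k := l) (a := j') (j := j) (u := false) (v := false) h6 h7
            c2 c1 (sec_false.2 b1) (sec_false.2 m2) a1 a3 a4 a2 f0 f1 ?_ f4 f2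
          rw [f3]; simp

/-- the arc from `d` to the north: fronts go up, backs go down -/
theorem arc_rN (hM : P.IsManifold) (d : Dart P) (h : Can d) :
    Can (rN P d) ∧ sl (rN P d) = sl d ∧
    ∃ k, k = (if fr d then ll d + 1 else ll d) ∧
      row k (key (ll d) (jj d) (fr d)) = ll d ∧
      row k (key (ll (rN P d)) (jj (rN P d)) (fr (rN P d))) = ll (rN P d) ∧
      (Run (cc (fine (sec P (sl d))) k) (key (ll d) (jj d) (fr d))
        (key (ll (rN P d)) (jj (rN P d)) (fr (rN P d))) ∨
      Run (cc (fine (sec P (sl d))) k) (key (ll (rN P d)) (jj (rN P d)) (fr (rN P d)))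
        (key (ll d) (jj d) (fr d))) := arc_rN' hM d h

end Pool.BW
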