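import Pool.Agent.MP42.BW.PDefs

/-! # T4: rings -/

set_option autoImplicit false

namespace Pool.BW

open Pool.Agent.Helper55.UNF Pool.Agent.Helper55.UNF.GridSolid Pool.Agent.MP42 Pool.Agent.MP42.NE

variable {P : GridSolid}

lemma t4_sec (c : Fin 3 → ℤ) : c ∈ P.cells ↔ sec P (c 0) (c 1) (c 2) = true := by
  have h : (![c 0, c 1, c 2] : Fin 3 → ℤ) = c := by
    funext i; fin_cases i <;> rfl
  unfold sec
  rw [h]; simp

lemma t4_x (c : Fin 3 → ℤ) (b : Bool) : shift c (0, b) ∈ P.cells ↔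
    sec P (c 0 + (if b then 1 else -1)) (c 1) (c 2) = true := by
  rw [t4_sec]
  simp [shift]

lemma t4_y (c : Fin 3 → ℤ) (b : Bool) : shift c (1, b) ∈ P.cells ↔
    sec P (c 0) (c 1 + (if b then 1 else -1)) (c 2) = true := by
  rw [t4_sec]
  simp [shift]

lemma t4_xy (c : Fin 3 → ℤ) (b b' : Bool) : shift (shift c (0, b)) (1, b') ∈ P.cells ↔
    sec P (c 0 + (if b then 1 else -1)) (c 1 + (if b' then 1 else -1)) (c 2) = true := by
  rw [t4_sec]
  simp [shift]

lemma t4_yx (c : Fin 3 → ℤ) (b b' : Bool) : shift (shift c (1, b')) (0, b) ∈ P.cells ↔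
    sec P (c 0 + (if b then 1 else -1)) (c 1 + (if b' then 1 else -1)) (c 2) = true := by
  rw [t4_sec]
  simp [shift]

/-- states on the facets of the plane `x` -/
def XSt (x j l : ℤ) (b : Bool) (s : P.FSt) : Prop :=
  s.1.d.1 = 0 ∧ s.1.e = (1, b) ∧ s.1.c 1 = j ∧ s.1.c 2 = l ∧
    s.1.c 0 + (if s.1.d.2 then 1 else 0) = x

/-- east, west and normal coordinates of a dart state -/
def YSt (xw' xe' y l : ℤ) (s : P.FSt) : Prop :=
  s.1.d.1 = 1 ∧ s.1.e.1 = 0 ∧ s.1.c 2 = l ∧ s.1.c 0 + (if s.1.e.2 then 0 else 1) = xw' ∧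
    s.1.c 0 + (if s.1.e.2 then 1 else 0) = xe' ∧ s.1.c 1 + (if s.1.d.2 then 1 else 0) = y

lemma XSt.chg {x j l : ℤ} {b : Bool} {s : P.FSt} (h : XSt x j l b s) :
    sec P (x - 1) j l ≠ sec P x j l := by
  obtain ⟨⟨c, ⟨i, δ⟩, e⟩, ⟨h1, h2⟩, h3⟩ := s
  obtain ⟨a1, a2, a3, a4, a5⟩ := h
  simp only at a1 a2 a3 a4 a5 h1 h2
  subst a1; subst a3; subst a4; subst a5
  rw [t4_sec] at h1
  rw [t4_x] at h2
  cases δ <;> simp_all [sub_eq_add_neg]

lemma XSt.unique {x j l : ℤ} {b : Bool} {s s' : P.FSt} (h : XSt x j l b s) (h' : XSt x j l b s') :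
    s = s' := by
  obtain ⟨⟨c, ⟨i, δ⟩, e⟩, ⟨h1, h2⟩, h3⟩ := s
  obtain ⟨⟨c', ⟨i', δ'⟩, e'⟩, ⟨h1', h2'⟩, h3'⟩ := s'
  obtain ⟨a1, a2, a3, a4, a5⟩ := h
  obtain ⟨a1', a2', a3', a4', a5'⟩ := h'
  simp only at a1 a2 a3 a4 a5 h1 h2 a1' a2' a3' a4' a5' h1' h2'
  subst a1; subst a1'; subst a2; subst a2'
  have hδ : δ = δ' := by
    rw [t4_sec, a3', a4'] at h1'
    rw [t4_x, a3', a4'] at h2'
    rw [t4_sec, a3, a4] at h1
    rw [t4_x, a3, a4] at h2
    by_contra hne
    cases δ <;> cases δ' <;> simp at hne a5 a5' h2 h2'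
    · subst a5
      rw [show c 0 + -1 = c' 0 by omega] at h2
      simp_all
    · subst a5'
      rw [show c' 0 + -1 = c 0 by omega] at h2'
      simp_all
  subst hδ
  have hc : c = c' := by
    funext i
    fin_cases i
    · show c 0 = c' 0
      omega
    · show c 1 = c' 1
      omega
    · show c 2 = c' 2
      omega
  subst hc
  rfl

lemma t4_cases (s : P.FSt) : s.stE.1 = ⟨shift (shift s.1.c s.1.e) s.1.d, opp s.1.e, s.1.d⟩ ∨
    s.stE.1 = ⟨shift s.1.c s.1.e, s.1.d, s.1.e⟩ ∨ s.stE.1 = ⟨s.1.c, s.1.e, opp s.1.d⟩ := by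
  unfold FSt.stE St.stepE
  by_cases q1 : shift (shift s.1.c s.1.e) s.1.d ∈ P.cells
  · left; simp only [if_pos q1]
  · by_cases q2 : shift s.1.c s.1.e ∈ P.cells
    · right; left; simp only [if_neg q1, if_pos q2]
    · right; right; simp only [if_neg q1, if_neg q2]

lemma XSt.step {x j l : ℤ} {b : Bool} {s : P.FSt} (h : XSt x j l b s) :
    XSt x (j + (if b then 1 else -1)) l b s.stE ∨
    ∃ x', YSt x x' (j + (if b then 1 else 0)) l s.stE := by
  obtain ⟨⟨c, ⟨i, δ⟩, e⟩, ⟨h1, h2⟩, h3⟩ := s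
  obtain ⟨a1, a2, a3, a4, a5⟩ := h
  simp only at a1 a2 a3 a4 a5 h1 h2
  subst a1; subst a2; subst a3; subst a4; subst a5
  unfold XSt YSt
  rcases t4_cases (P := P) ⟨⟨c, (0, δ), (1, b)⟩, ⟨h1, h2⟩, h3⟩ with q | q | q <;> rw [q] <;>
    cases δ <;> cases b <;> simp [shift, opp]

lemma t4_cv {s : P.FSt} (q : shift (shift s.1.c s.1.e) s.1.d ∈ P.cells) :
    s.stE.1 = ⟨shift (shift s.1.c s.1.e) s.1.d, opp s.1.e, s.1.d⟩ := by
  unfold FSt.stE St.stepE
  simp only [if_pos q]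

lemma t4_st {s : P.FSt} (q1 : ¬ shift (shift s.1.c s.1.e) s.1.d ∈ P.cells)
    (q2 : shift s.1.c s.1.e ∈ P.cells) : s.stE.1 = ⟨shift s.1.c s.1.e, s.1.d, s.1.e⟩ := by
  unfold FSt.stE St.stepE
  simp only [if_neg q1, if_pos q2]

lemma t4_cx {s : P.FSt} (q1 : ¬ shift (shift s.1.c s.1.e) s.1.d ∈ P.cells)
    (q2 : ¬ shift s.1.c s.1.e ∈ P.cells) : s.stE.1 = ⟨s.1.c, s.1.e, opp s.1.d⟩ := by
  unfold FSt.stE St.stepE
  simp only [if_neg q1, if_neg q2]

lemma XSt.go (hM : P.IsManifold) {x j l : ℤ} {b : Bool} {s : P.FSt} (h : XSt x j l b s)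
    (hc : sec P (x - 1) (j + (if b then 1 else -1)) l ≠ sec P x (j + (if b then 1 else -1)) l) :
    XSt x (j + (if b then 1 else -1)) l b s.stE := by
  obtain ⟨⟨c, ⟨i, δ⟩, e⟩, ⟨h1, h2⟩, h3⟩ := s
  obtain ⟨a1, a2, a3, a4, a5⟩ := h
  simp only at a1 a2 a3 a4 a5 h1 h2
  subst a1; subst a2; subst a3; subst a4; subst a5
  have hm := hM.1 c 1 0 b δ (by decide) h1
  have hne : (shift (shift c (1, b)) (0, δ) ∈ P.cells) ↔ ¬ (shift c (1, b) ∈ P.cells) := by
    rw [t4_yx, t4_y]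
    cases δ <;> simp only [if_true, if_false, Bool.false_eq_true, add_zero,
      sub_eq_add_neg, add_neg_cancel_right] at hc ⊢
    · generalize sec P (c 0 + -1) (c 1 + if b = true then 1 else -1) (c 2) = u at *
      generalize sec P (c 0) (c 1 + if b = true then 1 else -1) (c 2) = v at *
      cases u <;> cases v <;> simp_all
    · generalize sec P (c 0 + 1) (c 1 + if b = true then 1 else -1) (c 2) = u at *
      generalize sec P (c 0) (c 1 + if b = true then 1 else -1) (c 2) = v at *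
      cases u <;> cases v <;> simp_all
  have q1 : ¬ shift (shift c (1, b)) (0, δ) ∈ P.cells := by
    intro h
    rcases hm h with h' | h'
    · exact hne.1 h h'
    · exact h2 h'
  have q2 : shift c (1, b) ∈ P.cells := by
    by_contra h
    exact q1 (hne.2 h)
  unfold XSt
  rw [t4_st (s := ⟨⟨c, (0, δ), (1, b)⟩, ⟨h1, h2⟩, h3⟩) q1 q2]
  simp [shift]

lemma XSt.r2 {x j l : ℤ} {b : Bool} {s : P.FSt} (h : XSt x j l b s) : XSt x j l (!b) s.r2 := by
  obtain ⟨a1, a2, a3, a4, a5⟩ := h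
  refine ⟨a1, ?_, a3, a4, a5⟩
  show opp s.1.e = _
  rw [a2]; rfl

lemma YSt.step {xw' xe' y l : ℤ} {s : P.FSt} (h : YSt xw' xe' y l s) :
    (∃ x', YSt xe' x' y l s.stE) ∨ ∃ b, XSt xe' (if b then y else y - 1) l b s.stE := by
  obtain ⟨⟨c, ⟨i, δ⟩, ⟨k, ε⟩⟩, ⟨h1, h2⟩, h3⟩ := s
  obtain ⟨a1, a2, a3, a4, a5, a6⟩ := h
  simp only at a1 a2 a3 a4 a5 a6 h1 h2
  subst a1; subst a2; subst a3; subst a5; subst a6
  unfold XSt YSt
  rcases t4_cases (P := P) ⟨⟨c, (1, δ), (0, ε)⟩, ⟨h1, h2⟩, h3⟩ with q | q | q <;> rw [q] <;>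
    cases δ <;> cases ε <;> simp [shift, opp, sub_eq_add_neg]

lemma YSt.unique {x1 x2 y l : ℤ} {s s' : P.FSt} (h : YSt x1 x2 y l s) (h' : YSt x1 x2 y l s') :
    s = s' := by
  obtain ⟨⟨c, ⟨i, δ⟩, ⟨k, ε⟩⟩, ⟨h1, h2⟩, h3⟩ := s
  obtain ⟨⟨c', ⟨i', δ'⟩, ⟨k', ε'⟩⟩, ⟨h1', h2'⟩, h3'⟩ := s'
  obtain ⟨a1, a2, a3, a4, a5, a6⟩ := h
  obtain ⟨a1', a2', a3', a4', a5', a6'⟩ := h'
  simp only at a1 a2 a3 a4 a5 a6 h1 h2 a1' a2' a3' a4' a5' a6' h1' h2'
  subst a1; subst a1'; subst a2; subst a2'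
  have hε : ε = ε' := by
    cases ε <;> cases ε' <;> simp at a4 a4' a5 a5' ⊢ <;> omega
  subst hε
  have hc0 : c 0 = c' 0 := by omega
  have hδ : δ = δ' := by
    rw [t4_sec] at h1'
    rw [t4_y] at h2'
    rw [t4_sec, a3, hc0] at h1
    rw [t4_y, a3, hc0] at h2
    rw [a3'] at h1' h2'
    by_contra hne
    cases δ <;> cases δ' <;> simp at hne a6 a6' h2 h2'
    · rw [show c 1 + -1 = c' 1 by omega] at h2
      simp_all
    · rw [show c' 1 + -1 = c 1 by omega] at h2'
      simp_all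
  subst hδ
  have hc : c = c' := by
    funext i
    fin_cases i
    · show c 0 = c' 0
      omega
    · show c 1 = c' 1
      omega
    · show c 2 = c' 2
      omega
  subst hc
  rfl

/-- two darts on the two sides of one edge -/
lemma YSt.flat (hM : P.IsManifold) {x1 x2 x y l : ℤ} {s s' : P.FSt} (h : YSt x1 x y l s)
    (h' : YSt x2 x y l s') (hne : x1 ≠ x2) : s.stE = s'.r2 := by
  have k1 : (x1 = x - 1 ∨ x1 = x + 1) ∧ (x2 = x - 1 ∨ x2 = x + 1) := by
    obtain ⟨a1, a2, a3, a4, a5, a6⟩ := h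
    obtain ⟨a1', a2', a3', a4', a5', a6'⟩ := h'
    generalize s.1.e.2 = ε at *
    generalize s'.1.e.2 = ε' at *
    constructor
    · cases ε <;> simp at a4 a5 <;> omega
    · cases ε' <;> simp at a4' a5' <;> omega
  have k2 : YSt x x2 y l s'.r2 := by
    obtain ⟨a1', a2', a3', a4', a5', a6'⟩ := h'
    refine ⟨a1', a2', a3', ?_, ?_, a6'⟩
    · show s'.1.c 0 + (if (!s'.1.e.2) = true then 0 else 1) = x
      cases hh : s'.1.e.2 <;> simp [hh] at a4' a5' ⊢ <;> omega
    · show s'.1.c 0 + (if (!s'.1.e.2) = true then 1 else 0) = x2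
      cases hh : s'.1.e.2 <;> simp [hh] at a4' a5' ⊢ <;> omega
  refine YSt.unique (x1 := x) (x2 := x2) (y := y) (l := l) ?_ k2
  obtain ⟨⟨c, ⟨i, δ⟩, ⟨k, ε⟩⟩, ⟨h1, h2⟩, h3⟩ := s
  obtain ⟨⟨c', ⟨i', δ'⟩, ⟨k', ε'⟩⟩, ⟨h1', h2'⟩, h3'⟩ := s'
  obtain ⟨a1, a2, a3, a4, a5, a6⟩ := h
  obtain ⟨a1', a2', a3', a4', a5', a6'⟩ := h'
  simp only at a1 a2 a3 a4 a5 a6 h1 h2 a1' a2' a3' a4' a5' a6' h1' h2'
  subst a1; subst a1'; subst a2; subst a2'
  have hε : ε' = !ε := by
    cases ε <;> cases ε' <;> simp at a4 a4' a5 a5' ⊢ <;> omega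
  subst hε
  have hm := hM.1 c 0 1 ε δ (by decide) h1
  have hm2 := hM.1 c' 0 1 (!ε) δ' (by decide) h1'
  have H1 := h1
  have H2 := h2
  rw [t4_sec] at h1 h1'
  rw [t4_y] at h2 h2'
  have hc0 : c' 0 = c 0 + (if ε = true then 1 else -1) := by
    cases ε <;> simp at a4 a4' a5 a5' ⊢ <;> omega
  have hc2 : c' 2 = c 2 := by omega
  have hq : (¬ shift (shift c (0, ε)) (1, δ) ∈ P.cells) ∧ shift c (0, ε) ∈ P.cells := by
    rw [t4_xy, t4_x, t4_y] at hm
    rw [t4_xy, t4_x]
    rw [hc0, hc2] at h1' h2'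
    cases δ <;> cases δ' <;> simp at a6 a6' h2 h2' hm ⊢
    · rw [show c' 1 = c 1 by omega] at h1' h2'
      exact ⟨h2', h1'⟩
    · rw [show c' 1 + 1 = c 1 by omega] at h2'
      rw [show c' 1 = c 1 + -1 by omega] at h1'
      rcases hm h1' with h | h
      · rw [h] at h2'
        simp at h2'
      · rw [h] at h2
        simp at h2
    · rw [show c' 1 + -1 = c 1 by omega] at h2'
      rw [show c' 1 = c 1 + 1 by omega] at h1'
      rcases hm h1' with h | h
      · rw [h] at h2'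
        simp at h2'
      · rw [h] at h2
        simp at h2
    · rw [show c' 1 = c 1 by omega] at h1' h2'
      exact ⟨h2', h1'⟩
  unfold YSt
  rw [t4_st (s := ⟨⟨c, (1, δ), (0, ε)⟩, ⟨H1, H2⟩, h3⟩) hq.1 hq.2]
  cases ε <;> simp [shift] <;> simp at a4 a4' a5 a5' hc0 <;> omega

lemma YSt.turn (hM : P.IsManifold) {x1 x y l : ℤ} {b : Bool} {s : P.FSt} (h : YSt x1 x y l s)
    (hc : sec P (x - 1) (if b then y else y - 1) l ≠ sec P x (if b then y else y - 1) l) :
    XSt x (if b then y else y - 1) l b s.stE := by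
  obtain ⟨⟨c, ⟨i, δ⟩, ⟨k, ε⟩⟩, ⟨h1, h2⟩, h3⟩ := s
  obtain ⟨a1, a2, a3, a4, a5, a6⟩ := h
  simp only at a1 a2 a3 a4 a5 a6 h1 h2
  subst a1; subst a2
  have hm := hM.1 c 0 1 ε δ (by decide) h1
  have H1 := h1
  have H2 := h2
  rw [t4_sec] at h1
  rw [t4_y] at h2
  -- the two columns of boxes
  have hc' : sec P (c 0) (if b then y else y - 1) l ≠
      sec P (c 0 + (if ε = true then 1 else -1)) (if b then y else y - 1) l := by
    cases ε
    · simp only [Bool.false_eq_true, if_false, add_zero] at a5 ⊢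
      subst a5
      exact fun h => hc h.symm
    · simp only [if_true] at a5 ⊢
      subst a5
      simpa using hc
  by_cases hb : b = δ
  · subst hb
    have hj : (if b = true then y else y - 1) = c 1 + (if b = true then 1 else -1) := by
      cases b <;> simp at a6 ⊢ <;> omega
    rw [hj, ← a3] at hc'
    have hq : shift (shift c (0, ε)) (1, b) ∈ P.cells := by
      rw [t4_xy]
      by_contra h
      apply hc'
      simp only [Bool.not_eq_true] at h h2
      rw [h, h2]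
    unfold XSt
    rw [t4_cv (s := ⟨⟨c, (1, b), (0, ε)⟩, ⟨H1, H2⟩, h3⟩) hq, hj]
    cases ε <;> simp [shift, opp] <;> simp at a5 <;> omega
  · have hb' : b = !δ := by cases b <;> cases δ <;> simp_all
    subst hb'
    have hj : (if (!δ) = true then y else y - 1) = c 1 := by
      cases δ <;> simp at a6 ⊢ <;> omega
    rw [hj, ← a3] at hc'
    have hq2 : ¬ shift c (0, ε) ∈ P.cells := by
      rw [t4_x]
      intro h
      apply hc'
      rw [h, h1]
    have hq1 : ¬ shift (shift c (0, ε)) (1, δ) ∈ P.cells := by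
      intro h
      rcases hm h with h' | h'
      · exact hq2 h'
      · exact H2 h'
    unfold XSt
    rw [t4_cx (s := ⟨⟨c, (1, δ), (0, ε)⟩, ⟨H1, H2⟩, h3⟩) hq1 hq2, hj]
    cases ε <;> simp [opp] <;> simp at a5 <;> omega

lemma t4_dart (d : Dart P) : YSt (xw d) (xe d) (jj d) (ll d) d.1 :=
  ⟨d.2.1, d.2.2, rfl, rfl, rfl, rfl⟩

lemma XSt.not_dart {x j l : ℤ} {b : Bool} {s : P.FSt} (h : XSt x j l b s) : ¬ IsDart s := by
  intro h'
  have := h.1.symm.trans h'.1
  exact absurd this (by decide)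

/-- the run from a dart along the facets of a plane, upwards -/
lemma t4_run (hM : P.IsManifold) (d : Dart P) (n : ℕ)
    (hc : ∀ i : ℕ, i ≤ n → sec P (xe d - 1) (jj d + i) (ll d) ≠ sec P (xe d) (jj d + i) (ll d)) :
    XSt (xe d) (jj d + n) (ll d) true ((pE ^ (n + 1)) d.1) := by
  induction n with
  | zero =>
    have h := YSt.turn (b := true) hM (t4_dart d) (by simpa using hc 0 le_rfl)
    simpa using h
  | succ n ih =>
    have h := ih (fun i hi => hc i (by omega))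
    have h2 := XSt.go hM h (by
      have := hc (n + 1) le_rfl
      simp only [if_true]
      rw [show jj d + (n : ℤ) + 1 = jj d + ((n + 1 : ℕ) : ℤ) by push_cast; ring]
      exact this)
    rw [pow_succ']
    simp only [if_true] at h2
    rw [show jj d + ((n + 1 : ℕ) : ℤ) = jj d + (n : ℤ) + 1 by push_cast; ring]
    exact h2

lemma t4_up (hM : P.IsManifold) (d d' : Dart P) (h1 : xe d = xe d') (h2 : ll d = ll d')
    (h3 : jj d < jj d')
    (hc : ∀ j : ℤ, jj d ≤ j → j < jj d' → sec P (xe d - 1) j (ll d) ≠ sec P (xe d) j (ll d)) :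
    phi P d = r2D P d' := by
  obtain ⟨n, hn⟩ : ∃ n : ℕ, jj d' = jj d + n + 1 := ⟨(jj d' - jj d - 1).toNat, by omega⟩
  have hr := t4_run hM d n (fun i hi => hc _ (by omega) (by omega))
  have hl := YSt.turn (b := false) hM (t4_dart d') (by
    simp only [Bool.false_eq_true, if_false]
    rw [← h1, ← h2]
    exact hc _ (by omega) (by omega))
  simp only [Bool.false_eq_true, if_false] at hl
  rw [← h1, ← h2, hn, add_sub_cancel_right] at hl
  have hu := XSt.unique hr.r2 hl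
  have hs : (pE ^ (n + 1 + 1)) d.1 = (r2D P d').1 := by
    have e1 : (pE ^ (n + 1 + 1)) d.1 = ((pE ^ (n + 1)) d.1).stE := by
      rw [pow_succ']; rfl
    have e2 : (pE ^ (n + 1)) d.1 = d'.1.stE.r2 := by
      rw [← hu, FSt.r2_r2]
    rw [e1, e2, FSt.stE_inv]
    rfl
  apply Subtype.ext
  show retFun pE IsDart d.1 = _
  rw [retFun_eq_of (j := n + 1) (by rw [hs]; exact (r2D P d').2) ?_, hs]
  intro i hi
  have hi' := t4_run hM d i (fun i' hi' => hc _ (by omega) (by omega))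
  exact hi'.not_dart

lemma t4_same (hM : P.IsManifold) (d d' : Dart P) (h1 : xe d = xe d') (h2 : ll d = ll d')
    (h3 : jj d = jj d') : d = d' ∨ phi P d = r2D P d' := by
  by_cases hx : xw d = xw d'
  · left
    apply Subtype.ext
    refine YSt.unique (t4_dart d) ?_
    rw [hx, h1, h2, h3]
    exact t4_dart d'
  · right
    have h := YSt.flat hM (t4_dart d) (s' := d'.1) (x2 := xw d') (by
      rw [h1, h2, h3]; exact t4_dart d') hx
    apply Subtype.ext
    show retFun pE IsDart d.1 = d'.1.r2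
    rw [← h]
    exact retFun_step (by rw [pE_apply, h]; exact d'.2)

set_option linter.unusedVariables false in
/-- consecutive facets of the ring at a plane are linked by changed cells -/
theorem ring_link (hM : P.IsManifold) (W : ℤ → ℤ → ℤ → Prop)
    (hW : ∀ x l j, sec P (x - 1) j l ≠ sec P x j l → (W x l j ↔ W x l (j + 1))) (d : Dart P) :
    xw (phi P d) = xe d ∧ ll (phi P d) = ll d ∧
      (W (xe d) (ll d) (jj d) ↔ W (xe d) (ll d) (jj (phi P d))) := by
  have hφ : (phi P d).1 = (pE ^ (retN pE IsDart d.1 + 1)) d.1 := retFun_eq pE IsDart d.1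
  set n := retN pE IsDart d.1 with hn
  have key : ∀ i : ℕ, i < n → ∃ (b : Bool) (j : ℤ), XSt (xe d) j (ll d) b ((pE ^ (i + 1)) d.1) ∧
      (W (xe d) (ll d) (jj d) ↔ W (xe d) (ll d) (if b then j else j + 1)) := by
    intro i
    induction i with
    | zero =>
      intro h0
      have hnd := retN_not (π := pE) (p := IsDart) (x := d.1) h0
      rcases YSt.step (t4_dart d) with ⟨x', h⟩ | ⟨b, h⟩
      · exfalso
        apply hnd
        exact ⟨h.1, h.2.1⟩
      · refine ⟨b, _, h, ?_⟩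
        cases b
        · simp
        · simp
    | succ i ih =>
      intro h0
      obtain ⟨b, j, h1, h2⟩ := ih (by omega)
      have hnd := retN_not (π := pE) (p := IsDart) (x := d.1) h0
      have e1 : (pE ^ (i + 1 + 1)) d.1 = ((pE ^ (i + 1)) d.1).stE := by
        rw [pow_succ']; rfl
      rcases h1.step with h | ⟨x', h⟩
      · refine ⟨b, _, by rw [e1]; exact h, ?_⟩
        rw [h2]
        cases b
        · have := hW (xe d) (ll d) j h1.chg
          simp only [Bool.false_eq_true, if_false]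
          rw [← this]
          simp
        · have := hW (xe d) (ll d) j h1.chg
          simp only [if_true]
          exact this
      · exfalso
        apply hnd
        rw [e1]
        exact ⟨h.1, h.2.1⟩
  rcases Nat.eq_zero_or_pos n with h0 | h0
  · rw [h0] at hφ
    rcases YSt.step (t4_dart d) with ⟨x', h⟩ | ⟨b, h⟩
    · obtain ⟨a1, a2, a3, a4, a5, a6⟩ := h
      have e : (phi P d).1 = d.1.stE := by rw [hφ]; rfl
      have b1 : xw (phi P d) = xe d := by unfold xw; rw [e]; exact a4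
      have b2 : ll (phi P d) = ll d := by unfold ll; rw [e]; exact a3
      have b3 : jj (phi P d) = jj d := by unfold jj; rw [e]; exact a6
      exact ⟨b1, b2, by rw [b3]⟩
    · exfalso
      have e : (phi P d).1 = d.1.stE := by rw [hφ]; rfl
      rw [← e] at h
      exact h.not_dart (phi P d).2
  · obtain ⟨b, j, h1, h2⟩ := key (n - 1) (by omega)
    rw [Nat.sub_add_cancel h0] at h1
    have e : (phi P d).1 = ((pE ^ n) d.1).stE := by rw [hφ, pow_succ']; rfl
    rcases h1.step with h | ⟨x', h⟩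
    · exfalso
      rw [← e] at h
      exact h.not_dart (phi P d).2
    · obtain ⟨a1, a2, a3, a4, a5, a6⟩ := h
      rw [← e] at a1 a2 a3 a4 a5 a6
      have b1 : xw (phi P d) = xe d := a4
      have b2 : ll (phi P d) = ll d := a3
      have b3 : jj (phi P d) = j + (if b then 1 else 0) := a6
      refine ⟨b1, b2, ?_⟩
      rw [h2, b3]
      have := hW (xe d) (ll d) j h1.chg
      cases b
      · simp only [Bool.false_eq_true, if_false, add_zero]
        exact this.symm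
      · simp only [if_true]
        exact this

/-- `v d` = value on the east side of the dart `d` -/
theorem ring_W (hM : P.IsManifold) (v : Dart P → Prop) (hv : ∀ d, v d ↔ v (r2D P (phi P d))) :
    ∃ W : ℤ → ℤ → ℤ → Prop,
      (∀ x l j, sec P (x - 1) j l ≠ sec P x j l → (W x l j ↔ W x l (j + 1))) ∧
      ∀ d, W (xe d) (ll d) (jj d) ↔ v d := by
  have key : ∀ d d' : Dart P, xe d = xe d' → ll d = ll d' → jj d ≤ jj d' →
      (∀ i, jj d ≤ i → i < jj d' → sec P (xe d - 1) i (ll d) ≠ sec P (xe d) i (ll d)) →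
      (v d ↔ v d') := by
    intro d d' h1 h2 h3 hc
    rcases h3.lt_or_eq with h | h
    · rw [hv d, t4_up hM d d' h1 h2 h hc]
      have : r2D P (r2D P d') = d' := Subtype.ext (FSt.r2_r2 d'.1)
      rw [this]
    · rcases t4_same hM d d' h1 h2 h with h' | h'
      · rw [h']
      · rw [hv d, h']
        have : r2D P (r2D P d') = d' := Subtype.ext (FSt.r2_r2 d'.1)
        rw [this]
  refine ⟨fun x l j => ∃ d : Dart P, xe d = x ∧ ll d = l ∧
    (∀ i, (jj d ≤ i ∧ i < j) ∨ (j ≤ i ∧ i < jj d) → sec P (x - 1) i l ≠ sec P x i l) ∧ v d,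
    ?_, ?_⟩
  · intro x l j hch
    constructor
    · rintro ⟨d, h1, h2, h3, h4⟩
      refine ⟨d, h1, h2, ?_, h4⟩
      intro i hi
      by_cases hij : i = j
      · rw [hij]; exact hch
      · apply h3; omega
    · rintro ⟨d, h1, h2, h3, h4⟩
      refine ⟨d, h1, h2, ?_, h4⟩
      intro i hi
      by_cases hij : i = j
      · rw [hij]; exact hch
      · apply h3; omega
  · intro d
    constructor
    · rintro ⟨d', h1, h2, h3, h4⟩
      rcases le_total (jj d) (jj d') with h | h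
      · refine (key d d' h1.symm h2.symm h ?_).2 h4
        intro i hi hi'
        exact h3 i (by omega)
      · refine (key d' d h1 h2 h ?_).1 h4
        intro i hi hi'
        rw [h1, h2]
        exact h3 i (by omega)
    · intro h
      refine ⟨d, rfl, rfl, ?_, h⟩
      intro i hi
      omega

end Pool.BW
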