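import Pool.Agent.MP42.BW.T5b

/-!
# T5: the Euler characteristic of the surface from the sections
-/

set_option autoImplicit false

namespace Pool.BW.T5

open Pool.Agent.Helper55.UNF Pool.Agent.Helper55.UNF.GridSolid Pool.Agent.MP42 Pool.Agent.MP42.NE

variable {P : GridSolid}

theorem Sm.mono1 {N : ℤ} {F : ℤ → ℤ → ℤ → ℤ} (h : Sm N F) : Sm (N + 1) F := by
  intro x j l hne
  have := h x j l hne
  omega

theorem Sm.shx {N : ℤ} {F : ℤ → ℤ → ℤ → ℤ} (h : Sm N F) :
    Sm (N + 1) (fun x j l => F (x - 1) j l) := by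
  intro x j l hne
  have := h (x - 1) j l hne
  omega

theorem Sm.shj {N : ℤ} {F : ℤ → ℤ → ℤ → ℤ} (h : Sm N F) :
    Sm (N + 1) (fun x j l => F x (j - 1) l) := by
  intro x j l hne
  have := h x (j - 1) l hne
  omega

theorem Sm.shl {N : ℤ} {F : ℤ → ℤ → ℤ → ℤ} (h : Sm N F) :
    Sm (N + 1) (fun x j l => F x j (l - 1)) := by
  intro x j l hne
  have := h x j (l - 1) hne
  omega

/-- four times the contribution of a grid point to the Euler characteristic -/
def loc (P : GridSolid) (x j l : ℤ) : ℤ :=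
  4 * bi (qV P x j l) -
    2 * (bi (qE0 P x j l) + bi (qE0 P (x - 1) j l) + bi (qE1 P x j l) + bi (qE1 P x (j - 1) l) +
      bi (qE2 P x j l) + bi (qE2 P x j (l - 1))) +
    (bi (qX0 P x (j - 1) (l - 1)) + bi (qX0 P x j (l - 1)) + bi (qX0 P x (j - 1) l) +
      bi (qX0 P x j l)) +
    (bi (qX1 P (x - 1) j (l - 1)) + bi (qX1 P (x - 1) j l) + bi (qX1 P x j (l - 1)) +
      bi (qX1 P x j l)) +
    (bi (qX2 P (x - 1) (j - 1) l) + bi (qX2 P (x - 1) j l) + bi (qX2 P x (j - 1) l) +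
      bi (qX2 P x j l))

theorem TS_jl {N : ℤ} {F : ℤ → ℤ → ℤ → ℤ} (h : Sm N F) :
    TS (N + 1) (fun x j l => F x (j - 1) (l - 1)) = TS (N + 1) F :=
  (TS_shj (F := fun x j l => F x j (l - 1)) h.shl).trans (TS_shl h.mono1)

theorem TS_xl {N : ℤ} {F : ℤ → ℤ → ℤ → ℤ} (h : Sm N F) :
    TS (N + 1) (fun x j l => F (x - 1) j (l - 1)) = TS (N + 1) F :=
  (TS_shx (F := fun x j l => F x j (l - 1)) h.shl).trans (TS_shl h.mono1)

theorem TS_xj {N : ℤ} {F : ℤ → ℤ → ℤ → ℤ} (h : Sm N F) :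
    TS (N + 1) (fun x j l => F (x - 1) (j - 1) l) = TS (N + 1) F :=
  (TS_shx (F := fun x j l => F x (j - 1) l) h.shj).trans (TS_shj h.mono1)

/-- additivity for the shape of `loc` -/
theorem TS_shape (N : ℤ) (v a1 a2 a3 a4 a5 a6 b1 b2 b3 b4 c1 c2 c3 c4 d1 d2 d3 d4 :
    ℤ → ℤ → ℤ → ℤ) :
    TS N (fun x j l => 4 * v x j l - 2 * (a1 x j l + a2 x j l + a3 x j l + a4 x j l + a5 x j l +
      a6 x j l) + (b1 x j l + b2 x j l + b3 x j l + b4 x j l) +
      (c1 x j l + c2 x j l + c3 x j l + c4 x j l) + (d1 x j l + d2 x j l + d3 x j l + d4 x j l)) =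
    4 * TS N v - 2 * (TS N a1 + TS N a2 + TS N a3 + TS N a4 + TS N a5 + TS N a6) +
      (TS N b1 + TS N b2 + TS N b3 + TS N b4) + (TS N c1 + TS N c2 + TS N c3 + TS N c4) +
      (TS N d1 + TS N d2 + TS N d3 + TS N d4) := by
  unfold TS
  simp only [Finset.sum_add_distrib, Finset.sum_sub_distrib, ← Finset.mul_sum]

theorem TS_loc {N : ℤ} (hN : Ins P N) : TS (N + 1) (loc P) = 4 * eul P := by
  have hN1 : Ins P (N + 1) := by
    intro x j l h
    have := hN x j l h
    omega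
  have x0 := sm_X0 hN
  have x1 := sm_X1 hN
  have x2 := sm_X2 hN
  have e1 := TS_shx (sm_E0 hN1)
  have e2 := TS_shj (sm_E1 hN1)
  have e3 := TS_shl (sm_E2 hN1)
  have e4 := TS_jl x0
  have e5 := TS_shl x0.mono1
  have e6 := TS_shj x0.mono1
  have e7 := TS_xl x1
  have e8 := TS_shx x1.mono1
  have e9 := TS_shl x1.mono1
  have e10 := TS_xj x2
  have e11 := TS_shx x2.mono1
  have e12 := TS_shj x2.mono1
  have h0 := TS_shape (N + 1) (fun x j l => bi (qV P x j l))
    (fun x j l => bi (qE0 P x j l)) (fun x j l => bi (qE0 P (x - 1) j l))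
    (fun x j l => bi (qE1 P x j l)) (fun x j l => bi (qE1 P x (j - 1) l))
    (fun x j l => bi (qE2 P x j l)) (fun x j l => bi (qE2 P x j (l - 1)))
    (fun x j l => bi (qX0 P x (j - 1) (l - 1))) (fun x j l => bi (qX0 P x j (l - 1)))
    (fun x j l => bi (qX0 P x (j - 1) l)) (fun x j l => bi (qX0 P x j l))
    (fun x j l => bi (qX1 P (x - 1) j (l - 1))) (fun x j l => bi (qX1 P (x - 1) j l))
    (fun x j l => bi (qX1 P x j (l - 1))) (fun x j l => bi (qX1 P x j l))
    (fun x j l => bi (qX2 P (x - 1) (j - 1) l)) (fun x j l => bi (qX2 P (x - 1) j l))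
    (fun x j l => bi (qX2 P x (j - 1) l)) (fun x j l => bi (qX2 P x j l))
  rw [e1, e2, e3, e4, e5, e6, e7, e8, e9, e10, e11, e12] at h0
  have h1 : 4 * eul P = 4 * TS (N + 1) (fun x j l => bi (qV P x j l)) -
      4 * (TS (N + 1) (fun x j l => bi (qE0 P x j l)) +
      TS (N + 1) (fun x j l => bi (qE1 P x j l)) + TS (N + 1) (fun x j l => bi (qE2 P x j l))) +
      4 * (TS (N + 1) (fun x j l => bi (qX0 P x j l)) +
      TS (N + 1) (fun x j l => bi (qX1 P x j l)) +
      TS (N + 1) (fun x j l => bi (qX2 P x j l))) := by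
    unfold eul
    rw [card_V hN1, card_E hN1, card_F hN1]
    ring
  rw [h1]
  refine Eq.trans h0 ?_
  ring

/-! ### the local identity -/

theorem na_of {p q r t : Bool} (h1 : p = true → r = true → t = true ∨ q = true)
    (h2 : q = true → t = true → r = true ∨ p = true) : na p q r t = true := by
  revert p q r t
  decide

theorem na01 (hM : P.IsManifold) (x j l : ℤ) :
    na (sec P (x - 1) (j - 1) l) (sec P (x - 1) j l) (sec P x j l) (sec P x (j - 1) l) = true := by
  apply na_of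
  · have h := hM.1 ![x - 1, j - 1, l] 0 1 true true (by decide)
    rw [(shift_vec _ _ _).1.1, (shift_vec _ _ _).2.1.1, (shift_vec _ _ _).2.1.1] at h
    simp only [sub_add_cancel, mem_iff_sec] at h
    exact h
  · have h := hM.1 ![x - 1, j, l] 0 1 true false (by decide)
    rw [(shift_vec _ _ _).1.1, (shift_vec _ _ _).2.1.2, (shift_vec _ _ _).2.1.2] at h
    simp only [sub_add_cancel, mem_iff_sec] at h
    exact h

theorem na02 (hM : P.IsManifold) (x j l : ℤ) :
    na (sec P (x - 1) j (l - 1)) (sec P (x - 1) j l) (sec P x j l) (sec P x j (l - 1)) = true := by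
  apply na_of
  · have h := hM.1 ![x - 1, j, l - 1] 0 2 true true (by decide)
    rw [(shift_vec _ _ _).1.1, (shift_vec _ _ _).2.2.1, (shift_vec _ _ _).2.2.1] at h
    simp only [sub_add_cancel, mem_iff_sec] at h
    exact h
  · have h := hM.1 ![x - 1, j, l] 0 2 true false (by decide)
    rw [(shift_vec _ _ _).1.1, (shift_vec _ _ _).2.2.2, (shift_vec _ _ _).2.2.2] at h
    simp only [sub_add_cancel, mem_iff_sec] at h
    exact h

theorem na12 (hM : P.IsManifold) (x j l : ℤ) :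
    na (sec P x (j - 1) (l - 1)) (sec P x j (l - 1)) (sec P x j l) (sec P x (j - 1) l) = true := by
  apply na_of
  · have h := hM.1 ![x, j - 1, l - 1] 2 1 true true (by decide)
    rw [(shift_vec _ _ _).2.2.1, (shift_vec _ _ _).2.1.1, (shift_vec _ _ _).2.1.1] at h
    simp only [sub_add_cancel, mem_iff_sec] at h
    exact h
  · have h := hM.1 ![x, j, l - 1] 2 1 true false (by decide)
    rw [(shift_vec _ _ _).2.2.1, (shift_vec _ _ _).2.1.2, (shift_vec _ _ _).2.1.2] at h
    simp only [sub_add_cancel, mem_iff_sec] at h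
    exact h

theorem loc_eq (hM : P.IsManifold) {A : ℤ → Bool} (hA : Planes P A) (x j l : ℤ) :
    loc P x j l = sgn (A x) * (cor (sec P x) j l - cor (sec P (x - 1)) j l) := by
  have n1 := na12 hM (x - 1) j l
  have n2 := na12 hM x j l
  have n3 := na01 hM x j (l - 1)
  have n4 := na01 hM x j l
  have n5 := na02 hM x (j - 1) l
  have n6 := na02 hM x j l
  unfold loc cor
  simp only [qV, qE0, qE1, qE2, qX0, qX1, qX2]
  rcases h : A x with _ | _
  · have a1 := hA.2 x (j - 1) (l - 1) h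
    have a2 := hA.2 x j (l - 1) h
    have a3 := hA.2 x (j - 1) l h
    have a4 := hA.2 x j l h
    rw [loc_false _ _ _ _ _ _ _ _ a1 a2 a3 a4 n1 n2 n3 n4 n5 n6]
    simp [sgn]
  · have a1 := hA.1 x (j - 1) (l - 1) h
    have a2 := hA.1 x j (l - 1) h
    have a3 := hA.1 x (j - 1) l h
    have a4 := hA.1 x j l h
    rw [loc_true _ _ _ _ _ _ _ _ a1 a2 a3 a4 n1 n2 n3 n4 n5 n6]
    simp [sgn]

theorem cor_ne {S : ℤ → ℤ → Bool} {j l : ℤ} (h : cor S j l ≠ 0) :
    ∃ j' l', (j' = j - 1 ∨ j' = j) ∧ (l' = l - 1 ∨ l' = l) ∧ S j' l' = true := by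
  by_contra hcon
  push Not at hcon
  have hz : ∀ j' l', (j' = j - 1 ∨ j' = j) → (l' = l - 1 ∨ l' = l) → S j' l' = false := by
    intro j' l' h1 h2
    have := hcon j' l' h1 h2
    simpa using this
  exact h (cor_zero S j l (hz _ _ (by simp) (by simp)) (hz _ _ (by simp) (by simp))
    (hz _ _ (by simp) (by simp)) (hz _ _ (by simp) (by simp)))

theorem sum_Ioc_range (f : ℤ → ℤ) (m : ℤ) (n : ℕ) :
    ∑ i ∈ Finset.range n, f (m + i + 1) = ∑ x ∈ Finset.Ioc m (m + n), f x := by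
  induction n with
  | zero => simp
  | succ n ih =>
    have h1 : Finset.Ioc m (m + ((n + 1 : ℕ) : ℤ)) = insert (m + n + 1) (Finset.Ioc m (m + n)) := by
      ext x
      simp only [Finset.mem_insert, Finset.mem_Ioc]
      push_cast
      omega
    rw [Finset.sum_range_succ, h1, Finset.sum_insert (by simp), ih]
    ring

end Pool.BW.T5

namespace Pool.BW

open Pool.BW.T5 Pool.Agent.Helper55.UNF Pool.Agent.Helper55.UNF.GridSolid Pool.Agent.MP42
  Pool.Agent.MP42.NE

variable {P : GridSolid}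

theorem chi_eul (hM : P.IsManifold) {A : ℤ → Bool} (hA : Planes P A) (m : ℤ) (n : ℕ) (B : ℤ)
    (hB : ∀ c ∈ P.cells, m < c 0 ∧ c 0 < m + n ∧ -B < 4 * c 1 - 8 ∧ 4 * c 1 + 8 < B ∧
      -B < c 2 - 8 ∧ c 2 + 8 < B) :
    ∑ i ∈ Finset.range n, sgn (A (m + i + 1)) *
      (chi6 B (fine (sec P (m + i + 1))) - chi6 B (fine (sec P (m + i)))) = 6 * eul P := by
  have hs : ∀ x j l, sec P x j l = true → m < x ∧ x < m + n ∧ -B < 4 * j - 8 ∧ 4 * j + 8 < B ∧
      -B < l - 8 ∧ l + 8 < B := by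
    intro x j l h
    exact hB ![x, j, l] ((mem_iff_sec P x j l).2 h)
  have hS : ∀ x j l, sec P x j l = true → -B < 4 * j - 8 ∧ 4 * j + 8 < B := by
    intro x j l h
    have := hs x j l h
    omega
  have hN : Ins P (|m| + n + |B| + 10) := by
    intro x j l h
    have h1 := hs x j l h
    have h2 := le_abs_self m
    have h3 := neg_abs_le m
    have h4 := le_abs_self B
    have h5 := neg_abs_le B
    have h6 := abs_nonneg m
    have h7 := abs_nonneg B
    omega
  have hloc : ∀ x j l, loc P x j l ≠ 0 → (m < x ∧ x ≤ m + n) ∧ (-B ≤ j ∧ j ≤ B) ∧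
      (-B ≤ l ∧ l ≤ B) := by
    intro x j l hne
    rw [loc_eq hM hA] at hne
    have h1 : cor (sec P x) j l ≠ 0 ∨ cor (sec P (x - 1)) j l ≠ 0 := by
      by_contra hcon
      push Not at hcon
      apply hne
      rw [hcon.1, hcon.2]
      ring
    rcases h1 with h1 | h1
    · obtain ⟨j', l', hj, hl, h2⟩ := cor_ne h1
      have := hs _ _ _ h2
      omega
    · obtain ⟨j', l', hj, hl, h2⟩ := cor_ne h1
      have := hs _ _ _ h2
      omega
  have hbox : ∀ x, (m < x ∧ x ≤ m + n ∨ -B ≤ x ∧ x ≤ B) →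
      x ∈ Finset.Icc (-(|m| + n + |B| + 10 + 1)) (|m| + n + |B| + 10 + 1) := by
    intro x hx
    rw [Finset.mem_Icc]
    have h2 := le_abs_self m
    have h3 := neg_abs_le m
    have h4 := le_abs_self B
    have h5 := neg_abs_le B
    have h6 := abs_nonneg m
    have h7 := abs_nonneg B
    omega
  have hT := TS_loc hN
  have hT2 : TS (|m| + n + |B| + 10 + 1) (loc P) =
      ∑ x ∈ Finset.Ioc m (m + n), ∑ j ∈ Finset.Icc (-B) B, ∑ l ∈ Finset.Icc (-B) B,
        loc P x j l := by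
    unfold TS
    have h1 : ∀ x j, ∑ l ∈ Finset.Icc (-(|m| + n + |B| + 10 + 1)) (|m| + n + |B| + 10 + 1),
        loc P x j l = ∑ l ∈ Finset.Icc (-B) B, loc P x j l := by
      intro x j
      apply sum_two
      intro l hne
      have := hloc x j l hne
      exact ⟨hbox l (Or.inr this.2.2), Finset.mem_Icc.2 this.2.2⟩
    simp only [h1]
    have h2 : ∀ x, ∑ j ∈ Finset.Icc (-(|m| + n + |B| + 10 + 1)) (|m| + n + |B| + 10 + 1),
        ∑ l ∈ Finset.Icc (-B) B, loc P x j l =
        ∑ j ∈ Finset.Icc (-B) B, ∑ l ∈ Finset.Icc (-B) B, loc P x j l := by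
      intro x
      apply sum_two
      intro j hj
      obtain ⟨l, _, hne⟩ := Finset.exists_ne_zero_of_sum_ne_zero hj
      have := hloc x j l hne
      exact ⟨hbox j (Or.inr this.2.1), Finset.mem_Icc.2 this.2.1⟩
    simp only [h2]
    apply sum_two
    intro x hx
    obtain ⟨j, _, hj⟩ := Finset.exists_ne_zero_of_sum_ne_zero hx
    obtain ⟨l, _, hne⟩ := Finset.exists_ne_zero_of_sum_ne_zero hj
    have := hloc x j l hne
    exact ⟨hbox x (Or.inl this.1), Finset.mem_Ioc.2 this.1⟩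
  have hchi : ∀ x, 2 * chi6 B (fine (sec P x)) =
      3 * ∑ j ∈ Finset.Icc (-B) B, ∑ l ∈ Finset.Icc (-B) B, cor (sec P x) j l := by
    intro x
    rw [two_chi6 (sec P x) B (hS x), Finset.sum_comm]
  have hR := sum_Ioc_range (fun x => sgn (A x) *
      (chi6 B (fine (sec P x)) - chi6 B (fine (sec P (x - 1))))) m n
  simp only [add_sub_cancel_right] at hR
  rw [hR]
  have hfin : 2 * ∑ x ∈ Finset.Ioc m (m + n), sgn (A x) *
      (chi6 B (fine (sec P x)) - chi6 B (fine (sec P (x - 1)))) =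
      3 * ∑ x ∈ Finset.Ioc m (m + n), ∑ j ∈ Finset.Icc (-B) B, ∑ l ∈ Finset.Icc (-B) B,
        loc P x j l := by
    rw [Finset.mul_sum, Finset.mul_sum]
    refine Finset.sum_congr rfl fun x _ => ?_
    simp only [loc_eq hM hA]
    simp only [← Finset.mul_sum, Finset.sum_sub_distrib]
    have c1 := hchi x
    have c2 := hchi (x - 1)
    linear_combination sgn (A x) * c1 - sgn (A x) * c2
  rw [← hT2, hT] at hfin
  linarith

end Pool.BW
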