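import Pool.Agent.MP42.BW.PDefs

/-!
# T5, first half: the Euler characteristic of the brick wall section

`2 * chi6 (fine S) = 3 * (sum of the corner values of the cell set S)`, strip by strip.
-/

set_option autoImplicit false

namespace Pool.BW.T5

/-- a bit as a number -/
def bi (b : Bool) : ℤ := if b then 1 else 0

/-- corner value of four cells around a point: `p q` below, `u w` above -/
def cr (p q u w : Bool) : ℤ :=
  bi p + bi q + bi u + bi w - 2 * (bi p * bi q + bi u * bi w + bi p * bi u + bi q * bi w) +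
    4 * (bi p * bi q * bi u * bi w)

/-- corner value of the cell set `S` at the point `(j, l)` -/
def cor (S : ℤ → ℤ → Bool) (j l : ℤ) : ℤ := cr (S (j - 1) (l - 1)) (S j (l - 1)) (S (j - 1) l) (S j l)

theorem cor_zero (S : ℤ → ℤ → Bool) (j l : ℤ) (h1 : S (j - 1) (l - 1) = false)
    (h2 : S j (l - 1) = false) (h3 : S (j - 1) l = false) (h4 : S j l = false) : cor S j l = 0 := by
  unfold cor
  rw [h1, h2, h3, h4]
  rfl

/-! ### values of `fine` -/

theorem fine_even (S : ℤ → ℤ → Bool) {l : ℤ} (hl : l % 2 = 0) (κ : ℤ) :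
    fine S l κ = S (κ / 4) l := by
  unfold fine
  rw [if_pos hl]

theorem fine_odd0 (S : ℤ → ℤ → Bool) {l : ℤ} (hl : l % 2 = 1) (j κ : ℤ) (hκ : κ = 4 * j) :
    fine S l κ = (S (j - 1) l && S j l) := by
  unfold fine
  rw [if_neg (by omega), if_neg (by omega)]
  have h : (κ + 1) / 4 = j := by omega
  rw [h]

theorem fine_odd12 (S : ℤ → ℤ → Bool) {l : ℤ} (hl : l % 2 = 1) (j κ : ℤ)
    (hκ : κ = 4 * j + 1 ∨ κ = 4 * j + 2) : fine S l κ = S j l := by
  unfold fine
  rw [if_neg (by omega), if_pos (by omega)]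
  have h : κ / 4 = j := by omega
  rw [h]

theorem fine_odd3 (S : ℤ → ℤ → Bool) {l : ℤ} (hl : l % 2 = 1) (j κ : ℤ) (hκ : κ = 4 * j + 3) :
    fine S l κ = (S j l && S (j + 1) l) := by
  unfold fine
  rw [if_neg (by omega), if_neg (by omega)]
  have h : (κ + 1) / 4 = j + 1 := by omega
  rw [h, show j + 1 - 1 = j by ring]

theorem fine_odd_m1 (S : ℤ → ℤ → Bool) {l : ℤ} (hl : l % 2 = 1) (j κ : ℤ) (hκ : κ = 4 * j - 1) :
    fine S l κ = (S (j - 1) l && S j l) := by
  have := fine_odd3 S hl (j - 1) κ (by omega)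
  rwa [show j - 1 + 1 = j by ring] at this

theorem row_eq {k x : ℤ} (h : (x - k) % 2 = 0) : row k x = k := by
  unfold row
  rw [if_pos h]

theorem row_ne {k x : ℤ} (h : (x - k) % 2 = 1) : row k x = k - 1 := by
  unfold row
  rw [if_neg (by omega)]

theorem vx_eq (o : St) {k x : ℤ} (h : (x - k) % 2 = 0) :
    vx o k x = cv (o k (x - 1)) (o k x) (o (k - 1) x) := by
  unfold vx
  rw [row_eq h, show 2 * k - 1 - k = k - 1 by ring]

theorem vx_ne (o : St) {k x : ℤ} (h : (x - k) % 2 = 1) :
    vx o k x = cv (o (k - 1) (x - 1)) (o (k - 1) x) (o k x) := by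
  unfold vx
  rw [row_ne h, show 2 * k - 1 - (k - 1) = k by ring]

/-- the telescoping function -/
def tel (S : ℤ → ℤ → Bool) (k j : ℤ) : ℤ :=
  2 * vx (fine S) k (4 * j + 3) +
    (if k % 2 = 0 then bi (S j (k - 1)) - bi (S j k) else bi (S j k) - bi (S j (k - 1)))

theorem four_even : ∀ p q u w z v : Bool,
    2 * (cv p q (u && w) + cv (u && w) w q + cv q q w + cv w (w && z) q) - 3 * cr u w p q =
      (2 * cv w (w && z) q + (bi w - bi q)) - (2 * cv u (u && w) p + (bi u - bi p)) ∧ v = v := by
  decide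

theorem four_odd : ∀ p q u w z v : Bool,
    2 * (cv u w (p && q) + cv (p && q) q w + cv w w q + cv q (q && z) w) - 3 * cr u w p q =
      (2 * cv q (q && z) w + (bi q - bi w)) - (2 * cv p (p && q) u + (bi p - bi u)) ∧ v = v := by
  decide

theorem four (S : ℤ → ℤ → Bool) (k j : ℤ) :
    2 * (vx (fine S) k (4 * j) + vx (fine S) k (4 * j + 1) + vx (fine S) k (4 * j + 2) +
      vx (fine S) k (4 * j + 3)) - 3 * cor S j k = tel S k j - tel S k (j - 1) := by
  rcases Int.emod_two_eq_zero_or_one k with hk | hk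
  · have e0 : vx (fine S) k (4 * j) =
        cv (S (j - 1) k) (S j k) (S (j - 1) (k - 1) && S j (k - 1)) := by
      rw [vx_eq _ (by omega), fine_even S hk, fine_even S hk,
        fine_odd0 S (show (k - 1) % 2 = 1 by omega) j _ rfl,
        show (4 * j - 1) / 4 = j - 1 by omega, show 4 * j / 4 = j by omega]
    have e1 : vx (fine S) k (4 * j + 1) =
        cv (S (j - 1) (k - 1) && S j (k - 1)) (S j (k - 1)) (S j k) := by
      rw [vx_ne _ (by omega), fine_even S hk,
        fine_odd0 S (show (k - 1) % 2 = 1 by omega) j _ (by ring),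
        fine_odd12 S (show (k - 1) % 2 = 1 by omega) j _ (Or.inl rfl),
        show (4 * j + 1) / 4 = j by omega]
    have e2 : vx (fine S) k (4 * j + 2) = cv (S j k) (S j k) (S j (k - 1)) := by
      rw [vx_eq _ (by omega), fine_even S hk, fine_even S hk,
        fine_odd12 S (show (k - 1) % 2 = 1 by omega) j _ (Or.inr rfl),
        show (4 * j + 2 - 1) / 4 = j by omega, show (4 * j + 2) / 4 = j by omega]
    have e3 : ∀ j, vx (fine S) k (4 * j + 3) =
        cv (S j (k - 1)) (S j (k - 1) && S (j + 1) (k - 1)) (S j k) := by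
      intro j
      rw [vx_ne _ (by omega), fine_even S hk,
        fine_odd12 S (show (k - 1) % 2 = 1 by omega) j _ (Or.inr (by ring)),
        fine_odd3 S (show (k - 1) % 2 = 1 by omega) j _ rfl,
        show (4 * j + 3) / 4 = j by omega]
    unfold tel cor
    rw [if_pos hk, if_pos hk, e0, e1, e2, e3, e3, show j - 1 + 1 = j by ring]
    exact (four_even (S (j - 1) k) (S j k) (S (j - 1) (k - 1)) (S j (k - 1)) (S (j + 1) (k - 1))
      true).1
  · have e0 : vx (fine S) k (4 * j) =
        cv (S (j - 1) (k - 1)) (S j (k - 1)) (S (j - 1) k && S j k) := by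
      rw [vx_ne _ (by omega), fine_even S (show (k - 1) % 2 = 0 by omega),
        fine_even S (show (k - 1) % 2 = 0 by omega),
        fine_odd0 S hk j _ rfl,
        show (4 * j - 1) / 4 = j - 1 by omega, show 4 * j / 4 = j by omega]
    have e1 : vx (fine S) k (4 * j + 1) =
        cv (S (j - 1) k && S j k) (S j k) (S j (k - 1)) := by
      rw [vx_eq _ (by omega), fine_even S (show (k - 1) % 2 = 0 by omega),
        fine_odd0 S hk j _ (by ring),
        fine_odd12 S hk j _ (Or.inl rfl),
        show (4 * j + 1) / 4 = j by omega]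
    have e2 : vx (fine S) k (4 * j + 2) = cv (S j (k - 1)) (S j (k - 1)) (S j k) := by
      rw [vx_ne _ (by omega), fine_even S (show (k - 1) % 2 = 0 by omega),
        fine_even S (show (k - 1) % 2 = 0 by omega),
        fine_odd12 S hk j _ (Or.inr rfl),
        show (4 * j + 2 - 1) / 4 = j by omega, show (4 * j + 2) / 4 = j by omega]
    have e3 : ∀ j, vx (fine S) k (4 * j + 3) =
        cv (S j k) (S j k && S (j + 1) k) (S j (k - 1)) := by
      intro j
      rw [vx_eq _ (by omega), fine_even S (show (k - 1) % 2 = 0 by omega),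
        fine_odd12 S hk j _ (Or.inr (by ring)),
        fine_odd3 S hk j _ rfl,
        show (4 * j + 3) / 4 = j by omega]
    unfold tel cor
    rw [if_neg (by omega), if_neg (by omega), e0, e1, e2, e3, e3, show j - 1 + 1 = j by ring]
    exact (four_odd (S (j - 1) k) (S j k) (S (j - 1) (k - 1)) (S j (k - 1)) (S (j + 1) k)
      true).1

/-! ### sums -/

theorem sum_Ico_four (f : ℤ → ℤ) (p : ℤ) (n : ℕ) :
    ∑ x ∈ Finset.Ico (4 * p) (4 * (p + n)), f x =
      ∑ j ∈ Finset.Ico p (p + n), (f (4 * j) + f (4 * j + 1) + f (4 * j + 2) + f (4 * j + 3)) := by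
  induction n with
  | zero => simp
  | succ n ih =>
    have h1 : Finset.Ico p (p + ((n + 1 : ℕ) : ℤ)) = insert (p + n) (Finset.Ico p (p + n)) := by
      ext x
      simp only [Finset.mem_insert, Finset.mem_Ico]
      push_cast
      omega
    have h2 : Finset.Ico (4 * p) (4 * (p + ((n + 1 : ℕ) : ℤ))) =
        insert (4 * (p + n)) (insert (4 * (p + n) + 1) (insert (4 * (p + n) + 2)
          (insert (4 * (p + n) + 3) (Finset.Ico (4 * p) (4 * (p + n)))))) := by
      ext x
      simp only [Finset.mem_insert, Finset.mem_Ico]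
      push_cast
      omega
    rw [h1, h2, Finset.sum_insert (by simp), Finset.sum_insert, Finset.sum_insert,
      Finset.sum_insert, Finset.sum_insert, ih]
    · ring
    · simp
    · simp only [Finset.mem_insert, Finset.mem_Ico]; omega
    · simp only [Finset.mem_insert, Finset.mem_Ico]; omega
    · simp only [Finset.mem_insert, Finset.mem_Ico]; omega

theorem sum_Ico_tel (g : ℤ → ℤ) (p : ℤ) (n : ℕ) :
    ∑ j ∈ Finset.Ico p (p + n), (g j - g (j - 1)) = g (p + n - 1) - g (p - 1) := by
  induction n with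
  | zero => simp
  | succ n ih =>
    have h1 : Finset.Ico p (p + ((n + 1 : ℕ) : ℤ)) = insert (p + n) (Finset.Ico p (p + n)) := by
      ext x
      simp only [Finset.mem_insert, Finset.mem_Ico]
      push_cast
      omega
    rw [h1, Finset.sum_insert (by simp), ih]
    push_cast
    rw [show p + ((n : ℤ) + 1) - 1 = p + n by ring]
    ring

/-- sums of a function that vanishes outside of two intervals -/
theorem sum_two (f : ℤ → ℤ) (s t : Finset ℤ) (h : ∀ x, f x ≠ 0 → x ∈ s ∧ x ∈ t) :
    ∑ x ∈ s, f x = ∑ x ∈ t, f x := by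
  have h1 : ∑ x ∈ s, f x = ∑ x ∈ s ∪ t, f x := by
    apply Finset.sum_subset Finset.subset_union_left
    intro x _ hx
    by_contra hne
    exact hx (h x hne).1
  have h2 : ∑ x ∈ t, f x = ∑ x ∈ s ∪ t, f x := by
    apply Finset.sum_subset Finset.subset_union_right
    intro x _ hx
    by_contra hne
    exact hx (h x hne).2
  rw [h1, h2]

theorem cv_zero : cv false false false = 0 := rfl

/-- the solid cells of the rows `k - 1`, `k` are strictly between `- N` and `N` -/
theorem strip (S : ℤ → ℤ → Bool) (k B : ℤ)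
    (hS : ∀ j l, S j l = true → -B < 4 * j - 8 ∧ 4 * j + 8 < B) :
    2 * ∑ x ∈ Finset.Icc (-B) B, vx (fine S) k x = 3 * ∑ j ∈ Finset.Icc (-B) B, cor S j k := by
  have hfine : ∀ l κ, fine S l κ = true → -B + 2 < κ ∧ κ + 2 < B := by
    intro l κ h
    rcases Int.emod_two_eq_zero_or_one l with hl | hl
    · rw [fine_even S hl] at h
      have := hS _ _ h
      omega
    · unfold fine at h
      rw [if_neg (by omega)] at h
      split_ifs at h with h1
      · have := hS _ _ h
        omega
      · rw [Bool.and_eq_true] at h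
        have h2 := hS _ _ h.1
        have h3 := hS _ _ h.2
        omega
  have hvx : ∀ x, vx (fine S) k x ≠ 0 → -B < x ∧ x < B := by
    intro x hx
    by_contra hcon
    apply hx
    have hz : ∀ l κ, (κ = x ∨ κ = x - 1) → fine S l κ = false := by
      intro l κ hκ
      by_contra hne
      have := hfine l κ (by simpa using hne)
      omega
    unfold vx
    rw [hz _ _ (Or.inr rfl), hz _ _ (Or.inl rfl), hz _ _ (Or.inl rfl)]
    rfl
  have hcor : ∀ j, cor S j k ≠ 0 → -B < j ∧ j < B := by
    intro j hj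
    by_contra hcon
    apply hj
    have hz : ∀ i l, (i = j ∨ i = j - 1) → S i l = false := by
      intro i l hi
      by_contra hne
      have := hS i l (by simpa using hne)
      omega
    exact cor_zero S j k (hz _ _ (Or.inr rfl)) (hz _ _ (Or.inl rfl)) (hz _ _ (Or.inr rfl))
      (hz _ _ (Or.inl rfl))
  have hB : ∑ x ∈ Finset.Icc (-B) B, vx (fine S) k x =
      ∑ x ∈ Finset.Ico (4 * (-(|B| + 1))) (4 * (-(|B| + 1) + ((2 * (B.natAbs + 1) : ℕ) : ℤ))),
        vx (fine S) k x := by
    apply sum_two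
    intro x hx
    have := hvx x hx
    rw [Finset.mem_Icc, Finset.mem_Ico]
    push_cast
    have h1 := le_abs_self B
    omega
  have hC : ∑ j ∈ Finset.Icc (-B) B, cor S j k =
      ∑ j ∈ Finset.Ico (-(|B| + 1)) (-(|B| + 1) + ((2 * (B.natAbs + 1) : ℕ) : ℤ)),
        cor S j k := by
    apply sum_two
    intro x hx
    have := hcor x hx
    rw [Finset.mem_Icc, Finset.mem_Ico]
    push_cast
    have h1 := le_abs_self B
    omega
  rw [hB, hC, sum_Ico_four, Finset.mul_sum, Finset.mul_sum]
  have htel := sum_Ico_tel (tel S k) (-(|B| + 1)) (2 * (B.natAbs + 1))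
  have hz : ∀ j, (j + 2 ≤ -|B| ∨ |B| ≤ j) → tel S k j = 0 := by
    intro j hj
    have h1 := le_abs_self B
    have h2 := neg_abs_le B
    have h3 : vx (fine S) k (4 * j + 3) = 0 := by
      by_contra hne
      have := hvx _ hne
      omega
    have h4 : ∀ l, S j l = false := by
      intro l
      by_contra hne
      have := hS j l (by simpa using hne)
      omega
    unfold tel
    rw [h3, h4, h4]
    simp
  rw [hz _ (Or.inr (by push_cast; omega)), hz _ (Or.inl (by omega))] at htel
  have h5 : ∑ j ∈ Finset.Ico (-(|B| + 1)) (-(|B| + 1) + ((2 * (B.natAbs + 1) : ℕ) : ℤ)),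
      (2 * (vx (fine S) k (4 * j) + vx (fine S) k (4 * j + 1) + vx (fine S) k (4 * j + 2) +
        vx (fine S) k (4 * j + 3)) - 3 * cor S j k) = 0 := by
    rw [← htel.trans (sub_zero 0)]
    exact Finset.sum_congr rfl fun j _ => four S k j
  rw [Finset.sum_sub_distrib] at h5
  linarith

theorem two_chi6 (S : ℤ → ℤ → Bool) (B : ℤ)
    (hS : ∀ j l, S j l = true → -B < 4 * j - 8 ∧ 4 * j + 8 < B) :
    2 * chi6 B (fine S) = 3 * ∑ l ∈ Finset.Icc (-B) B, ∑ j ∈ Finset.Icc (-B) B, cor S j l := by
  unfold chi6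
  rw [Finset.mul_sum, Finset.mul_sum]
  exact Finset.sum_congr rfl fun k _ => strip S k B hS

end Pool.BW.T5
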