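import Pool.Agent.MP42.BW.T5a

/-!
# T5, second half: the Euler characteristic as a sum of changes of corner values
-/

set_option autoImplicit false

namespace Pool.BW.T5

open Pool.Agent.Helper55.UNF Pool.Agent.Helper55.UNF.GridSolid Pool.Agent.MP42 Pool.Agent.MP42.NE

/-! ### triple sums -/

/-- sum over a box -/
noncomputable def TS (N : ℤ) (F : ℤ → ℤ → ℤ → ℤ) : ℤ :=
  ∑ x ∈ Finset.Icc (-N) N, ∑ j ∈ Finset.Icc (-N) N, ∑ l ∈ Finset.Icc (-N) N, F x j l

/-- the function vanishes at the boundary of the box and outside -/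
def Sm (N : ℤ) (F : ℤ → ℤ → ℤ → ℤ) : Prop :=
  ∀ x j l, F x j l ≠ 0 → (-N < x ∧ x < N) ∧ (-N < j ∧ j < N) ∧ (-N < l ∧ l < N)

theorem TS_add (N : ℤ) (F G : ℤ → ℤ → ℤ → ℤ) :
    TS N (fun x j l => F x j l + G x j l) = TS N F + TS N G := by
  unfold TS
  simp only [Finset.sum_add_distrib]

theorem TS_mul (N a : ℤ) (F : ℤ → ℤ → ℤ → ℤ) :
    TS N (fun x j l => a * F x j l) = a * TS N F := by
  unfold TS
  simp only [Finset.mul_sum]

theorem sum_shift (N : ℤ) (f : ℤ → ℤ) (hf : ∀ x, f x ≠ 0 → -N < x ∧ x < N) :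
    ∑ x ∈ Finset.Icc (-N) N, f (x - 1) = ∑ x ∈ Finset.Icc (-N) N, f x := by
  have h1 : ∑ x ∈ Finset.Icc (-N) N, f (x - 1) = ∑ y ∈ Finset.Icc (-N - 1) (N - 1), f y := by
    apply Finset.sum_nbij' (fun x => x - 1) (fun y => y + 1)
    · intro x hx
      rw [Finset.mem_Icc] at hx ⊢
      omega
    · intro x hx
      rw [Finset.mem_Icc] at hx ⊢
      omega
    · intro x _
      ring
    · intro x _
      ring
    · intro x _
      rfl
  rw [h1]
  apply sum_two
  intro x hx
  have := hf x hx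
  rw [Finset.mem_Icc, Finset.mem_Icc]
  omega

theorem TS_shx {N : ℤ} {F : ℤ → ℤ → ℤ → ℤ} (hF : Sm N F) :
    TS N (fun x j l => F (x - 1) j l) = TS N F := by
  unfold TS
  apply sum_shift N (fun x => ∑ j ∈ Finset.Icc (-N) N, ∑ l ∈ Finset.Icc (-N) N, F x j l)
  intro x hx
  obtain ⟨j, _, hj⟩ := Finset.exists_ne_zero_of_sum_ne_zero hx
  obtain ⟨l, _, hl⟩ := Finset.exists_ne_zero_of_sum_ne_zero hj
  exact (hF x j l hl).1

theorem TS_shj {N : ℤ} {F : ℤ → ℤ → ℤ → ℤ} (hF : Sm N F) :
    TS N (fun x j l => F x (j - 1) l) = TS N F := by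
  unfold TS
  refine Finset.sum_congr rfl fun x _ => ?_
  apply sum_shift N (fun j => ∑ l ∈ Finset.Icc (-N) N, F x j l)
  intro j hj
  obtain ⟨l, _, hl⟩ := Finset.exists_ne_zero_of_sum_ne_zero hj
  exact (hF x j l hl).2.1

theorem TS_shl {N : ℤ} {F : ℤ → ℤ → ℤ → ℤ} (hF : Sm N F) :
    TS N (fun x j l => F x j (l - 1)) = TS N F := by
  unfold TS
  refine Finset.sum_congr rfl fun x _ => Finset.sum_congr rfl fun j _ => ?_
  apply sum_shift N (fun l => F x j l)
  intro l hl
  exact (hF x j l hl).2.2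

/-- counting -/
theorem cnt (N : ℤ) (p : (Fin 3 → ℤ) → Prop) (q : ℤ → ℤ → ℤ → Bool)
    (h : ∀ x j l, p ![x, j, l] ↔ q x j l = true) (hq : Sm N (fun x j l => bi (q x j l))) :
    Finite {v // p v} ∧ (Nat.card {v // p v} : ℤ) = TS N (fun x j l => bi (q x j l)) := by
  classical
  set F : Finset (ℤ × ℤ × ℤ) := (Finset.Icc (-N) N ×ˢ Finset.Icc (-N) N ×ˢ
    Finset.Icc (-N) N).filter (fun t => q t.1 t.2.1 t.2.2 = true) with hF
  have hvec : ∀ v : Fin 3 → ℤ, ![v 0, v 1, v 2] = v := by
    intro v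
    funext i
    fin_cases i <;> rfl
  have hmem : ∀ v : Fin 3 → ℤ, p v ↔ (v 0, v 1, v 2) ∈ F := by
    intro v
    rw [hF, Finset.mem_filter]
    simp only [Finset.mem_product, Finset.mem_Icc]
    rw [← h, hvec]
    constructor
    · intro hv
      refine ⟨?_, hv⟩
      have hqv : q (v 0) (v 1) (v 2) = true := by rw [← h, hvec]; exact hv
      have := hq (v 0) (v 1) (v 2) (by simp only [hqv]; decide)
      omega
    · intro hv
      exact hv.2
  let e : {v // p v} ≃ F :=
    { toFun := fun v => ⟨(v.1 0, v.1 1, v.1 2), (hmem v.1).1 v.2⟩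
      invFun := fun t => ⟨![t.1.1, t.1.2.1, t.1.2.2], (hmem _).2 t.2⟩
      left_inv := fun v => Subtype.ext (hvec v.1)
      right_inv := fun t => rfl }
  refine ⟨Finite.of_equiv _ e.symm, ?_⟩
  rw [Nat.card_congr e, Nat.card_eq_fintype_card, Fintype.card_coe, hF, Finset.card_filter]
  push_cast
  rw [Finset.sum_product]
  unfold TS
  refine Finset.sum_congr rfl fun x _ => ?_
  rw [Finset.sum_product]
  refine Finset.sum_congr rfl fun j _ => Finset.sum_congr rfl fun l _ => ?_
  unfold bi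
  rfl

/-! ### patterns -/

/-- not constant -/
def nc (a b c d : Bool) : Bool := (a || b || c || d) && !(a && b && c && d)

/-- not alternating (cyclic order) -/
def na (a b c d : Bool) : Bool := !((a && c && !b && !d) || (b && d && !a && !c))

/-- not constant, eight bits -/
def nc8 (a b c d e f g h : Bool) : Bool :=
  (a || b || c || d || e || f || g || h) && !(a && b && c && d && e && f && g && h)

/-- the local identity; `a b c d` = cells before the plane at `(j-1, l-1)`, `(j, l-1)`, `(j-1, l)`,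
`(j, l)`, `e f g h` = the cells behind the plane -/
theorem loc_true : ∀ a b c d e f g h : Bool,
    (a → e) → (b → f) → (c → g) → (d → h) → na a b d c → na e f h g →
    na a b f e → na c d h g → na a c g e → na b d h f →
    4 * bi (nc8 a b c d e f g h) -
      2 * (bi (nc e f g h) + bi (nc a b c d) + bi (nc b d f h) + bi (nc a c e g) +
        bi (nc c d g h) + bi (nc a b e f)) +
      (bi (xor a e) + bi (xor b f) + bi (xor c g) + bi (xor d h)) +
      (bi (xor a b) + bi (xor c d) + bi (xor e f) + bi (xor g h)) +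
      (bi (xor a c) + bi (xor b d) + bi (xor e g) + bi (xor f h)) =
    cr e f g h - cr a b c d := by
  decide +kernel

theorem loc_false (a b c d e f g h : Bool)
    (h1 : e → a) (h2 : f → b) (h3 : g → c) (h4 : h → d) (h5 : na a b d c) (h6 : na e f h g)
    (h7 : na a b f e) (h8 : na c d h g) (h9 : na a c g e) (h10 : na b d h f) :
    4 * bi (nc8 a b c d e f g h) -
      2 * (bi (nc e f g h) + bi (nc a b c d) + bi (nc b d f h) + bi (nc a c e g) +
        bi (nc c d g h) + bi (nc a b e f)) +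
      (bi (xor a e) + bi (xor b f) + bi (xor c g) + bi (xor d h)) +
      (bi (xor a b) + bi (xor c d) + bi (xor e f) + bi (xor g h)) +
      (bi (xor a c) + bi (xor b d) + bi (xor e g) + bi (xor f h)) =
    -(cr e f g h - cr a b c d) := by
  revert a b c d e f g h
  decide +kernel


/-! ### the counts -/

variable {P : GridSolid}

theorem mem_iff_sec (P : GridSolid) (x j l : ℤ) : (![x, j, l] : Fin 3 → ℤ) ∈ P.cells ↔ sec P x j l = true := by
  unfold sec
  rw [decide_eq_true_iff]

theorem corner_vec (x j l : ℤ) (ε : Fin 3 → Bool) :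
    corner ![x, j, l] ε = ![if ε 0 then x else x - 1, if ε 1 then j else j - 1,
      if ε 2 then l else l - 1] := by
  funext i
  fin_cases i <;> rfl

theorem ex_bool3 (R : Bool → Bool → Bool → Prop) :
    (∃ ε : Fin 3 → Bool, R (ε 0) (ε 1) (ε 2)) ↔ ∃ a b c, R a b c :=
  ⟨fun ⟨ε, h⟩ => ⟨ε 0, ε 1, ε 2, h⟩, fun ⟨a, b, c, h⟩ => ⟨![a, b, c], h⟩⟩

theorem nc8_aux (s : Bool → Bool → Bool → Bool) :
    ((∃ a b c, s a b c = true) ∧ (∃ a b c, ¬ (s a b c = true))) ↔
      nc8 (s false false false) (s false true false) (s false false true) (s false true true)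
        (s true false false) (s true true false) (s true false true) (s true true true) = true := by
  simp only [Bool.exists_bool]
  generalize s false false false = a
  generalize s false true false = b
  generalize s false false true = c
  generalize s false true true = d
  generalize s true false false = e
  generalize s true true false = f
  generalize s true false true = g
  generalize s true true true = h
  revert a b c d e f g h
  decide

theorem nc_aux (s : Bool → Bool → Bool) :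
    ((∃ a b, s a b = true) ∧ (∃ a b, ¬ (s a b = true))) ↔
      nc (s false false) (s true false) (s false true) (s true true) = true := by
  simp only [Bool.exists_bool]
  generalize s false false = a
  generalize s true false = b
  generalize s false true = c
  generalize s true true = d
  revert a b c d
  decide

theorem nc_aux' (s : Bool → Bool → Bool) :
    ((∃ a b, s a b = true) ∧ (∃ a b, ¬ (s a b = true))) ↔
      nc (s false false) (s false true) (s true false) (s true true) = true := by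
  simp only [Bool.exists_bool]
  generalize s false false = a
  generalize s true false = b
  generalize s false true = c
  generalize s true true = d
  revert a b c d
  decide

/-- vertices -/
def qV (P : GridSolid) (x j l : ℤ) : Bool :=
  nc8 (sec P (x - 1) (j - 1) (l - 1)) (sec P (x - 1) j (l - 1)) (sec P (x - 1) (j - 1) l)
    (sec P (x - 1) j l) (sec P x (j - 1) (l - 1)) (sec P x j (l - 1)) (sec P x (j - 1) l)
    (sec P x j l)

def qE0 (P : GridSolid) (x j l : ℤ) : Bool :=
  nc (sec P x (j - 1) (l - 1)) (sec P x j (l - 1)) (sec P x (j - 1) l) (sec P x j l)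

def qE1 (P : GridSolid) (x j l : ℤ) : Bool :=
  nc (sec P (x - 1) j (l - 1)) (sec P (x - 1) j l) (sec P x j (l - 1)) (sec P x j l)

def qE2 (P : GridSolid) (x j l : ℤ) : Bool :=
  nc (sec P (x - 1) (j - 1) l) (sec P (x - 1) j l) (sec P x (j - 1) l) (sec P x j l)

def qX0 (P : GridSolid) (x j l : ℤ) : Bool := xor (sec P (x - 1) j l) (sec P x j l)

def qX1 (P : GridSolid) (x j l : ℤ) : Bool := xor (sec P x (j - 1) l) (sec P x j l)

def qX2 (P : GridSolid) (x j l : ℤ) : Bool := xor (sec P x j (l - 1)) (sec P x j l)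

theorem onV_iff (x j l : ℤ) : OnV P ![x, j, l] ↔ qV P x j l = true := by
  unfold OnV
  simp only [corner_vec, mem_iff_sec]
  rw [show (∃ ε δ : Fin 3 → Bool,
      sec P (if ε 0 = true then x else x - 1) (if ε 1 = true then j else j - 1)
        (if ε 2 = true then l else l - 1) = true ∧
      ¬ sec P (if δ 0 = true then x else x - 1) (if δ 1 = true then j else j - 1)
        (if δ 2 = true then l else l - 1) = true) ↔
      ((∃ ε : Fin 3 → Bool, sec P (if ε 0 = true then x else x - 1)
        (if ε 1 = true then j else j - 1) (if ε 2 = true then l else l - 1) = true) ∧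
      ∃ δ : Fin 3 → Bool, ¬ sec P (if δ 0 = true then x else x - 1)
        (if δ 1 = true then j else j - 1) (if δ 2 = true then l else l - 1) = true) from
      ⟨fun ⟨ε, δ, h1, h2⟩ => ⟨⟨ε, h1⟩, ⟨δ, h2⟩⟩, fun ⟨⟨ε, h1⟩, ⟨δ, h2⟩⟩ => ⟨ε, δ, h1, h2⟩⟩]
  rw [ex_bool3 (fun a b c => sec P (if a = true then x else x - 1)
        (if b = true then j else j - 1) (if c = true then l else l - 1) = true),
    ex_bool3 (fun a b c => ¬ sec P (if a = true then x else x - 1)
        (if b = true then j else j - 1) (if c = true then l else l - 1) = true)]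
  exact nc8_aux (fun a b c => sec P (if a = true then x else x - 1)
        (if b = true then j else j - 1) (if c = true then l else l - 1))

theorem onE0_iff (x j l : ℤ) : OnE P ((0 : Fin 3), ![x, j, l]) ↔ qE0 P x j l = true := by
  refine Iff.trans ?_ (nc_aux
    (fun b c => sec P x (if b = true then j else j - 1) (if c = true then l else l - 1)))
  unfold OnE
  simp only [corner_vec, mem_iff_sec]
  constructor
  · rintro ⟨ε, δ, h1, h2, h3, h4⟩
    rw [if_pos h1] at h3
    rw [if_pos h2] at h4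
    exact ⟨⟨ε 1, ε 2, h3⟩, ⟨δ 1, δ 2, h4⟩⟩
  · rintro ⟨⟨a, b, h3⟩, ⟨c, d, h4⟩⟩
    exact ⟨![true, a, b], ![true, c, d], rfl, rfl, h3, h4⟩

theorem onE1_iff (x j l : ℤ) : OnE P ((1 : Fin 3), ![x, j, l]) ↔ qE1 P x j l = true := by
  refine Iff.trans ?_ (nc_aux'
    (fun b c => sec P (if b = true then x else x - 1) j (if c = true then l else l - 1)))
  unfold OnE
  simp only [corner_vec, mem_iff_sec]
  constructor
  · rintro ⟨ε, δ, h1, h2, h3, h4⟩
    rw [if_pos h1] at h3
    rw [if_pos h2] at h4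
    exact ⟨⟨ε 0, ε 2, h3⟩, ⟨δ 0, δ 2, h4⟩⟩
  · rintro ⟨⟨a, b, h3⟩, ⟨c, d, h4⟩⟩
    exact ⟨![a, true, b], ![c, true, d], rfl, rfl, h3, h4⟩

theorem onE2_iff (x j l : ℤ) : OnE P ((2 : Fin 3), ![x, j, l]) ↔ qE2 P x j l = true := by
  refine Iff.trans ?_ (nc_aux'
    (fun b c => sec P (if b = true then x else x - 1) (if c = true then j else j - 1) l))
  unfold OnE
  simp only [corner_vec, mem_iff_sec]
  constructor
  · rintro ⟨ε, δ, h1, h2, h3, h4⟩
    rw [if_pos h1] at h3
    rw [if_pos h2] at h4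
    exact ⟨⟨ε 0, ε 1, h3⟩, ⟨δ 0, δ 1, h4⟩⟩
  · rintro ⟨⟨a, b, h3⟩, ⟨c, d, h4⟩⟩
    exact ⟨![a, b, true], ![c, d, true], rfl, rfl, h3, h4⟩

/-- all solid cells are well inside the box -/
def Ins (P : GridSolid) (N : ℤ) : Prop :=
  ∀ x j l, sec P x j l = true → (-N + 2 < x ∧ x + 2 < N) ∧ (-N + 2 < j ∧ j + 2 < N) ∧
    (-N + 2 < l ∧ l + 2 < N)

theorem ins_false {N : ℤ} (hN : Ins P N) (x j l : ℤ)
    (h : ¬ ((-N + 2 < x ∧ x + 2 < N) ∧ (-N + 2 < j ∧ j + 2 < N) ∧ (-N + 2 < l ∧ l + 2 < N))) :
    sec P x j l = false := by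
  by_contra hne
  exact h (hN x j l (by simpa using hne))

/-- a function of the cells near `(x, j, l)` is small -/
theorem sm_of {N : ℤ} (hN : Ins P N) (F : ℤ → ℤ → ℤ → ℤ)
    (hF : ∀ x j l, (∀ x' j' l', (x' = x - 1 ∨ x' = x ∨ x' = x + 1) → (j' = j - 1 ∨ j' = j ∨ j' = j + 1) →
      (l' = l - 1 ∨ l' = l ∨ l' = l + 1) → sec P x' j' l' = false) → F x j l = 0) : Sm N F := by
  intro x j l hne
  by_contra hcon
  apply hne
  apply hF
  intro x' j' l' hx hj hl
  apply ins_false hN
  omega

theorem sm_V {N : ℤ} (hN : Ins P N) : Sm N (fun x j l => bi (qV P x j l)) := by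
  apply sm_of hN
  intro x j l h
  simp only [qV]
  rw [h (x - 1) (j - 1) (l - 1) (by simp) (by simp) (by simp),
    h (x - 1) j (l - 1) (by simp) (by simp) (by simp),
    h (x - 1) (j - 1) l (by simp) (by simp) (by simp),
    h (x - 1) j l (by simp) (by simp) (by simp),
    h x (j - 1) (l - 1) (by simp) (by simp) (by simp),
    h x j (l - 1) (by simp) (by simp) (by simp),
    h x (j - 1) l (by simp) (by simp) (by simp),
    h x j l (by simp) (by simp) (by simp)]
  rfl

theorem sm_E0 {N : ℤ} (hN : Ins P N) : Sm N (fun x j l => bi (qE0 P x j l)) := by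
  apply sm_of hN
  intro x j l h
  simp only [qE0]
  rw [h x (j - 1) (l - 1) (by simp) (by simp) (by simp),
    h x j (l - 1) (by simp) (by simp) (by simp),
    h x (j - 1) l (by simp) (by simp) (by simp),
    h x j l (by simp) (by simp) (by simp)]
  rfl

theorem sm_E1 {N : ℤ} (hN : Ins P N) : Sm N (fun x j l => bi (qE1 P x j l)) := by
  apply sm_of hN
  intro x j l h
  simp only [qE1]
  rw [h (x - 1) j (l - 1) (by simp) (by simp) (by simp),
    h (x - 1) j l (by simp) (by simp) (by simp),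
    h x j (l - 1) (by simp) (by simp) (by simp),
    h x j l (by simp) (by simp) (by simp)]
  rfl

theorem sm_E2 {N : ℤ} (hN : Ins P N) : Sm N (fun x j l => bi (qE2 P x j l)) := by
  apply sm_of hN
  intro x j l h
  simp only [qE2]
  rw [h (x - 1) (j - 1) l (by simp) (by simp) (by simp),
    h (x - 1) j l (by simp) (by simp) (by simp),
    h x (j - 1) l (by simp) (by simp) (by simp),
    h x j l (by simp) (by simp) (by simp)]
  rfl

theorem sm_X0 {N : ℤ} (hN : Ins P N) : Sm N (fun x j l => bi (qX0 P x j l)) := by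
  apply sm_of hN
  intro x j l h
  simp only [qX0]
  rw [h (x - 1) j l (by simp) (by simp) (by simp), h x j l (by simp) (by simp) (by simp)]
  rfl

theorem sm_X1 {N : ℤ} (hN : Ins P N) : Sm N (fun x j l => bi (qX1 P x j l)) := by
  apply sm_of hN
  intro x j l h
  simp only [qX1]
  rw [h x (j - 1) l (by simp) (by simp) (by simp), h x j l (by simp) (by simp) (by simp)]
  rfl

theorem sm_X2 {N : ℤ} (hN : Ins P N) : Sm N (fun x j l => bi (qX2 P x j l)) := by
  apply sm_of hN
  intro x j l h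
  simp only [qX2]
  rw [h x j (l - 1) (by simp) (by simp) (by simp), h x j l (by simp) (by simp) (by simp)]
  rfl

theorem card_V {N : ℤ} (hN : Ins P N) :
    ({v | OnV P v}.ncard : ℤ) = TS N (fun x j l => bi (qV P x j l)) :=
  (cnt N (OnV P) (qV P) onV_iff (sm_V hN)).2

theorem card_prod {α β : Type} [Fintype α] (R : α × β → Prop)
    (h : ∀ a, Finite {b // R (a, b)}) :
    (Nat.card {p // R p} : ℤ) = ∑ a, (Nat.card {b // R (a, b)} : ℤ) := by
  have e : {p // R p} ≃ (Σ a, {b // R (a, b)}) :=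
    { toFun := fun p => ⟨p.1.1, ⟨p.1.2, p.2⟩⟩
      invFun := fun q => ⟨(q.1, q.2.1), q.2.2⟩
      left_inv := fun p => rfl
      right_inv := fun q => rfl }
  rw [Nat.card_congr e, Nat.card_sigma]
  push_cast
  rfl

theorem card_E {N : ℤ} (hN : Ins P N) :
    ({p | OnE P p}.ncard : ℤ) = TS N (fun x j l => bi (qE0 P x j l)) +
      TS N (fun x j l => bi (qE1 P x j l)) + TS N (fun x j l => bi (qE2 P x j l)) := by
  have h0 := cnt N (fun v => OnE P ((0 : Fin 3), v)) (qE0 P) onE0_iff (sm_E0 hN)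
  have h1 := cnt N (fun v => OnE P ((1 : Fin 3), v)) (qE1 P) onE1_iff (sm_E1 hN)
  have h2 := cnt N (fun v => OnE P ((2 : Fin 3), v)) (qE2 P) onE2_iff (sm_E2 hN)
  have hfin : ∀ a : Fin 3, Finite {v : Fin 3 → ℤ // OnE P (a, v)} := by
    intro a
    fin_cases a
    · exact h0.1
    · exact h1.1
    · exact h2.1
  have h3 := card_prod (fun p : Fin 3 × (Fin 3 → ℤ) => OnE P p) hfin
  have h4 : ({p | OnE P p}.ncard : ℤ) = (Nat.card {p // OnE P p} : ℤ) := rfl
  rw [h4, h3, Fin.sum_univ_three, h0.2, h1.2, h2.2]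

theorem shift_vec (x j l : ℤ) :
    (shift ![x, j, l] ((0 : Fin 3), true) = ![x + 1, j, l] ∧
    shift ![x, j, l] ((0 : Fin 3), false) = ![x - 1, j, l]) ∧
    (shift ![x, j, l] ((1 : Fin 3), true) = ![x, j + 1, l] ∧
    shift ![x, j, l] ((1 : Fin 3), false) = ![x, j - 1, l]) ∧
    (shift ![x, j, l] ((2 : Fin 3), true) = ![x, j, l + 1] ∧
    shift ![x, j, l] ((2 : Fin 3), false) = ![x, j, l - 1]) := by
  refine ⟨⟨?_, ?_⟩, ⟨?_, ?_⟩, ⟨?_, ?_⟩⟩ <;>
  · funext i
    fin_cases i <;> simp [shift, Function.update, sub_eq_add_neg]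

theorem fac_iff (u v : Bool) (c c' : Fin 3 → ℤ) (h1 : c ∈ P.cells ↔ u = true)
    (h2 : c' ∈ P.cells ↔ v = true) : (c ∈ P.cells ∧ c' ∉ P.cells) ↔ (u && !v) = true := by
  rw [h1, h2]
  clear h1 h2
  revert u v
  decide

theorem card_F {N : ℤ} (hN : Ins P N) :
    (Nat.card P.Facet : ℤ) = TS N (fun x j l => bi (qX0 P x j l)) +
      TS N (fun x j l => bi (qX1 P x j l)) + TS N (fun x j l => bi (qX2 P x j l)) := by
  have hs : ∀ (f g : ℤ → ℤ → ℤ → Bool), (∀ x j l, ((∀ x' j' l', (x' = x - 1 ∨ x' = x ∨ x' = x + 1) →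
      (j' = j - 1 ∨ j' = j ∨ j' = j + 1) → (l' = l - 1 ∨ l' = l ∨ l' = l + 1) →
      sec P x' j' l' = false) → f x j l = false)) →
      Sm N (fun x j l => bi (f x j l && !g x j l)) := by
    intro f g hf
    apply sm_of hN
    intro x j l h
    simp only [hf x j l h]
    rfl
  have hsec : ∀ x j l, ((∀ x' j' l', (x' = x - 1 ∨ x' = x ∨ x' = x + 1) →
      (j' = j - 1 ∨ j' = j ∨ j' = j + 1) → (l' = l - 1 ∨ l' = l ∨ l' = l + 1) →
      sec P x' j' l' = false) → sec P x j l = false) := by
    intro x j l h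
    exact h x j l (by simp) (by simp) (by simp)
  have c0t := cnt N (fun c => P.IsFacet (c, ((0 : Fin 3), true)))
    (fun x j l => sec P x j l && !sec P (x + 1) j l) (fun x j l => by
      show (![x, j, l] ∈ P.cells ∧ shift ![x, j, l] ((0 : Fin 3), true) ∉ P.cells) ↔ _
      rw [(shift_vec x j l).1.1]
      exact fac_iff _ _ _ _ (mem_iff_sec P _ _ _) (mem_iff_sec P _ _ _))
    (hs _ (fun x j l => sec P (x + 1) j l) hsec)
  have c0f := cnt N (fun c => P.IsFacet (c, ((0 : Fin 3), false)))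
    (fun x j l => sec P x j l && !sec P (x - 1) j l) (fun x j l => by
      show (![x, j, l] ∈ P.cells ∧ shift ![x, j, l] ((0 : Fin 3), false) ∉ P.cells) ↔ _
      rw [(shift_vec x j l).1.2]
      exact fac_iff _ _ _ _ (mem_iff_sec P _ _ _) (mem_iff_sec P _ _ _))
    (hs _ (fun x j l => sec P (x - 1) j l) hsec)
  have c1t := cnt N (fun c => P.IsFacet (c, ((1 : Fin 3), true)))
    (fun x j l => sec P x j l && !sec P x (j + 1) l) (fun x j l => by
      show (![x, j, l] ∈ P.cells ∧ shift ![x, j, l] ((1 : Fin 3), true) ∉ P.cells) ↔ _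
      rw [(shift_vec x j l).2.1.1]
      exact fac_iff _ _ _ _ (mem_iff_sec P _ _ _) (mem_iff_sec P _ _ _))
    (hs _ (fun x j l => sec P x (j + 1) l) hsec)
  have c1f := cnt N (fun c => P.IsFacet (c, ((1 : Fin 3), false)))
    (fun x j l => sec P x j l && !sec P x (j - 1) l) (fun x j l => by
      show (![x, j, l] ∈ P.cells ∧ shift ![x, j, l] ((1 : Fin 3), false) ∉ P.cells) ↔ _
      rw [(shift_vec x j l).2.1.2]
      exact fac_iff _ _ _ _ (mem_iff_sec P _ _ _) (mem_iff_sec P _ _ _))
    (hs _ (fun x j l => sec P x (j - 1) l) hsec)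
  have c2t := cnt N (fun c => P.IsFacet (c, ((2 : Fin 3), true)))
    (fun x j l => sec P x j l && !sec P x j (l + 1)) (fun x j l => by
      show (![x, j, l] ∈ P.cells ∧ shift ![x, j, l] ((2 : Fin 3), true) ∉ P.cells) ↔ _
      rw [(shift_vec x j l).2.2.1]
      exact fac_iff _ _ _ _ (mem_iff_sec P _ _ _) (mem_iff_sec P _ _ _))
    (hs _ (fun x j l => sec P x j (l + 1)) hsec)
  have c2f := cnt N (fun c => P.IsFacet (c, ((2 : Fin 3), false)))
    (fun x j l => sec P x j l && !sec P x j (l - 1)) (fun x j l => by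
      show (![x, j, l] ∈ P.cells ∧ shift ![x, j, l] ((2 : Fin 3), false) ∉ P.cells) ↔ _
      rw [(shift_vec x j l).2.2.2]
      exact fac_iff _ _ _ _ (mem_iff_sec P _ _ _) (mem_iff_sec P _ _ _))
    (hs _ (fun x j l => sec P x j (l - 1)) hsec)
  have e : P.Facet ≃ {p : Dir × (Fin 3 → ℤ) // P.IsFacet (p.2, p.1)} :=
    { toFun := fun t => ⟨(t.1.2, t.1.1), t.2⟩
      invFun := fun q => ⟨(q.1.2, q.1.1), q.2⟩
      left_inv := fun p => rfl
      right_inv := fun q => rfl }
  have hfin : ∀ d : Dir, Finite {c : Fin 3 → ℤ // P.IsFacet (c, d)} := by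
    rintro ⟨a, t⟩
    cases t
    · fin_cases a
      · exact c0f.1
      · exact c1f.1
      · exact c2f.1
    · fin_cases a
      · exact c0t.1
      · exact c1t.1
      · exact c2t.1
  have h3 := card_prod (fun p : Dir × (Fin 3 → ℤ) => P.IsFacet (p.2, p.1)) hfin
  have bx : ∀ u v : Bool, bi (u && !v) + bi (v && !u) = bi (xor u v) := by decide
  have s0 := TS_shx (hs _ (fun x j l => sec P (x + 1) j l) hsec)
  have s1 := TS_shj (hs _ (fun x j l => sec P x (j + 1) l) hsec)
  have s2 := TS_shl (hs _ (fun x j l => sec P x j (l + 1)) hsec)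
  simp only [sub_add_cancel] at s0 s1 s2
  have t0 : TS N (fun x j l => bi (qX0 P x j l)) =
      TS N (fun x j l => bi (sec P (x - 1) j l && !sec P x j l)) +
      TS N (fun x j l => bi (sec P x j l && !sec P (x - 1) j l)) := by
    rw [← TS_add]
    congr 1
    funext x j l
    exact (bx _ _).symm
  have t1 : TS N (fun x j l => bi (qX1 P x j l)) =
      TS N (fun x j l => bi (sec P x (j - 1) l && !sec P x j l)) +
      TS N (fun x j l => bi (sec P x j l && !sec P x (j - 1) l)) := by
    rw [← TS_add]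
    congr 1
    funext x j l
    exact (bx _ _).symm
  have t2 : TS N (fun x j l => bi (qX2 P x j l)) =
      TS N (fun x j l => bi (sec P x j (l - 1) && !sec P x j l)) +
      TS N (fun x j l => bi (sec P x j l && !sec P x j (l - 1))) := by
    rw [← TS_add]
    congr 1
    funext x j l
    exact (bx _ _).symm
  rw [Nat.card_congr e, h3, Fintype.sum_prod_type, Fin.sum_univ_three]
  simp only [Fintype.sum_bool]
  rw [c0t.2, c0f.2, c1t.2, c1f.2, c2t.2, c2f.2, t0, t1, t2, s0, s1, s2]

end Pool.BW.T5
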