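import Pool.Agent.MP42.BW.T6a

/-! # T6: the dictionary (helper82) -/

set_option autoImplicit false

namespace Pool.BW

open Pool.Agent.Helper55.UNF Pool.Agent.Helper55.UNF.GridSolid Pool.Agent.MP42 Pool.Agent.MP42.NE

namespace T6

variable {P : GridSolid}

lemma vec3 (c : Fin 3 → ℤ) : (![c 0, c 1, c 2] : Fin 3 → ℤ) = c := by
  ext i; fin_cases i <;> rfl

lemma sec_true {x j l : ℤ} : sec P x j l = true ↔ (![x, j, l] : Fin 3 → ℤ) ∈ P.cells := by
  unfold sec
  simp

lemma sec_false {x j l : ℤ} : sec P x j l = false ↔ (![x, j, l] : Fin 3 → ℤ) ∉ P.cells := by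
  unfold sec
  simp

lemma sec_fr (d : Dart P) : sec P (sl d) (jj d) (ll d) = fr d ∧
    sec P (sl d) (jj d - 1) (ll d) = !fr d := by
  obtain ⟨⟨⟨c, ⟨a, s⟩, e⟩, ⟨h1, h2⟩, h3⟩, h4, h5⟩ := d
  simp only at h1 h2 h3 h4 h5
  subst h4
  unfold sl jj ll fr
  cases s
  · simp only [Bool.false_eq_true, if_false, add_zero, Bool.not_false, Bool.not_true]
    rw [sec_true, sec_false, vec3]
    refine ⟨h1, ?_⟩
    have : (![c 0, c 1 - 1, c 2] : Fin 3 → ℤ) = shift c (1, false) := by
      ext i; fin_cases i <;> simp [shift, sub_eq_add_neg]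
    rw [this]
    exact h2
  · simp only [if_true, Bool.not_false, Bool.not_true]
    rw [sec_true, sec_false, add_sub_cancel_right, vec3]
    refine ⟨?_, h1⟩
    have : (![c 0, c 1 + 1, c 2] : Fin 3 → ℤ) = shift c (1, true) := by
      ext i; fin_cases i <;> simp [shift]
    rw [this]
    exact h2

lemma fine_key (d : Dart P) : fine (sec P (sl d)) (ll d) (key (ll d) (jj d) (fr d)) = fr d := by
  obtain ⟨h1, h2⟩ := sec_fr d
  by_cases hl : ll d % 2 = 0
  · rw [fine_even _ hl]
    unfold key
    rw [if_pos hl, show 4 * jj d / 4 = jj d by omega, h1]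
  · unfold key
    rw [if_neg hl]
    cases hf : fr d with
    | true =>
      rw [if_pos rfl, fine_odd1 _ hl, h1, hf]
    | false =>
      rw [hf] at h1
      simp only [Bool.false_eq_true, if_false]
      rw [fine_oddc _ hl, h1]
      simp

lemma sl_mem (d : Dart P) : ∃ c ∈ P.cells, c 0 = sl d := ⟨d.1.1.c, d.1.2.1.1, rfl⟩

/-- the bounding box -/
def Bx (P : GridSolid) (m : ℤ) (n : ℕ) (B : ℤ) : Prop :=
  ∀ c ∈ P.cells, m < c 0 ∧ c 0 < m + n ∧ -B < 4 * c 1 - 8 ∧ 4 * c 1 + 8 < B ∧
      -B < c 2 - 8 ∧ c 2 + 8 < B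

lemma exists_bx (P : GridSolid) : ∃ m n B, Bx P m n B := by
  set M : ℤ := ∑ c ∈ P.cells, (|c 0| + 4 * |c 1| + |c 2|) with hM
  have hpos : ∀ c : Fin 3 → ℤ, 0 ≤ |c 0| + 4 * |c 1| + |c 2| := by
    intro c
    have := abs_nonneg (c 0)
    have := abs_nonneg (c 1)
    have := abs_nonneg (c 2)
    omega
  have hM0 : 0 ≤ M := Finset.sum_nonneg fun c _ => hpos c
  refine ⟨-(M + 1), (2 * M + 3).toNat, M + 20, ?_⟩
  intro c hc
  have h1 : |c 0| + 4 * |c 1| + |c 2| ≤ M :=
    Finset.single_le_sum (f := fun c : Fin 3 → ℤ => |c 0| + 4 * |c 1| + |c 2|)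
      (fun c _ => hpos c) hc
  have h0 := abs_nonneg (c 0)
  have h0' := abs_nonneg (c 1)
  have h0'' := abs_nonneg (c 2)
  have a0 := neg_abs_le (c 0)
  have a1 := neg_abs_le (c 1)
  have a2 := neg_abs_le (c 2)
  have b0 := le_abs_self (c 0)
  have b1 := le_abs_self (c 1)
  have b2 := le_abs_self (c 2)
  have ht : ((2 * M + 3).toNat : ℤ) = 2 * M + 3 := Int.toNat_of_nonneg (by omega)
  rw [ht]
  refine ⟨?_, ?_, ?_, ?_, ?_, ?_⟩ <;> omega

lemma sec_out {m : ℤ} {n : ℕ} {B : ℤ} (hB : Bx P m n B) {x : ℤ} (hx : x ≤ m ∨ m + n ≤ x)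
    (j l : ℤ) : sec P x j l = false := by
  rw [sec_false]
  intro h
  obtain ⟨h1, h2, -⟩ := hB _ h
  simp only [Matrix.cons_val_zero] at h1 h2
  omega

lemma fine_false {S : ℤ → ℤ → Bool} (h : ∀ j l, S j l = false) (l κ : ℤ) :
    fine S l κ = false := by
  unfold fine
  split_ifs
  · exact h _ _
  · exact h _ _
  · rw [h]; rfl

lemma fine_supp {S : ℤ → ℤ → Bool} {B : ℤ}
    (h : ∀ j l, S j l = true → -B < 4 * j - 8 ∧ 4 * j + 8 < B ∧ -B < l - 8 ∧ l + 8 < B) :
    Supp B (fine S) := by
  intro l x hx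
  unfold fine at hx
  split_ifs at hx
  · have := h _ _ hx
    omega
  · have := h _ _ hx
    omega
  · rw [Bool.and_eq_true] at hx
    have := h _ _ hx.2
    omega

/-- the movie -/
abbrev Om (P : GridSolid) (m : ℤ) (i : ℕ) : St := fine (sec P (m + i))

lemma mv {m : ℤ} {n : ℕ} {B : ℤ} (hB : Bx P m n B) {A : ℤ → Bool} (hA : Planes P A) :
    Mv n B (Om P m) (fun i => A (m + i + 1)) where
  brick := fun i _ => brick_fine _
  supp := fun i _ => fine_supp fun j l h => by
    have := hB _ (sec_true.1 h)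
    simp only [Matrix.cons_val_one, Matrix.cons_val_zero, Matrix.cons_val] at this
    exact this.2.2
  zero := fun l x => fine_false (fun j l => sec_out hB (Or.inl (by simp)) j l) l x
  last := fun l x => fine_false (fun j l => sec_out hB (Or.inr le_rfl) j l) l x
  add := fun i _ hAi l x h => by
    refine fine_mono (fun j l h => ?_) l x h
    have := hA.1 (m + i + 1) j l hAi (by rw [add_sub_cancel_right]; exact h)
    rw [show m + ((i + 1 : ℕ) : ℤ) = m + i + 1 by push_cast; ring]
    exact this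
  rem := fun i _ hAi l x h => by
    refine fine_mono (fun j l h => ?_) l x h
    rw [show m + ((i + 1 : ℕ) : ℤ) = m + i + 1 by push_cast; ring] at h
    have := hA.2 (m + i + 1) j l hAi h
    rw [add_sub_cancel_right] at this
    exact this

lemma rN_e (d : Dart P) : (rN P d).1.1.e = d.1.1.e := by
  show (retFun pN IsDart d.1).1.e = _
  rw [retFun_pN_e]

lemma can_rN (d : Dart P) : Can (rN P d) ↔ Can d := by
  unfold Can
  rw [rN_e]

lemma can_rN_symm (d : Dart P) : Can ((rN P).symm d) ↔ Can d := by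
  rw [← can_rN ((rN P).symm d), Equiv.apply_symm_apply]

lemma dart_e (d : Dart P) : d.1.1.e = (0, true) ∨ d.1.1.e = (0, false) := by
  obtain ⟨⟨⟨c, ⟨a, s⟩, ⟨e1, e2⟩⟩, ⟨h1, h2⟩, h3⟩, h4, h5⟩ := d
  simp only at h5
  subst h5
  cases e2
  · exact Or.inr rfl
  · exact Or.inl rfl

lemma can_r2 (d : Dart P) : Can (r2D P d) ↔ ¬ Can d := by
  show opp d.1.1.e = (0, true) ↔ ¬ d.1.1.e = (0, true)
  rcases dart_e d with h | h <;> rw [h] <;> decide

lemma xe_can {d : Dart P} (h : Can d) : xe d = sl d + 1 := by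
  unfold xe sl
  have : d.1.1.e = (0, true) := h
  rw [this]
  simp

lemma xw_can {d : Dart P} (h : Can d) : xw d = sl d := by
  unfold xw sl
  have : d.1.1.e = (0, true) := h
  rw [this]
  simp

lemma xe_ncan {d : Dart P} (h : ¬ Can d) : xe d = sl d := by
  unfold xe sl
  have : d.1.1.e = (0, false) := (dart_e d).resolve_left h
  rw [this]
  simp

lemma xw_ncan {d : Dart P} (h : ¬ Can d) : xw d = sl d + 1 := by
  unfold xw sl
  have : d.1.1.e = (0, false) := (dart_e d).resolve_left h
  rw [this]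
  simp

lemma N_invol (d : Dart P) : r2D P (rN P (r2D P (rN P d))) = d := (sysP P).rN d

lemma r2_invol (d : Dart P) : r2D P (r2D P d) = d := (sysP P).rr d

theorem tr (hP : P.IsOrthogonalPolyhedron) {m : ℤ} {n : ℕ} {B : ℤ} (hB : Bx P m n B)
    {A : ℤ → Bool} (hA : Planes P A) : Tr n (Om P m) := by
  classical
  intro φ W hrun hl hr hring
  have hc : ∀ i : ℕ, m + ((i + 1 : ℕ) : ℤ) = m + i + 1 := fun i => by push_cast; ring
  have hco : ∀ i : ℕ, ∃ W' : ℤ → ℤ → Prop, i < n →
      (∀ l j, sec P (m + i) j l ≠ sec P (m + i + 1) j l → (W' l j ↔ W' l (j + 1))) ∧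
      (∀ l x, al (fine (sec P (m + i))) l x → (W i l x ↔ W' l (pt x))) ∧
      (∀ l x, al (fine (sec P (m + i + 1))) l x → (W i l x ↔ W' l (pt x))) := by
    intro i
    by_cases hi : i < n
    · cases hAi : A (m + i + 1) with
      | true =>
        obtain ⟨W', h1, h2, h3⟩ := coarse (S := sec P (m + i)) (S' := sec P (m + i + 1))
          (fun j l h => hA.1 (m + i + 1) j l hAi (by rw [add_sub_cancel_right]; exact h))
          (W i) (fun l x hx hne => hring i hi l x hx (by
            show fine (sec P (m + i)) l x ≠ fine (sec P (m + ((i + 1 : ℕ) : ℤ))) l x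
            rw [hc]; exact hne))
        exact ⟨W', fun _ => ⟨h1, h2, h3⟩⟩
      | false =>
        obtain ⟨W', h1, h2, h3⟩ := coarse (S := sec P (m + i + 1)) (S' := sec P (m + i))
          (fun j l h => by
            have := hA.2 (m + i + 1) j l hAi h
            rwa [add_sub_cancel_right] at this)
          (W i) (fun l x hx hne => hring i hi l x hx (by
            show fine (sec P (m + i)) l x ≠ fine (sec P (m + ((i + 1 : ℕ) : ℤ))) l x
            rw [hc]; exact hne.symm))
        exact ⟨W', fun _ => ⟨fun l j h => h1 l j h.symm, h3, h2⟩⟩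
    · exact ⟨fun _ _ => True, fun h => absurd h hi⟩
  choose W' hW' using hco
  let ψ : Dart P → Prop := fun d => φ (sl d - m).toNat (ll d) (key (ll d) (jj d) (fr d))
  let V : ℤ → ℤ → ℤ → Prop := fun x l j =>
    if m < x ∧ x ≤ m + n then W' (x - m - 1).toNat l j else True
  have hV : ∀ x l j, sec P (x - 1) j l ≠ sec P x j l → (V x l j ↔ V x l (j + 1)) := by
    intro x l j hne
    by_cases hx : m < x ∧ x ≤ m + n
    · simp only [V, hx, and_self, if_true]
      have ht : (((x - m - 1).toNat : ℕ) : ℤ) = x - m - 1 := Int.toNat_of_nonneg (by omega)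
      refine (hW' (x - m - 1).toNat (by omega)).1 l j ?_
      rw [ht, show m + (x - m - 1) = x - 1 by ring, show x - 1 + 1 = x by ring]
      exact hne
    · simp only [V, hx, if_false]
  have hbd : ∀ d : Dart P, m < sl d ∧ sl d < m + n := by
    intro d
    obtain ⟨c, hc, h⟩ := sl_mem d
    rw [← h]
    exact ⟨(hB c hc).1, (hB c hc).2.1⟩
  have hV1 : ∀ d, ψ d ↔ V (sl d + 1) (ll d) (jj d) := by
    intro d
    obtain ⟨h1, h2⟩ := hbd d
    have hx : m < sl d + 1 ∧ sl d + 1 ≤ m + n := by omega
    simp only [V, hx, and_self, if_true, ψ]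
    have ht : ((sl d - m).toNat : ℤ) = sl d - m := Int.toNat_of_nonneg (by omega)
    have hin : (sl d - m).toNat < n := by omega
    have ha := al_of_dart d
    have hs : m + ((sl d - m).toNat : ℤ) = sl d := by rw [ht]; ring
    have e1 := hl (sl d - m).toNat hin (ll d) (key (ll d) (jj d) (fr d)) (by
      show al (fine (sec P (m + ((sl d - m).toNat : ℤ)))) _ _
      rw [hs]; exact ha)
    have e2 := (hW' (sl d - m).toNat hin).2.1 (ll d) (key (ll d) (jj d) (fr d)) (by
      rw [hs]; exact ha)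
    rw [pt_key] at e2
    rw [e1, e2, show sl d + 1 - m - 1 = sl d - m by ring]
  have hV2 : ∀ d, ψ d ↔ V (sl d) (ll d) (jj d) := by
    intro d
    obtain ⟨h1, h2⟩ := hbd d
    have hx : m < sl d ∧ sl d ≤ m + n := by omega
    simp only [V, hx, and_self, if_true, ψ]
    have ht : ((sl d - m - 1).toNat : ℤ) = sl d - m - 1 := Int.toNat_of_nonneg (by omega)
    have ht1 : (sl d - m).toNat = (sl d - m - 1).toNat + 1 := by omega
    have hin : (sl d - m - 1).toNat < n := by omega
    have ha := al_of_dart d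
    have hs : m + ((sl d - m - 1).toNat : ℤ) + 1 = sl d := by rw [ht]; ring
    rw [ht1]
    have e1 := hr (sl d - m - 1).toNat hin (ll d) (key (ll d) (jj d) (fr d)) (by
      show al (fine (sec P (m + (((sl d - m - 1).toNat + 1 : ℕ) : ℤ)))) _ _
      rw [hc, hs]; exact ha)
    have e2 := (hW' (sl d - m - 1).toNat hin).2.2 (ll d) (key (ll d) (jj d) (fr d)) (by
      rw [hs]; exact ha)
    rw [pt_key] at e2
    rw [e1, e2]
  have hxe : ∀ d, ψ d ↔ V (xe d) (ll d) (jj d) := by
    intro d
    by_cases h : Can d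
    · rw [xe_can h]; exact hV1 d
    · rw [xe_ncan h]; exact hV2 d
  have hxw : ∀ d, ψ d ↔ V (xw d) (ll d) (jj d) := by
    intro d
    by_cases h : Can d
    · rw [xw_can h]; exact hV2 d
    · rw [xw_ncan h]; exact hV1 d
  have hE : ∀ d, ψ (phi P d) ↔ ψ d := by
    intro d
    obtain ⟨h1, h2, h3⟩ := ring_link hP.1 V hV d
    rw [hxe d, h3, hxw (phi P d), h1, h2]
  have hr2 : ∀ d, ψ (r2D P d) ↔ ψ d := fun d => Iff.rfl
  have hN0 : ∀ d, Can d → (ψ (rN P d) ↔ ψ d) := by
    intro d hd
    obtain ⟨h1, h2, k, h3, h4, h5, h6⟩ := arc_rN hP.1 d hd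
    obtain ⟨b1, b2⟩ := hbd d
    have ht : m + ((sl d - m).toNat : ℤ) = sl d := by
      rw [Int.toNat_of_nonneg (by omega)]; ring
    have hin : (sl d - m).toNat ≤ n := by omega
    simp only [ψ, h2]
    rcases h6 with h6 | h6
    · have := hrun (sl d - m).toNat hin k _ _ (by
        show Run (cc (fine (sec P (m + ((sl d - m).toNat : ℤ)))) k) _ _
        rw [ht]; exact h6)
      rw [h4, h5] at this
      exact this.symm
    · have := hrun (sl d - m).toNat hin k _ _ (by
        show Run (cc (fine (sec P (m + ((sl d - m).toNat : ℤ)))) k) _ _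
        rw [ht]; exact h6)
      rw [h4, h5] at this
      exact this
  have hN : ∀ d, ψ (rN P d) ↔ ψ d := by
    intro d
    by_cases hd : Can d
    · exact hN0 d hd
    · have h1 : Can (r2D P (rN P d)) := by
        rw [can_r2, can_rN]; exact hd
      have h2 := hN0 _ h1
      have h3 : rN P (r2D P (rN P d)) = r2D P d := by
        have := N_invol d
        have := congrArg (r2D P) this
        rwa [r2_invol] at this
      rw [h3] at h2
      exact h2.symm
  intro i hi j hj l x l' x' hx hx'
  obtain ⟨d, -, s1, s2, s3⟩ := dart_of_al hx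
  obtain ⟨d', -, t1, t2, t3⟩ := dart_of_al hx'
  have hT := trans_sysP hP.1 hP.2
  have e1 : φ i l x ↔ ψ d := by
    simp only [ψ]
    rw [s3, s2, s1, show (m + (i : ℤ) - m).toNat = i by omega]
  have e2 : φ j l' x' ↔ ψ d' := by
    simp only [ψ]
    rw [t3, t2, t1, show (m + (j : ℤ) - m).toNat = j by omega]
  rw [e1, e2]
  exact ⟨hT ψ hE hN hr2 d d', hT ψ hE hN hr2 d' d⟩

/-! ### the family -/

/-- the value of the arc at a point in the strips of class `e` -/
def gam (ν : Dart P → Prop) (m : ℤ) (e : Bool) (i : ℕ) (l κ : ℤ) : Prop :=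
  ∃ d : Dart P, Can d ∧ sl d = m + i ∧ ll d = l ∧ key (ll d) (jj d) (fr d) = κ ∧
    (if xor (fr d) (par (ll d)) = e then ν d else ν ((rN P).symm d))

lemma gam_eq {ν : Dart P → Prop} {m : ℤ} {e : Bool} {i : ℕ} {l κ : ℤ} {d : Dart P} (hd : Can d)
    (h1 : sl d = m + i) (h2 : ll d = l) (h3 : key (ll d) (jj d) (fr d) = κ) :
    gam ν m e i l κ ↔ (if xor (fr d) (par (ll d)) = e then ν d else ν ((rN P).symm d)) := by
  constructor
  · rintro ⟨d', hd', h1', h2', h3', h4⟩
    have : d' = d := by
      refine dart_inj hd' hd (h1'.trans h1.symm) (h2'.trans h2.symm) ?_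
      have := congrArg pt (h3'.trans h3.symm)
      rwa [pt_key, pt_key] at this
    rw [this] at h4
    exact h4
  · intro h
    exact ⟨d, hd, h1, h2, h3, h⟩

lemma cl_dart {d : Dart P} : cl (fine (sec P (sl d))) (ll d) (key (ll d) (jj d) (fr d)) =
    xor (fr d) (par (ll d)) := by
  unfold cl
  rw [fine_key]

lemma xor_par {d : Dart P} {k : ℤ} (hk : ll d = k ∨ ll d = k - 1) :
    (k = if fr d then ll d + 1 else ll d) ↔ xor (fr d) (par (ll d)) = par k := by
  rcases hk with hk | hk
  · rw [hk]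
    cases fr d <;> simp
  · rw [hk, par_pred]
    cases fr d <;> cases par k <;> simp <;> omega

/-- an arc that leaves the point `d` in the strip `k` ends in `rN d` and enters it -/
lemma arc_out (hM : P.IsManifold) {d : Dart P} (hd : Can d) {k a b : ℤ}
    (hk : ll d = k ∨ ll d = k - 1) (ho : xor (fr d) (par (ll d)) = par k)
    (hr : Run (cc (fine (sec P (sl d))) k) a b ∨ Run (cc (fine (sec P (sl d))) k) b a)
    (ha : key (ll d) (jj d) (fr d) = a) :
    row k b = ll (rN P d) ∧ b = key (ll (rN P d)) (jj (rN P d)) (fr (rN P d)) ∧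
      xor (fr (rN P d)) (par (ll (rN P d))) = !par k := by
  obtain ⟨h1, h2, k', h3, h4, h5, h6⟩ := arc_rN hM d hd
  have hkk : k = k' := by
    rw [h3]
    exact (xor_par hk).2 ho
  subst hkk
  rw [ha] at h4 h6
  have hb : b = key (ll (rN P d)) (jj (rN P d)) (fr (rN P d)) := by
    rcases hr with hr | hr <;> rcases h6 with h6 | h6
    · exact run_unique hr h6
    · exact (run_not hr h6).elim
    · exact (run_not h6 hr).elim
    · exact run_unique' hr h6
  refine ⟨?_, hb, ?_⟩
  · rw [hb, h5]
  · have hc : cl (fine (sec P (sl d))) (row k b) b = !cl (fine (sec P (sl d))) (row k a) a := by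
      have hbr := brick_fine (sec P (sl d))
      rcases hr with hr | hr
      · rw [(run_left hbr hr).2, (run_right hbr hr).2]
      · rw [(run_left hbr hr).2, (run_right hbr hr).2, Bool.not_not]
    rw [h4, ← ha, cl_dart, ho] at hc
    rw [hb, h5, ← h2, cl_dart] at hc
    exact hc

end T6

/-- T6 -/
theorem univ_const' {P : GridSolid} (hP : P.IsOrthogonalPolyhedron) {A : ℤ → Bool}
    (hA : Planes P A)
    (hE : eul P = 2) (ν v : Dart P → Prop) (hv : ∀ d, v d ↔ v (r2D P (phi P d)))
    (he : ∀ d, Can d → (v d ↔ val A ν (xe d) d)) (hw : ∀ d, Can d → (v (r2D P d) ↔ val A ν (xw d) d)) :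
    ∀ p q, Can p → Can q → (ν p ↔ ν q) := by
  classical
  obtain ⟨m, n, B, hB⟩ := T6.exists_bx P
  obtain ⟨W, hW1, hW2⟩ := ring_W hP.1 v hv
  have hc : ∀ i : ℕ, m + ((i + 1 : ℕ) : ℤ) = m + i + 1 := fun i => by push_cast; ring
  have hmv := T6.mv hB hA
  have htr := T6.tr hP hB hA
  have hchi : 12 ≤ ∑ i ∈ Finset.range n, sgn (A (m + i + 1)) *
      (chi6 B (T6.Om P m (i + 1)) - chi6 B (T6.Om P m i)) := by
    have h1 := chi_eul hP.1 hA m n B hB
    rw [hE] at h1
    have h2 : ∑ i ∈ Finset.range n, sgn (A (m + i + 1)) *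
      (chi6 B (T6.Om P m (i + 1)) - chi6 B (T6.Om P m i)) =
      ∑ i ∈ Finset.range n, sgn (A (m + i + 1)) *
      (chi6 B (fine (sec P (m + i + 1))) - chi6 B (fine (sec P (m + i)))) := by
      refine Finset.sum_congr rfl fun i _ => ?_
      show sgn (A (m + i + 1)) * (chi6 B (fine (sec P (m + ((i + 1 : ℕ) : ℤ)))) - _) = _
      rw [hc]
    rw [h2, h1]
    norm_num
  have hF : Fam n (T6.Om P m) (fun i => A (m + i + 1)) (T6.gam ν m)
      (fun i l κ => W (m + i + 1) l (pt κ)) := by
    refine ⟨?_, ?_, ?_, ?_⟩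
    · intro i hi k a b hr
      have hbr := brick_fine (sec P (m + i))
      obtain ⟨a1, a2⟩ := T6.run_left hbr hr
      obtain ⟨b1, b2⟩ := T6.run_right hbr hr
      obtain ⟨d, hd, s1, s2, s3⟩ := dart_of_al a1
      obtain ⟨d', hd', t1, t2, t3⟩ := dart_of_al b1
      rw [T6.gam_eq hd s1 s2 s3, T6.gam_eq hd' t1 t2 t3]
      have hcd : xor (fr d) (par (ll d)) = cl (fine (sec P (m + i))) (row k a) a := by
        rw [← T6.cl_dart, s3, s2, s1]
      have hcd' : xor (fr d') (par (ll d')) = cl (fine (sec P (m + i))) (row k b) b := by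
        rw [← T6.cl_dart, t3, t2, t1]
      have hop : xor (fr d') (par (ll d')) = !(xor (fr d) (par (ll d))) := by
        rw [hcd, hcd', a2, b2]
      have hka : ll d = k ∨ ll d = k - 1 := by
        rw [s2]
        rcases T6.row_cases k a with h | h
        · exact Or.inl h.1
        · exact Or.inr h.1
      have hkb : ll d' = k ∨ ll d' = k - 1 := by
        rw [t2]
        rcases T6.row_cases k b with h | h
        · exact Or.inl h.1
        · exact Or.inr h.1
      by_cases ho : xor (fr d) (par (ll d)) = par k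
      · -- the arc leaves `d`
        have hr' : Run (cc (fine (sec P (sl d))) k) a b := by rw [s1]; exact hr
        obtain ⟨u1, u2, u3⟩ := T6.arc_out hP.1 hd hka ho (Or.inl hr') s3
        have hdd : d' = rN P d := by
          refine dart_inj hd' ((T6.can_rN d).2 hd) ?_ ?_ ?_
          · rw [t1, ← s1]
            exact ((arc_rN hP.1 d hd).2.1).symm
          · rw [t2, u1]
          · have := congrArg pt (t3.trans u2)
            rwa [T6.pt_key, T6.pt_key] at this
        rw [if_pos ho, if_neg (by rw [hop, ho]; simp), hdd, Equiv.symm_apply_apply]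
      · -- the arc leaves `d'`
        have ho' : xor (fr d') (par (ll d')) = par k := by
          rw [hop]
          revert ho
          cases xor (fr d) (par (ll d)) <;> cases par k <;> simp
        have hr' : Run (cc (fine (sec P (sl d'))) k) a b := by rw [t1]; exact hr
        obtain ⟨u1, u2, u3⟩ := T6.arc_out hP.1 hd' hkb ho' (Or.inr hr') t3
        have hdd : d = rN P d' := by
          refine dart_inj hd ((T6.can_rN d').2 hd') ?_ ?_ ?_
          · rw [s1, ← t1]
            exact ((arc_rN hP.1 d' hd').2.1).symm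
          · rw [s2, u1]
          · have := congrArg pt (s3.trans u2)
            rwa [T6.pt_key, T6.pt_key] at this
        rw [if_neg ho, if_pos ho', hdd, Equiv.symm_apply_apply]
    · intro i hi e l x ha hcl
      obtain ⟨d, hd, s1, s2, s3⟩ := dart_of_al ha
      rw [T6.gam_eq hd s1 s2 s3]
      have h1 := he d hd
      rw [← hW2 d, T6.xe_can hd, s1, s2] at h1
      have hcd : xor (fr d) (par (ll d)) = (e == A (m + i + 1)) := by
        rw [← hcl, ← T6.cl_dart, s3, s2, s1]
      have hpt : pt x = jj d := by rw [← s3, T6.pt_key]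
      show _ ↔ W (m + i + 1) l (pt x)
      rw [hpt, h1, hcd]
      unfold val
      cases e <;> cases A (m + i + 1) <;> simp
    · intro i hi e l x ha hcl
      obtain ⟨d, hd, s1, s2, s3⟩ := dart_of_al ha
      rw [T6.gam_eq hd s1 s2 s3]
      have h1 := hw d hd
      rw [← hW2 (r2D P d), T6.xe_ncan (fun h => (T6.can_r2 d).1 h hd), T6.xw_can hd] at h1
      have hs : sl (r2D P d) = sl d := rfl
      have hl : ll (r2D P d) = ll d := rfl
      have hj : jj (r2D P d) = jj d := rfl
      rw [hs, hl, hj, s1, s2, hc] at h1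
      have hcd : xor (fr d) (par (ll d)) = (e == A (m + i + 1)) := by
        rw [← hcl, ← T6.cl_dart, s3, s2, s1]
      have hpt : pt x = jj d := by rw [← s3, T6.pt_key]
      show _ ↔ W (m + i + 1) l (pt x)
      rw [hpt, h1, hcd]
      unfold val
      cases e <;> cases A (m + i + 1) <;> simp
    · intro i hi l x hx hne
      show W (m + i + 1) l (pt x) ↔ W (m + i + 1) l (pt (x + 2))
      have hne' : fine (sec P (m + i)) l x ≠ fine (sec P (m + i + 1)) l x := by
        have h0 : T6.Om P m (i + 1) = fine (sec P (m + i + 1)) := by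
          show fine (sec P (m + ((i + 1 : ℕ) : ℤ))) = _
          rw [hc]
        rw [h0] at hne
        exact hne
      have hw1 : ∀ j, sec P (m + i) j l ≠ sec P (m + i + 1) j l →
          (W (m + i + 1) l j ↔ W (m + i + 1) l (j + 1)) := by
        intro j hj
        refine hW1 (m + i + 1) l j ?_
        rw [add_sub_cancel_right]
        exact hj
      by_cases hl : l % 2 = 0
      · rw [T6.fine_even _ hl, T6.fine_even _ hl] at hne'
        have h1 := hw1 _ hne'
        rcases Int.emod_two_eq_zero_or_one (x / 2) with h2 | h2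
        · rw [show pt x = pt (x + 2) by unfold pt; omega]
        · rw [show pt x = x / 4 by unfold pt; omega, show pt (x + 2) = x / 4 + 1 by unfold pt; omega]
          exact h1
      · rcases Int.emod_two_eq_zero_or_one (x / 2) with h2 | h2
        · obtain ⟨j, rfl⟩ : ∃ j, x = 4 * j + 1 := ⟨x / 4, by omega⟩
          rw [T6.fine_odd1 _ hl, T6.fine_odd1 _ hl] at hne'
          rw [show pt (4 * j + 1) = j by unfold pt; omega,
            show pt (4 * j + 1 + 2) = j + 1 by unfold pt; omega]
          exact hw1 _ hne'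
        · rw [show pt x = pt (x + 2) by unfold pt; omega]
  obtain ⟨c, hcon⟩ := brick_movie hmv hchi htr hF
  have key : ∀ p, Can p → (ν p ↔ c) := by
    intro p hp
    obtain ⟨c0, hc0, h0⟩ := T6.sl_mem p
    have hb := hB c0 hc0
    rw [h0] at hb
    have ht : sl p = m + ((sl p - m).toNat : ℤ) := by
      rw [Int.toNat_of_nonneg (by omega)]; ring
    have ha := al_of_dart p
    have h1 := hcon (sl p - m).toNat (by omega) (xor (fr p) (par (ll p))) (ll p)
      (key (ll p) (jj p) (fr p)) (by
        show al (fine (sec P (m + ((sl p - m).toNat : ℤ)))) _ _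
        rw [← ht]
        exact ha)
    rw [T6.gam_eq hp ht rfl rfl, if_pos rfl] at h1
    exact h1
  intro p q hp hq
  rw [key p hp, key q hq]

end Pool.BW
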