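import Pool.Agent.MP42.BW.BM
import Pool.Agent.MP42.BW.T3
import Pool.Agent.MP42.BW.T4
import Pool.Agent.MP42.BW.T5

/-! # T6, first part: runs, fine positions and rings (helper82) -/

set_option autoImplicit false

namespace Pool.BW.T6

open Pool.Agent.Helper55.UNF Pool.Agent.Helper55.UNF.GridSolid Pool.Agent.MP42 Pool.Agent.MP42.NE

/-! ### runs -/

lemma par_pred (k : ℤ) : par (k - 1) = !par k := by
  unfold par
  rcases Int.emod_two_eq_zero_or_one k with h | h
  · have h1 : (k - 1) % 2 = 1 := by omega
    simp [h, h1]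
  · have h1 : (k - 1) % 2 = 0 := by omega
    simp [h, h1]

lemma row_cases (k x : ℤ) :
    (row k x = k ∧ (x - k) % 2 = 0) ∨ (row k x = k - 1 ∧ (x - k) % 2 ≠ 0) := by
  unfold row
  split_ifs with h
  · exact Or.inl ⟨rfl, h⟩
  · exact Or.inr ⟨rfl, h⟩

lemma run_const {o : St} (h : Brick o) {k a b : ℤ} (hr : Run (cc o k) a b) :
    ∀ x, a ≤ x → x < b → o k x = o k a ∧ o (k - 1) x = o (k - 1) a := by
  intro x hx
  induction x, hx using Int.leInduction with
  | base => intro _; exact ⟨rfl, rfl⟩
  | succ x hx ih =>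
    intro hxb
    obtain ⟨h1, h2⟩ := ih (by omega)
    have c1 := hr.2.2.2 x hx (by omega)
    have c2 := hr.2.2.2 (x + 1) (by omega) hxb
    unfold cc at c1 c2
    rcases Int.emod_two_eq_zero_or_one (x - k) with hp | hp
    · have h3 := h k x hp
      rw [← h3] at c2 ⊢
      rw [h1, h2] at c1
      rw [h1] at c2 ⊢
      refine ⟨rfl, ?_⟩
      revert c1 c2
      cases o k a <;> cases o (k - 1) a <;> cases o (k - 1) (x + 1) <;> simp
    · have h3 := h (k - 1) x (by omega)
      rw [← h3] at c2 ⊢
      rw [h1, h2] at c1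
      rw [h2] at c2 ⊢
      refine ⟨?_, rfl⟩
      revert c1 c2
      cases o k a <;> cases o (k - 1) a <;> cases o k (x + 1) <;> simp

lemma run_left {o : St} (h : Brick o) {k a b : ℤ} (hr : Run (cc o k) a b) :
    al o (row k a) a ∧ cl o (row k a) a = xor (o k a) (par k) := by
  have c1 := hr.2.1
  have c2 := hr.2.2.2 a le_rfl hr.1
  unfold cc at c1 c2
  unfold al cl
  rcases row_cases k a with ⟨h1, h2⟩ | ⟨h1, h2⟩
  · have h3 := h (k - 1) (a - 1) (by omega)
    rw [show a - 1 + 1 = a by ring] at h3
    rw [h1]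
    refine ⟨?_, rfl⟩
    rw [h3] at c1
    revert c1 c2
    cases o k a <;> cases o (k - 1) a <;> cases o k (a - 1) <;> simp
  · have h3 := h k (a - 1) (by omega)
    rw [show a - 1 + 1 = a by ring] at h3
    rw [h1, par_pred]
    rw [h3] at c1
    revert c1 c2
    cases o k a <;> cases o (k - 1) a <;> cases o (k - 1) (a - 1) <;> cases par k <;> simp

lemma run_right {o : St} (h : Brick o) {k a b : ℤ} (hr : Run (cc o k) a b) :
    al o (row k b) b ∧ cl o (row k b) b = !(xor (o k a) (par k)) := by
  obtain ⟨h4, h5⟩ := run_const h hr (b - 1) (by have := hr.1; omega) (by omega)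
  have c1 := hr.2.2.1
  have c2 := hr.2.2.2 (b - 1) (by have := hr.1; omega) (by omega)
  unfold cc at c1 c2
  unfold al cl
  rw [← h4]
  rcases row_cases k b with ⟨h1, h2⟩ | ⟨h1, h2⟩
  · have h3 := h (k - 1) (b - 1) (by omega)
    rw [show b - 1 + 1 = b by ring] at h3
    rw [h1]
    rw [← h3] at c1
    revert c1 c2
    cases o k b <;> cases o (k - 1) (b - 1) <;> cases o k (b - 1) <;> cases par k <;> simp
  · have h3 := h k (b - 1) (by omega)
    rw [show b - 1 + 1 = b by ring] at h3
    rw [h1, par_pred]
    rw [← h3] at c1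
    revert c1 c2
    cases o k (b - 1) <;> cases o (k - 1) b <;> cases o (k - 1) (b - 1) <;> cases par k <;> simp

lemma run_unique {c : ℤ → Bool} {a b b' : ℤ} (h : Run c a b) (h' : Run c a b') : b = b' := by
  rcases lt_trichotomy b b' with hlt | heq | hlt
  · have h1 := h'.2.2.2 b h.1.le hlt
    rw [h.2.2.1] at h1
    exact absurd h1 (by simp)
  · exact heq
  · have h1 := h.2.2.2 b' h'.1.le hlt
    rw [h'.2.2.1] at h1
    exact absurd h1 (by simp)

lemma run_unique' {c : ℤ → Bool} {a a' b : ℤ} (h : Run c a b) (h' : Run c a' b) : a = a' := by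
  rcases lt_trichotomy a a' with hlt | heq | hlt
  · have h1 := h.2.2.2 (a' - 1) (by omega) (by have := h'.1; omega)
    rw [h'.2.1] at h1
    exact absurd h1 (by simp)
  · exact heq
  · have h1 := h'.2.2.2 (a - 1) (by omega) (by have := h.1; omega)
    rw [h.2.1] at h1
    exact absurd h1 (by simp)

lemma run_not {c : ℤ → Bool} {a b b' : ℤ} (h : Run c a b) (h' : Run c b' a) : False := by
  have h1 := h'.2.2.2 (a - 1) (by have := h'.1; omega) (by omega)
  rw [h.2.1] at h1
  exact absurd h1 (by simp)

/-! ### fine positions -/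

lemma pt_key (l j : ℤ) (f : Bool) : pt (key l j f) = j := by
  unfold pt key
  split_ifs <;> omega

lemma pt_four (j : ℤ) : pt (4 * j) = j := by unfold pt; omega

lemma fine_mono {S S' : ℤ → ℤ → Bool} (h : ∀ j l, S j l = true → S' j l = true) (l κ : ℤ)
    (hf : fine S l κ = true) : fine S' l κ = true := by
  unfold fine at hf ⊢
  split_ifs at hf ⊢
  · exact h _ _ hf
  · exact h _ _ hf
  · rw [Bool.and_eq_true] at hf ⊢
    exact ⟨h _ _ hf.1, h _ _ hf.2⟩

lemma fine_even (S : ℤ → ℤ → Bool) {l : ℤ} (hl : l % 2 = 0) (κ : ℤ) :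
    fine S l κ = S (κ / 4) l := by
  unfold fine
  rw [if_pos hl]

lemma fine_odd1 (S : ℤ → ℤ → Bool) {l : ℤ} (hl : l % 2 ≠ 0) (j : ℤ) :
    fine S l (4 * j + 1) = S j l := by
  unfold fine
  rw [if_neg hl, if_pos (Or.inl (by omega)), show (4 * j + 1) / 4 = j by omega]

lemma fine_oddc (S : ℤ → ℤ → Bool) {l : ℤ} (hl : l % 2 ≠ 0) (j : ℤ) :
    fine S l (4 * j - 1) = (S (j - 1) l && S j l) := by
  unfold fine
  rw [if_neg hl, if_neg (by omega), show (4 * j - 1 + 1) / 4 = j by omega]

/-- the ring predicate in the coarse coordinates -/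
lemma coarse {S S' : ℤ → ℤ → Bool} (h : ∀ j l, S j l = true → S' j l = true)
    (W : ℤ → ℤ → Prop)
    (hW : ∀ l x, (x - l) % 2 = 0 → fine S l x ≠ fine S' l x → (W l x ↔ W l (x + 2))) :
    ∃ W' : ℤ → ℤ → Prop, (∀ l j, S j l ≠ S' j l → (W' l j ↔ W' l (j + 1))) ∧
      (∀ l x, al (fine S) l x → (W l x ↔ W' l (pt x))) ∧
      (∀ l x, al (fine S') l x → (W l x ↔ W' l (pt x))) := by
  classical
  have hne : ∀ j l, S j l ≠ S' j l → S j l = false ∧ S' j l = true := by
    intro j l hn
    have := h j l
    revert hn this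
    cases S j l <;> cases S' j l <;> simp
  refine ⟨fun l j => if l % 2 = 0 then W l (4 * j) else
    if S' (j - 1) l = true then W l (4 * j - 1) else W l (4 * j + 1), ?_, ?_, ?_⟩
  · intro l j hn
    obtain ⟨h1, h2⟩ := hne j l hn
    by_cases hl : l % 2 = 0
    · simp only [hl, if_true]
      have e1 := hW l (4 * j) (by omega) (by
        rw [fine_even S hl, fine_even S' hl, show 4 * j / 4 = j by omega]; exact hn)
      have e2 := hW l (4 * j + 2) (by omega) (by
        rw [fine_even S hl, fine_even S' hl, show (4 * j + 2) / 4 = j by omega]; exact hn)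
      rw [e1, e2, show 4 * j + 2 + 2 = 4 * (j + 1) by ring]
    · simp only [hl, if_false]
      rw [show j + 1 - 1 = j by ring, if_pos h2]
      have e1 := hW l (4 * j + 1) (by omega) (by
        rw [fine_odd1 S hl, fine_odd1 S' hl]; exact hn)
      rw [show 4 * (j + 1) - 1 = 4 * j + 1 + 2 by ring]
      by_cases h3 : S' (j - 1) l = true
      · rw [if_pos h3]
        have e2 := hW l (4 * j - 1) (by omega) (by
          rw [fine_oddc S hl, fine_oddc S' hl, h1, h2, h3]; simp)
        rw [e2, show 4 * j - 1 + 2 = 4 * j + 1 by ring, e1]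
      · rw [if_neg h3]
        exact e1
  · intro l x hx
    obtain ⟨h1, h2⟩ := (al_fine S l x).1 hx
    set j := pt x with hj
    by_cases hl : l % 2 = 0
    · simp only [hl, if_true]
      rw [h2]
      unfold key
      rw [if_pos hl]
    · simp only [hl, if_false]
      have hk : x = if S j l then 4 * j + 1 else 4 * j - 1 := by
        rw [h2]
        unfold key
        rw [if_neg hl]
      cases hS : S j l with
      | true =>
        rw [hS, if_pos rfl] at hk
        rw [hk]
        by_cases h3 : S' (j - 1) l = true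
        · rw [if_pos h3]
          have e2 := hW l (4 * j - 1) (by omega) (by
            rw [fine_oddc S hl, fine_oddc S' hl, h3, h j l hS, hS]
            rw [hS] at h1
            simpa using h1)
          rw [e2, show 4 * j - 1 + 2 = 4 * j + 1 by ring]
        · rw [if_neg h3]
      | false =>
        rw [hS] at hk
        rw [hS] at h1
        have h3 : S' (j - 1) l = true := h _ _ (by simpa using h1)
        rw [if_pos h3, hk]
        simp
  · intro l x hx
    obtain ⟨h1, h2⟩ := (al_fine S' l x).1 hx
    set j := pt x with hj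
    by_cases hl : l % 2 = 0
    · simp only [hl, if_true]
      rw [h2]
      unfold key
      rw [if_pos hl]
    · simp only [hl, if_false]
      have hk : x = if S' j l then 4 * j + 1 else 4 * j - 1 := by
        rw [h2]
        unfold key
        rw [if_neg hl]
      cases hS : S' j l with
      | true =>
        rw [hS, if_pos rfl] at hk
        rw [hS] at h1
        rw [if_neg h1, hk]
      | false =>
        rw [hS] at hk
        rw [hS] at h1
        rw [if_pos (by simpa using h1), hk]
        simp

end Pool.BW.T6
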