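import Pool.Agent.MP42.BW.BirthL
import Pool.Agent.MP42.BW.ChiL

/-!
# The history (helper50, T1)
-/

set_option autoImplicit false

namespace Pool.BW

open Tk (T)

lemma path_ext {X : Finset ℚ} {col : ℚ → Bool} {n : ℕ} {A : ℕ → Bool} {M : ℕ → ℚ → ℚ}
    {K : Finset ℕ} (P : Path X col n A M K) {u v : ℚ} (F : Fresh X u v) (c : Bool) :
    Path (insert u (insert v X)) (cx u v c col) n A (fun i => sw u v (M i)) K := by
  have hX : ∀ z, z ∈ insert u (insert v X) ↔ z = u ∨ z = v ∨ z ∈ X := by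
    intro z; rw [Finset.mem_insert, Finset.mem_insert]
  have huv := F.lt
  have e1 : ∀ i, ∀ z ∈ X, sw u v (M i) z = M i z := fun i z hz => sw_off _ (F.ne_u hz) (F.ne_v hz)
  have e2 : ∀ z ∈ X, cx u v c col z = col z := fun z hz => cx_off _ _ (F.ne_u hz) (F.ne_v hz)
  refine ⟨?_, ?_, ?_, ?_, P.sub, ?_, ?_⟩
  · intro i hi z hz
    show sw u v (M i) z ∈ _
    rcases (hX z).1 hz with rfl | rfl | hz
    · rw [sw_u]; exact (hX _).2 (Or.inr (Or.inl rfl))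
    · rw [sw_v huv]; exact (hX _).2 (Or.inl rfl)
    · rw [e1 i z hz]; exact (hX _).2 (Or.inr (Or.inr (P.mem i hi z hz)))
  · intro i hi z hz
    show sw u v (M i) (sw u v (M i) z) = z
    rcases (hX z).1 hz with rfl | rfl | hz
    · rw [sw_u, sw_v huv]
    · rw [sw_v huv, sw_u]
    · rw [e1 i z hz, e1 i _ (P.mem i hi z hz)]; exact P.inv i hi z hz
  · intro i hi z hz
    show cx u v c col (sw u v (M i) z) ≠ cx u v c col z
    rcases (hX z).1 hz with rfl | rfl | hz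
    · rw [sw_u, cx_u, cx_v huv]; cases c <;> simp
    · rw [sw_v huv, cx_u, cx_v huv]; cases c <;> simp
    · rw [e1 i z hz, e2 _ (P.mem i hi z hz), e2 z hz]; exact P.colr i hi z hz
  · intro i hi z hz w hw
    show ¬ (z < w ∧ w < sw u v (M i) z ∧ sw u v (M i) z < sw u v (M i) w)
    rcases (hX z).1 hz with rfl | rfl | hz1
    · rw [sw_u]
      rintro ⟨i1, i2, i3⟩
      rcases (hX w).1 hw with rfl | rfl | hw
      · exact lt_irrefl _ i1
      · exact lt_irrefl _ i2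
      · rcases F.gap w hw with h | h <;> linarith
    · rw [sw_v huv]
      rintro ⟨i1, i2, i3⟩
      linarith
    · rw [e1 i z hz1]
      rcases (hX w).1 hw with rfl | rfl | hw
      · rw [sw_u]
        rintro ⟨i1, i2, i3⟩
        rcases F.gap _ (P.mem i hi z hz1) with h | h <;> linarith
      · rw [sw_v huv]
        rintro ⟨i1, i2, i3⟩
        linarith
      · rw [e1 i w hw]
        exact P.nc i hi z hz1 w hw
  · intro i hi hK z hz
    show sw u v (M (i + 1)) z = sw u v (M i) z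
    rcases (hX z).1 hz with rfl | rfl | hz
    · rw [sw_u, sw_u]
    · rw [sw_v huv, sw_v huv]
    · rw [e1 _ z hz, e1 _ z hz]; exact P.same i hi hK z hz
  · intro i hi hK
    obtain ⟨p, hp, q, hq, r, hr, t, ht, h1, h2, h3, h4, h5, h6, h7⟩ := P.sad i hi hK
    have up : ∀ z, z ∈ X → z ∈ insert u (insert v X) := fun z hz => (hX z).2 (Or.inr (Or.inr hz))
    refine ⟨p, up p hp, q, up q hq, r, up r hr, t, up t ht, h1, ?_, ?_, ?_, ?_, ?_, ?_⟩
    · show sw u v (M i) p = q; rw [e1 _ _ hp]; exact h2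
    · show sw u v (M i) r = t; rw [e1 _ _ hr]; exact h3
    · show sw u v (M (i + 1)) p = t; rw [e1 _ _ hp]; exact h4
    · show sw u v (M (i + 1)) r = q; rw [e1 _ _ hr]; exact h5
    · intro z hz n1 n2 n3 n4
      show sw u v (M (i + 1)) z = sw u v (M i) z
      rcases (hX z).1 hz with rfl | rfl | hz
      · rw [sw_u, sw_u]
      · rw [sw_v huv, sw_v huv]
      · rw [e1 _ z hz, e1 _ z hz]; exact h6 z hz n1 n2 n3 n4
    · rw [e2 p hp]; exact h7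

open Classical in
/-- the token at `(l, y)` at the step `i` -/
noncomputable def tkn (O : ℕ → St) (ι : ℕ → ℤ → ℤ → ℚ) (i : ℕ) (l y : ℤ) : ℚ :=
  if al (O i) l y then ι i l y else ι (i + 1) l y

/-- the history up to the time `n` -/
structure TM (B : ℤ) (n : ℕ) (O : ℕ → St) (A : ℕ → Bool) (γ : Bool → ℕ → ℤ → ℤ → Prop)
    (X : Finset ℚ) (col : ℚ → Bool) (ι : ℕ → ℤ → ℤ → ℚ) (D : ℚ → ℚ) (M : Bool → ℕ → ℚ → ℚ)
    (K : Bool → Finset ℕ) (G : Bool → ℕ → ℚ → Prop) : Prop where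
  path : ∀ e, Path X col n A (M e) (K e)
  brk : ∀ i, i ≤ n → Brick (O i)
  cur : SG B (O n) X col (ι n) D (fun e => M e n)
  h0 : ∀ x ∈ X, M false 0 x = M true 0 x
  mem : ∀ i, i ≤ n → ∀ l x, al (O i) l x → ι i l x ∈ X
  runs : ∀ i, i ≤ n → ∀ k a b, Run (cc (O i) k) a b → M (par k) i (T (ι i) k a) = T (ι i) k b
  pers : ∀ i, i < n → ∀ l x, al (O i) l x → al (O (i + 1)) l x → ι (i + 1) l x = ι i l x
  link : ∀ i, i < n → ∀ l x, (x - l) % 2 = 0 → O i l x ≠ O (i + 1) l x →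
    tkn O ι i l x ∈ X ∧ tkn O ι i l (x + 2) ∈ X ∧
    (tkn O ι i l x = tkn O ι i l (x + 2) ∨
      ∃ e, ∃ j, j ≤ n ∧ M e j (tkn O ι i l x) = tkn O ι i l (x + 2))
  gM : ∀ e i, i ≤ n → ∀ x ∈ X, (G e i x ↔ G e i (M e i x))
  gk : ∀ e i, i < n → ∀ x ∈ X, col x = (e == A i) → (G e i x ↔ G e (i + 1) x)
  gal : ∀ e i, i ≤ n → ∀ l x, al (O i) l x → (G e i (ι i l x) ↔ γ e i l x)
  g0 : ∀ x ∈ X, (G false 0 x ↔ G true 0 x)
  gd : ∀ x ∈ X, ¬ Al (O n) (ι n) x → (G false n x ↔ G true n x)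

/-- insertion of a pair of tokens into the history -/
theorem tm_ext {B : ℤ} {n : ℕ} {O : ℕ → St} {A : ℕ → Bool} {γ : Bool → ℕ → ℤ → ℤ → Prop}
    {X : Finset ℚ} {col : ℚ → Bool} {ι : ℕ → ℤ → ℤ → ℚ} {D : ℚ → ℚ} {M : Bool → ℕ → ℚ → ℚ}
    {K : Bool → Finset ℕ} {G : Bool → ℕ → ℚ → Prop} (H : TM B n O A γ X col ι D M K G)
    {u v : ℚ} (F : Fresh X u v) {l : ℤ} (hl : (l : ℚ) < u) (hl' : v < (l : ℚ) + 1)
    (hsp : ∀ z ∈ X, ¬ Al (O n) (ι n) z → ¬ (z < u ∧ u < D z)) (c : Bool) (V : Prop) :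
    TM B n O A γ (insert u (insert v X)) (cx u v c col) ι (sw u v D)
      (fun e i => sw u v (M e i)) K
      (fun e i z => ((z = u ∨ z = v) ∧ V) ∨ (z ≠ u ∧ z ≠ v ∧ G e i z)) := by
  have hX : ∀ z, z ∈ insert u (insert v X) ↔ z = u ∨ z = v ∨ z ∈ X := by
    intro z; rw [Finset.mem_insert, Finset.mem_insert]
  have huv := F.lt
  have up : ∀ z, z ∈ X → z ∈ insert u (insert v X) := fun z hz => (hX z).2 (Or.inr (Or.inr hz))
  have e1 : ∀ e i, ∀ z ∈ X, sw u v (M e i) z = M e i z :=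
    fun e i z hz => sw_off _ (F.ne_u hz) (F.ne_v hz)
  have e2 : ∀ z ∈ X, cx u v c col z = col z := fun z hz => cx_off _ _ (F.ne_u hz) (F.ne_v hz)
  have e3 : ∀ e i, ∀ z ∈ X, (((z = u ∨ z = v) ∧ V) ∨ (z ≠ u ∧ z ≠ v ∧ G e i z)) ↔ G e i z := by
    intro e i z hz
    have h1 := F.ne_u hz
    have h2 := F.ne_v hz
    tauto
  have e4 : ∀ e i, (((u = u ∨ u = v) ∧ V) ∨ (u ≠ u ∧ u ≠ v ∧ G e i u)) ↔ V := by
    intro e i; tauto
  have e5 : ∀ e i, (((v = u ∨ v = v) ∧ V) ∨ (v ≠ u ∧ v ≠ v ∧ G e i v)) ↔ V := by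
    intro e i; tauto
  refine ⟨fun e => path_ext (H.path e) F c, H.brk, ?_, ?_, ?_, ?_, H.pers, ?_, ?_, ?_, ?_, ?_, ?_⟩
  · exact sg_ext H.cur F hl hl' hsp c
  · intro z hz
    show sw u v (M false 0) z = sw u v (M true 0) z
    rcases (hX z).1 hz with rfl | rfl | hz
    · rw [sw_u, sw_u]
    · rw [sw_v huv, sw_v huv]
    · rw [e1 _ _ z hz, e1 _ _ z hz]; exact H.h0 z hz
  · exact fun i hi l' x hx => up _ (H.mem i hi l' x hx)
  · intro i hi k a b hr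
    have ma : T (ι i) k a ∈ X := H.mem i hi _ _ ((H.brk i hi).al_left hr)
    show sw u v (M (par k) i) (T (ι i) k a) = T (ι i) k b
    rw [e1 _ _ _ ma]
    exact H.runs i hi k a b hr
  · intro i hi l' x hx hne
    obtain ⟨m1, m2, m3⟩ := H.link i hi l' x hx hne
    refine ⟨up _ m1, up _ m2, ?_⟩
    rcases m3 with m3 | ⟨e, j, hj, m3⟩
    · exact Or.inl m3
    · right
      refine ⟨e, j, hj, ?_⟩
      show sw u v (M e j) _ = _
      rw [e1 _ _ _ m1]; exact m3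
  · intro e i hi z hz
    show (((z = u ∨ z = v) ∧ V) ∨ (z ≠ u ∧ z ≠ v ∧ G e i z)) ↔ _
    rcases (hX z).1 hz with rfl | rfl | hz
    · show _ ↔ (((sw z v (M e i) z = z ∨ sw z v (M e i) z = v) ∧ V) ∨
        (sw z v (M e i) z ≠ z ∧ sw z v (M e i) z ≠ v ∧ G e i (sw z v (M e i) z)))
      rw [sw_u, e4, e5]
    · show _ ↔ (((sw u z (M e i) z = u ∨ sw u z (M e i) z = z) ∧ V) ∨
        (sw u z (M e i) z ≠ u ∧ sw u z (M e i) z ≠ z ∧ G e i (sw u z (M e i) z)))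
      rw [sw_v huv, e4, e5]
    · show _ ↔ (((sw u v (M e i) z = u ∨ sw u v (M e i) z = v) ∧ V) ∨
        (sw u v (M e i) z ≠ u ∧ sw u v (M e i) z ≠ v ∧ G e i (sw u v (M e i) z)))
      rw [e1 e i z hz, e3 e i z hz, e3 e i _ ((H.path e).mem i hi z hz)]
      exact H.gM e i hi z hz
  · intro e i hi z hz hc
    show (((z = u ∨ z = v) ∧ V) ∨ (z ≠ u ∧ z ≠ v ∧ G e i z)) ↔
      (((z = u ∨ z = v) ∧ V) ∨ (z ≠ u ∧ z ≠ v ∧ G e (i + 1) z))
    rcases (hX z).1 hz with rfl | rfl | hz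
    · rw [e4, e4]
    · rw [e5, e5]
    · rw [e3 _ _ z hz, e3 _ _ z hz]
      rw [e2 z hz] at hc
      exact H.gk e i hi z hz hc
  · intro e i hi l' x hx
    show (((ι i l' x = u ∨ ι i l' x = v) ∧ V) ∨ (ι i l' x ≠ u ∧ ι i l' x ≠ v ∧ G e i (ι i l' x))) ↔ _
    rw [e3 _ _ _ (H.mem i hi l' x hx)]
    exact H.gal e i hi l' x hx
  · intro z hz
    show (((z = u ∨ z = v) ∧ V) ∨ (z ≠ u ∧ z ≠ v ∧ G false 0 z)) ↔
      (((z = u ∨ z = v) ∧ V) ∨ (z ≠ u ∧ z ≠ v ∧ G true 0 z))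
    rcases (hX z).1 hz with rfl | rfl | hz
    · rw [e4, e4]
    · rw [e5, e5]
    · rw [e3 _ _ z hz, e3 _ _ z hz]; exact H.g0 z hz
  · intro z hz hn
    show (((z = u ∨ z = v) ∧ V) ∨ (z ≠ u ∧ z ≠ v ∧ G false n z)) ↔
      (((z = u ∨ z = v) ∧ V) ∨ (z ≠ u ∧ z ≠ v ∧ G true n z))
    rcases (hX z).1 hz with rfl | rfl | hz
    · rw [e4, e4]
    · rw [e5, e5]
    · rw [e3 _ _ z hz, e3 _ _ z hz]; exact H.gd z hz hn

end Pool.BW
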